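import Mathlib
import Pool.Agent.Lib_helper79.Gap.Defs3

/-!
# Two points (MP_f6626d_co): gap kernels with lateral weights

`GapKernel` is the structure of `Lib_helper79/Gap/Defs.lean` with the fields `T_one`, `K_one`
replaced by lower bounds of the entries of the smallest pieces: the pieces of type `(1, 1)` which
keep the gap or change it by one. All other definitions are literally the old ones.
-/

set_option autoImplicit false

open Finset Filter Topology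

namespace Pool.Agent.TPK

open Pool.Agent.Gap

/-- Transfer kernel of a two strand model: `K i g g'` is the weight of the pieces of type
`i = (half length, height)` from gap `g` to gap `g'`; `T i d` the translation invariant kernel
which `K i` equals away from the wall. `rho` is the critical weight of a unit of half length. -/
structure GapKernel where
  S : Finset (ℕ × ℕ)
  R : ℕ
  K : ℕ × ℕ → ℤ → ℤ → ℝ
  T : ℕ × ℕ → ℤ → ℝ
  rho : ℝ
  i0_mem : (1, 1) ∈ S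
  pos_mem : ∀ i ∈ S, 1 ≤ i.1 ∧ 1 ≤ i.2
  T_nonneg : ∀ i d, 0 ≤ T i d
  T_even : ∀ i d, T i (-d) = T i d
  T_range : ∀ i d, (R : ℤ) < |d| → T i d = 0
  K_nonneg : ∀ i g g', 0 ≤ K i g g'
  K_symm : ∀ i g g', K i g g' = K i g' g
  K_le : ∀ i g g', K i g g' ≤ T i (g' - g)
  K_out : ∀ i g g', g ≤ 0 → K i g g' = 0
  K_eq : ∀ i g g', 1 ≤ g → 1 ≤ g' → (R : ℤ) < g → K i g g' = T i (g' - g)
  K_a : ∀ g : ℤ, 1 ≤ g → 1 ≤ K (1, 1) g g
  K_b : ∀ g : ℤ, 1 ≤ g → 1 ≤ K (1, 1) g (g + 1)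
  rho_pos : 0 < rho
  crit : ∑ i ∈ S, rho ^ i.1 * ∑ d ∈ Icc (-(R : ℤ)) R, T i d = 1

namespace GapKernel

variable (G : GapKernel)

/-- total mass of a piece type -/
noncomputable def tot (i : ℕ × ℕ) : ℝ := ∑ d ∈ Icc (-(G.R : ℤ)) G.R, G.T i d

/-- mean half length of a piece at criticality -/
noncomputable def mbar : ℝ := ∑ i ∈ G.S, (i.1 : ℝ) * G.rho ^ i.1 * G.tot i

/-- mean height of a piece at criticality -/
noncomputable def hbar : ℝ := ∑ i ∈ G.S, (i.2 : ℝ) * G.rho ^ i.1 * G.tot i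

/-- variance of the change of gap at criticality -/
noncomputable def sig2 : ℝ :=
  ∑ i ∈ G.S, G.rho ^ i.1 * ∑ d ∈ Icc (-(G.R : ℤ)) G.R, (d : ℝ) ^ 2 * G.T i d

/-- area weight: `exp(-eps * h * (g + g'))` -/
noncomputable def wt (eps : ℝ) (i : ℕ × ℕ) (g g' : ℤ) : ℝ :=
  Real.exp (-(eps * (i.2 : ℝ) * ((g : ℝ) + (g' : ℝ))))

/-- critical real kernel without area weight -/
noncomputable def Kc (g g' : ℤ) : ℝ := ∑ i ∈ G.S, G.rho ^ i.1 * G.K i g g'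

/-- kernel with `j` marks on the half length: `sum m^j z^m K_m`  (`j = 0`: the kernel itself) -/
noncomputable def Kz (j : ℕ) (eps : ℝ) (z : ℂ) (g g' : ℤ) : ℂ :=
  ∑ i ∈ G.S, ((i.1 : ℂ)) ^ j * z ^ i.1 * ((G.K i g g' * wt eps i g g' : ℝ) : ℂ)

/-- application of the kernel (gaps restricted to `1..N`) -/
noncomputable def Kap (j : ℕ) (eps : ℝ) (z : ℂ) (N : ℕ) (f : ℤ → ℂ) (g : ℤ) : ℂ :=
  ∑ g' ∈ Icc (1 : ℤ) N, G.Kz j eps z g g' * f g'

/-- the operator `1 - K` -/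
noncomputable def Lop (eps : ℝ) (z : ℂ) (N : ℕ) (f : ℤ → ℂ) (g : ℤ) : ℂ :=
  f g - G.Kap 0 eps z N f g

/-- `v` (supported on `1..N`) solves `(1 - K) v = e` on `1..N` -/
def Solves (eps : ℝ) (z : ℂ) (N : ℕ) (v e : ℤ → ℂ) : Prop :=
  (∀ g : ℤ, (g < 1 ∨ (N : ℤ) < g) → v g = 0) ∧
    ∀ g ∈ Icc (1 : ℤ) N, G.Lop eps z N v g = e g

end GapKernel

/-- `b` is the array of coefficients of the truncated model (gaps `1..N`, area parameter `eps`) -/
structure IsArr (G : GapKernel) (s : ℕ → ℤ → ℝ) (eps : ℝ) (N : ℕ) (b : ℕ → ℤ → ℝ) : Prop where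
  zero : ∀ n (g : ℤ), (g < 1 ∨ (N : ℤ) < g) → b n g = 0
  step : ∀ n (g : ℤ), 1 ≤ g → g ≤ N → b n g = s n g + ∑ i ∈ G.S, if i.1 ≤ n then
    ∑ g' ∈ Icc (1 : ℤ) N, G.K i g g' * GapKernel.wt eps i g g' * b (n - i.1) g' else 0

/-- exact solution (all gaps) with polynomial weights in the area variable -/
structure IsSol (G : GapKernel) (s : ℕ → ℤ → ℝ) (B : ℕ → ℤ → Polynomial ℝ) : Prop where
  zero : ∀ n (g : ℤ), g < 1 → B n g = 0
  step : ∀ n (g : ℤ), 1 ≤ g → B n g = Polynomial.C (s n g) + ∑ i ∈ G.S, if i.1 ≤ n then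
    ∑ g' ∈ Icc (g - G.R) (g + G.R),
      Polynomial.C (G.K i g g') * Polynomial.X ^ ((i.2 : ℤ) * (g + g')).toNat * B (n - i.1) g'
    else 0

/-- locality of the kernel, piece type by piece type -/
structure Loc (G : GapKernel) : Prop where
  h_le : ∀ i ∈ G.S, i.2 ≤ i.1
  T_loc : ∀ (i : ℕ × ℕ) (d : ℤ), 2 * (i.1 : ℤ) < |d| → G.T i d = 0
  K_loc : ∀ (i : ℕ × ℕ) (g g' : ℤ), 1 ≤ g → 1 ≤ g' → 2 * (i.1 : ℤ) < g →
    G.K i g g' = G.T i (g' - g)

/-- the class of kernels -/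
structure Cls (C θ : ℝ) (G : GapKernel) : Prop where
  loc : Loc G
  rho_ge : C⁻¹ ≤ G.rho
  dec : ∀ m : ℕ, ∑ i ∈ G.S.filter (fun i => i.1 = m), G.rho ^ m * G.tot i ≤ C * θ ^ m

/-- the class of caps -/
structure ClsCap (C θ : ℝ) (G : GapKernel) (C0 : ℕ) (s : ℕ → ℤ → ℝ) : Prop where
  cap : IsCap C0 s
  one : C⁻¹ ≤ s 1 1
  supp : ∀ (m : ℕ) (g : ℤ), (m : ℤ) < g → s m g = 0
  dec : ∀ m : ℕ, ∑ g ∈ Icc (1 : ℤ) m, G.rho ^ m * s m g ≤ C * θ ^ m

/-- A sequence of weighted models (one kernel for each `n`), with a negligible part. -/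
structure SeqModel (C θ : ℝ) where
  G : ℕ → GapKernel
  C0 : ℕ → ℕ
  s : ℕ → ℕ → ℤ → ℝ
  t : ℕ → ℕ → ℤ → ℝ
  cls : ∀ n, Cls C θ (G n)
  cap_s : ∀ n, ClsCap C θ (G n) (C0 n) (s n)
  cap_t : ∀ n, ClsCap C θ (G n) (C0 n) (t n)
  B : ℕ → ℕ → ℤ → Polynomial ℝ
  sol : ∀ n, IsSol (G n) (s n) (B n)
  Omega : ℕ → Type
  fin : ∀ n, Fintype (Omega n)
  good : ∀ n, Finset (Omega n)
  wt : ∀ n, Omega n → ℝ
  T : ∀ n, Omega n → ℝ
  A : ∀ n, Omega n → ℕ
  wt_nonneg : ∀ n x, 0 ≤ wt n x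
  T_nonneg : ∀ n x, 0 ≤ T n x
  c : ℕ → ℝ
  c_pos : ∀ n, 0 < c n
  κ : ℕ → ℝ
  κ_lim : Tendsto κ atTop (𝓝 0)
  n1 : ℕ
  count : ∀ n, n1 ≤ n → (∑ x ∈ good n, Polynomial.C (wt n x) *
    (Polynomial.X : Polynomial ℝ) ^ (A n x)) = Polynomial.C (c n) * closeP (C0 n) (t n) (B n) n
  near : ∀ n, n1 ≤ n → ∑ x ∈ good n, wt n x * |T n x - A n x| ≤
    κ n * ((n : ℝ) * Real.sqrt n) *
      (∑ x ∈ good n, wt n x + c n / ((n : ℝ) * Real.sqrt n * (G n).rho ^ n))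
  bad : ∀ n, n1 ≤ n → ∑ x : Omega n, wt n x * (1 + T n x) - ∑ x ∈ good n, wt n x * (1 + T n x) ≤
    κ n * (c n / ((n : ℝ) * Real.sqrt n * (G n).rho ^ n))

attribute [instance] SeqModel.fin

/-- total weight -/
noncomputable def SeqModel.W {C θ : ℝ} (M : SeqModel C θ) (n : ℕ) : ℝ := ∑ y : M.Omega n, M.wt n y

open Classical in
/-- distribution function of `T / E[T]` under the weights -/
noncomputable def SeqModel.cdf {C θ : ℝ} (M : SeqModel C θ) (n : ℕ) (x : ℝ) : ℝ :=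
  (∑ y ∈ univ.filter fun y : M.Omega n =>
      M.T n y * M.W n ≤ x * ∑ y' : M.Omega n, M.wt n y' * M.T n y', M.wt n y) / M.W n

/-- GFIN : the universal law: the law `μ` of all the (old) area models, in particular of the
staircase polygons, is the limit law of all sequences of models of the class. -/
def GFINE_Stmt : Prop := ∃ μ : MeasureTheory.Measure ℝ, MeasureTheory.IsProbabilityMeasure μ ∧
  (∀ M : AreaModel, M.Conv μ) ∧ ∀ C θ : ℝ, 0 < C → 0 < θ → θ < 1 → ∀ M : SeqModel C θ,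
    ∀ x : ℝ, μ {x} = 0 → Tendsto (fun n : ℕ => M.cdf n x) atTop (𝓝 (μ (Set.Iic x)).toReal)

end Pool.Agent.TPK
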