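import Pool.Agent.TPK.Stmts

/-!
# MP_f6626d_co, part GU: sums over the piece types, uniform over the class `Cls C θ`

* `tot_nonneg`, `three_le_tot`, `rho_le` : `2 ρ ≤ 1`, `rho_le_third` : `3 ρ ≤ 1`.
* `sum_le` : `∑ i ∈ S, F i.1 * (ρ ^ i.1 * tot i) ≤ C * ∑' m, F m * θ ^ m`.
* `sum_pow` : for every `k` a constant `Ck` with `∑ i ∈ S, m ^ k * (ρ ^ m * tot i) ≤ Ck`.
-/

set_option autoImplicit false

open Finset Filter Topology

namespace Pool.Agent.TPK.GSum

open Pool.Agent.Gap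

open Pool.Agent.Gap

lemma tot_nonneg (G : GapKernel) (i : ℕ × ℕ) : 0 ≤ G.tot i :=
  Finset.sum_nonneg fun d _ => G.T_nonneg i d

lemma rt_nonneg (G : GapKernel) (i : ℕ × ℕ) : 0 ≤ G.rho ^ i.1 * G.tot i :=
  mul_nonneg (pow_nonneg G.rho_pos.le _) (tot_nonneg G i)

lemma crit' (G : GapKernel) : ∑ i ∈ G.S, G.rho ^ i.1 * G.tot i = 1 := G.crit

lemma one_le_R (G : GapKernel) : 1 ≤ G.R := G.R_pos

/-- the critical point is at most `1 / 2` -/
lemma rho_le (G : GapKernel) : G.rho ≤ 1 / 2 := G.rho_le_half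

variable {C θ : ℝ} {G : GapKernel}

/-- sums over the piece types are controlled by the exponential tail -/
lemma sum_le (hG : Cls C θ G) (h0 : 0 ≤ C) (ht : 0 ≤ θ) {F : ℕ → ℝ} (hF : ∀ m, 0 ≤ F m)
    (hs : Summable fun m : ℕ => F m * θ ^ m) :
    ∑ i ∈ G.S, F i.1 * (G.rho ^ i.1 * G.tot i) ≤ C * ∑' m : ℕ, F m * θ ^ m := by
  classical
  rw [← Finset.sum_fiberwise_of_maps_to (s := G.S) (t := G.S.image Prod.fst) (g := Prod.fst)
    (fun i hi => Finset.mem_image_of_mem _ hi)]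
  calc ∑ m ∈ G.S.image Prod.fst, ∑ i ∈ G.S with i.1 = m, F i.1 * (G.rho ^ i.1 * G.tot i)
      ≤ ∑ m ∈ G.S.image Prod.fst, C * (F m * θ ^ m) := by
        refine Finset.sum_le_sum fun m _ => ?_
        have h1 : ∑ i ∈ G.S with i.1 = m, F i.1 * (G.rho ^ i.1 * G.tot i)
            = F m * ∑ i ∈ G.S with i.1 = m, G.rho ^ m * G.tot i := by
          rw [Finset.mul_sum]
          refine Finset.sum_congr rfl fun i hi => ?_
          rw [(Finset.mem_filter.1 hi).2]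
        rw [h1]
        calc F m * ∑ i ∈ G.S with i.1 = m, G.rho ^ m * G.tot i ≤ F m * (C * θ ^ m) :=
              mul_le_mul_of_nonneg_left (hG.dec m) (hF m)
          _ = _ := by ring
    _ = C * ∑ m ∈ G.S.image Prod.fst, F m * θ ^ m := by rw [Finset.mul_sum]
    _ ≤ C * ∑' m : ℕ, F m * θ ^ m := by
        apply mul_le_mul_of_nonneg_left _ h0
        exact hs.sum_le_tsum _ (fun m _ => mul_nonneg (hF m) (pow_nonneg ht m))

/-- all moments of the half length are bounded uniformly over the class -/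
lemma sum_pow {C θ : ℝ} (h0 : 0 < C) (ht : 0 < θ) (ht1 : θ < 1) (k : ℕ) :
    ∃ Ck : ℝ, 0 < Ck ∧ ∀ G : GapKernel, Cls C θ G →
      ∑ i ∈ G.S, (i.1 : ℝ) ^ k * (G.rho ^ i.1 * G.tot i) ≤ Ck := by
  have hs : Summable fun m : ℕ => (m : ℝ) ^ k * θ ^ m :=
    summable_pow_mul_geometric_of_norm_lt_one k
      (by rw [Real.norm_of_nonneg ht.le]; exact ht1)
  refine ⟨C * ∑' m : ℕ, (m : ℝ) ^ k * θ ^ m, ?_, fun G hG => ?_⟩
  · apply mul_pos h0
    refine hs.tsum_pos (fun m => by positivity) 1 (by simpa using ht)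
  · exact sum_le hG h0.le ht.le (F := fun m => (m : ℝ) ^ k) (fun m => by positivity) hs

/-- tails: `∑ over types of half length ≥ a` decays exponentially -/
lemma sum_tail {C θ : ℝ} (h0 : 0 < C) (ht : 0 < θ) (ht1 : θ < 1) (k : ℕ) :
    ∃ Ck θ' : ℝ, 0 < Ck ∧ 0 < θ' ∧ θ' < 1 ∧ ∀ G : GapKernel, Cls C θ G → ∀ a : ℕ,
      ∑ i ∈ G.S.filter (fun i => a ≤ i.1), (i.1 : ℝ) ^ k * (G.rho ^ i.1 * G.tot i)
        ≤ Ck * θ' ^ a := by
  set q : ℝ := Real.sqrt θ with hq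
  have hq0 : 0 < q := Real.sqrt_pos.2 ht
  have hqq : q * q = θ := Real.mul_self_sqrt ht.le
  have hq1 : q < 1 := by
    rw [hq, Real.sqrt_lt' one_pos]
    simpa using ht1
  have hs : Summable fun m : ℕ => (m : ℝ) ^ k * q ^ m :=
    summable_pow_mul_geometric_of_norm_lt_one k
      (by rw [Real.norm_of_nonneg hq0.le]; exact hq1)
  refine ⟨C * ∑' m : ℕ, (m : ℝ) ^ k * q ^ m, q, ?_, hq0, hq1, fun G hG a => ?_⟩
  · apply mul_pos h0
    refine hs.tsum_pos (fun m => by positivity) 1 (by simpa using hq0)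
  · have key : ∀ m : ℕ, (if a ≤ m then (m : ℝ) ^ k else 0) * θ ^ m
        ≤ q ^ a * ((m : ℝ) ^ k * q ^ m) := by
      intro m
      split_ifs with h
      · have e : θ ^ m = q ^ m * q ^ m := by rw [← mul_pow, hqq]
        have e2 : q ^ m ≤ q ^ a := pow_le_pow_of_le_one hq0.le hq1.le h
        rw [e]
        calc (m : ℝ) ^ k * (q ^ m * q ^ m) ≤ (m : ℝ) ^ k * (q ^ a * q ^ m) := by gcongr
          _ = _ := by ring
      · rw [zero_mul]; positivity
    have hs2 : Summable fun m : ℕ => (if a ≤ m then (m : ℝ) ^ k else 0) * θ ^ m :=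
      Summable.of_nonneg_of_le (fun m => by split_ifs <;> positivity) key (hs.mul_left _)
    have h1 := sum_le hG h0.le ht.le (F := fun m => if a ≤ m then (m : ℝ) ^ k else 0)
      (fun m => by split_ifs <;> positivity) hs2
    have h2 : ∑ i ∈ G.S.filter (fun i => a ≤ i.1), (i.1 : ℝ) ^ k * (G.rho ^ i.1 * G.tot i)
        = ∑ i ∈ G.S, (if a ≤ i.1 then (i.1 : ℝ) ^ k else 0) * (G.rho ^ i.1 * G.tot i) := by
      rw [Finset.sum_filter]
      refine Finset.sum_congr rfl fun i _ => ?_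
      split_ifs <;> simp
    rw [h2]
    refine h1.trans ?_
    have h3 : ∑' m : ℕ, (if a ≤ m then (m : ℝ) ^ k else 0) * θ ^ m
        ≤ q ^ a * ∑' m : ℕ, (m : ℝ) ^ k * q ^ m := by
      rw [← tsum_mul_left]
      exact hs2.tsum_le_tsum key (hs.mul_left _)
    calc C * ∑' m : ℕ, (if a ≤ m then (m : ℝ) ^ k else 0) * θ ^ m
        ≤ C * (q ^ a * ∑' m : ℕ, (m : ℝ) ^ k * q ^ m) := mul_le_mul_of_nonneg_left h3 h0.le
      _ = _ := by ring

end Pool.Agent.TPK.GSum
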