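import Pool.Agent.TPK.Stmts
import Pool.Agent.TPK.GSum
import Pool.Agent.TPK.ES
import Pool.Agent.Lib_helper89.FL.GE
import Pool.Agent.Lib_helper79.Gap.E

/-!
# Module GE: comparison of the solutions for sequences of kernels

The old module E (`Lib_helper79/Gap/{EA,EY,ES,EBulk,E}.lean`) with constants which are uniform
over the class `Cls C θ`, for a sequence of kernels whose three parameters converge.
-/

set_option autoImplicit false

open Finset Filter Topology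

namespace Pool.Agent.TPK

open Pool.Agent.Gap
open Pool.Agent.FL (lw CritSrc lamS)
open Pool.Agent.FL.GE (sr)

namespace GE

/-! ### Monotonicity in the constant -/

lemma cls_mono {C C' θ : ℝ} {G : GapKernel} (hC : 0 < C) (hCC : C ≤ C') (hθ : 0 < θ)
    (h : Cls C θ G) : Cls C' θ G where
  loc := h.loc
  rho_ge := (inv_anti₀ hC hCC).trans h.rho_ge
  dec m := (h.dec m).trans (mul_le_mul_of_nonneg_right hCC (by positivity))

lemma critSrc_mono {C C' θ : ℝ} {R' : ℕ} {s : ℤ → ℝ} (hC : 0 < C) (hCC : C ≤ C') (hθ : 0 < θ)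
    (h : CritSrc C θ R' s) : CritSrc C' θ R' s where
  nonneg := h.nonneg
  supp := h.supp
  one := (inv_anti₀ hC hCC).trans h.one
  dec g := (h.dec g).trans (mul_le_mul_of_nonneg_right hCC (by positivity))

lemma critSol_mono {C C' : ℝ} {G : GapKernel} {s v : ℤ → ℝ} (hC : 0 < C) (hCC : C ≤ C')
    (h : CritSol C G s v) : CritSol C' G s v where
  zero := h.zero
  low g hg := (inv_anti₀ hC hCC).trans (h.low g hg)
  up g := (h.up g).trans hCC
  energy N := (h.energy N).trans hCC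
  eq := h.eq

/-! ### Schur test -/

lemma schur (N : ℕ) (k : ℤ → ℤ → ℝ) (B : ℝ) (hB : 0 ≤ B) (hk : ∀ g g', 0 ≤ k g g')
    (h1 : ∀ g, ∑ g' ∈ Icc (1 : ℤ) N, k g g' ≤ B)
    (h2 : ∀ g', ∑ g ∈ Icc (1 : ℤ) N, k g g' ≤ B) (u : ℤ → ℝ) :
    ∑ g ∈ Icc (1 : ℤ) N, (∑ g' ∈ Icc (1 : ℤ) N, k g g' * u g') ^ 2
      ≤ B ^ 2 * ∑ g ∈ Icc (1 : ℤ) N, u g ^ 2 := by
  have h3 : ∀ g : ℤ, (∑ g' ∈ Icc (1 : ℤ) N, k g g' * u g') ^ 2
      ≤ B * ∑ g' ∈ Icc (1 : ℤ) N, k g g' * u g' ^ 2 := by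
    intro g
    have h4 : (∑ g' ∈ Icc (1 : ℤ) N, k g g' * u g') ^ 2
        ≤ (∑ g' ∈ Icc (1 : ℤ) N, k g g') * ∑ g' ∈ Icc (1 : ℤ) N, k g g' * u g' ^ 2 := by
      refine Finset.sum_sq_le_sum_mul_sum_of_sq_le_mul _ (fun g' _ => hk g g')
        (fun g' _ => mul_nonneg (hk g g') (sq_nonneg _)) (fun g' _ => le_of_eq ?_)
      ring
    refine h4.trans (mul_le_mul_of_nonneg_right (h1 g) ?_)
    exact Finset.sum_nonneg fun g' _ => mul_nonneg (hk g g') (sq_nonneg _)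
  calc _ ≤ ∑ g ∈ Icc (1 : ℤ) N, B * ∑ g' ∈ Icc (1 : ℤ) N, k g g' * u g' ^ 2 :=
        Finset.sum_le_sum fun g _ => h3 g
    _ = B * ∑ g' ∈ Icc (1 : ℤ) N, (∑ g ∈ Icc (1 : ℤ) N, k g g') * u g' ^ 2 := by
        rw [← Finset.mul_sum, Finset.sum_comm]
        congr 1
        refine Finset.sum_congr rfl fun g' _ => ?_
        rw [Finset.sum_mul]
    _ ≤ B * ∑ g' ∈ Icc (1 : ℤ) N, B * u g' ^ 2 := by
        refine mul_le_mul_of_nonneg_left (Finset.sum_le_sum fun g' _ => ?_) hB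
        exact mul_le_mul_of_nonneg_right (h2 g') (sq_nonneg _)
    _ = _ := by
        rw [← Finset.mul_sum]
        ring

/-! ### The difference of the kernels -/

/-- dominating kernel -/
noncomputable def kk (G : GapKernel) (g g' : ℤ) : ℝ :=
  ∑ i ∈ G.S, 4 * (i.1 : ℝ) ^ 2 * G.rho ^ i.1 * G.K i g g'

lemma kk_nonneg (G : GapKernel) (g g' : ℤ) : 0 ≤ kk G g g' := by
  refine Finset.sum_nonneg fun i _ => ?_
  have := G.K_nonneg i g g'
  have := G.rho_pos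
  positivity

lemma kk_row (G : GapKernel) (s : Finset ℤ) (g : ℤ) :
    ∑ g' ∈ s, kk G g g' ≤ 4 * ∑ i ∈ G.S, (i.1 : ℝ) ^ 2 * (G.rho ^ i.1 * G.tot i) := by
  unfold kk
  rw [Finset.sum_comm, Finset.mul_sum]
  refine Finset.sum_le_sum fun i _ => ?_
  rw [← Finset.mul_sum]
  have := G.rho_pos
  calc 4 * (i.1 : ℝ) ^ 2 * G.rho ^ i.1 * ∑ g' ∈ s, G.K i g g'
      ≤ 4 * (i.1 : ℝ) ^ 2 * G.rho ^ i.1 * G.tot i :=
        mul_le_mul_of_nonneg_left (G.sum_K_le i g s) (by positivity)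
    _ = _ := by ring

lemma kk_col (G : GapKernel) (s : Finset ℤ) (g' : ℤ) :
    ∑ g ∈ s, kk G g g' ≤ 4 * ∑ i ∈ G.S, (i.1 : ℝ) ^ 2 * (G.rho ^ i.1 * G.tot i) := by
  refine le_trans (le_of_eq ?_) (kk_row G s g')
  refine Finset.sum_congr rfl fun g _ => ?_
  unfold kk
  refine Finset.sum_congr rfl fun i _ => ?_
  rw [G.K_symm]

lemma Kz_sub_le {C θ : ℝ} (hC : 0 < C) {G : GapKernel} (hG : Cls C θ G) (eps : ℝ) (z : ℂ)
    (g g' : ℤ) (he : 0 ≤ eps) (hz : ‖z‖ ≤ G.rho) (hg : 1 ≤ g) (hg' : 1 ≤ g') :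
    ‖G.Kz 0 0 (G.rho : ℂ) g g' - G.Kz 0 eps z g g'‖
      ≤ (C + 1) * (‖(G.rho : ℂ) - z‖ + eps) * (kk G g g' * g') := by
  have hrho := G.rho_pos
  have hgr : (1 : ℝ) ≤ g := by exact_mod_cast hg
  have hgr' : (1 : ℝ) ≤ g' := by exact_mod_cast hg'
  have hδ : 0 ≤ ‖(G.rho : ℂ) - z‖ := norm_nonneg _
  unfold GapKernel.Kz kk
  rw [← Finset.sum_sub_distrib, Finset.sum_mul, Finset.mul_sum]
  refine (norm_sum_le _ _).trans (Finset.sum_le_sum fun i hi => ?_)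
  have hK0 := G.K_nonneg i g g'
  by_cases hR : 2 * (i.1 : ℤ) < |g' - g|
  · have hK : G.K i g g' = 0 :=
      le_antisymm ((G.K_le i g g').trans_eq (hG.loc.T_loc i _ hR)) hK0
    rw [hK]
    simp
  · rw [not_lt, abs_le] at hR
    have hm1 : (1 : ℝ) ≤ i.1 := by exact_mod_cast (G.pos_mem i hi).1
    have hhm : (i.2 : ℝ) ≤ i.1 := by exact_mod_cast hG.loc.h_le i hi
    have hh0 : (0 : ℝ) ≤ i.2 := by positivity
    have hR2 : (g : ℝ) ≤ g' + 2 * (i.1 : ℝ) := by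
      have : g ≤ g' + 2 * (i.1 : ℤ) := by omega
      exact_mod_cast this
    have hgg : (g : ℝ) + g' ≤ 4 * i.1 * g' := by nlinarith
    have hw1 : GapKernel.wt eps i g g' ≤ 1 := by
      unfold GapKernel.wt
      rw [Real.exp_le_one_iff]
      have : 0 ≤ eps * (i.2 : ℝ) * ((g : ℝ) + g') := by positivity
      linarith
    have hw2 : 1 - GapKernel.wt eps i g g' ≤ eps * i.1 * (4 * i.1 * g') := by
      unfold GapKernel.wt
      have h1 := Real.add_one_le_exp (-(eps * (i.2 : ℝ) * ((g : ℝ) + (g' : ℝ))))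
      have h2 : eps * (i.2 : ℝ) * ((g : ℝ) + (g' : ℝ)) ≤ eps * i.1 * (4 * i.1 * g') := by
        gcongr
      linarith
    have e : ((i.1 : ℂ)) ^ 0 * (G.rho : ℂ) ^ i.1 * ((G.K i g g' * GapKernel.wt 0 i g g' : ℝ) : ℂ)
        - ((i.1 : ℂ)) ^ 0 * z ^ i.1 * ((G.K i g g' * GapKernel.wt eps i g g' : ℝ) : ℂ)
        = (G.K i g g' : ℂ) * (((G.rho : ℂ) ^ i.1 - z ^ i.1)
          + z ^ i.1 * ((1 - GapKernel.wt eps i g g' : ℝ) : ℂ)) := by
      have : GapKernel.wt 0 i g g' = 1 := by unfold GapKernel.wt; simp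
      rw [this]
      push_cast
      ring
    rw [e, norm_mul, Complex.norm_real, Real.norm_of_nonneg hK0]
    have hpow : G.rho ^ (i.1 - 1) ≤ C * G.rho ^ i.1 := by
      have h1 : G.rho ^ i.1 = G.rho ^ (i.1 - 1) * G.rho := by
        rw [← pow_succ]
        congr 1
        have := (G.pos_mem i hi).1
        omega
      rw [h1]
      have h2 : 1 ≤ C * G.rho := by
        have := mul_le_mul_of_nonneg_left hG.rho_ge hC.le
        rwa [mul_inv_cancel₀ hC.ne'] at this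
      have h3 : 0 ≤ G.rho ^ (i.1 - 1) := by positivity
      nlinarith
    have h2 : ‖((G.rho : ℂ) ^ i.1 - z ^ i.1) + z ^ i.1 * ((1 - GapKernel.wt eps i g g' : ℝ) : ℂ)‖ ≤
        i.1 * (C * G.rho ^ i.1) * ‖(G.rho : ℂ) - z‖
          + G.rho ^ i.1 * (eps * i.1 * (4 * i.1 * g')) := by
      refine (norm_add_le _ _).trans (add_le_add ?_ ?_)
      · refine (pow_sub_le _ _ G.rho
          (by rw [Complex.norm_real, Real.norm_of_nonneg hrho.le]) hz _).trans ?_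
        gcongr
      · rw [norm_mul, norm_pow, Complex.norm_real, Real.norm_of_nonneg (by linarith)]
        have : 0 ≤ 1 - GapKernel.wt eps i g g' := by linarith
        gcongr
    have h5 : i.1 * (C * G.rho ^ i.1) * ‖(G.rho : ℂ) - z‖
          + G.rho ^ i.1 * (eps * i.1 * (4 * i.1 * g'))
        ≤ (C + 1) * (‖(G.rho : ℂ) - z‖ + eps) * (4 * (i.1 : ℝ) ^ 2 * G.rho ^ i.1 * g') := by
      have hp : 0 < G.rho ^ i.1 := by positivity
      have h6 : (i.1 : ℝ) ≤ 4 * (i.1 : ℝ) ^ 2 * g' := by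
        have : (i.1 : ℝ) ≤ (i.1 : ℝ) ^ 2 := by nlinarith
        nlinarith
      have h7 : i.1 * (C * G.rho ^ i.1) * ‖(G.rho : ℂ) - z‖
          ≤ C * ‖(G.rho : ℂ) - z‖ * (4 * (i.1 : ℝ) ^ 2 * G.rho ^ i.1 * g') := by
        calc i.1 * (C * G.rho ^ i.1) * ‖(G.rho : ℂ) - z‖
            = (C * G.rho ^ i.1 * ‖(G.rho : ℂ) - z‖) * i.1 := by ring
          _ ≤ (C * G.rho ^ i.1 * ‖(G.rho : ℂ) - z‖) * (4 * (i.1 : ℝ) ^ 2 * g') := by gcongr
          _ = _ := by ring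
      have h8 : 0 ≤ 4 * (i.1 : ℝ) ^ 2 * G.rho ^ i.1 * g' := by positivity
      have h9 : 0 ≤ ‖(G.rho : ℂ) - z‖ * (4 * (i.1 : ℝ) ^ 2 * G.rho ^ i.1 * g') :=
        mul_nonneg hδ h8
      have h10 : 0 ≤ C * eps * (4 * (i.1 : ℝ) ^ 2 * G.rho ^ i.1 * g') := by positivity
      calc _ ≤ C * ‖(G.rho : ℂ) - z‖ * (4 * (i.1 : ℝ) ^ 2 * G.rho ^ i.1 * g')
            + G.rho ^ i.1 * (eps * i.1 * (4 * i.1 * g')) := by linarith
        _ = C * ‖(G.rho : ℂ) - z‖ * (4 * (i.1 : ℝ) ^ 2 * G.rho ^ i.1 * g')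
            + eps * (4 * (i.1 : ℝ) ^ 2 * G.rho ^ i.1 * g') := by ring
        _ ≤ _ := by nlinarith
    calc G.K i g g' * ‖((G.rho : ℂ) ^ i.1 - z ^ i.1)
          + z ^ i.1 * ((1 - GapKernel.wt eps i g g' : ℝ) : ℂ)‖
        ≤ G.K i g g' * ((C + 1) * (‖(G.rho : ℂ) - z‖ + eps)
            * (4 * (i.1 : ℝ) ^ 2 * G.rho ^ i.1 * g')) :=
          mul_le_mul_of_nonneg_left (h2.trans h5) hK0
      _ = _ := by ring

lemma nsq_Df' {C θ B : ℝ} (hC : 0 < C) (hB : 0 ≤ B) {G : GapKernel} (hG : Cls C θ G)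
    (hGB : ∑ i ∈ G.S, (i.1 : ℝ) ^ 2 * (G.rho ^ i.1 * G.tot i) ≤ B)
    (eps : ℝ) (z : ℂ) (N : ℕ) (v : ℤ → ℝ) (A Cv : ℝ)
    (he : 0 ≤ eps) (hz : ‖z‖ ≤ G.rho)
    (hCv : ∑ g ∈ Icc (1 : ℤ) N, (g : ℝ) ^ 2 * (v g - A) ^ 2 ≤ Cv) :
    nsq N (Df G eps z N (Yf N v A))
      ≤ ((C + 1) * (4 * B)) ^ 2 * (‖(G.rho : ℂ) - z‖ + eps) ^ 2 * Cv := by
  set D := ‖(G.rho : ℂ) - z‖ + eps with hD
  have hD0 : 0 ≤ D := by positivity
  set u : ℤ → ℝ := fun g => |(g : ℝ) * (v g - A)| with hu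
  have hpt : ∀ g ∈ Icc (1 : ℤ) N, ‖Df G eps z N (Yf N v A) g‖ ≤
      (C + 1) * D * ∑ g' ∈ Icc (1 : ℤ) N, kk G g g' * u g' := by
    intro g hg
    rw [Finset.mem_Icc] at hg
    unfold Df
    refine (norm_sum_le _ _).trans ?_
    rw [Finset.mul_sum]
    refine Finset.sum_le_sum fun g' hg' => ?_
    rw [Finset.mem_Icc] at hg'
    rw [norm_mul]
    have h1 := Kz_sub_le hC hG eps z g g' he hz hg.1 hg'.1
    have h2 : ‖Yf N v A g'‖ = |v g' - A| := by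
      unfold Yf
      rw [if_pos hg', Complex.norm_real, Real.norm_eq_abs]
    have h3 : (0 : ℝ) ≤ g' := by
      have : (1 : ℝ) ≤ g' := by exact_mod_cast hg'.1
      linarith
    rw [h2]
    simp only [hu, abs_mul, abs_of_nonneg h3]
    calc _ ≤ ((C + 1) * D * (kk G g g' * g')) * |v g' - A| :=
          mul_le_mul_of_nonneg_right h1 (abs_nonneg _)
      _ = _ := by ring
  unfold nsq
  calc ∑ g ∈ Icc (1 : ℤ) N, ‖Df G eps z N (Yf N v A) g‖ ^ 2
      ≤ ∑ g ∈ Icc (1 : ℤ) N, ((C + 1) * D * ∑ g' ∈ Icc (1 : ℤ) N, kk G g g' * u g') ^ 2 := by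
        refine Finset.sum_le_sum fun g hg => ?_
        have := hpt g hg
        gcongr
    _ = ((C + 1) * D) ^ 2 *
          ∑ g ∈ Icc (1 : ℤ) N, (∑ g' ∈ Icc (1 : ℤ) N, kk G g g' * u g') ^ 2 := by
        rw [Finset.mul_sum]
        exact Finset.sum_congr rfl fun _ _ => by ring
    _ ≤ ((C + 1) * D) ^ 2 * ((4 * B) ^ 2 * ∑ g ∈ Icc (1 : ℤ) N, u g ^ 2) := by
        refine mul_le_mul_of_nonneg_left ?_ (sq_nonneg _)
        refine schur N (kk G) (4 * B) (by positivity) (kk_nonneg G) (fun g => ?_) (fun g => ?_) u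
        · exact (kk_row G _ g).trans (by linarith)
        · exact (kk_col G _ g).trans (by linarith)
    _ ≤ ((C + 1) * D) ^ 2 * ((4 * B) ^ 2 * Cv) := by
        have h1 : ∑ g ∈ Icc (1 : ℤ) N, u g ^ 2 ≤ Cv := by
          refine le_trans (le_of_eq ?_) hCv
          refine Finset.sum_congr rfl fun g _ => ?_
          simp only [hu, sq_abs]
          ring
        gcongr
    _ = _ := by ring

/-! ### The edge term -/

lemma sum_Kc_le (G : GapKernel) (g : ℤ) (s : Finset ℤ) : ∑ g' ∈ s, G.Kc g g' ≤ 1 := by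
  unfold GapKernel.Kc
  rw [Finset.sum_comm, ← G.crit']
  refine Finset.sum_le_sum fun i _ => ?_
  rw [← Finset.mul_sum]
  exact mul_le_mul_of_nonneg_left (G.sum_K_le i g s) (pow_nonneg G.rho_pos.le _)

lemma nsq_edge' (G : GapKernel) (v : ℤ → ℝ) (A Cv : ℝ)
    (hCv : ∀ N : ℕ, ∑ g ∈ Icc (1 : ℤ) N, (g : ℝ) ^ 2 * (v g - A) ^ 2 ≤ Cv) (N : ℕ) (hN : 1 ≤ N) :
    nsq N (fun g => ((∑ g' ∈ (Icc (g - G.R) (g + G.R)).filter (fun g' => (N : ℤ) < g'),
      G.Kc g g' * (v g' - A) : ℝ) : ℂ)) ≤ Cv / N := by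
  have hN' : (0 : ℝ) < N := by exact_mod_cast hN
  have hCv0 : 0 ≤ Cv := le_trans (Finset.sum_nonneg fun g _ => by positivity) (hCv 0)
  have hpt : ∀ g' : ℤ, (N : ℤ) < g' → |v g' - A| ≤ Real.sqrt Cv / N := by
    intro g' hg'
    have h1 : (g' : ℝ) ^ 2 * (v g' - A) ^ 2 ≤ Cv := by
      have h2 := hCv g'.toNat
      refine le_trans ?_ h2
      refine Finset.single_le_sum (f := fun g : ℤ => (g : ℝ) ^ 2 * (v g - A) ^ 2)
        (fun g _ => by positivity) ?_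
      rw [Finset.mem_Icc]
      omega
    have h3 : (N : ℝ) ≤ g' := by exact_mod_cast hg'.le
    rw [le_div_iff₀ hN']
    refine Real.le_sqrt_of_sq_le ?_
    rw [mul_pow, sq_abs]
    have h4 : (N : ℝ) ^ 2 ≤ (g' : ℝ) ^ 2 := by gcongr
    nlinarith [sq_nonneg (v g' - A)]
  have ha0 : 0 ≤ Real.sqrt Cv / N := by positivity
  have hterm : ∀ g : ℤ, ‖((∑ g' ∈ (Icc (g - G.R) (g + G.R)).filter (fun g' => (N : ℤ) < g'),
      G.Kc g g' * (v g' - A) : ℝ) : ℂ)‖ ^ 2 ≤ Cv / N ^ 2 := by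
    intro g
    rw [Complex.norm_real, Real.norm_eq_abs]
    have h1 : |∑ g' ∈ (Icc (g - (G.R : ℤ)) (g + G.R)).filter (fun g' => (N : ℤ) < g'),
        G.Kc g g' * (v g' - A)| ≤ Real.sqrt Cv / N := by
      refine (Finset.abs_sum_le_sum_abs _ _).trans ?_
      calc _ ≤ ∑ g' ∈ (Icc (g - (G.R : ℤ)) (g + G.R)).filter (fun g' => (N : ℤ) < g'),
            G.Kc g g' * (Real.sqrt Cv / N) := by
            refine Finset.sum_le_sum fun g' hg' => ?_
            rw [abs_mul, abs_of_nonneg (G.Kc_nonneg g g')]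
            exact mul_le_mul_of_nonneg_left (hpt g' (Finset.mem_filter.mp hg').2)
              (G.Kc_nonneg g g')
        _ = (∑ g' ∈ (Icc (g - (G.R : ℤ)) (g + G.R)).filter (fun g' => (N : ℤ) < g'),
            G.Kc g g') * (Real.sqrt Cv / N) := by rw [Finset.sum_mul]
        _ ≤ 1 * (Real.sqrt Cv / N) := mul_le_mul_of_nonneg_right (sum_Kc_le G g _) ha0
        _ = _ := one_mul _
    calc _ ≤ (Real.sqrt Cv / N) ^ 2 := by gcongr
      _ = _ := by rw [div_pow, Real.sq_sqrt hCv0]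
  unfold nsq
  calc _ ≤ ∑ g ∈ Icc (1 : ℤ) N, Cv / (N : ℝ) ^ 2 := Finset.sum_le_sum fun g _ => hterm g
    _ = _ := by
        rw [Finset.sum_const, Int.card_Icc, nsmul_eq_mul]
        have : ((N : ℤ) + 1 - 1).toNat = N := by omega
        rw [this]
        field_simp

/-! ### The cap sources -/

lemma capMass {C θ : ℝ} {G : GapKernel} {C0 : ℕ} {s : ℕ → ℤ → ℝ}
    (hs : ClsCap C θ G C0 s) (m : ℕ) (g : ℤ) : G.rho ^ m * s m g ≤ C * θ ^ m := by
  have hrho := G.rho_pos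
  by_cases hg : g ∈ Icc (1 : ℤ) m
  · refine le_trans ?_ (hs.dec m)
    exact Finset.single_le_sum (f := fun g => G.rho ^ m * s m g)
      (fun g _ => mul_nonneg (pow_nonneg hrho.le _) (hs.cap.nonneg m g)) hg
  · have h0 : s m g = 0 := by
      rw [Finset.mem_Icc, not_and_or] at hg
      rcases hg with hg | hg
      · exact hs.cap.supp_g m g (Or.inl (by omega))
      · exact hs.supp m g (by omega)
    rw [h0, mul_zero]
    refine le_trans (Finset.sum_nonneg fun g _ => ?_) (hs.dec m)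
    exact mul_nonneg (pow_nonneg hrho.le _) (hs.cap.nonneg m g)

lemma rho_le_sig2 (G : GapKernel) : G.rho ≤ G.sig2 := G.rho_le_sig2

lemma critSrc_sr {C θ : ℝ} (hC : 0 < C) (hθ : 0 < θ) (hθ1 : θ < 1) {G : GapKernel}
    (hG : Cls C θ G) {C0 : ℕ} {s : ℕ → ℤ → ℝ} (hs : ClsCap C θ G C0 s) :
    CritSrc (C ^ 2 + C / (1 - θ)) θ C0 (sr G.rho C0 s) where
  nonneg g := Finset.sum_nonneg fun m _ =>
    mul_nonneg (pow_nonneg G.rho_pos.le _) (hs.cap.nonneg m g)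
  supp g hg := by
    refine Finset.sum_eq_zero fun m _ => ?_
    rw [hs.cap.supp_g m g hg, mul_zero]
  one := by
    have h1θ : 0 < 1 - θ := by linarith
    have hC0 : 1 ≤ C0 := by
      by_contra hcon
      have h1 := hs.cap.supp_m 1 1 (by omega)
      have h2 := hs.one
      rw [h1] at h2
      have := inv_pos.mpr hC
      linarith
    have h1 : G.rho ^ 1 * s 1 1 ≤ sr G.rho C0 s 1 := by
      refine Finset.single_le_sum (f := fun m => G.rho ^ m * s m 1)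
        (fun m _ => mul_nonneg (pow_nonneg G.rho_pos.le _) (hs.cap.nonneg m 1)) ?_
      rw [Finset.mem_range]
      omega
    refine le_trans ?_ h1
    rw [pow_one]
    calc (C ^ 2 + C / (1 - θ))⁻¹ ≤ (C ^ 2)⁻¹ := by
          refine inv_anti₀ (by positivity) ?_
          have : 0 < C / (1 - θ) := by positivity
          linarith
      _ = C⁻¹ * C⁻¹ := by rw [sq, mul_inv]
      _ ≤ G.rho * s 1 1 := by
          have := inv_pos.mpr hC
          exact mul_le_mul hG.rho_ge hs.one this.le G.rho_pos.le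
  dec g := by
    have h1θ : 0 < 1 - θ := by linarith
    have h1 : sr G.rho C0 s (g : ℤ) ≤ ∑ m ∈ range (C0 + 1), (if g ≤ m then C * θ ^ m else 0) := by
      refine Finset.sum_le_sum fun m _ => ?_
      split_ifs with h
      · exact capMass hs m g
      · rw [hs.supp m g (by omega), mul_zero]
    have h2 : ∑ m ∈ range (C0 + 1), (if g ≤ m then C * θ ^ m else 0) ≤ C / (1 - θ) * θ ^ g := by
      rw [← Finset.sum_filter]
      have hsm : Summable fun m : ℕ => θ ^ m := summable_geometric_of_lt_one hθ.le hθ1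
      have h3 : ∑ m ∈ (range (C0 + 1)).filter (fun m => g ≤ m), C * θ ^ m
          = ∑ k ∈ ((range (C0 + 1)).filter (fun m => g ≤ m)).image (fun m => m - g),
            C * θ ^ (k + g) := by
        rw [Finset.sum_image]
        · refine Finset.sum_congr rfl fun m hm => ?_
          rw [Finset.mem_filter] at hm
          rw [Nat.sub_add_cancel hm.2]
        · intro a ha b hb hab
          simp only [Finset.coe_filter, Set.mem_ofPred_eq] at ha hb hab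
          omega
      rw [h3]
      calc ∑ k ∈ ((range (C0 + 1)).filter (fun m => g ≤ m)).image (fun m => m - g),
            C * θ ^ (k + g)
          = (C * θ ^ g) * ∑ k ∈ ((range (C0 + 1)).filter (fun m => g ≤ m)).image
            (fun m => m - g), θ ^ k := by
            rw [Finset.mul_sum]
            refine Finset.sum_congr rfl fun k _ => ?_
            ring
        _ ≤ (C * θ ^ g) * ∑' k : ℕ, θ ^ k := by
            refine mul_le_mul_of_nonneg_left ?_ (by positivity)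
            exact hsm.sum_le_tsum _ fun k _ => by positivity
        _ = _ := by
            rw [tsum_geometric_of_lt_one hθ.le hθ1]
            ring
    refine (h1.trans h2).trans ?_
    refine mul_le_mul_of_nonneg_right ?_ (by positivity)
    have : 0 < C ^ 2 := by positivity
    linarith

/-- the difference of the cap sources -/
lemma lw_capdiff {C θ : ℝ} (hC : 0 < C) (hθ : 0 < θ) (hθ1 : θ < 1) {G : GapKernel}
    (hG : Cls C θ G) {C0 : ℕ} {s : ℕ → ℤ → ℝ} (hs : ClsCap C θ G C0 s) (N : ℕ) (z : ℂ)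
    (hz : ‖z‖ ≤ G.rho) :
    lw 4 N (fun g => capz C0 s 0 z g - (sr G.rho C0 s g : ℂ))
      ≤ C * (C * ∑' m : ℕ, (m : ℝ) ^ 5 * θ ^ m) * ‖(G.rho : ℂ) - z‖ := by
  have hrho := G.rho_pos
  have hrC : 1 ≤ C * G.rho := by
    have := mul_le_mul_of_nonneg_left hG.rho_ge hC.le
    rwa [mul_inv_cancel₀ hC.ne'] at this
  have hpow : ∀ m : ℕ, (m : ℝ) * G.rho ^ (m - 1) ≤ C * (m * G.rho ^ m) := by
    intro m
    rcases m with _ | m
    · simp
    · have h3 : 0 ≤ G.rho ^ m := by positivity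
      simp only [Nat.add_sub_cancel]
      rw [pow_succ]
      have h4 : 0 ≤ ((m + 1 : ℕ) : ℝ) * G.rho ^ m := by positivity
      nlinarith
  have h2 : lw 4 N (fun g => capz C0 s 0 z g - (sr G.rho C0 s g : ℂ)) ≤
      ∑ g ∈ Icc (1 : ℤ) N, ∑ m ∈ range (C0 + 1),
        (C * ‖(G.rho : ℂ) - z‖) * (m * ((g : ℝ) ^ 4 * (G.rho ^ m * s m g))) := by
    unfold lw
    refine sum_le_sum fun g hg => ?_
    rw [mem_Icc] at hg
    have hg1 : (1 : ℝ) ≤ g := by exact_mod_cast hg.1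
    have e : capz C0 s 0 z g - (sr G.rho C0 s g : ℂ)
        = ∑ m ∈ range (C0 + 1), (z ^ m - (G.rho : ℂ) ^ m) * ((s m g : ℝ) : ℂ) := by
      unfold capz sr
      push_cast
      rw [← Finset.sum_sub_distrib]
      refine Finset.sum_congr rfl fun m _ => ?_
      ring
    show (g : ℝ) ^ 4 * ‖capz C0 s 0 z g - (sr G.rho C0 s g : ℂ)‖ ≤ _
    rw [e]
    calc (g : ℝ) ^ 4 * ‖∑ m ∈ range (C0 + 1), (z ^ m - (G.rho : ℂ) ^ m) * ((s m g : ℝ) : ℂ)‖
        ≤ (g : ℝ) ^ 4 * ∑ m ∈ range (C0 + 1), ‖(z ^ m - (G.rho : ℂ) ^ m) * ((s m g : ℝ) : ℂ)‖ :=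
          mul_le_mul_of_nonneg_left (norm_sum_le _ _) (by positivity)
      _ ≤ _ := by
          rw [Finset.mul_sum]
          refine Finset.sum_le_sum fun m _ => ?_
          rw [norm_mul, Complex.norm_real, Real.norm_of_nonneg (hs.cap.nonneg m g)]
          have h1 : ‖z ^ m - (G.rho : ℂ) ^ m‖ ≤ C * (m * G.rho ^ m) * ‖(G.rho : ℂ) - z‖ := by
            rw [norm_sub_rev]
            refine (pow_sub_le _ _ G.rho
              (by rw [Complex.norm_real, Real.norm_of_nonneg hrho.le]) hz _).trans ?_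
            exact mul_le_mul_of_nonneg_right (hpow m) (norm_nonneg _)
          have hs0 := hs.cap.nonneg m g
          calc (g : ℝ) ^ 4 * (‖z ^ m - (G.rho : ℂ) ^ m‖ * s m g)
              ≤ (g : ℝ) ^ 4 * ((C * (m * G.rho ^ m) * ‖(G.rho : ℂ) - z‖) * s m g) := by gcongr
            _ = _ := by ring
  refine h2.trans ?_
  rw [sum_comm]
  have hsum : Summable fun m : ℕ => (m : ℝ) ^ 5 * θ ^ m :=
    summable_pow_mul_geometric_of_norm_lt_one 5 (by rwa [Real.norm_of_nonneg hθ.le])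
  have h3 : ∀ m ∈ range (C0 + 1), ∑ g ∈ Icc (1 : ℤ) N,
      (C * ‖(G.rho : ℂ) - z‖) * (m * ((g : ℝ) ^ 4 * (G.rho ^ m * s m g))) ≤
      (C * ‖(G.rho : ℂ) - z‖) * (C * ((m : ℝ) ^ 5 * θ ^ m)) := by
    intro m _
    rw [← Finset.mul_sum]
    refine mul_le_mul_of_nonneg_left ?_ (by positivity)
    rw [← Finset.mul_sum]
    have h4 : ∑ g ∈ Icc (1 : ℤ) N, (g : ℝ) ^ 4 * (G.rho ^ m * s m g) =
        ∑ g ∈ Icc (1 : ℤ) N ∩ Icc (1 : ℤ) m, (g : ℝ) ^ 4 * (G.rho ^ m * s m g) := by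
      symm
      refine sum_subset inter_subset_left fun g hg hg' => ?_
      rw [mem_inter, not_and] at hg'
      have h5 := hg' hg
      rw [mem_Icc] at hg h5
      rw [hs.supp m g (by omega)]
      simp
    have hnn : ∀ g ∈ Icc (1 : ℤ) m, (0 : ℝ) ≤ (m : ℝ) ^ 4 * (G.rho ^ m * s m g) := fun g _ =>
      mul_nonneg (by positivity) (mul_nonneg (by positivity) (hs.cap.nonneg m g))
    have h6 : ∑ g ∈ Icc (1 : ℤ) N, (g : ℝ) ^ 4 * (G.rho ^ m * s m g)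
        ≤ (m : ℝ) ^ 4 * (C * θ ^ m) := by
      rw [h4]
      calc ∑ g ∈ Icc (1 : ℤ) N ∩ Icc (1 : ℤ) m, (g : ℝ) ^ 4 * (G.rho ^ m * s m g)
          ≤ ∑ g ∈ Icc (1 : ℤ) N ∩ Icc (1 : ℤ) m, (m : ℝ) ^ 4 * (G.rho ^ m * s m g) := by
            refine sum_le_sum fun g hg => ?_
            rw [mem_inter, mem_Icc, mem_Icc] at hg
            have h5 : (0 : ℝ) ≤ g := by
              have : (0 : ℤ) ≤ g := by omega
              exact_mod_cast this
            have h6 : (g : ℝ) ≤ m := by exact_mod_cast hg.2.2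
            exact mul_le_mul_of_nonneg_right (pow_le_pow_left₀ h5 h6 4)
              (mul_nonneg (by positivity) (hs.cap.nonneg m g))
        _ ≤ ∑ g ∈ Icc (1 : ℤ) m, (m : ℝ) ^ 4 * (G.rho ^ m * s m g) :=
            sum_le_sum_of_subset_of_nonneg inter_subset_right fun g hg _ => hnn g hg
        _ = (m : ℝ) ^ 4 * ∑ g ∈ Icc (1 : ℤ) m, G.rho ^ m * s m g := by rw [mul_sum]
        _ ≤ _ := mul_le_mul_of_nonneg_left (hs.dec m) (by positivity)
    calc (m : ℝ) * ∑ g ∈ Icc (1 : ℤ) N, (g : ℝ) ^ 4 * (G.rho ^ m * s m g)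
        ≤ m * ((m : ℝ) ^ 4 * (C * θ ^ m)) := mul_le_mul_of_nonneg_left h6 (by positivity)
      _ = _ := by ring
  refine (sum_le_sum h3).trans ?_
  rw [← Finset.mul_sum, ← Finset.mul_sum]
  have h7 : ∑ m ∈ range (C0 + 1), (m : ℝ) ^ 5 * θ ^ m ≤ ∑' m : ℕ, (m : ℝ) ^ 5 * θ ^ m :=
    hsum.sum_le_tsum _ fun m _ => by positivity
  calc C * ‖(G.rho : ℂ) - z‖ * (C * ∑ m ∈ range (C0 + 1), (m : ℝ) ^ 5 * θ ^ m)
      ≤ C * ‖(G.rho : ℂ) - z‖ * (C * ∑' m : ℕ, (m : ℝ) ^ 5 * θ ^ m) := by gcongr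
    _ = _ := by ring

/-! ### Asymptotics -/

lemma zn_scale (r : ℝ) (w : ℂ) (n : ℕ) : zn r w n = (r : ℂ) * zn 1 w n := by
  unfold zn
  push_cast
  ring

lemma n0_atTop {n0 : ℕ → ℕ} {β : ℝ} (hβ : 0 < β)
    (h : Tendsto (fun n : ℕ => (n0 n : ℝ) / n) atTop (𝓝 β)) : Tendsto n0 atTop atTop := by
  have h2 : Tendsto (fun n : ℕ => ((n0 n : ℝ) / n) * n) atTop atTop :=
    h.pos_mul_atTop hβ tendsto_natCast_atTop_atTop
  have h3 : Tendsto (fun n : ℕ => (n0 n : ℝ)) atTop atTop := by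
    refine h2.congr' ?_
    filter_upwards [eventually_gt_atTop 0] with n hn
    have : (n : ℝ) ≠ 0 := by exact_mod_cast hn.ne'
    field_simp
  exact tendsto_natCast_atTop_iff.mp h3

lemma ratio {n0 : ℕ → ℕ} {β : ℝ} (hβ : 0 < β)
    (h : Tendsto (fun n : ℕ => (n0 n : ℝ) / n) atTop (𝓝 β)) :
    Tendsto (fun n : ℕ => (n : ℝ) / n0 n) atTop (𝓝 β⁻¹) := by
  refine (h.inv₀ hβ.ne').congr fun n => ?_
  rw [inv_div]

/-- `n (1/4 - z') → w / (4 β)` -/
lemma tendsto_zn' {n0 : ℕ → ℕ} {β : ℝ} (hβ : 0 < β)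
    (h : Tendsto (fun n : ℕ => (n0 n : ℝ) / n) atTop (𝓝 β)) (w : ℂ) :
    Tendsto (fun n : ℕ => (n : ℂ) * ((1 / 4 : ℂ) - zn (1 / 4) w (n0 n))) atTop
      (𝓝 ((β⁻¹ : ℝ) * ((1 / 4 : ℂ) * w))) := by
  have h1 := tendsto_zn (1 / 4) w n0 (n0_atTop hβ h)
  have h2 : Tendsto (fun n : ℕ => (((n : ℝ) / n0 n : ℝ) : ℂ)) atTop (𝓝 ((β⁻¹ : ℝ) : ℂ)) :=
    (Complex.continuous_ofReal.tendsto _).comp (ratio hβ h)
  have h3 := h2.mul h1
  have e4 : (((1 / 4 : ℝ) : ℝ) : ℂ) = (1 / 4 : ℂ) := by push_cast; ring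
  rw [e4] at h3
  refine h3.congr' ?_
  filter_upwards [(n0_atTop hβ h).eventually_ge_atTop 1] with n hn
  have hn' : ((n0 n : ℕ) : ℂ) ≠ 0 := by
    have : n0 n ≠ 0 := by omega
    exact_mod_cast this
  push_cast
  field_simp

lemma tendsto_zn'_norm {n0 : ℕ → ℕ} {β : ℝ} (hβ : 0 < β)
    (h : Tendsto (fun n : ℕ => (n0 n : ℝ) / n) atTop (𝓝 β)) (w : ℂ) :
    Tendsto (fun n : ℕ => (n : ℝ) * ‖(1 / 4 : ℂ) - zn (1 / 4) w (n0 n)‖) atTop
      (𝓝 (β⁻¹ * (1 / 4 * ‖w‖))) := by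
  have h1 := (tendsto_zn' hβ h w).norm
  have e : ‖((β⁻¹ : ℝ) : ℂ) * ((1 / 4 : ℂ) * w)‖ = β⁻¹ * (1 / 4 * ‖w‖) := by
    have hb : 0 ≤ β⁻¹ := (inv_pos.mpr hβ).le
    rw [norm_mul, norm_mul, Complex.norm_real, Real.norm_of_nonneg hb]
    norm_num
  rw [e] at h1
  refine h1.congr fun n => ?_
  rw [norm_mul]
  simp

/-- `n (1 - zn 1 w n) → w` -/
lemma tendsto_tau (w : ℂ) :
    Tendsto (fun n : ℕ => (n : ℂ) * (1 - zn 1 w n)) atTop (𝓝 w) := by
  have h := tendsto_zn 1 w id tendsto_id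
  rw [Complex.ofReal_one, one_mul] at h
  exact h

lemma tendsto_tau_norm (w : ℂ) :
    Tendsto (fun n : ℕ => (n : ℝ) * ‖1 - zn 1 w n‖) atTop (𝓝 ‖w‖) := by
  refine (tendsto_tau w).norm.congr fun n => ?_
  rw [norm_mul]
  simp

lemma norm_rho_sub (r : ℝ) (hr : 0 < r) (w : ℂ) (n : ℕ) :
    ‖(r : ℂ) - zn r w n‖ = r * ‖1 - zn 1 w n‖ := by
  rw [zn_scale, show (r : ℂ) - r * zn 1 w n = r * (1 - zn 1 w n) by ring, norm_mul,
    Complex.norm_real, Real.norm_of_nonneg hr.le]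

/-- matching of the spectral parameters -/
lemma tendsto_match {G : ℕ → GapKernel} {mb sg : ℝ}
    (hm : Tendsto (fun n => (G n).mbar) atTop (𝓝 mb))
    (hs : Tendsto (fun n => (G n).sig2) atTop (𝓝 sg)) (hmb : 0 < mb) (hsg : 0 < sg)
    {n0 : ℕ → ℕ} (h : Tendsto (fun n : ℕ => (n0 n : ℝ) / n) atTop (𝓝 (2 * sg / mb))) (w : ℂ) :
    Tendsto (fun n : ℕ => (n : ℝ) * ‖2 * ((G n).sig2 : ℂ) * (1 - 4 * zn (1 / 4) w (n0 n))
      - ((G n).mbar : ℂ) * (1 - zn (G n).rho w n / ((G n).rho : ℂ))‖) atTop (𝓝 0) := by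
  have hβ : 0 < 2 * sg / mb := by positivity
  have hs' : Tendsto (fun n => (((G n).sig2 : ℝ) : ℂ)) atTop (𝓝 (sg : ℂ)) :=
    (Complex.continuous_ofReal.tendsto _).comp hs
  have hm' : Tendsto (fun n => (((G n).mbar : ℝ) : ℂ)) atTop (𝓝 (mb : ℂ)) :=
    (Complex.continuous_ofReal.tendsto _).comp hm
  have h1 := (hs'.const_mul 8).mul (tendsto_zn' hβ h w)
  have h2 := hm'.mul (tendsto_tau w)
  have h3 := (h1.sub h2).norm
  have hs0 : (sg : ℂ) ≠ 0 := by exact_mod_cast hsg.ne'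
  have hm0 : (mb : ℂ) ≠ 0 := by exact_mod_cast hmb.ne'
  have e : 8 * (sg : ℂ) * ((((2 * sg / mb)⁻¹ : ℝ) : ℂ) * ((1 / 4 : ℂ) * w))
      - (mb : ℂ) * w = 0 := by
    push_cast
    field_simp
    ring
  rw [e, norm_zero] at h3
  refine h3.congr fun n => ?_
  have hr : (((G n).rho : ℝ) : ℂ) ≠ 0 := by exact_mod_cast (G n).rho_pos.ne'
  have e3 : zn (G n).rho w n / ((G n).rho : ℂ) = zn 1 w n := by
    rw [zn_scale]
    field_simp
  have e2 : 8 * ((G n).sig2 : ℂ) * ((n : ℂ) * ((1 / 4 : ℂ) - zn (1 / 4) w (n0 n)))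
      - ((G n).mbar : ℂ) * ((n : ℂ) * (1 - zn 1 w n))
      = (n : ℂ) * (2 * ((G n).sig2 : ℂ) * (1 - 4 * zn (1 / 4) w (n0 n))
      - ((G n).mbar : ℂ) * (1 - zn 1 w n)) := by
    ring
  rw [e3, e2, norm_mul]
  simp

/-- `n^{3/2} eps' → β^{-3/2} l` -/
lemma tendsto_eps' {n0 : ℕ → ℕ} {β : ℝ} (hβ : 0 < β)
    (h : Tendsto (fun n : ℕ => (n0 n : ℝ) / n) atTop (𝓝 β)) (l : ℝ) :
    Tendsto (fun n : ℕ => (n : ℝ) * Real.sqrt n * epsn l (n0 n)) atTop
      (𝓝 (β⁻¹ * Real.sqrt β⁻¹ * l)) := by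
  have h1 := ratio hβ h
  have h2 : Tendsto (fun n : ℕ => Real.sqrt ((n : ℝ) / n0 n)) atTop
      (𝓝 (Real.sqrt β⁻¹)) := (Real.continuous_sqrt.tendsto _).comp h1
  have h3 := (h1.mul h2).mul_const l
  refine h3.congr' ?_
  filter_upwards [(n0_atTop hβ h).eventually_ge_atTop 1] with n hn
  have hn' : (0 : ℝ) < n0 n := by exact_mod_cast hn
  unfold epsn
  rw [Real.sqrt_div (Nat.cast_nonneg n)]
  field_simp

lemma lamS_eq {mb hb sg : ℝ} (hmb : 0 < mb) (hsg : 0 < sg) (lam : ℝ) :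
    (2 * sg / mb)⁻¹ * Real.sqrt (2 * sg / mb)⁻¹ * lamS mb hb sg lam = hb / (2 * sg) * lam := by
  have hb0 : 0 < 2 * sg / mb := by positivity
  unfold lamS
  rw [show (3 / 2 : ℝ) = 1 + 1 / 2 by norm_num, Real.rpow_add hb0, Real.rpow_one,
    ← Real.sqrt_eq_rpow, Real.sqrt_inv]
  have hs : 0 < Real.sqrt (2 * sg / mb) := Real.sqrt_pos.mpr hb0
  have hb' := hb0.ne'
  set b := 2 * sg / mb
  field_simp

lemma tendsto_match_eps {G : ℕ → GapKernel} {mb hb sg : ℝ}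
    (hh : Tendsto (fun n => (G n).hbar) atTop (𝓝 hb))
    (hs : Tendsto (fun n => (G n).sig2) atTop (𝓝 sg)) (hmb : 0 < mb) (hsg : 0 < sg)
    {n0 : ℕ → ℕ} (h : Tendsto (fun n : ℕ => (n0 n : ℝ) / n) atTop (𝓝 (2 * sg / mb))) (lam : ℝ) :
    Tendsto (fun n : ℕ => (n : ℝ) * Real.sqrt n *
      |2 * (G n).sig2 * epsn (lamS mb hb sg lam) (n0 n) - (G n).hbar * epsn lam n|) atTop
      (𝓝 0) := by
  have hβ : 0 < 2 * sg / mb := by positivity
  have h1 := (hs.const_mul 2).mul (tendsto_eps' hβ h (lamS mb hb sg lam))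
  rw [lamS_eq hmb hsg] at h1
  have h2 : Tendsto (fun n : ℕ => (G n).hbar * ((n : ℝ) * Real.sqrt n * epsn lam n)) atTop
      (𝓝 (hb * lam)) := by
    refine (hh.mul_const lam).congr' ?_
    filter_upwards [eventually_ge_atTop 1] with n hn
    rw [epsn_mul lam n hn]
  have h3 := (h1.sub h2).abs
  have e : 2 * sg * (hb / (2 * sg) * lam) - hb * lam = 0 := by
    field_simp
    ring
  rw [e, abs_zero] at h3
  refine h3.congr fun n => ?_
  have e2 : 2 * (G n).sig2 * ((n : ℝ) * Real.sqrt n * epsn (lamS mb hb sg lam) (n0 n))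
      - (G n).hbar * ((n : ℝ) * Real.sqrt n * epsn lam n)
      = ((n : ℝ) * Real.sqrt n) *
        (2 * (G n).sig2 * epsn (lamS mb hb sg lam) (n0 n) - (G n).hbar * epsn lam n) := by
    ring
  rw [e2, abs_mul, abs_of_nonneg (by positivity)]

/-- bounds of the staircase solution in powers of `q = n^{1/4}` -/
lemma v0_bounds' (hSUP : Gap.SUP_Stmt) (hW : Gap.W_Stmt) {n0 : ℕ → ℕ} {β : ℝ} (hβ : 0 < β)
    (h : Tendsto (fun n : ℕ => (n0 n : ℝ) / n) atTop (𝓝 β)) (N : ℕ → ℕ) (eps : ℕ → ℝ)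
    (heps : ∀ n, 0 ≤ eps n) (w : ℂ) (hw : 0 < w.re) (v0 : ℕ → ℤ → ℂ)
    (hv0 : ∀ n, 1 ≤ n → 1 ≤ n0 n →
      stair.Solves (eps n) (zn (1 / 4) w (n0 n)) (N n) (v0 n) (src1 (zn (1 / 4) w (n0 n)))) :
    ∃ C : ℝ, 0 < C ∧ ∀ᶠ n in atTop,
      Real.sqrt (nsq (N n) (v0 n)) ≤ C * qn n ∧
      Real.sqrt (nsq (N n) (mulg 1 (v0 n))) ≤ C * qn n ^ 3 ∧
      Real.sqrt (nsq (N n) (mulg 2 (v0 n))) ≤ C * qn n ^ 5 ∧
      Real.sqrt (En (N n) (v0 n)) ≤ C ∧
      Real.sqrt (En (N n) (mulg 1 (v0 n))) ≤ C * qn n := by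
  obtain ⟨Cs, hCs, hS⟩ := hSUP stair 1
  obtain ⟨Cw, hCw, hW'⟩ := hW stair 1
  have hwn : 0 < ‖w‖ := by
    rw [norm_pos_iff]
    rintro rfl
    simp at hw
  set L : ℝ := β⁻¹ * (1 / 4 * ‖w‖) with hL
  have hLpos : 0 < L := by
    have := inv_pos.mpr hβ
    positivity
  have h1 := tendsto_zn'_norm hβ h w
  have h2 : ∀ᶠ n : ℕ in atTop, L / 2 < (n : ℝ) * ‖(1 / 4 : ℂ) - zn (1 / 4) w (n0 n)‖ :=
    h1.eventually_const_lt (by rw [← hL]; linarith)
  set c : ℝ := Real.sqrt (L / 2) with hc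
  have hcpos : 0 < c := Real.sqrt_pos.mpr (by positivity)
  have hc2 : c ^ 2 = L / 2 := Real.sq_sqrt (by positivity)
  set Cb : ℝ := Cw / c + Cw / (c * c ^ 2) + Cw / (c * (c ^ 2) ^ 2) + Cs + 1 with hCb
  have hCbpos : 0 < Cb := by positivity
  refine ⟨Real.sqrt Cb, Real.sqrt_pos.mpr hCbpos, ?_⟩
  filter_upwards [h2, eventually_ge_atTop 1, (n0_atTop hβ h).eventually_ge_atTop 1]
    with n hn hn1 hn0
  have hq := qn_pos n hn1
  have hsol := hv0 n hn1 hn0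
  set z' := zn (1 / 4) w (n0 n) with hz'
  set e' := eps n with he'
  have he'0 : 0 ≤ e' := heps n
  have hz'le : ‖z'‖ ≤ 1 / 4 := zn_norm_le (1 / 4) (by norm_num) w hw _
  have hz'ne : z' ≠ ((stair.rho : ℝ) : ℂ) := zn_ne (1 / 4) (by norm_num) w hw _ hn0
  have hstair : stair.rho = 1 / 4 := rfl
  have hsrc : ∀ g : ℤ, ((1 : ℕ) : ℤ) < g → src1 z' g = 0 := by
    intro g hg
    unfold src1
    rw [if_neg]
    push_cast at hg
    omega
  have hl1 : l1 1 (src1 z') ≤ 1 := by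
    rw [l1_src1]
    linarith
  have hl10 : 0 ≤ l1 1 (src1 z') := by
    rw [l1_src1]
    exact norm_nonneg _
  have hl1sq : (l1 1 (src1 z')) ^ 2 ≤ 1 := by nlinarith
  obtain ⟨hWk, hWe⟩ := hW' (N n) e' z' (v0 n) (src1 z') he'0 (by rw [hstair]; exact hz'le) hz'ne
    hsol hsrc
  obtain ⟨_, hSe⟩ := hS (N n) e' z' (v0 n) (src1 z') he'0 (by rw [hstair]; exact hz'le) hsol hsrc
  have hδeq : ‖((stair.rho : ℝ) : ℂ) - z'‖ = ‖(1 / 4 : ℂ) - z'‖ := by
    rw [hstair]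
    push_cast
    rfl
  rw [hδeq] at hWk hWe
  set δ := ‖(1 / 4 : ℂ) - z'‖ with hδ
  have hn' : (0 : ℝ) < n := by exact_mod_cast hn1
  have hδlow : c ^ 2 / qn n ^ 4 ≤ δ := by
    rw [qn_four, hc2, div_le_iff₀ hn']
    linarith
  have hδpos : 0 < δ := lt_of_lt_of_le (by positivity) hδlow
  have hsδ : c / qn n ^ 2 ≤ Real.sqrt δ := by
    refine Real.le_sqrt_of_sq_le ?_
    refine le_trans (le_of_eq ?_) hδlow
    rw [div_pow]
    ring
  have hkey : ∀ k : ℕ, k ≤ 2 → nsq (N n) (mulg k (v0 n)) ≤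
      Cw / (c * (c ^ 2) ^ k) * (qn n ^ (1 + 2 * k)) ^ 2 := by
    intro k hk
    refine (hWk k hk).trans ?_
    have h3 : c / qn n ^ 2 * (c ^ 2 / qn n ^ 4) ^ k ≤ Real.sqrt δ * δ ^ k := by
      gcongr
    calc Cw * (l1 1 (src1 z')) ^ 2 / (Real.sqrt δ * δ ^ k)
        ≤ Cw * 1 / (c / qn n ^ 2 * (c ^ 2 / qn n ^ 4) ^ k) := by
          gcongr
      _ = _ := by
          rw [div_pow]
          field_simp
          ring
  have hsqrt : ∀ (a b x : ℝ), 0 ≤ x → a ≤ b * x ^ 2 → b ≤ Cb → Real.sqrt a ≤ Real.sqrt Cb * x := by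
    intro a b x hx hab hb
    rw [← Real.sqrt_sq hx, ← Real.sqrt_mul hCbpos.le]
    refine Real.sqrt_le_sqrt (hab.trans ?_)
    gcongr
  have hp1 : 0 ≤ Cw / c := by positivity
  have hp2 : 0 ≤ Cw / (c * c ^ 2) := by positivity
  have hp3 : 0 ≤ Cw / (c * (c ^ 2) ^ 2) := by positivity
  refine ⟨?_, ?_, ?_, ?_, ?_⟩
  · have := hkey 0 (by norm_num)
    rw [nsq_mulg_zero] at this
    refine hsqrt _ (Cw / c) _ hq.le ?_ (by rw [hCb]; linarith)
    simpa using this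
  · have := hkey 1 (by norm_num)
    refine hsqrt _ (Cw / (c * c ^ 2)) _ (by positivity) ?_ (by rw [hCb]; linarith)
    simpa using this
  · have := hkey 2 (by norm_num)
    refine hsqrt _ (Cw / (c * (c ^ 2) ^ 2)) _ (by positivity) ?_ (by rw [hCb]; linarith)
    simpa using this
  · have h3 : En (N n) (v0 n) ≤ Cs := by
      have := Pot_nonneg e' he'0 (N n) (v0 n)
      have h4 : Cs * (l1 1 (src1 z')) ^ 2 ≤ Cs * 1 := by gcongr
      linarith
    refine Real.sqrt_le_sqrt ?_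
    rw [hCb]
    linarith
  · have h3 := hWe 1 le_rfl (by norm_num)
    have h4 := Pot_nonneg e' he'0 (N n) (mulg 1 (v0 n))
    have h5 : En (N n) (mulg 1 (v0 n)) ≤ Cw / c * qn n ^ 2 := by
      have h6 : Cw * (l1 1 (src1 z')) ^ 2 * Real.sqrt δ / δ ^ 1 ≤ Cw / c * qn n ^ 2 := by
        have h7 : Real.sqrt δ / δ = 1 / Real.sqrt δ := by
          rw [Real.sqrt_div_self', one_div]
        calc Cw * (l1 1 (src1 z')) ^ 2 * Real.sqrt δ / δ ^ 1
            = Cw * (l1 1 (src1 z')) ^ 2 * (Real.sqrt δ / δ) := by ring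
          _ = Cw * (l1 1 (src1 z')) ^ 2 * (1 / Real.sqrt δ) := by rw [h7]
          _ ≤ Cw * 1 * (1 / (c / qn n ^ 2)) := by gcongr
          _ = _ := by field_simp
      linarith
    exact hsqrt _ (Cw / c) _ hq.le h5 (by rw [hCb]; linarith)

/-- the bound of the bulk part in GEB is small: `q³ ‖rb‖ → 0` -/
lemma rb_small (hSUP : Gap.SUP_Stmt) (hW : Gap.W_Stmt) {G : ℕ → GapKernel} {mb hb sg : ℝ}
    (hm : Tendsto (fun n => (G n).mbar) atTop (𝓝 mb))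
    (hh : Tendsto (fun n => (G n).hbar) atTop (𝓝 hb))
    (hs : Tendsto (fun n => (G n).sig2) atTop (𝓝 sg)) (hmb : 0 < mb) (hsg : 0 < sg)
    {n0 N : ℕ → ℕ} (h : Tendsto (fun n : ℕ => (n0 n : ℝ) / n) atTop (𝓝 (2 * sg / mb)))
    (hN : ∀ n : ℕ, 4 * n ^ 2 + 4 * (n0 n) ^ 2 ≤ N n)
    (lam : ℝ) (hlam : 0 ≤ lam) (hl : 0 ≤ lamS mb hb sg lam)
    (w : ℂ) (hw : 0 < w.re) (v0 : ℕ → ℤ → ℂ)
    (hv0 : ∀ n, 1 ≤ n → 1 ≤ n0 n →
      stair.Solves (epsn (lamS mb hb sg lam) (n0 n)) (zn (1 / 4) w (n0 n)) (N n) (v0 n)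
          (src1 (zn (1 / 4) w (n0 n)))) (CE : ℝ) (hCE : 0 < CE) :
    Tendsto (fun n : ℕ => qn n ^ 3 * (
      ‖2 * ((G n).sig2 : ℂ) * (1 - 4 * zn (1 / 4) w (n0 n))
        - ((G n).mbar : ℂ) * (1 - zn (G n).rho w n / ((G n).rho : ℂ))‖
            * Real.sqrt (nsq (N n) (v0 n))
      + 2 * |2 * (G n).sig2 * epsn (lamS mb hb sg lam) (n0 n) - (G n).hbar * epsn lam n|
            * Real.sqrt (nsq (N n) (mulg 1 (v0 n)))
      + CE * ((‖((G n).rho : ℂ) - zn (G n).rho w n‖ + ‖(1 / 4 : ℂ) - zn (1 / 4) w (n0 n)‖)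
            * Real.sqrt (En (N n) (v0 n))
          + (epsn lam n + epsn (lamS mb hb sg lam) (n0 n))
            * (Real.sqrt (En (N n) (mulg 1 (v0 n))) + Real.sqrt (nsq (N n) (v0 n)))
          + (‖((G n).rho : ℂ) - zn (G n).rho w n‖ + ‖(1 / 4 : ℂ) - zn (1 / 4) w (n0 n)‖) ^ 2
            * Real.sqrt (nsq (N n) (v0 n))
          + (epsn lam n + epsn (lamS mb hb sg lam) (n0 n)) ^ 2
            * Real.sqrt (nsq (N n) (mulg 2 (v0 n)))
          + ‖v0 n (N n)‖))) atTop (𝓝 0) := by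
  have hβ : 0 < 2 * sg / mb := by positivity
  obtain ⟨C, hC, hbd⟩ := v0_bounds' hSUP hW hβ h N _ (fun n => epsn_nonneg _ hl (n0 n)) w hw v0 hv0
  have hm1 := tendsto_match hm hs hmb hsg h w
  have hm2 := tendsto_match_eps hh hs hmb hsg h lam
  have hd1 := tendsto_tau_norm w
  have hd2 := tendsto_zn'_norm hβ h w
  have he2 := tendsto_eps' hβ h (lamS mb hb sg lam)
  have hi := inv_qn
  set d : ℕ → ℝ := fun n => ‖1 - zn 1 w n‖ + ‖(1 / 4 : ℂ) - zn (1 / 4) w (n0 n)‖ with hd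
  set e : ℕ → ℝ := fun n => epsn lam n + epsn (lamS mb hb sg lam) (n0 n) with he
  set La := ‖w‖ + (2 * sg / mb)⁻¹ * (1 / 4 * ‖w‖)
  set Le := lam + (2 * sg / mb)⁻¹ * Real.sqrt (2 * sg / mb)⁻¹ * lamS mb hb sg lam
  have ha : Tendsto (fun n : ℕ => (n : ℝ) * d n) atTop (𝓝 La) := by
    refine (hd1.add hd2).congr fun n => ?_
    simp only [d]
    ring
  have hee : Tendsto (fun n : ℕ => (n : ℝ) * Real.sqrt n * e n) atTop (𝓝 Le) := by
    have h1 : Tendsto (fun n : ℕ => (n : ℝ) * Real.sqrt n * epsn lam n) atTop (𝓝 lam) := by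
      refine tendsto_const_nhds.congr' ?_
      filter_upwards [eventually_ge_atTop 1] with n hn
      rw [epsn_mul lam n hn]
    refine (h1.add he2).congr fun n => ?_
    simp only [e]
    ring
  have hlim : Tendsto (fun n : ℕ =>
      C * ((n : ℝ) * ‖2 * ((G n).sig2 : ℂ) * (1 - 4 * zn (1 / 4) w (n0 n))
        - ((G n).mbar : ℂ) * (1 - zn (G n).rho w n / ((G n).rho : ℂ))‖)
      + 2 * C * ((n : ℝ) * Real.sqrt n *
        |2 * (G n).sig2 * epsn (lamS mb hb sg lam) (n0 n) - (G n).hbar * epsn lam n|)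
      + CE * (C * ((n : ℝ) * d n) * (qn n)⁻¹
        + 2 * C * ((n : ℝ) * Real.sqrt n * e n) * ((qn n)⁻¹) ^ 2
        + C * ((n : ℝ) * d n) ^ 2 * ((qn n)⁻¹) ^ 4
        + C * ((n : ℝ) * Real.sqrt n * e n) ^ 2 * ((qn n)⁻¹) ^ 4
        + C * ((qn n)⁻¹) ^ 8)) atTop (𝓝 0) := by
    have := ((hm1.const_mul C).add (hm2.const_mul (2 * C))).add
      ((((((ha.const_mul C).mul hi).add ((hee.const_mul (2 * C)).mul (hi.pow 2))).add
        (((ha.pow 2).const_mul C).mul (hi.pow 4))).add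
        (((hee.pow 2).const_mul C).mul (hi.pow 4))).add ((hi.pow 8).const_mul C) |>.const_mul CE)
    simpa using this
  refine squeeze_zero' (Eventually.of_forall fun n => ?_) ?_ hlim
  · have := qn_nonneg n
    have h1 := epsn_nonneg lam hlam n
    have h2 := epsn_nonneg (lamS mb hb sg lam) hl (n0 n)
    positivity
  filter_upwards [hbd, eventually_ge_atTop 1, (n0_atTop hβ h).eventually_ge_atTop 1]
    with n hn hn1 hn0
  obtain ⟨b0, b1, b2, b3, b4⟩ := hn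
  have hq := qn_pos n hn1
  have he0 : 0 ≤ epsn lam n := epsn_nonneg _ hlam _
  have he'0 : 0 ≤ epsn (lamS mb hb sg lam) (n0 n) := epsn_nonneg _ hl _
  have hNn : 1 ≤ N n := by
    have := hN n
    nlinarith
  have hN2 : (4 : ℝ) * n ^ 2 ≤ N n := by
    have := hN n
    have h1 : 4 * n ^ 2 ≤ N n := by omega
    exact_mod_cast h1
  have b5 : ‖v0 n (N n)‖ ≤ C * qn n ^ 5 * ((qn n)⁻¹) ^ 16 := by
    have h1 := (norm_le_of_nsq_mulg2 (N n) hNn (v0 n)).trans b2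
    have h3 : qn n ^ 16 ≤ (N n : ℝ) ^ 2 := by
      have h4 : qn n ^ 8 ≤ (N n : ℝ) := by
        have : qn n ^ 8 = (qn n ^ 4) ^ 2 := by ring
        rw [this, qn_four]
        nlinarith [sq_nonneg (n : ℝ)]
      calc qn n ^ 16 = (qn n ^ 8) ^ 2 := by ring
        _ ≤ _ := by gcongr
    have h4 : qn n ^ 16 * ‖v0 n (N n)‖ ≤ C * qn n ^ 5 := by
      refine le_trans ?_ h1
      gcongr
    rw [inv_pow, ← div_eq_mul_inv, le_div_iff₀ (by positivity)]
    linarith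
  have hn4 := qn_four n
  have hn6 := qn_six n
  set M1 := ‖2 * ((G n).sig2 : ℂ) * (1 - 4 * zn (1 / 4) w (n0 n))
        - ((G n).mbar : ℂ) * (1 - zn (G n).rho w n / ((G n).rho : ℂ))‖ with hM1
  set M2 := |2 * (G n).sig2 * epsn (lamS mb hb sg lam) (n0 n) - (G n).hbar * epsn lam n| with hM2
  have hM1' : 0 ≤ M1 := norm_nonneg _
  have hM2' : 0 ≤ M2 := abs_nonneg _
  have hd_le : ‖((G n).rho : ℂ) - zn (G n).rho w n‖ + ‖(1 / 4 : ℂ) - zn (1 / 4) w (n0 n)‖ ≤ d n := by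
    rw [norm_rho_sub _ (G n).rho_pos]
    simp only [hd]
    have h1 := GSum.rho_le (G n)
    have h2 : 0 ≤ ‖1 - zn 1 w n‖ := norm_nonneg _
    have h3 : (G n).rho * ‖1 - zn 1 w n‖ ≤ 1 * ‖1 - zn 1 w n‖ :=
      mul_le_mul_of_nonneg_right (by linarith) h2
    linarith
  have he_eq : epsn lam n + epsn (lamS mb hb sg lam) (n0 n) = e n := rfl
  rw [he_eq]
  set dd := ‖((G n).rho : ℂ) - zn (G n).rho w n‖ + ‖(1 / 4 : ℂ) - zn (1 / 4) w (n0 n)‖ with hdd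
  have hdd0 : 0 ≤ dd := by positivity
  have hd0' : 0 ≤ d n := hdd0.trans hd_le
  have he0' : 0 ≤ e n := add_nonneg he0 he'0
  calc _ ≤ qn n ^ 3 * (M1 * (C * qn n) + 2 * M2 * (C * qn n ^ 3)
        + CE * (d n * C + e n * (C * qn n + C * qn n) + d n ^ 2 * (C * qn n)
          + e n ^ 2 * (C * qn n ^ 5) + C * qn n ^ 5 * ((qn n)⁻¹) ^ 16)) := by
        gcongr
    _ = _ := by
        rw [← hn6, ← hn4]
        field_simp
        ring

/-- near the wall the staircase solution tends to 1, with a rate -/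
lemma v0_eta (hST : ST1_Stmt) {n0 N : ℕ → ℕ} {β : ℝ} (hβ : 0 < β)
    (h : Tendsto (fun n : ℕ => (n0 n : ℝ) / n) atTop (𝓝 β))
    (hN : ∀ n : ℕ, 4 * n ^ 2 + 4 * (n0 n) ^ 2 ≤ N n) (l : ℝ) (hl : 0 ≤ l)
    (w : ℂ) (hw : 0 < w.re) (v0 : ℕ → ℤ → ℂ)
    (hv0 : ∀ n, 1 ≤ n → 1 ≤ n0 n →
      stair.Solves (epsn l (n0 n)) (zn (1 / 4) w (n0 n)) (N n) (v0 n)
          (src1 (zn (1 / 4) w (n0 n)))) :
    ∃ Ce : ℝ, 0 < Ce ∧ ∀ᶠ n : ℕ in atTop, ∀ g ∈ Icc (1 : ℤ) (N n),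
      ‖v0 n g - 1‖ ≤ Ce * (qn (n0 n))⁻¹ * g := by
  set κ : ℝ := ‖w‖ + 1 + l with hκ
  have hκpos : 0 < κ := by positivity
  obtain ⟨C, hC, hS⟩ := hST κ hκpos
  have hd := tendsto_zn_norm (1 / 4) (by norm_num) w n0 (n0_atTop hβ h)
  have hev : ∀ᶠ n : ℕ in atTop, (n0 n : ℝ) * ‖((1 / 4 : ℝ) : ℂ) - zn (1 / 4) w (n0 n)‖ < κ := by
    refine hd.eventually_lt_const ?_
    have := norm_nonneg w
    linarith
  refine ⟨Real.sqrt C, Real.sqrt_pos.mpr hC, ?_⟩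
  filter_upwards [hev, (n0_atTop hβ h).eventually_ge_atTop 1, eventually_ge_atTop 1]
    with n hn hn0 hn1 g hg
  rw [Finset.mem_Icc] at hg
  have hn0' : (0 : ℝ) < n0 n := by exact_mod_cast hn0
  have hq := qn_pos (n0 n) hn0
  have hg1 : (1 : ℝ) ≤ g := by exact_mod_cast hg.1
  have h1 := hS (n0 n) (N n) (epsn l (n0 n)) (zn (1 / 4) w (n0 n)) (v0 n) hn0 (by
      have := hN n
      nlinarith)
    (epsn_nonneg _ hl _) (zn_norm_le (1 / 4) (by norm_num) w hw _) (by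
      rw [le_div_iff₀ hn0']
      have e4 : (((1 / 4 : ℝ) : ℝ) : ℂ) = (1 / 4 : ℂ) := by push_cast; ring
      rw [e4] at hn
      linarith) (by
      rw [mul_comm, epsn_mul _ _ hn0]
      have := norm_nonneg w
      linarith) (hv0 n hn1 hn0) g hg.1 hg.2
  have h2 : (0 : ℝ) ≤ Real.sqrt C * (qn (n0 n))⁻¹ * g := by positivity
  refine (sq_le_sq₀ (norm_nonneg _) h2).1 (h1.trans (le_of_eq ?_))
  rw [mul_pow, mul_pow, Real.sq_sqrt hC.le, inv_pow, qn_sq]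
  field_simp

/-! ### Weighted norms -/

lemma lw_sub_smul (p N : ℕ) (a b : ℤ → ℂ) (c : ℂ) :
    lw p N (fun g => a g - c * b g) ≤ lw p N a + ‖c‖ * lw p N b := by
  unfold lw
  rw [Finset.mul_sum, ← Finset.sum_add_distrib]
  refine Finset.sum_le_sum fun g hg => ?_
  rw [Finset.mem_Icc] at hg
  have hg1 : (1 : ℝ) ≤ g := by exact_mod_cast hg.1
  have h1 : ‖a g - c * b g‖ ≤ ‖a g‖ + ‖c‖ * ‖b g‖ := by
    refine (norm_sub_le _ _).trans ?_
    rw [norm_mul]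
  calc (g : ℝ) ^ p * ‖a g - c * b g‖ ≤ (g : ℝ) ^ p * (‖a g‖ + ‖c‖ * ‖b g‖) := by gcongr
    _ = _ := by ring

lemma lw_nonneg (p N : ℕ) (e : ℤ → ℂ) : 0 ≤ lw p N e := by
  unfold lw
  refine Finset.sum_nonneg fun g hg => ?_
  rw [Finset.mem_Icc] at hg
  have hg1 : (1 : ℝ) ≤ g := by exact_mod_cast hg.1
  positivity

lemma lw_exp {θ : ℝ} (hθ : 0 < θ) (hθ1 : θ < 1) (N : ℕ) (b : ℤ → ℂ) (K S : ℝ) (hK : 0 ≤ K)
    (hS : 0 ≤ S) (h : ∀ g ∈ Icc (1 : ℤ) N, ‖b g‖ ≤ K * θ ^ g.toNat * S) :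
    lw 4 N b ≤ K * S * ∑' m : ℕ, (m : ℝ) ^ 4 * θ ^ m := by
  have hsum : Summable fun m : ℕ => (m : ℝ) ^ 4 * θ ^ m :=
    summable_pow_mul_geometric_of_norm_lt_one 4 (by rwa [Real.norm_of_nonneg hθ.le])
  unfold lw
  calc ∑ g ∈ Icc (1 : ℤ) N, (g : ℝ) ^ 4 * ‖b g‖
      ≤ ∑ g ∈ Icc (1 : ℤ) N, K * S * ((g.toNat : ℝ) ^ 4 * θ ^ g.toNat) := by
        refine Finset.sum_le_sum fun g hg => ?_
        have hg' := Finset.mem_Icc.mp hg
        have hg1 : (1 : ℝ) ≤ g := by exact_mod_cast hg'.1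
        have e : ((g.toNat : ℕ) : ℝ) = g := by
          have : ((g.toNat : ℕ) : ℤ) = g := Int.toNat_of_nonneg (by omega)
          exact_mod_cast this
        rw [e]
        calc (g : ℝ) ^ 4 * ‖b g‖ ≤ (g : ℝ) ^ 4 * (K * θ ^ g.toNat * S) :=
              mul_le_mul_of_nonneg_left (h g hg) (by positivity)
          _ = _ := by ring
    _ = K * S * ∑ m ∈ (Icc (1 : ℤ) N).image Int.toNat, (m : ℝ) ^ 4 * θ ^ m := by
        rw [← Finset.mul_sum, Finset.sum_image]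
        intro a ha b' hb' hab
        simp only [Finset.coe_Icc, Set.mem_Icc] at ha hb'
        omega
    _ ≤ _ := by
        refine mul_le_mul_of_nonneg_left ?_ (by positivity)
        exact hsum.sum_le_tsum _ fun m _ => by positivity

/-! ### Lower bounds of the parameters -/

lemma one_le_mbar (G : GapKernel) : 1 ≤ G.mbar := by
  rw [← G.crit']
  unfold GapKernel.mbar
  refine Finset.sum_le_sum fun i hi => ?_
  have h1 : (1 : ℝ) ≤ i.1 := by exact_mod_cast (G.pos_mem i hi).1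
  have h2 : 0 ≤ G.rho ^ i.1 * G.tot i :=
    mul_nonneg (pow_nonneg G.rho_pos.le _) (G.tot_nonneg i)
  nlinarith

end GE

/-- MODULE GE : comparison of the solutions for sequences of kernels -/
theorem ge (hRE : GRE_Stmt) (_hSUP : GSUP_Stmt) (hW : GW_Stmt) (hV : GV_Stmt) (hVL : GVL_Stmt)
    (hST : Gap.ST1_Stmt) (hEB : GEB_Stmt) (hSUP0 : Gap.SUP_Stmt) (hW0 : Gap.W_Stmt) : GE_Stmt := by
  intro C θ hC hθ hθ1
  have h1θ : 0 < 1 - θ := by linarith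
  set Ca : ℝ := C ^ 2 + C / (1 - θ) with hCa
  have hCa0 : 0 < Ca := by positivity
  have hCCa : C ≤ Ca := by
    have h1 : C ≤ C / (1 - θ) := by
      rw [le_div_iff₀ h1θ]
      nlinarith
    have h2 : 0 < C ^ 2 := by positivity
    rw [hCa]
    linarith
  obtain ⟨Cb, hCb, hV'⟩ := hV Ca θ hCa0 hθ hθ1
  set Cc : ℝ := Ca + Cb with hCc
  have hCc0 : 0 < Cc := by positivity
  have hac : Ca ≤ Cc := by rw [hCc]; linarith
  have hbc : Cb ≤ Cc := by rw [hCc]; linarith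
  obtain ⟨Cv, hCv0, hVL'⟩ := hVL Cc θ hCc0 hθ hθ1
  obtain ⟨Cr, hCr, hr⟩ := hRE C θ hC hθ hθ1
  obtain ⟨Cw, hCw, hw'⟩ := hW C θ hC hθ hθ1
  obtain ⟨CE, θE, hCE, hθE, hθE1, hE⟩ := hEB C θ hC hθ hθ1
  obtain ⟨B, hB, hBsum⟩ := GSum.sum_pow hC hθ hθ1 2
  refine ⟨Cc, hCc0, ?_⟩
  intro G mb hb sg C0 s hK hs
  have hG := hK.cls
  -- the critical solutions
  have hcrit : ∀ n, ∃ (vc : ℤ → ℝ) (A : ℝ), CritSol Cc (G n) (sr (G n).rho (C0 n) (s n)) vc ∧
      Cc⁻¹ ≤ A ∧ A ≤ Cc ∧ ∀ M : ℕ, ∑ g ∈ Icc (1 : ℤ) M, (g : ℝ) ^ 2 * (vc g - A) ^ 2 ≤ Cv := by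
    intro n
    have hsrc := GE.critSrc_sr hC hθ hθ1 (hG n) (hs n)
    rw [← hCa] at hsrc
    obtain ⟨vc, hvc⟩ := hV' (G n) (GE.cls_mono hC hCCa hθ (hG n)) (C0 n) _ hsrc
    have hvc' := GE.critSol_mono hCb hbc hvc
    obtain ⟨A, hA1, hA2, hA3⟩ := hVL' (G n) (GE.cls_mono hC (hCCa.trans hac) hθ (hG n)) (C0 n) _ vc
      (GE.critSrc_mono hCa0 hac hθ hsrc) hvc'
    exact ⟨vc, A, hvc', hA1, hA2, hA3⟩
  choose vc A hvc hA1 hA2 hCv using hcrit
  refine ⟨A, fun n => ⟨hA1 n, hA2 n⟩, ?_⟩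
  intro n0 N hn0 hN lam w hlam hw v v0 hsol
  have hA0 : ∀ n, 0 ≤ A n := fun n => le_trans (inv_pos.mpr hCc0).le (hA1 n)
  -- the parameters
  have hmb1 : 1 ≤ mb := ge_of_tendsto' hK.lim_m fun n => GE.one_le_mbar (G n)
  have hmb : 0 < mb := by linarith
  have hsg1 : C⁻¹ ≤ sg := ge_of_tendsto' hK.lim_s fun n => (hG n).rho_ge.trans (G n).rho_le_sig2
  have hsg : 0 < sg := lt_of_lt_of_le (inv_pos.mpr hC) hsg1
  have hhb : 0 ≤ hb := ge_of_tendsto' hK.lim_h fun n => (G n).hbar_pos.le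
  have hβ : 0 < 2 * sg / mb := by positivity
  have hl : 0 ≤ lamS mb hb sg lam := by
    unfold lamS
    positivity
  have hv0 : ∀ n, 1 ≤ n → 1 ≤ n0 n →
      stair.Solves (epsn (lamS mb hb sg lam) (n0 n)) (zn (1 / 4) w (n0 n)) (N n) (v0 n)
          (src1 (zn (1 / 4) w (n0 n))) := fun n h1 h2 => (hsol n h1 h2).2
  -- abbreviations
  set ε : ℕ → ℝ := fun n => epsn lam n with hε
  set ε' : ℕ → ℝ := fun n => epsn (lamS mb hb sg lam) (n0 n) with hε'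
  set z : ℕ → ℂ := fun n => zn (G n).rho w n with hz
  set z' : ℕ → ℂ := fun n => zn (1 / 4) w (n0 n) with hz'
  set τ : ℕ → ℝ := fun n => ‖1 - zn 1 w n‖ with hτ
  set δ : ℕ → ℝ := fun n => ‖((G n).rho : ℂ) - z n‖ with hδ
  set δ' : ℕ → ℝ := fun n => ‖(1 / 4 : ℂ) - z' n‖ with hδ'
  have hε0 : ∀ n, 0 ≤ ε n := fun n => epsn_nonneg _ hlam _
  have hε'0 : ∀ n, 0 ≤ ε' n := fun n => epsn_nonneg _ hl _
  have hzle : ∀ n, ‖z n‖ ≤ (G n).rho := fun n => zn_norm_le _ (G n).rho_pos w hw n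
  have hz'le : ∀ n, ‖z' n‖ ≤ 1 / 4 := fun n => zn_norm_le (1 / 4) (by norm_num) w hw _
  have hδτ : ∀ n, δ n = (G n).rho * τ n := fun n => GE.norm_rho_sub _ (G n).rho_pos w n
  have hτ0 : ∀ n, 0 ≤ τ n := fun n => norm_nonneg _
  have hδle : ∀ n, δ n ≤ τ n := by
    intro n
    rw [hδτ]
    have h1 := GSum.rho_le (G n)
    have h2 := hτ0 n
    nlinarith
  have hδge : ∀ n, C⁻¹ * τ n ≤ δ n := by
    intro n
    rw [hδτ]
    exact mul_le_mul_of_nonneg_right (hG n).rho_ge (hτ0 n)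
  have hwn : 0 < ‖w‖ := by
    rw [norm_pos_iff]
    rintro rfl
    simp at hw
  have hnτ : Tendsto (fun n : ℕ => (n : ℝ) * τ n) atTop (𝓝 ‖w‖) := GE.tendsto_tau_norm w
  -- small quantities
  have htoz : ∀ f : ℕ → ℝ, ∀ l : ℝ, Tendsto (fun n : ℕ => (n : ℝ) * f n) atTop (𝓝 l) →
      Tendsto f atTop (𝓝 0) := by
    intro f l hf
    have h1 := hf.mul (tendsto_inv_atTop_nhds_zero_nat (𝕜 := ℝ))
    rw [mul_zero] at h1
    refine h1.congr' ?_
    filter_upwards [eventually_ge_atTop 1] with n hn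
    have : (n : ℝ) ≠ 0 := by
      have : (0 : ℝ) < n := by exact_mod_cast hn
      exact this.ne'
    field_simp
  have hτto : Tendsto τ atTop (𝓝 0) := htoz _ _ hnτ
  have hδto : Tendsto δ atTop (𝓝 0) :=
    squeeze_zero (fun n => norm_nonneg _) hδle hτto
  have hδ'to : Tendsto δ' atTop (𝓝 0) := htoz _ _ (GE.tendsto_zn'_norm hβ hn0 w)
  have hεto : Tendsto ε atTop (𝓝 0) := epsn_to lam
  have hn0top := GE.n0_atTop hβ hn0
  have hε'to : Tendsto ε' atTop (𝓝 0) := (epsn_to (lamS mb hb sg lam)).comp hn0top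
  obtain ⟨Ce, hCe, hηev⟩ := GE.v0_eta hST hβ hn0 hN _ hl w hw v0 hv0
  set η : ℕ → ℝ := fun n => Ce * (qn (n0 n))⁻¹ with hη
  have hη0 : ∀ n, 0 ≤ η n := fun n => mul_nonneg hCe.le (inv_nonneg.mpr (qn_nonneg _))
  have hηto : Tendsto η atTop (𝓝 0) := by
    have := (inv_qn.comp hn0top).const_mul Ce
    simpa using this
  have hNto : Tendsto (fun n : ℕ => ((N n : ℕ) : ℝ)⁻¹) atTop (𝓝 0) := by
    refine squeeze_zero' (Eventually.of_forall fun n => by positivity) ?_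
      (tendsto_inv_atTop_nhds_zero_nat (𝕜 := ℝ))
    filter_upwards [eventually_ge_atTop 1] with n hn
    have hn' : (0 : ℝ) < n := by exact_mod_cast hn
    refine inv_anti₀ hn' ?_
    have h1 := hN n
    have : n ≤ N n := by nlinarith
    exact_mod_cast this
  set S : ℕ → ℝ := fun n => η n + δ n + δ' n + ε n + ε' n + ((N n : ℕ) : ℝ)⁻¹ with hS
  have hS0 : ∀ n, 0 ≤ S n := by
    intro n
    have h1 := hη0 n
    have h2 := hε0 n
    have h3 := hε'0 n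
    have h4 : 0 ≤ δ n := norm_nonneg _
    have h5 : 0 ≤ δ' n := norm_nonneg _
    have h6 : 0 ≤ ((N n : ℕ) : ℝ)⁻¹ := by positivity
    simp only [hS]
    linarith
  have hSto : Tendsto S atTop (𝓝 0) := by
    have := ((((hηto.add hδto).add hδ'to).add hεto).add hε'to).add hNto
    simpa using this
  -- the residual of the staircase solution
  set P : ℕ → Prop := fun n => 1 ≤ n ∧ 1 ≤ n0 n ∧ ε n ≤ 1 ∧ ε' n ≤ 1 ∧ δ' n ≤ 1 / 8 ∧
    ∀ g ∈ Icc (1 : ℤ) (N n), ‖v0 n g - 1‖ ≤ η n * g with hP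
  have hPev : ∀ᶠ n in atTop, P n := by
    filter_upwards [eventually_ge_atTop 1, hn0top.eventually_ge_atTop 1,
      hεto.eventually_le_const (by norm_num : (0:ℝ) < 1),
      hε'to.eventually_le_const (by norm_num : (0:ℝ) < 1),
      hδ'to.eventually_le_const (by norm_num : (0:ℝ) < 1 / 8), hηev] with n h1 h2 h3 h4 h5 h6
    exact ⟨h1, h2, h3, h4, h5, h6⟩
  set bd : ℕ → ℝ := fun n =>
      ‖2 * ((G n).sig2 : ℂ) * (1 - 4 * zn (1 / 4) w (n0 n))
        - ((G n).mbar : ℂ) * (1 - zn (G n).rho w n / ((G n).rho : ℂ))‖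
            * Real.sqrt (nsq (N n) (v0 n))
      + 2 * |2 * (G n).sig2 * epsn (lamS mb hb sg lam) (n0 n) - (G n).hbar * epsn lam n|
            * Real.sqrt (nsq (N n) (mulg 1 (v0 n)))
      + CE * ((‖((G n).rho : ℂ) - zn (G n).rho w n‖ + ‖(1 / 4 : ℂ) - zn (1 / 4) w (n0 n)‖)
            * Real.sqrt (En (N n) (v0 n))
          + (epsn lam n + epsn (lamS mb hb sg lam) (n0 n))
            * (Real.sqrt (En (N n) (mulg 1 (v0 n))) + Real.sqrt (nsq (N n) (v0 n)))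
          + (‖((G n).rho : ℂ) - zn (G n).rho w n‖ + ‖(1 / 4 : ℂ) - zn (1 / 4) w (n0 n)‖) ^ 2
            * Real.sqrt (nsq (N n) (v0 n))
          + (epsn lam n + epsn (lamS mb hb sg lam) (n0 n)) ^ 2
            * Real.sqrt (nsq (N n) (mulg 2 (v0 n)))
          + ‖v0 n (N n)‖) with hbd
  have hbdto : Tendsto (fun n => qn n ^ 3 * bd n) atTop (𝓝 0) :=
    GE.rb_small hSUP0 hW0 hK.lim_m hK.lim_h hK.lim_s hmb hsg hn0 hN lam hlam hl w hw v0 hv0 CE hCE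
  have hrr : ∀ n, ∃ rb rl : ℤ → ℂ, P n →
      (∀ g ∈ Icc (1 : ℤ) (N n), (G n).Lop (ε n) (z n) (N n) (v0 n) g
        = ((G n).kap g : ℂ) + rb g + rl g) ∧
      Real.sqrt (nsq (N n) rb) ≤ bd n ∧
      ∀ g ∈ Icc (1 : ℤ) (N n), ‖rl g‖ ≤ CE * θE ^ g.toNat * S n := by
    intro n
    by_cases hPn : P n
    · obtain ⟨h1, h2, h3, h4, h5, h6⟩ := hPn
      obtain ⟨rb, rl, ha, hb', hc⟩ := hE (G n) (hG n) (N n) (ε n) (ε' n) (η n) (z n) (z' n) (v0 n)
        (hε0 n) h3 (hε'0 n) h4 (hzle n) (hz'le n) h5 (hη0 n) (hv0 n h1 h2) h6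
      exact ⟨rb, rl, fun _ => ⟨ha, hb', hc⟩⟩
    · exact ⟨0, 0, fun h => absurd h hPn⟩
  choose rb rl hres using hrr
  -- the two parts of the source
  set cd : ℕ → ℤ → ℂ := fun n g =>
    capz (C0 n) (s n) 0 (z n) g - (sr (G n).rho (C0 n) (s n) g : ℂ) with hcd
  set e1 : ℕ → ℤ → ℂ := fun n g => cd n g - (A n : ℂ) * rl n g with he1
  set edge : ℕ → ℤ → ℂ := fun n g =>
    ((∑ g' ∈ (Icc (g - (G n).R) (g + (G n).R)).filter (fun g' => ((N n : ℕ) : ℤ) < g'),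
      (G n).Kc g g' * (vc n g' - A n) : ℝ) : ℂ) with hedge
  set D : ℕ → ℤ → ℂ := fun n => Df (G n) (ε n) (z n) (N n) (Yf (N n) (vc n) (A n)) with hDdef
  set e2 : ℕ → ℤ → ℂ := fun n g => (-((A n : ℂ) * rb n g)) + (-edge n g) + (-D n g) with he2
  set W : ℕ → ℤ → ℂ := fun n g => v n g - (A n : ℂ) * v0 n g - Yf (N n) (vc n) (A n) g with hWdef
  have hex : ∀ n : ℕ, ∃ u : ℤ → ℂ, (G n).Solves (ε n) (z n) (N n) u (e1 n) := fun n =>
    (hr (G n) (hG n) (N n) (ε n) (z n) (hε0 n) (hzle n)).1 (e1 n)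
  choose W1 hW1 using hex
  have hLsub : ∀ (n : ℕ) (f k : ℤ → ℂ) (g : ℤ),
      (G n).Lop (ε n) (z n) (N n) (fun x => f x - k x) g
      = (G n).Lop (ε n) (z n) (N n) f g - (G n).Lop (ε n) (z n) (N n) k g := by
    intro n f k g
    unfold GapKernel.Lop
    rw [Kap_sub]
    ring
  have hLsmul : ∀ (n : ℕ) (c : ℂ) (f : ℤ → ℂ) (g : ℤ),
      (G n).Lop (ε n) (z n) (N n) (fun x => c * f x) g
      = c * (G n).Lop (ε n) (z n) (N n) f g := by
    intro n c f g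
    unfold GapKernel.Lop
    rw [Kap_smul]
    ring
  have hWeq : ∀ n, P n → ∀ g ∈ Icc (1 : ℤ) (N n),
      (G n).Lop (ε n) (z n) (N n) (W n) g = e1 n g + e2 n g := by
    intro n hPn g hg
    have hL : (G n).Lop (ε n) (z n) (N n) (W n) g
        = capz (C0 n) (s n) 0 (z n) g - (A n : ℂ) * (G n).Lop (ε n) (z n) (N n) (v0 n) g
          - (G n).Lop (ε n) (z n) (N n) (Yf (N n) (vc n) (A n)) g := by
      have e3 : W n = fun x => (fun y => v n y - (fun u => (A n : ℂ) * v0 n u) y) x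
          - Yf (N n) (vc n) (A n) x := rfl
      rw [e3, hLsub, hLsub, hLsmul, (hsol n hPn.1 hPn.2.1).1.2 g hg]
    rw [hL, Lop_eq_crit (G n) (ε n) (z n) (N n) (Yf (N n) (vc n) (A n)) g,
      Lop_Yf (G n) (N n) (sr (G n).rho (C0 n) (s n)) (vc n) (A n) (hvc n).eq g hg,
      (hres n hPn).1 g hg]
    simp only [he1, he2, hedge, hDdef, hcd]
    push_cast
    ring
  have hW2 : ∀ n, P n →
      (G n).Solves (ε n) (z n) (N n) (fun g => W n g - W1 n g) (e2 n) := by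
    intro n hPn
    refine ⟨fun g hg => ?_, fun g hg => ?_⟩
    · have h1 := (hsol n hPn.1 hPn.2.1).1.1 g hg
      have h2 := (hsol n hPn.1 hPn.2.1).2.1 g hg
      have h3 := (hW1 n).1 g hg
      have h4 : Yf (N n) (vc n) (A n) g = 0 := by
        unfold Yf
        rw [if_neg]
        omega
      simp only [hWdef, h1, h2, h3, h4]
      ring
    · rw [hLsub, hWeq n hPn g hg, (hW1 n).2 g hg]
      ring
  -- weighted norm of `e1`
  set T4 : ℝ := ∑' m : ℕ, (m : ℝ) ^ 4 * θE ^ m with hT4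
  have hT40 : 0 ≤ T4 := tsum_nonneg fun m => by positivity
  set T5 : ℝ := C * (C * ∑' m : ℕ, (m : ℝ) ^ 5 * θ ^ m) with hT5
  have hlw : Tendsto (fun n : ℕ => lw 4 (N n) (e1 n)) atTop (𝓝 0) := by
    have hb1 : Tendsto (fun n : ℕ => T5 * δ n + Cc * (CE * S n * T4)) atTop (𝓝 0) := by
      have := (hδto.const_mul T5).add (((hSto.const_mul CE).mul_const T4).const_mul Cc)
      simpa using this
    refine squeeze_zero' (Eventually.of_forall fun n => GE.lw_nonneg _ _ _) ?_ hb1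
    filter_upwards [hPev] with n hPn
    have h1 := GE.lw_sub_smul 4 (N n) (cd n) (rl n) (A n : ℂ)
    have h2 := GE.lw_capdiff hC hθ hθ1 (hG n) (hs n) (N n) (z n) (hzle n)
    have h3 := GE.lw_exp hθE hθE1 (N n) (rl n) CE (S n) hCE.le (hS0 n) (hres n hPn).2.2
    have h4 : ‖(A n : ℂ)‖ ≤ Cc := by
      rw [Complex.norm_real, Real.norm_of_nonneg (hA0 n)]
      exact hA2 n
    have h5 : ‖(A n : ℂ)‖ * lw 4 (N n) (rl n) ≤ Cc * (CE * S n * T4) :=
      mul_le_mul h4 h3 (GE.lw_nonneg _ _ _) hCc0.le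
    exact h1.trans (add_le_add h2 h5)
  -- W1
  have hCinv : 0 < C⁻¹ := inv_pos.mpr hC
  have hne : ∀ n, 1 ≤ n → z n ≠ ((G n).rho : ℂ) := fun n hn => zn_ne _ (G n).rho_pos w hw n hn
  have hT1 : Tendsto (fun n : ℕ => nsq (N n) (W1 n) / Real.sqrt n) atTop (𝓝 0) := by
    have hb1 : Tendsto (fun n : ℕ => Cw * (lw 4 (N n) (e1 n)) ^ 2
        / Real.sqrt (C⁻¹ * ((n : ℝ) * τ n))) atTop (𝓝 0) := by
      have h1 : Tendsto (fun n : ℕ => Cw * (lw 4 (N n) (e1 n)) ^ 2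
          / Real.sqrt (C⁻¹ * ((n : ℝ) * τ n))) atTop
          (𝓝 (Cw * 0 ^ 2 / Real.sqrt (C⁻¹ * ‖w‖))) :=
        ((hlw.pow 2).const_mul Cw).div ((Real.continuous_sqrt.tendsto _).comp (hnτ.const_mul C⁻¹))
          (Real.sqrt_pos.mpr (by positivity)).ne'
      have e3 : Cw * 0 ^ 2 / Real.sqrt (C⁻¹ * ‖w‖) = 0 := by simp
      rw [e3] at h1
      exact h1
    refine squeeze_zero' (Eventually.of_forall fun n => div_nonneg (nsq_nonneg _ _)
      (Real.sqrt_nonneg _)) ?_ hb1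
    filter_upwards [eventually_ge_atTop 1, hnτ.eventually_const_lt hwn] with n hn hnt
    have h1 := (hw' (G n) (hG n) (N n) (ε n) (z n) (W1 n) (e1 n) (hε0 n) (hzle n) (hne n hn)
      (hW1 n)).1 0 (by norm_num)
    rw [nsq_mulg_zero, pow_zero, mul_one] at h1
    have hδpos : 0 < δ n := norm_pos_iff.mpr (sub_ne_zero.mpr (hne n hn).symm)
    have hn' : (0 : ℝ) < n := by exact_mod_cast hn
    have hle : Real.sqrt (C⁻¹ * ((n : ℝ) * τ n)) ≤ Real.sqrt (δ n) * Real.sqrt n := by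
      rw [← Real.sqrt_mul hδpos.le]
      refine Real.sqrt_le_sqrt ?_
      have := hδge n
      nlinarith
    have hpos : 0 < Real.sqrt (C⁻¹ * ((n : ℝ) * τ n)) := Real.sqrt_pos.mpr (by positivity)
    calc nsq (N n) (W1 n) / Real.sqrt n
        ≤ (Cw * (lw 4 (N n) (e1 n)) ^ 2 / Real.sqrt (δ n)) / Real.sqrt n := by
          gcongr
      _ = Cw * (lw 4 (N n) (e1 n)) ^ 2 / (Real.sqrt (δ n) * Real.sqrt n) := by rw [div_div]
      _ ≤ _ := by gcongr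
  -- e2
  set CD : ℝ := ((C + 1) * (4 * B)) ^ 2 with hCD
  have hCD0 : 0 ≤ CD := sq_nonneg _
  have hE2 : Tendsto (fun n : ℕ => qn n ^ 6 * nsq (N n) (e2 n)) atTop (𝓝 0) := by
    have hi := inv_qn
    have hee : Tendsto (fun n : ℕ => (n : ℝ) * ε n) atTop (𝓝 0) := by
      have h1 : Tendsto (fun n : ℕ => lam / Real.sqrt n) atTop (𝓝 0) := sqrt_atTop.const_div_atTop lam
      refine h1.congr' ?_
      filter_upwards [eventually_ge_atTop 1] with n hn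
      have hn' : (0 : ℝ) < n := by exact_mod_cast hn
      simp only [hε]
      unfold epsn
      field_simp
    have hb1 : Tendsto (fun n : ℕ => 3 * (Cc ^ 2 * (qn n ^ 3 * bd n) ^ 2
        + Cv * ((qn n)⁻¹) ^ 2
        + CD * Cv * ((n : ℝ) * τ n + (n : ℝ) * ε n) ^ 2 * ((qn n)⁻¹) ^ 2)) atTop (𝓝 0) := by
      have h1 := (((hbdto.pow 2).const_mul (Cc ^ 2)).add ((hi.pow 2).const_mul Cv)).add
        ((((hnτ.add hee).pow 2).const_mul (CD * Cv)).mul (hi.pow 2)) |>.const_mul 3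
      simpa using h1
    refine squeeze_zero' (Eventually.of_forall fun n =>
      mul_nonneg (by have := qn_nonneg n; positivity) (nsq_nonneg _ _)) ?_ hb1
    filter_upwards [hPev] with n hPn
    have hn := hPn.1
    have hq := qn_pos n hn
    have hn' : (0 : ℝ) < n := by exact_mod_cast hn
    have hNn : 1 ≤ N n := by
      have := hN n
      nlinarith
    have hN8 : qn n ^ 8 ≤ (N n : ℝ) := by
      have h1 : 4 * n ^ 2 ≤ N n := by have := hN n; omega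
      have h2 : (4 : ℝ) * n ^ 2 ≤ N n := by exact_mod_cast h1
      have h3 : qn n ^ 8 = (qn n ^ 4) ^ 2 := by ring
      rw [h3, qn_four]
      nlinarith [sq_nonneg (n : ℝ)]
    have h3 := nsq_add3 (N n) (fun g => -((A n : ℂ) * rb n g)) (fun g => -edge n g)
      (fun g => -D n g)
    have hbd0 : 0 ≤ bd n := le_trans (Real.sqrt_nonneg _) (hres n hPn).2.1
    have h4 : nsq (N n) (fun g => -((A n : ℂ) * rb n g)) ≤ Cc ^ 2 * bd n ^ 2 := by
      have h5 : nsq (N n) (fun g => -((A n : ℂ) * rb n g)) = (A n) ^ 2 * nsq (N n) (rb n) := by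
        unfold nsq
        rw [Finset.mul_sum]
        refine Finset.sum_congr rfl fun g _ => ?_
        rw [norm_neg, norm_mul, mul_pow, Complex.norm_real, Real.norm_eq_abs, sq_abs]
      rw [h5]
      have h6 : nsq (N n) (rb n) ≤ bd n ^ 2 := by
        rw [← Real.sq_sqrt (nsq_nonneg (N n) (rb n))]
        exact pow_le_pow_left₀ (Real.sqrt_nonneg _) (hres n hPn).2.1 2
      have h7 : (A n) ^ 2 ≤ Cc ^ 2 := pow_le_pow_left₀ (hA0 n) (hA2 n) 2
      exact mul_le_mul h7 h6 (nsq_nonneg _ _) (sq_nonneg _)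
    have h5 : nsq (N n) (fun g => -edge n g) ≤ Cv / N n := by
      have := GE.nsq_edge' (G n) (vc n) (A n) Cv (hCv n) (N n) hNn
      refine le_trans (le_of_eq ?_) this
      unfold nsq
      refine Finset.sum_congr rfl fun g _ => ?_
      rw [norm_neg]
    have h6 : nsq (N n) (fun g => -D n g) ≤ CD * (δ n + ε n) ^ 2 * Cv := by
      have := GE.nsq_Df' hC hB.le (hG n) (hBsum (G n) (hG n)) (ε n) (z n) (N n) (vc n) (A n) Cv
        (hε0 n) (hzle n) (hCv n (N n))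
      refine le_trans (le_of_eq ?_) this
      unfold nsq
      refine Finset.sum_congr rfl fun g _ => ?_
      rw [norm_neg]
    have h7 : Cv / (N n : ℝ) ≤ Cv * ((qn n)⁻¹) ^ 8 := by
      rw [div_eq_mul_inv]
      gcongr
      rw [inv_pow]
      gcongr
    have h8 : CD * (δ n + ε n) ^ 2 * Cv ≤ CD * (τ n + ε n) ^ 2 * Cv := by
      have h9 := hδle n
      have h10 : 0 ≤ δ n := norm_nonneg _
      have h11 := hε0 n
      gcongr
    have h9 : nsq (N n) (e2 n) ≤ 3 * (Cc ^ 2 * bd n ^ 2 + Cv * ((qn n)⁻¹) ^ 8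
        + CD * (τ n + ε n) ^ 2 * Cv) := by
      refine h3.trans ?_
      have h10 := h5.trans h7
      have h11 := h6.trans h8
      linarith
    calc qn n ^ 6 * nsq (N n) (e2 n) ≤ qn n ^ 6 * (3 * (Cc ^ 2 * bd n ^ 2
          + Cv * ((qn n)⁻¹) ^ 8 + CD * (τ n + ε n) ^ 2 * Cv)) := by
          gcongr
      _ = _ := by
          rw [← qn_four n]
          field_simp
  -- W2
  have hT2 : Tendsto (fun n : ℕ => nsq (N n) (fun g => W n g - W1 n g) / Real.sqrt n) atTop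
      (𝓝 0) := by
    have hb1 : Tendsto (fun n : ℕ => Cr ^ 2 / (C⁻¹ * ((n : ℝ) * τ n)) ^ 2
        * (qn n ^ 6 * nsq (N n) (e2 n))) atTop (𝓝 0) := by
      have h1 : Tendsto (fun n : ℕ => Cr ^ 2 / (C⁻¹ * ((n : ℝ) * τ n)) ^ 2) atTop
          (𝓝 (Cr ^ 2 / (C⁻¹ * ‖w‖) ^ 2)) :=
        tendsto_const_nhds.div ((hnτ.const_mul C⁻¹).pow 2) (by positivity)
      simpa using h1.mul hE2
    refine squeeze_zero' (Eventually.of_forall fun n => div_nonneg (nsq_nonneg _ _)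
      (Real.sqrt_nonneg _)) ?_ hb1
    filter_upwards [hPev, hnτ.eventually_const_lt hwn] with n hPn hnt
    have hn := hPn.1
    have hδpos : 0 < δ n := norm_pos_iff.mpr (sub_ne_zero.mpr (hne n hn).symm)
    have hn' : (0 : ℝ) < n := by exact_mod_cast hn
    have hq := qn_pos n hn
    have h1 := ((hr (G n) (hG n) (N n) (ε n) (z n) (hε0 n) (hzle n)).2.2 _ _ (hW2 n hPn)).1
    set X := nsq (N n) (fun g => W n g - W1 n g) with hX
    have hX0 : 0 ≤ X := nsq_nonneg _ _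
    have hE0 := nsq_nonneg (N n) (e2 n)
    have h2 : δ n ^ 2 * X ≤ Cr ^ 2 * nsq (N n) (e2 n) := by
      have h3 : (δ n * Real.sqrt X) ^ 2 ≤ (Cr * Real.sqrt (nsq (N n) (e2 n))) ^ 2 := by
        gcongr
      rw [mul_pow, mul_pow, Real.sq_sqrt hX0, Real.sq_sqrt hE0] at h3
      exact h3
    have h4 : X ≤ Cr ^ 2 * nsq (N n) (e2 n) / δ n ^ 2 := by
      rw [le_div_iff₀ (by positivity)]
      linarith
    have h5 : C⁻¹ * ((n : ℝ) * τ n) ≤ (n : ℝ) * δ n := by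
      have := hδge n
      nlinarith
    have h6 : 0 < C⁻¹ * ((n : ℝ) * τ n) := by positivity
    calc X / Real.sqrt n ≤ (Cr ^ 2 * nsq (N n) (e2 n) / δ n ^ 2) / Real.sqrt n := by gcongr
      _ = Cr ^ 2 / ((n : ℝ) * δ n) ^ 2 * (qn n ^ 6 * nsq (N n) (e2 n)) := by
          rw [← qn_sq n, ← qn_four n]
          field_simp
      _ ≤ _ := by gcongr
  -- Y
  have hT3 : Tendsto (fun n : ℕ => nsq (N n) (Yf (N n) (vc n) (A n)) / Real.sqrt n) atTop
      (𝓝 0) := by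
    refine squeeze_zero (fun n => div_nonneg (nsq_nonneg _ _) (Real.sqrt_nonneg _)) (fun n => ?_)
      (sqrt_atTop.const_div_atTop Cv)
    have := nsq_Yf (N n) (vc n) (A n) Cv (hCv n (N n))
    gcongr
  -- conclusion
  have hfin : Tendsto (fun n : ℕ => 3 * (nsq (N n) (W1 n) / Real.sqrt n
      + nsq (N n) (fun g => W n g - W1 n g) / Real.sqrt n
      + nsq (N n) (Yf (N n) (vc n) (A n)) / Real.sqrt n)) atTop (𝓝 0) := by
    have := ((hT1.add hT2).add hT3).const_mul 3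
    simpa using this
  refine squeeze_zero (fun n => div_nonneg (nsq_nonneg _ _) (Real.sqrt_nonneg _)) (fun n => ?_) hfin
  have h1 := nsq_add3 (N n) (W1 n) (fun g => W n g - W1 n g) (Yf (N n) (vc n) (A n))
  have h2 : nsq (N n) (fun g => W1 n g + (W n g - W1 n g) + Yf (N n) (vc n) (A n) g)
      = nsq (N n) (fun g => v n g - (A n : ℂ) * v0 n g) := by
    refine nsq_congr _ _ _ fun g _ => ?_
    simp only [hWdef]
    ring
  rw [h2] at h1
  calc nsq (N n) (fun g => v n g - (A n : ℂ) * v0 n g) / Real.sqrt n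
      ≤ (3 * (nsq (N n) (W1 n) + nsq (N n) (fun g => W n g - W1 n g)
        + nsq (N n) (Yf (N n) (vc n) (A n)))) / Real.sqrt n := by gcongr
    _ = _ := by ring

end Pool.Agent.TPK
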