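import Mathlib
import Pool.Agent.TPK.Basic

/-! MODULE VLIM : a bounded nonnegative solution of the critical equation tends to a positive
constant with a square summable rate. -/

set_option autoImplicit false

open Finset Filter Topology

namespace Pool.Agent.TPK

open Pool.Agent.Gap

namespace VL

/-! ### sums over `ℤ` of functions with finite support -/

lemma sm {f : ℤ → ℝ} (h : (Function.support f).Finite) : Summable f :=
  summable_of_hasFiniteSupport h

lemma fin_of_Icc {f : ℤ → ℝ} {a b : ℤ} (h : ∀ g, (g < a ∨ b < g) → f g = 0) :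
    (Function.support f).Finite := by
  refine (Set.finite_Icc a b).subset fun g hg => ?_
  rw [Function.mem_support] at hg
  rw [Set.mem_Icc]
  by_contra hc
  exact hg (h g (by omega))

lemma tsum_eq_Icc {f : ℤ → ℝ} {a b : ℤ} (h : ∀ g, (g < a ∨ b < g) → f g = 0) :
    ∑' g, f g = ∑ g ∈ Icc a b, f g := by
  refine tsum_eq_sum fun g hg => h g ?_
  rw [Finset.mem_Icc] at hg
  omega

lemma tsum_shift (f : ℤ → ℝ) (c : ℤ) : ∑' g, f (g + c) = ∑' g, f g :=
  (Equiv.addRight c).tsum_eq f

lemma tsum_fin_sum {ι : Type*} (s : Finset ι) (F : ι → ℤ → ℝ)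
    (h : ∀ i ∈ s, (Function.support (F i)).Finite) :
    ∑' g, ∑ i ∈ s, F i g = ∑ i ∈ s, ∑' g, F i g :=
  Summable.tsum_finsetSum fun i hi => sm (h i hi)

/-- convolution square window sum -/
noncomputable def S (d : ℕ) (v : ℤ → ℝ) (g : ℤ) : ℝ :=
  ∑ t ∈ range d, ∑ t' ∈ range d, v (g + t' - t)

lemma S_second (d : ℕ) (v : ℤ → ℝ) (g : ℤ) :
    S d v (g + 1) + S d v (g - 1) - 2 * S d v g = v (g + d) + v (g - d) - 2 * v g := by
  set W : ℤ → ℝ := fun x => ∑ t' ∈ range d, v (x + t') with hW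
  have hW1 : ∀ x, W (x + 1) - W x = v (x + d) - v x := by
    intro x
    have h1 : ∑ t' ∈ range (d + 1), v (x + t') = W x + v (x + d) := by
      rw [Finset.sum_range_succ]
    have h2 : ∑ t' ∈ range (d + 1), v (x + t') = W (x + 1) + v x := by
      rw [Finset.sum_range_succ']
      simp only [hW]
      congr 1
      · refine Finset.sum_congr rfl fun t _ => ?_
        push_cast
        congr 1
        ring
      · simp
    linarith
  have hS : ∀ x, S d v x = ∑ t ∈ range d, W (x - t) := by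
    intro x
    unfold S
    refine Finset.sum_congr rfl fun t _ => ?_
    simp only [hW]
    refine Finset.sum_congr rfl fun t' _ => ?_
    congr 1
    ring
  have hS1 : ∀ x, S d v (x + 1) - S d v x = W (x + 1) - W (x + 1 - d) := by
    intro x
    rw [hS, hS, ← Finset.sum_sub_distrib]
    have := Finset.sum_range_sub' (fun t : ℕ => W (x + 1 - t)) d
    simp only [Nat.cast_zero, sub_zero] at this
    rw [← this]
    refine Finset.sum_congr rfl fun t _ => ?_
    push_cast
    congr 2
    ring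
  have a1 := hS1 g
  have a2 := hS1 (g - 1)
  have e0 : g - 1 + 1 = g := by ring
  rw [e0] at a2
  have b1 := hW1 g
  have b2 := hW1 (g - d)
  have e1 : g - (d : ℤ) + 1 = g + 1 - d := by ring
  have e2 : g - (d : ℤ) + d = g := by ring
  rw [e1, e2] at b2
  linarith

lemma S_const (d : ℕ) (A : ℝ) (g : ℤ) : S d (fun _ => A) g = (d : ℝ) ^ 2 * A := by
  unfold S
  simp
  ring

lemma S_sub (d : ℕ) (v w : ℤ → ℝ) (g : ℤ) :
    S d (fun x => v x - w x) g = S d v g - S d w g := by
  unfold S
  simp only [Finset.sum_sub_distrib]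

lemma S_nonneg (d : ℕ) (v : ℤ → ℝ) (hv : ∀ g, 0 ≤ v g) (g : ℤ) : 0 ≤ S d v g :=
  Finset.sum_nonneg fun _ _ => Finset.sum_nonneg fun _ _ => hv _

lemma S_abs_le (d : ℕ) (v : ℤ → ℝ) (B : ℝ) (hv : ∀ g, |v g| ≤ B) (g : ℤ) :
    |S d v g| ≤ (d : ℝ) ^ 2 * B := by
  unfold S
  calc |∑ t ∈ range d, ∑ t' ∈ range d, v (g + t' - t)|
      ≤ ∑ t ∈ range d, |∑ t' ∈ range d, v (g + t' - t)| := Finset.abs_sum_le_sum_abs _ _
    _ ≤ ∑ t ∈ range d, ∑ t' ∈ range d, |v (g + t' - t)| :=
        Finset.sum_le_sum fun _ _ => Finset.abs_sum_le_sum_abs _ _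
    _ ≤ ∑ t ∈ range d, ∑ t' ∈ range d, B :=
        Finset.sum_le_sum fun _ _ => Finset.sum_le_sum fun _ _ => hv _
    _ = (d : ℝ) ^ 2 * B := by simp; ring

/-- positive definiteness of the window kernel -/
lemma S_posdef (d : ℕ) (f : ℤ → ℝ) (hf : (Function.support f).Finite) :
    0 ≤ ∑' g, f g * S d f g := by
  have hfin : ∀ (a b : ℤ), (Function.support fun g => f (g + a) * f (g + b)).Finite := by
    intro a b
    refine (hf.preimage (f := fun g : ℤ => g + a) (by intro x _ y _ h; simpa using h)).subset ?_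
    intro g hg
    rw [Function.mem_support] at hg
    exact left_ne_zero_of_mul hg
  have h1 : ∑' g, f g * S d f g = ∑' m, (∑ t ∈ range d, f (m + t)) ^ 2 := by
    have e1 : ∀ g, f g * S d f g = ∑ t ∈ range d, ∑ t' ∈ range d, f g * f (g + t' - t) := by
      intro g
      unfold S
      rw [Finset.mul_sum]
      refine Finset.sum_congr rfl fun t _ => ?_
      rw [Finset.mul_sum]
    have e2 : ∀ m : ℤ, (∑ t ∈ range d, f (m + t)) ^ 2
        = ∑ t ∈ range d, ∑ t' ∈ range d, f (m + t) * f (m + t') := by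
      intro m
      rw [sq, Finset.sum_mul_sum]
    simp only [e1, e2]
    have f1 : ∀ (t t' : ℤ), (Function.support fun g => f g * f (g + t' - t)).Finite := by
      intro t t'
      have := hfin 0 (t' - t)
      refine this.subset ?_
      intro g hg
      rw [Function.mem_support] at hg ⊢
      rw [add_zero, show g + (t' - t) = g + t' - t by ring]
      exact hg
    rw [tsum_fin_sum, tsum_fin_sum]
    · refine Finset.sum_congr rfl fun t _ => ?_
      rw [tsum_fin_sum, tsum_fin_sum]
      · refine Finset.sum_congr rfl fun t' _ => ?_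
        rw [← tsum_shift (fun g => f g * f (g + t' - t)) t]
        refine tsum_congr fun g => ?_
        congr 2
        ring
      · intro t' _
        exact hfin t t'
      · intro t' _
        exact f1 t t'
    · intro t _
      refine Set.Finite.subset (Set.Finite.biUnion (range d).finite_toSet
        (fun t' _ => hfin t t')) ?_
      intro g hg
      rw [Function.mem_support] at hg
      obtain ⟨t', ht', hne⟩ := Finset.exists_ne_zero_of_sum_ne_zero hg
      exact Set.mem_biUnion ht' hne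
    · intro t _
      refine Set.Finite.subset (Set.Finite.biUnion (range d).finite_toSet
        (fun t' _ => f1 t t')) ?_
      intro g hg
      rw [Function.mem_support] at hg
      obtain ⟨t', ht', hne⟩ := Finset.exists_ne_zero_of_sum_ne_zero hg
      exact Set.mem_biUnion ht' hne
  rw [h1]
  exact tsum_nonneg fun _ => sq_nonneg _

/-- commutator identity -/
lemma S_comm (d : ℕ) (z y : ℤ → ℝ) (hz : (Function.support z).Finite) :
    ∑ t ∈ range d, ∑ t' ∈ range d,
        ∑' g : ℤ, (z g - z (g + ((t' : ℤ) - t))) ^ 2 * (y g * y (g + ((t' : ℤ) - t)))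
      = 2 * ∑' g, z g ^ 2 * (y g * S d y g) - 2 * ∑' g, (z g * y g) * S d (fun x => z x * y x) g := by
  have hz2 : ∀ (F : ℤ → ℝ), (Function.support fun g => z g * F g).Finite := by
    intro F
    refine hz.subset fun g hg => ?_
    rw [Function.mem_support] at hg ⊢
    exact left_ne_zero_of_mul hg
  have hz3 : ∀ (c : ℤ) (F : ℤ → ℝ), (Function.support fun g => z (g + c) * F g).Finite := by
    intro c F
    refine (hz.preimage (f := fun g : ℤ => g + c) (by intro x _ y _ h; simpa using h)).subset ?_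
    intro g hg
    rw [Function.mem_support] at hg
    exact left_ne_zero_of_mul hg
  set P : ℤ → ℝ := fun j => ∑' g, z g * (z g * y g * y (g + j)) with hP
  set Q : ℤ → ℝ := fun j => ∑' g, z g * (z (g + j) * y g * y (g + j)) with hQ
  have hD : ∀ j : ℤ, ∑' g : ℤ, (z g - z (g + j)) ^ 2 * (y g * y (g + j)) = P j + P (-j) - 2 * Q j := by
    intro j
    have e1 : ∀ g, (z g - z (g + j)) ^ 2 * (y g * y (g + j))
        = z g * (z g * y g * y (g + j)) + z (g + j) * (z (g + j) * y g * y (g + j))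
          - 2 * (z g * (z (g + j) * y g * y (g + j))) := by
      intro g; ring
    simp only [e1]
    have s1 : Summable fun g => z g * (z g * y g * y (g + j)) := sm (hz2 _)
    have s2 : Summable fun g => z (g + j) * (z (g + j) * y g * y (g + j)) := sm (hz3 j _)
    have s3 : Summable fun g => z g * (z (g + j) * y g * y (g + j)) := sm (hz2 _)
    rw [(s1.add s2).tsum_sub (s3.mul_left 2), s1.tsum_add s2, tsum_mul_left]
    congr 2
    rw [← tsum_shift (fun g => z (g + j) * (z (g + j) * y g * y (g + j))) (-j)]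
    refine tsum_congr fun g => ?_
    rw [show g + -j + j = g by ring]
    ring
  simp only [hD]
  have hswap : ∑ t ∈ range d, ∑ t' ∈ range d, P (-((t' : ℤ) - t))
      = ∑ t ∈ range d, ∑ t' ∈ range d, P ((t' : ℤ) - t) := by
    rw [Finset.sum_comm]
    refine Finset.sum_congr rfl fun t _ => Finset.sum_congr rfl fun t' _ => ?_
    congr 1
    ring
  have hsum : ∑ t ∈ range d, ∑ t' ∈ range d,
      (P ((t' : ℤ) - t) + P (-((t' : ℤ) - t)) - 2 * Q ((t' : ℤ) - t))
      = 2 * ∑ t ∈ range d, ∑ t' ∈ range d, P ((t' : ℤ) - t)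
        - 2 * ∑ t ∈ range d, ∑ t' ∈ range d, Q ((t' : ℤ) - t) := by
    simp only [Finset.sum_sub_distrib, Finset.sum_add_distrib, hswap, ← Finset.mul_sum]
    ring
  rw [hsum]
  have fin_sum : ∀ (F : ℕ → ℤ → ℝ), (∀ t, (Function.support (F t)).Finite) →
      (Function.support fun g => ∑ t ∈ range d, F t g).Finite := by
    intro F hF
    refine Set.Finite.subset (Set.Finite.biUnion (range d).finite_toSet (fun t _ => hF t)) ?_
    intro g hg
    rw [Function.mem_support] at hg
    obtain ⟨t, ht, hne⟩ := Finset.exists_ne_zero_of_sum_ne_zero hg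
    exact Set.mem_biUnion ht hne
  have e1 : ∑' g, z g ^ 2 * (y g * S d y g) = ∑ t ∈ range d, ∑ t' ∈ range d, P ((t' : ℤ) - t) := by
    have e : ∀ g, z g ^ 2 * (y g * S d y g)
        = ∑ t ∈ range d, ∑ t' ∈ range d, z g * (z g * y g * y (g + ((t' : ℤ) - t))) := by
      intro g
      unfold S
      rw [Finset.mul_sum, Finset.mul_sum]
      refine Finset.sum_congr rfl fun t _ => ?_
      rw [Finset.mul_sum, Finset.mul_sum]
      refine Finset.sum_congr rfl fun t' _ => ?_
      rw [show g + (t' : ℤ) - t = g + ((t' : ℤ) - t) by ring]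
      ring
    simp only [e]
    rw [tsum_fin_sum _ _ (fun t _ => fin_sum _ fun t' => hz2 _)]
    refine Finset.sum_congr rfl fun t _ => ?_
    rw [tsum_fin_sum _ _ (fun t' _ => hz2 _)]
  have e2 : ∑' g, (z g * y g) * S d (fun x => z x * y x) g
      = ∑ t ∈ range d, ∑ t' ∈ range d, Q ((t' : ℤ) - t) := by
    have e : ∀ g, (z g * y g) * S d (fun x => z x * y x) g
        = ∑ t ∈ range d, ∑ t' ∈ range d,
          z g * (z (g + ((t' : ℤ) - t)) * y g * y (g + ((t' : ℤ) - t))) := by
      intro g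
      unfold S
      rw [Finset.mul_sum]
      refine Finset.sum_congr rfl fun t _ => ?_
      rw [Finset.mul_sum]
      refine Finset.sum_congr rfl fun t' _ => ?_
      rw [show g + (t' : ℤ) - t = g + ((t' : ℤ) - t) by ring]
      ring
    simp only [e]
    rw [tsum_fin_sum _ _ (fun t _ => fin_sum _ fun t' => hz2 _)]
    refine Finset.sum_congr rfl fun t _ => ?_
    rw [tsum_fin_sum _ _ (fun t' _ => hz2 _)]
  rw [e1, e2]

variable (G : GapKernel)

/-- the critical translation invariant kernel -/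
noncomputable def kk (d : ℤ) : ℝ := ∑ i ∈ G.S, G.rho ^ i.1 * G.T i d

lemma kk_nonneg (d : ℤ) : 0 ≤ kk G d :=
  Finset.sum_nonneg fun i _ => mul_nonneg (pow_nonneg G.rho_pos.le _) (G.T_nonneg i d)

lemma kk_even (d : ℤ) : kk G (-d) = kk G d := by
  unfold kk; simp only [G.T_even]

lemma kk_range (d : ℤ) (h : (G.R : ℤ) < |d|) : kk G d = 0 := by
  unfold kk
  exact Finset.sum_eq_zero fun i _ => by rw [G.T_range i d h, mul_zero]

lemma kk_sum : ∑ d ∈ Icc (-(G.R : ℤ)) G.R, kk G d = 1 := by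
  unfold kk
  rw [Finset.sum_comm, ← G.crit]
  refine Finset.sum_congr rfl fun i _ => ?_
  rw [Finset.mul_sum]

lemma kk_one : G.rho ≤ kk G 1 := by
  have h : G.rho ^ (1, 1).1 * G.T (1, 1) 1 ≤ kk G 1 :=
    Finset.single_le_sum (f := fun i : ℕ × ℕ => G.rho ^ i.1 * G.T i 1)
      (fun i _ => mul_nonneg (pow_nonneg G.rho_pos.le _) (G.T_nonneg i 1)) G.i0_mem
  have h1 := mul_le_mul_of_nonneg_left G.T_b G.rho_pos.le
  rw [mul_one] at h1
  rw [pow_one] at h
  exact h1.trans h

lemma Kc_nonneg (g g' : ℤ) : 0 ≤ G.Kc g g' :=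
  Finset.sum_nonneg fun i _ => mul_nonneg (pow_nonneg G.rho_pos.le _) (G.K_nonneg i g g')

lemma Kc_eq (g g' : ℤ) (h1 : 1 ≤ g) (h2 : 1 ≤ g') (h : (G.R : ℤ) < g) :
    G.Kc g g' = kk G (g' - g) := by
  unfold GapKernel.Kc kk
  exact Finset.sum_congr rfl fun i _ => by rw [G.K_eq i g g' h1 h2 h]

lemma Kc_down (g : ℤ) (h : 2 ≤ g) : G.rho ≤ G.Kc g (g - 1) := by
  have h1 : G.rho ^ (1, 1).1 * G.K (1, 1) g (g - 1) ≤ G.Kc g (g - 1) :=
    Finset.single_le_sum (f := fun i : ℕ × ℕ => G.rho ^ i.1 * G.K i g (g - 1))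
      (fun i _ => mul_nonneg (pow_nonneg G.rho_pos.le _) (G.K_nonneg i _ _)) G.i0_mem
  have h2 := G.K_b (g - 1) (by omega)
  rw [sub_add_cancel, G.K_symm] at h2
  have h3 := mul_le_mul_of_nonneg_left h2 G.rho_pos.le
  rw [mul_one] at h3
  rw [pow_one] at h1
  exact h3.trans h1

lemma sum_Icc_shift (f : ℤ → ℝ) (R g : ℤ) :
    ∑ g' ∈ Icc (g - R) (g + R), f g' = ∑ d ∈ Icc (-R) R, f (g + d) := by
  have h : Icc (g - R) (g + R) = (Icc (-R) R).image (fun d => g + d) := by
    ext x
    simp only [Finset.mem_image, Finset.mem_Icc]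
    constructor
    · rintro ⟨h1, h2⟩
      exact ⟨x - g, by omega, by ring⟩
    · rintro ⟨d, ⟨h1, h2⟩, rfl⟩
      omega
  rw [h, Finset.sum_image]
  intro a _ b _ hab
  simpa using hab

/-- symmetric sums over `Icc (-R) R` -/
lemma sum_symm (F : ℤ → ℝ) (R : ℕ) :
    ∑ d ∈ Icc (-(R : ℤ)) R, F d = F 0 + ∑ d ∈ Icc 1 R, (F (d : ℤ) + F (-(d : ℤ))) := by
  induction R with
  | zero => simp
  | succ n ih =>
    have h1 : Icc (-((n + 1 : ℕ) : ℤ)) ((n + 1 : ℕ) : ℤ)
        = insert ((n + 1 : ℕ) : ℤ) (insert (-((n + 1 : ℕ) : ℤ)) (Icc (-(n : ℤ)) n)) := by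
      ext x
      simp only [Finset.mem_insert, Finset.mem_Icc]
      push_cast
      omega
    rw [h1, Finset.sum_insert, Finset.sum_insert, ih, Finset.sum_Icc_succ_top (by omega)]
    · ring
    · simp only [Finset.mem_Icc]; push_cast; omega
    · simp only [Finset.mem_insert, Finset.mem_Icc]; push_cast; omega

/-- the smoothed sequence -/
noncomputable def Phi (v : ℤ → ℝ) (g : ℤ) : ℝ := ∑ d ∈ Icc 1 G.R, kk G d * S d v g

lemma Phi_second (v : ℤ → ℝ) (g : ℤ) :
    Phi G v (g + 1) + Phi G v (g - 1) - 2 * Phi G v g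
      = (∑ d ∈ Icc (-(G.R : ℤ)) G.R, kk G d * v (g + d)) - v g := by
  have e1 : Phi G v (g + 1) + Phi G v (g - 1) - 2 * Phi G v g
      = ∑ d ∈ Icc 1 G.R, kk G d * (v (g + d) + v (g - d) - 2 * v g) := by
    unfold Phi
    rw [Finset.mul_sum, ← Finset.sum_add_distrib, ← Finset.sum_sub_distrib]
    refine Finset.sum_congr rfl fun d _ => ?_
    rw [← S_second d v g]
    ring
  have e2 := sum_symm (fun d => kk G d * v (g + d)) G.R
  have e3 := sum_symm (fun d => kk G d) G.R
  rw [kk_sum] at e3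
  have e4 : v g = kk G 0 * v g + ∑ d ∈ Icc 1 G.R, 2 * kk G d * v g := by
    have : ∑ d ∈ Icc 1 G.R, (kk G (d : ℤ) + kk G (-(d : ℤ))) = ∑ d ∈ Icc 1 G.R, 2 * kk G d := by
      refine Finset.sum_congr rfl fun d _ => ?_
      rw [kk_even]; ring
    rw [this] at e3
    rw [← Finset.sum_mul, ← add_mul, ← e3, one_mul]
  rw [e1, e2]
  conv_rhs => rw [e4]
  simp only [add_zero]
  rw [add_sub_add_left_eq_sub, ← Finset.sum_sub_distrib]
  refine Finset.sum_congr rfl fun d _ => ?_
  rw [kk_even]
  simp only [← sub_eq_add_neg]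
  ring

/-- total mass of the smoothing kernel -/
noncomputable def c0 : ℝ := ∑ d ∈ Icc 1 G.R, kk G d * (d : ℝ) ^ 2

lemma c0_pos : 0 < c0 G := by
  have h : kk G ((1 : ℕ) : ℤ) * ((1 : ℕ) : ℝ) ^ 2 ≤ c0 G :=
    Finset.single_le_sum (f := fun d : ℕ => kk G d * (d : ℝ) ^ 2)
      (fun d _ => mul_nonneg (kk_nonneg G _) (sq_nonneg _)) (Finset.mem_Icc.2 ⟨le_rfl, G.R_pos⟩)
  have h1 := kk_one G
  have h2 := G.rho_pos
  simp only [Nat.cast_one, one_pow, mul_one] at h
  linarith

lemma const_of_second {F : ℤ → ℝ} {a : ℤ} {B : ℝ}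
    (h : ∀ g, a < g → F (g + 1) + F (g - 1) - 2 * F g = 0) (hB : ∀ g, |F g| ≤ B) :
    ∀ g, a ≤ g → F g = F a := by
  set D := F (a + 1) - F a with hD
  have h1 : ∀ n : ℕ, F (a + n + 1) - F (a + n) = D := by
    intro n
    induction n with
    | zero => simp [hD]
    | succ n ih =>
      have := h (a + n + 1) (by omega)
      push_cast
      rw [show a + (n : ℤ) + 1 - 1 = a + n by ring] at this
      rw [show a + ((n : ℤ) + 1) = a + n + 1 by ring]
      linarith
  have h2 : ∀ n : ℕ, F (a + n) = F a + n * D := by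
    intro n
    induction n with
    | zero => simp
    | succ n ih =>
      have := h1 n
      push_cast
      rw [show a + ((n : ℤ) + 1) = a + n + 1 by ring]
      linarith
  have hD0 : D = 0 := by
    by_contra hne
    have hpos : 0 < |D| := abs_pos.mpr hne
    obtain ⟨n, hn⟩ := exists_nat_gt (2 * B / |D|)
    rw [div_lt_iff₀ hpos] at hn
    have h3 : |(n : ℝ) * D| ≤ 2 * B := by
      have : (n : ℝ) * D = F (a + n) - F a := by rw [h2 n]; ring
      rw [this]
      calc |F (a + n) - F a| ≤ |F (a + n)| + |F a| := abs_sub _ _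
        _ ≤ 2 * B := by linarith [hB (a + n), hB a]
    rw [abs_mul, Nat.abs_cast] at h3
    linarith
  intro g hg
  obtain ⟨n, rfl⟩ : ∃ n : ℕ, g = a + n := ⟨(g - a).toNat, by omega⟩
  rw [h2 n, hD0]
  ring

lemma key (y : ℤ → ℝ) (a : ℤ) (hPhi : ∀ g, a ≤ g → Phi G y g = 0) (z : ℤ → ℝ)
    (hz : (Function.support z).Finite) (hz0 : ∀ g < a, z g = 0) (Cb : ℝ)
    (hC : ∀ j : ℤ, |j| ≤ G.R → -Cb ≤ ∑' g : ℤ, (z g - z (g + j)) ^ 2 * (y g * y (g + j))) :
    G.rho * ∑' g, (z g * y g) ^ 2 ≤ c0 G * Cb / 2 := by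
  have hzy : (Function.support fun x => z x * y x).Finite := by
    refine hz.subset fun g hg => ?_
    rw [Function.mem_support] at hg ⊢
    exact left_ne_zero_of_mul hg
  have h1 : ∀ d ∈ Icc 1 G.R, -((d : ℝ) ^ 2 * Cb) ≤ 2 * ∑' g, z g ^ 2 * (y g * S d y g)
      - 2 * ∑' g, (z g * y g) * S d (fun x => z x * y x) g := by
    intro d hd
    rw [← S_comm d z y hz]
    have : -((d : ℝ) ^ 2 * Cb) = ∑ t ∈ range d, ∑ t' ∈ range d, (-Cb) := by
      simp; ring
    rw [this]
    refine Finset.sum_le_sum fun t ht => Finset.sum_le_sum fun t' ht' => ?_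
    refine hC _ ?_
    rw [Finset.mem_range] at ht ht'
    rw [Finset.mem_Icc] at hd
    rw [abs_le]
    omega
  have hzs : ∀ (F : ℤ → ℝ), Summable fun g => z g ^ 2 * F g := by
    intro F
    refine sm (hz.subset fun g hg => ?_)
    rw [Function.mem_support] at hg ⊢
    intro h0
    rw [h0] at hg
    simp at hg
  have hz1 : ∀ (F : ℤ → ℝ), Summable fun g => (z g * y g) * F g := by
    intro F
    refine sm (hz.subset fun g hg => ?_)
    rw [Function.mem_support] at hg ⊢
    intro h0
    rw [h0] at hg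
    simp at hg
  -- the first term vanishes after summation
  have h2 : ∑ d ∈ Icc 1 G.R, kk G d * ∑' g, z g ^ 2 * (y g * S d y g) = 0 := by
    have e : ∀ d : ℕ, kk G d * ∑' g, z g ^ 2 * (y g * S d y g)
        = ∑' g, z g ^ 2 * (kk G d * (y g * S d y g)) := by
      intro d
      rw [← tsum_mul_left]
      exact tsum_congr fun g => by ring
    simp only [e]
    rw [← Summable.tsum_finsetSum (fun d _ => hzs _)]
    have e2 : ∀ g, ∑ d ∈ Icc 1 G.R, z g ^ 2 * (kk G d * (y g * S d y g)) = 0 := by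
      intro g
      have : ∑ d ∈ Icc 1 G.R, z g ^ 2 * (kk G d * (y g * S d y g))
          = z g ^ 2 * (y g * Phi G y g) := by
        unfold Phi
        rw [Finset.mul_sum, Finset.mul_sum]
        exact Finset.sum_congr rfl fun d _ => by ring
      rw [this]
      by_cases hg : a ≤ g
      · rw [hPhi g hg]; ring
      · rw [hz0 g (by omega)]; ring
    simp only [e2, tsum_zero]
  have h3 : kk G 1 * ∑' g, (z g * y g) ^ 2
      ≤ ∑ d ∈ Icc 1 G.R, kk G d * ∑' g, (z g * y g) * S d (fun x => z x * y x) g := by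
    have e : kk G 1 * ∑' g, (z g * y g) ^ 2
        = kk G ((1 : ℕ) : ℤ) * ∑' g, (z g * y g) * S 1 (fun x => z x * y x) g := by
      rw [Nat.cast_one]
      congr 1
      refine tsum_congr fun g => ?_
      unfold S
      simp
      ring
    rw [e]
    exact Finset.single_le_sum
      (f := fun d : ℕ => kk G d * ∑' g, (z g * y g) * S d (fun x => z x * y x) g)
      (fun d _ => mul_nonneg (kk_nonneg G _) (S_posdef d _ hzy))
      (Finset.mem_Icc.2 ⟨le_rfl, G.R_pos⟩)
  have h4 : -(c0 G * Cb) ≤ 2 * (∑ d ∈ Icc 1 G.R, kk G d * ∑' g, z g ^ 2 * (y g * S d y g))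
      - 2 * ∑ d ∈ Icc 1 G.R, kk G d * ∑' g, (z g * y g) * S d (fun x => z x * y x) g := by
    rw [Finset.mul_sum, Finset.mul_sum, ← Finset.sum_sub_distrib]
    unfold c0
    rw [Finset.sum_mul, ← Finset.sum_neg_distrib]
    refine Finset.sum_le_sum fun d hd => ?_
    have := mul_le_mul_of_nonneg_left (h1 d hd) (kk_nonneg G d)
    linarith
  have h5 : 0 ≤ ∑' g, (z g * y g) ^ 2 := tsum_nonneg fun _ => sq_nonneg _
  have h6 := mul_le_mul_of_nonneg_right (kk_one G) h5
  rw [h2] at h4
  linarith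

/-- first step: square summability -/
lemma step1 (y : ℤ → ℝ) (a : ℤ) (B : ℝ) (hB : ∀ g, |y g| ≤ B)
    (hPhi : ∀ g, a ≤ g → Phi G y g = 0) (M : ℤ) :
    G.rho * ∑ g ∈ Icc a M, y g ^ 2 ≤ c0 G * (B ^ 2 * (2 * (2 * G.R + 1))) / 2 := by
  set z : ℤ → ℝ := fun g => if a ≤ g ∧ g ≤ M then 1 else 0 with hz
  have hz0 : ∀ g < a, z g = 0 := by
    intro g hg
    simp only [hz]
    rw [if_neg]; omega
  have hzM : ∀ g, M < g → z g = 0 := by
    intro g hg
    simp only [hz]
    rw [if_neg]; omega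
  have hzf : (Function.support z).Finite :=
    fin_of_Icc (a := a) (b := M) (fun g hg => by rcases hg with h | h; exacts [hz0 g h, hzM g h])
  have hB0 : 0 ≤ B := (abs_nonneg _).trans (hB 0)
  have h := key G y a hPhi z hzf hz0 (B ^ 2 * (2 * (2 * G.R + 1))) ?_
  · have e : ∑' g, (z g * y g) ^ 2 = ∑ g ∈ Icc a M, y g ^ 2 := by
      rw [tsum_eq_Icc (a := a) (b := M)]
      · refine Finset.sum_congr rfl fun g hg => ?_
        rw [Finset.mem_Icc] at hg
        simp only [hz]
        rw [if_pos hg, one_mul]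
      · intro g hg
        rcases hg with h | h
        · rw [hz0 g h]; ring
        · rw [hzM g h]; ring
    rw [e] at h
    exact h
  · intro j hj
    set A : Finset ℤ := Icc (a - G.R) (a + G.R) ∪ Icc (M - G.R) (M + G.R) with hA
    have hzero : ∀ g, g ∉ A → (z g - z (g + j)) ^ 2 * (y g * y (g + j)) = 0 := by
      intro g hg
      have : z g = z (g + j) := by
        rw [hA, Finset.mem_union, Finset.mem_Icc, Finset.mem_Icc] at hg
        rw [abs_le] at hj
        simp only [hz]
        have : (a ≤ g ∧ g ≤ M) ↔ (a ≤ g + j ∧ g + j ≤ M) := by omega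
        simp only [this]
      rw [this]; ring
    rw [tsum_eq_sum (s := A) (fun g hg => hzero g hg)]
    have h1 : ∀ g ∈ A, -B ^ 2 ≤ (z g - z (g + j)) ^ 2 * (y g * y (g + j)) := by
      intro g _
      have h2 : (z g - z (g + j)) ^ 2 ≤ 1 := by
        simp only [hz]
        split_ifs <;> norm_num
      have h3 : |y g * y (g + j)| ≤ B ^ 2 := by
        rw [abs_mul, sq]
        exact mul_le_mul (hB _) (hB _) (abs_nonneg _) hB0
      have h4 : -B ^ 2 ≤ y g * y (g + j) := (abs_le.mp h3).1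
      nlinarith [sq_nonneg (z g - z (g + j)), sq_nonneg B]
    calc -(B ^ 2 * (2 * (2 * G.R + 1))) ≤ ∑ g ∈ A, (-B ^ 2) := by
          rw [Finset.sum_const, nsmul_eq_mul]
          have hc : (A.card : ℝ) ≤ 2 * (2 * G.R + 1) := by
            have : A.card ≤ 2 * (2 * G.R + 1) := by
              refine (Finset.card_union_le _ _).trans ?_
              rw [Int.card_Icc, Int.card_Icc]
              omega
            exact_mod_cast this
          nlinarith [sq_nonneg B]
      _ ≤ ∑ g ∈ A, (z g - z (g + j)) ^ 2 * (y g * y (g + j)) := Finset.sum_le_sum h1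

/-- second step: weighted square summability -/
lemma step2 (y : ℤ → ℝ) (a : ℤ) (ha : 1 ≤ a) (B : ℝ) (hB : ∀ g, |y g| ≤ B)
    (hPhi : ∀ g, a ≤ g → Phi G y g = 0) (C1 : ℝ) (hC1 : ∀ M, ∑ g ∈ Icc a M, y g ^ 2 ≤ C1)
    (M : ℤ) (hM : a ≤ M) :
    G.rho * ∑ g ∈ Icc a M, (g : ℝ) ^ 2 * y g ^ 2
      ≤ c0 G * ((G.R : ℝ) ^ 2 * C1 + ((a : ℝ) + G.R) ^ 2 * B ^ 2 * (2 * G.R + 1)) / 2 := by
  set z : ℤ → ℝ := fun g => if a ≤ g then (if g ≤ M then (g : ℝ) else if g ≤ 2 * M then
    (2 * M - g : ℝ) else 0) else 0 with hz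
  have hz0 : ∀ g < a, z g = 0 := by
    intro g hg
    simp only [hz]
    rw [if_neg]; omega
  have hzM : ∀ g, 2 * M < g → z g = 0 := by
    intro g hg
    simp only [hz]
    rw [if_pos (by omega), if_neg (by omega), if_neg (by omega)]
  have hzf : (Function.support z).Finite :=
    fin_of_Icc (a := a) (b := 2 * M) (fun g hg => by
      rcases hg with h | h; exacts [hz0 g h, hzM g h])
  have hB0 : 0 ≤ B := (abs_nonneg _).trans (hB 0)
  -- `z` as a real function: tent
  have hz1 : ∀ g, a ≤ g → z g = max 0 (min (g : ℝ) (2 * M - g)) := by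
    intro g hg
    have hg' : (a : ℝ) ≤ g := by exact_mod_cast hg
    have ha' : (1 : ℝ) ≤ a := by exact_mod_cast ha
    simp only [hz]
    rw [if_pos hg]
    split_ifs with h1 h2
    · have : (g : ℝ) ≤ M := by exact_mod_cast h1
      rw [min_eq_left (by linarith), max_eq_right (by linarith)]
    · have h1' : (M : ℝ) < g := by exact_mod_cast (not_le.mp h1)
      have h2' : (g : ℝ) ≤ 2 * M := by exact_mod_cast h2
      rw [min_eq_right (by linarith), max_eq_right (by linarith)]
    · have h2' : (2 * M : ℝ) < g := by exact_mod_cast (not_le.mp h2)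
      rw [max_eq_left]
      exact (min_le_right _ _).trans (by linarith)
  have hlip : ∀ g j : ℤ, a ≤ g → a ≤ g + j → |j| ≤ G.R → (z g - z (g + j)) ^ 2 ≤ (G.R : ℝ) ^ 2 := by
    intro g j h1 h2 hj
    rw [hz1 g h1, hz1 (g + j) h2]
    have hj' : |(j : ℝ)| ≤ G.R := by exact_mod_cast hj
    have h3 : |max 0 (min (g : ℝ) (2 * M - g)) - max 0 (min ((g + j : ℤ) : ℝ) (2 * M - (g + j : ℤ)))|
        ≤ |(j : ℝ)| := by
      push_cast
      calc |max 0 (min (g : ℝ) (2 * M - g)) - max 0 (min ((g : ℝ) + j) (2 * M - (g + j)))|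
          ≤ max |(0 : ℝ) - 0| |min (g : ℝ) (2 * M - g) - min ((g : ℝ) + j) (2 * M - (g + j))| :=
            abs_max_sub_max_le_max _ _ _ _
        _ ≤ max |(0 : ℝ) - 0| (max |(g : ℝ) - (g + j)| |(2 * M - g : ℝ) - (2 * M - (g + j))|) :=
            max_le_max le_rfl (abs_min_sub_min_le_max _ _ _ _)
        _ = |(j : ℝ)| := by
            rw [show (g : ℝ) - (g + j) = -j by ring, show (2 * M - g : ℝ) - (2 * M - (g + j)) = j by ring,
              abs_neg, max_self, sub_zero, abs_zero, max_eq_right (abs_nonneg _)]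
    exact sq_le_sq' (by linarith [abs_le.mp (h3.trans hj')]) (abs_le.mp (h3.trans hj')).2
  have hzsmall : ∀ g, a ≤ g → g ≤ a + G.R → 0 ≤ z g ∧ z g ≤ (a : ℝ) + G.R := by
    intro g h1 h2
    rw [hz1 g h1]
    have h2' : (g : ℝ) ≤ a + G.R := by exact_mod_cast h2
    have ha' : (1 : ℝ) ≤ a := by exact_mod_cast ha
    have : (0 : ℝ) ≤ G.R := Nat.cast_nonneg _
    refine ⟨le_max_left _ _, max_le (by linarith) ((min_le_left _ _).trans h2')⟩
  set u : ℤ → ℝ := fun g => if a ≤ g ∧ g ≤ 2 * M + 2 * G.R then y g ^ 2 else 0 with hu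
  have hu0 : ∀ g, 0 ≤ u g := by
    intro g
    simp only [hu]
    split_ifs
    · exact sq_nonneg _
    · exact le_rfl
  have huf : (Function.support u).Finite := by
    refine fin_of_Icc (a := a) (b := 2 * M + 2 * G.R) fun g hg => ?_
    simp only [hu]
    rw [if_neg]; omega
  have husum : ∑' g, u g ≤ C1 := by
    rw [tsum_eq_Icc (a := a) (b := 2 * M + 2 * G.R)]
    · refine le_trans (le_of_eq ?_) (hC1 (2 * M + 2 * G.R))
      refine Finset.sum_congr rfl fun g hg => ?_
      rw [Finset.mem_Icc] at hg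
      simp only [hu]
      rw [if_pos hg]
    · intro g hg
      simp only [hu]
      rw [if_neg]; omega
  set W : ℤ → ℝ := fun g => if a - G.R ≤ g ∧ g ≤ a + G.R then 1 else 0 with hW
  have hW0 : ∀ g, 0 ≤ W g := by
    intro g; simp only [hW]; split_ifs <;> norm_num
  have hWf : (Function.support W).Finite := by
    refine fin_of_Icc (a := a - G.R) (b := a + G.R) fun g hg => ?_
    simp only [hW]
    rw [if_neg]; omega
  have hWsum : ∑' g, W g = 2 * G.R + 1 := by
    rw [tsum_eq_Icc (a := a - G.R) (b := a + G.R)]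
    · have : ∀ g ∈ Icc (a - (G.R : ℤ)) (a + G.R), W g = 1 := by
        intro g hg
        rw [Finset.mem_Icc] at hg
        simp only [hW]
        rw [if_pos hg]
      rw [Finset.sum_congr rfl this, Finset.sum_const, Int.card_Icc, nsmul_eq_mul, mul_one]
      have : (a + G.R + 1 - (a - G.R)).toNat = 2 * G.R + 1 := by omega
      rw [this]; push_cast; ring
    · intro g hg
      simp only [hW]
      rw [if_neg]; omega
  have h := key G y a hPhi z hzf hz0
    ((G.R : ℝ) ^ 2 * C1 + ((a : ℝ) + G.R) ^ 2 * B ^ 2 * (2 * G.R + 1)) ?_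
  · refine le_trans (mul_le_mul_of_nonneg_left ?_ G.rho_pos.le) h
    have hsupp : ∀ g : ℤ, (g < a ∨ 2 * M < g) → (z g * y g) ^ 2 = 0 := by
      intro g hg
      rcases hg with h | h
      · rw [hz0 g h]; ring
      · rw [hzM g h]; ring
    rw [tsum_eq_Icc hsupp]
    have hsub : Icc a M ⊆ Icc a (2 * M) := Finset.Icc_subset_Icc le_rfl (by omega)
    refine le_trans (le_of_eq ?_)
      (Finset.sum_le_sum_of_subset_of_nonneg hsub fun g _ _ => sq_nonneg _)
    refine Finset.sum_congr rfl fun g hg => ?_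
    rw [Finset.mem_Icc] at hg
    simp only [hz]
    rw [if_pos hg.1, if_pos hg.2]
    ring
  · intro j hj
    have hpt : ∀ g, -((G.R : ℝ) ^ 2 * ((u g + u (g + j)) / 2)
        + ((a : ℝ) + G.R) ^ 2 * B ^ 2 * W g) ≤ (z g - z (g + j)) ^ 2 * (y g * y (g + j)) := by
      intro g
      have hyy : |y g * y (g + j)| ≤ (y g ^ 2 + y (g + j) ^ 2) / 2 := by
        rw [abs_le]
        constructor <;> nlinarith [sq_nonneg (y g - y (g + j)), sq_nonneg (y g + y (g + j))]
      have hyB : |y g * y (g + j)| ≤ B ^ 2 := by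
        rw [abs_mul, sq]
        exact mul_le_mul (hB _) (hB _) (abs_nonneg _) hB0
      have hjj := abs_le.mp hj
      have n1 : 0 ≤ (G.R : ℝ) ^ 2 * ((u g + u (g + j)) / 2) := by
        have := hu0 g; have := hu0 (g + j); positivity
      have n2 : 0 ≤ ((a : ℝ) + G.R) ^ 2 * B ^ 2 * W g := by
        have := hW0 g; positivity
      by_cases c1 : a ≤ g
      · by_cases c2 : a ≤ g + j
        · by_cases c3 : g ≤ 2 * M + G.R
          · have e1 : u g = y g ^ 2 := by
              simp only [hu]; rw [if_pos]; omega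
            have e2 : u (g + j) = y (g + j) ^ 2 := by
              simp only [hu]; rw [if_pos]; omega
            have h1 := hlip g j c1 c2 hj
            rw [e1, e2]
            have h2 := (abs_le.mp hyy).1
            have h3 : 0 ≤ (y g ^ 2 + y (g + j) ^ 2) / 2 := by positivity
            have h4 := mul_le_mul_of_nonneg_right h1 h3
            have h5 := mul_le_mul_of_nonneg_left h2 (sq_nonneg (z g - z (g + j)))
            linarith
          · rw [hzM g (by omega), hzM (g + j) (by omega)]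
            have : ((0 : ℝ) - 0) ^ 2 * (y g * y (g + j)) = 0 := by ring
            rw [this]
            linarith
        · -- g + j < a
          rw [hz0 (g + j) (by omega)]
          have h1 := hzsmall g c1 (by omega)
          have e : W g = 1 := by simp only [hW]; rw [if_pos]; omega
          rw [e]
          have h2 : (z g - 0) ^ 2 ≤ ((a : ℝ) + G.R) ^ 2 := by
            rw [sub_zero]; exact pow_le_pow_left₀ h1.1 h1.2 2
          have h3 := (abs_le.mp hyB).1
          have h4 := mul_le_mul_of_nonneg_right h2 (sq_nonneg B)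
          have h5 := mul_le_mul_of_nonneg_left h3 (sq_nonneg (z g - 0))
          linarith
      · rw [hz0 g (by omega)]
        by_cases c2 : a ≤ g + j
        · have h1 := hzsmall (g + j) c2 (by omega)
          have e : W g = 1 := by simp only [hW]; rw [if_pos]; omega
          rw [e]
          have h2 : (0 - z (g + j)) ^ 2 ≤ ((a : ℝ) + G.R) ^ 2 := by
            rw [zero_sub, neg_sq]; exact pow_le_pow_left₀ h1.1 h1.2 2
          have h3 := (abs_le.mp hyB).1
          have h4 := mul_le_mul_of_nonneg_right h2 (sq_nonneg B)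
          have h5 := mul_le_mul_of_nonneg_left h3 (sq_nonneg (0 - z (g + j)))
          linarith
        · rw [hz0 (g + j) (by omega)]
          have : ((0 : ℝ) - 0) ^ 2 * (y g * y (g + j)) = 0 := by ring
          rw [this]
          linarith
    have su : Summable u := sm huf
    have suj : Summable fun g => u (g + j) := by
      refine sm ((huf.preimage (f := fun g : ℤ => g + j)
        (by intro x _ y _ h; simpa using h)).subset ?_)
      intro g hg
      exact hg
    have sW : Summable W := sm hWf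
    have sR : Summable fun g => (z g - z (g + j)) ^ 2 * (y g * y (g + j)) := by
      refine sm (fin_of_Icc (a := a - G.R) (b := 2 * M + G.R) fun g hg => ?_)
      have hjj := abs_le.mp hj
      rcases hg with h | h
      · rw [hz0 g (by omega), hz0 (g + j) (by omega)]; ring
      · rw [hzM g (by omega), hzM (g + j) (by omega)]; ring
    have sL : Summable fun g => -((G.R : ℝ) ^ 2 * ((u g + u (g + j)) / 2)
        + ((a : ℝ) + G.R) ^ 2 * B ^ 2 * W g) :=
      ((((su.add suj).div_const 2).mul_left _).add (sW.mul_left _)).neg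
    have hle := sL.tsum_le_tsum hpt sR
    refine le_trans ?_ hle
    rw [tsum_neg, Summable.tsum_add (((su.add suj).div_const 2).mul_left _) (sW.mul_left _),
      tsum_mul_left, tsum_mul_left, tsum_div_const, su.tsum_add suj, tsum_shift u j, hWsum]
    have hR2 : (0 : ℝ) ≤ (G.R : ℝ) ^ 2 := sq_nonneg _
    nlinarith [mul_le_mul_of_nonneg_left husum hR2]

end VL

open VL in
/-- MODULE VLIM. -/
theorem VLIM : VLIM_Stmt := by
  intro G R' s v hs ⟨g1, hg1⟩ hs0 hv0 hvn ⟨Cv, hCv⟩ _ heq
  have hCv0 : 0 ≤ Cv := (hvn 0).trans (hCv 0)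
  have hvabs : ∀ g, |v g| ≤ Cv := fun g => by rw [abs_of_nonneg (hvn g)]; exact hCv g
  have hR := G.R_pos
  have hrho := G.rho_pos
  -- threshold
  set a : ℤ := (G.R : ℤ) + R' + 1 with ha
  have harm : ∀ g : ℤ, a ≤ g → ∑ d ∈ Icc (-(G.R : ℤ)) G.R, kk G d * v (g + d) = v g := by
    intro g hg
    have h1 := heq g (by omega)
    rw [hs0 g (Or.inr (by omega)), zero_add, sum_Icc_shift] at h1
    conv_rhs => rw [h1]
    refine Finset.sum_congr rfl fun d hd => ?_
    rw [Finset.mem_Icc] at hd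
    rw [Kc_eq G g (g + d) (by omega) (by omega) (by omega)]
    rw [show g + d - g = d by ring]
  have hPb : ∀ g, |Phi G v g| ≤ c0 G * Cv := by
    intro g
    unfold Phi c0
    calc |∑ d ∈ Icc 1 G.R, kk G d * S d v g| ≤ ∑ d ∈ Icc 1 G.R, |kk G d * S d v g| :=
          Finset.abs_sum_le_sum_abs _ _
      _ ≤ ∑ d ∈ Icc 1 G.R, kk G d * (d : ℝ) ^ 2 * Cv := by
          refine Finset.sum_le_sum fun d _ => ?_
          rw [abs_mul, abs_of_nonneg (kk_nonneg G _), mul_assoc]
          exact mul_le_mul_of_nonneg_left (S_abs_le d v Cv hvabs g) (kk_nonneg G _)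
      _ = _ := by rw [← Finset.sum_mul]
  have hPc : ∀ g, a ≤ g → Phi G v g = Phi G v a := by
    refine const_of_second (fun g hg => ?_) hPb
    rw [Phi_second, harm g (by omega), sub_self]
  have hPn : ∀ g, 0 ≤ Phi G v g := fun g =>
    Finset.sum_nonneg fun d _ => mul_nonneg (kk_nonneg G _) (S_nonneg d v hvn g)
  set A : ℝ := Phi G v a / c0 G with hA
  have hc0 := c0_pos G
  have hA0 : 0 ≤ A := div_nonneg (hPn a) hc0.le
  -- positivity
  have hApos : 0 < A := by
    rcases hA0.lt_or_eq with h | h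
    · exact h
    exfalso
    have hP0 : Phi G v a = 0 := by
      rw [hA] at h
      have := h.symm
      rw [div_eq_zero_iff] at this
      rcases this with h | h
      · exact h
      · exact absurd h hc0.ne'
    have hfar : ∀ g, a ≤ g → v g = 0 := by
      intro g hg
      have h1 : kk G ((1 : ℕ) : ℤ) * S 1 v g ≤ Phi G v g :=
        Finset.single_le_sum (f := fun d : ℕ => kk G d * S d v g)
          (fun d _ => mul_nonneg (kk_nonneg G _) (S_nonneg d v hvn g))
          (Finset.mem_Icc.2 ⟨le_rfl, hR⟩)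
      rw [hPc g hg, hP0] at h1
      have h2 : S 1 v g = v g := by unfold S; simp
      rw [h2, Nat.cast_one] at h1
      have h3 := kk_one G
      have h4 : G.rho * v g ≤ 0 := (mul_le_mul_of_nonneg_right h3 (hvn g)).trans h1
      have h5 := hvn g
      nlinarith
    have hKd : ∀ g : ℤ, 2 ≤ g → G.rho * v (g - 1) ≤ v g := by
      intro g hg
      have h1 := heq g (by omega)
      have h2 : G.Kc g (g - 1) * v (g - 1)
          ≤ ∑ g' ∈ Icc (g - (G.R : ℤ)) (g + G.R), G.Kc g g' * v g' :=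
        Finset.single_le_sum (f := fun g' : ℤ => G.Kc g g' * v g')
          (fun g' _ => mul_nonneg (Kc_nonneg G _ _) (hvn g'))
          (Finset.mem_Icc.2 (by omega))
      have h3 := mul_le_mul_of_nonneg_right (Kc_down G g hg) (hvn (g - 1))
      have h4 := hs g
      linarith
    have hall : ∀ n : ℕ, ∀ g : ℤ, 1 ≤ g → a - n ≤ g → v g = 0 := by
      intro n
      induction n with
      | zero => intro g _ h2; exact hfar g (by simpa using h2)
      | succ n ih =>
        intro g h1 h2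
        push_cast at h2
        have h3 := ih (g + 1) (by omega) (by omega)
        have h4 := hKd (g + 1) (by omega)
        rw [h3, show g + 1 - 1 = g by ring] at h4
        have h5 := hvn g
        nlinarith
    have hg1' : 1 ≤ g1 := by
      by_contra hc
      rw [hs0 g1 (Or.inl (by omega))] at hg1
      exact lt_irrefl _ hg1
    have h1 := hall (a - 1).toNat g1 hg1' (by omega)
    have h2 := heq g1 hg1'
    have h3 : 0 ≤ ∑ g' ∈ Icc (g1 - (G.R : ℤ)) (g1 + G.R), G.Kc g1 g' * v g' :=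
      Finset.sum_nonneg fun g' _ => mul_nonneg (Kc_nonneg G _ _) (hvn g')
    linarith
  refine ⟨A, hApos, ?_⟩
  set y : ℤ → ℝ := fun g => v g - A with hy
  set B : ℝ := Cv + A with hB
  have hyB : ∀ g, |y g| ≤ B := by
    intro g
    calc |v g - A| ≤ |v g| + |A| := abs_sub _ _
      _ ≤ Cv + A := by rw [abs_of_nonneg hA0]; linarith [hvabs g]
  have hPy : ∀ g, a ≤ g → Phi G y g = 0 := by
    intro g hg
    have h1 : Phi G y g = Phi G v g - c0 G * A := by
      unfold Phi c0
      rw [Finset.sum_mul, ← Finset.sum_sub_distrib]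
      refine Finset.sum_congr rfl fun d _ => ?_
      have := S_sub d v (fun _ => A) g
      rw [S_const] at this
      rw [hy, this]
      ring
    rw [h1, hPc g hg, hA]
    field_simp
    ring
  set C1 : ℝ := c0 G * (B ^ 2 * (2 * (2 * G.R + 1))) / 2 / G.rho with hC1
  have hs1 : ∀ M, ∑ g ∈ Icc a M, y g ^ 2 ≤ C1 := by
    intro M
    rw [hC1, le_div_iff₀ hrho, mul_comm]
    exact step1 G y a B hyB hPy M
  set C2 : ℝ := c0 G * ((G.R : ℝ) ^ 2 * C1 + ((a : ℝ) + G.R) ^ 2 * B ^ 2 * (2 * G.R + 1)) / 2 / G.rho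
    with hC2
  have hs2 : ∀ M, a ≤ M → ∑ g ∈ Icc a M, (g : ℝ) ^ 2 * y g ^ 2 ≤ C2 := by
    intro M hM
    rw [hC2, le_div_iff₀ hrho, mul_comm]
    exact step2 G y a (by omega) B hyB hPy C1 hs1 M hM
  refine ⟨(∑ g ∈ Icc (1 : ℤ) a, (g : ℝ) ^ 2 * y g ^ 2) + C2, fun N => ?_⟩
  have hC2n : 0 ≤ C2 := le_trans (Finset.sum_nonneg fun g _ => by positivity) (hs2 a le_rfl)
  by_cases hN : a ≤ (N : ℤ)
  · have hsub : Icc (1 : ℤ) N ⊆ Icc (1 : ℤ) a ∪ Icc a N := by
      intro g hg
      rw [Finset.mem_Icc] at hg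
      rw [Finset.mem_union, Finset.mem_Icc, Finset.mem_Icc]
      omega
    calc ∑ g ∈ Icc (1 : ℤ) N, (g : ℝ) ^ 2 * (v g - A) ^ 2
        ≤ ∑ g ∈ Icc (1 : ℤ) a ∪ Icc a N, (g : ℝ) ^ 2 * y g ^ 2 :=
          Finset.sum_le_sum_of_subset_of_nonneg hsub fun g _ _ => by positivity
      _ ≤ (∑ g ∈ Icc (1 : ℤ) a, (g : ℝ) ^ 2 * y g ^ 2) + ∑ g ∈ Icc a (N : ℤ), (g : ℝ) ^ 2 * y g ^ 2 := by
          rw [← Finset.sum_union_inter]
          exact le_add_of_nonneg_right (Finset.sum_nonneg fun g _ => by positivity)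
      _ ≤ _ := by linarith [hs2 N hN]
  · have hsub : Icc (1 : ℤ) N ⊆ Icc (1 : ℤ) a := Finset.Icc_subset_Icc le_rfl (by omega)
    have := Finset.sum_le_sum_of_subset_of_nonneg (f := fun g : ℤ => (g : ℝ) ^ 2 * y g ^ 2) hsub
      fun g _ _ => by positivity
    linarith

end Pool.Agent.TPK
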