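import Mathlib
import Pool.Agent.TPK.Basic
import Pool.Agent.TPK.OVLIM

/-! MODULE VEX : existence of the critical solution. -/

set_option autoImplicit false

open Finset Filter Topology

namespace Pool.Agent.TPK

open Pool.Agent.Gap

namespace VX

variable (G : GapKernel)

lemma Kz_real (g g' : ℤ) : G.Kz 0 0 (G.rho : ℂ) g g' = ((G.Kc g g' : ℝ) : ℂ) := by
  unfold GapKernel.Kz GapKernel.Kc GapKernel.wt
  push_cast
  refine Finset.sum_congr rfl fun i _ => ?_
  simp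

/-- real version of `Solves` at the critical point -/
def RS (N : ℕ) (x e : ℤ → ℝ) : Prop :=
  (∀ g : ℤ, (g < 1 ∨ (N : ℤ) < g) → x g = 0) ∧
    ∀ g ∈ Icc (1 : ℤ) N, x g = e g + ∑ g' ∈ Icc (1 : ℤ) N, G.Kc g g' * x g'

lemma RS_solves {N : ℕ} {x e : ℤ → ℝ} (h : RS G N x e) :
    G.Solves 0 (G.rho : ℂ) N (fun g => ((x g : ℝ) : ℂ)) (fun g => ((e g : ℝ) : ℂ)) := by
  refine ⟨fun g hg => by simp only [h.1 g hg, Complex.ofReal_zero], fun g hg => ?_⟩
  unfold GapKernel.Lop GapKernel.Kap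
  simp only [Kz_real]
  have := h.2 g hg
  rw [this]
  push_cast
  ring

lemma RS_of_solves {N : ℕ} {V : ℤ → ℂ} {e : ℤ → ℝ}
    (h : G.Solves 0 (G.rho : ℂ) N V (fun g => ((e g : ℝ) : ℂ))) :
    RS G N (fun g => (V g).re) e := by
  refine ⟨fun g hg => by simp only [h.1 g hg, Complex.zero_re], fun g hg => ?_⟩
  have h1 := h.2 g hg
  unfold GapKernel.Lop GapKernel.Kap at h1
  simp only [Kz_real] at h1
  have h2 := congrArg Complex.re h1
  simp only [Complex.sub_re, Complex.re_sum, Complex.re_ofReal_mul, Complex.ofReal_re] at h2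
  simp only
  linarith

lemma Kc_sum_le (g : ℤ) (s : Finset ℤ) : ∑ g' ∈ s, G.Kc g g' ≤ 1 := by
  unfold GapKernel.Kc
  rw [Finset.sum_comm, ← G.crit']
  refine Finset.sum_le_sum fun i _ => ?_
  rw [← Finset.mul_sum]
  exact mul_le_mul_of_nonneg_left (G.sum_K_le i g s) (pow_nonneg G.rho_pos.le _)

lemma Kc_le_kk (g g' : ℤ) : G.Kc g g' ≤ VL.kk G (g' - g) := by
  unfold GapKernel.Kc VL.kk
  exact Finset.sum_le_sum fun i _ =>
    mul_le_mul_of_nonneg_left (G.K_le i g g') (pow_nonneg G.rho_pos.le _)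

lemma kk_sum_le (g : ℤ) (s : Finset ℤ) : ∑ g' ∈ s, VL.kk G (g' - g) ≤ 1 := by
  unfold VL.kk
  rw [Finset.sum_comm, ← G.crit']
  refine Finset.sum_le_sum fun i _ => ?_
  rw [← Finset.mul_sum]
  exact mul_le_mul_of_nonneg_left (G.sum_T_shift i g s) (pow_nonneg G.rho_pos.le _)

lemma Kc_sum_one (N : ℕ) : ∑ g' ∈ Icc (1 : ℤ) N, G.Kc 1 g' ≤ 1 - G.rho := by
  have h1 : VL.kk G (0 - 1) + ∑ g' ∈ Icc (1 : ℤ) N, VL.kk G (g' - 1) ≤ 1 := by
    have := kk_sum_le G 1 (insert 0 (Icc (1 : ℤ) N))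
    rwa [Finset.sum_insert (by simp)] at this
  have h2 : ∑ g' ∈ Icc (1 : ℤ) N, G.Kc 1 g' ≤ ∑ g' ∈ Icc (1 : ℤ) N, VL.kk G (g' - 1) :=
    Finset.sum_le_sum fun g' _ => Kc_le_kk G 1 g'
  have h3 : G.rho ≤ VL.kk G (0 - 1) := by
    rw [zero_sub, VL.kk_even]; exact VL.kk_one G
  linarith

/-- maximum principle -/
lemma RS_nonneg {N : ℕ} {x e : ℤ → ℝ} (h : RS G N x e) (he : ∀ g ∈ Icc (1 : ℤ) N, 0 ≤ e g) :
    ∀ g, 0 ≤ x g := by
  by_cases hN : (Icc (1 : ℤ) N).Nonempty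
  swap
  · intro g
    rw [h.1 g]
    rw [Finset.not_nonempty_iff_eq_empty, Finset.Icc_eq_empty_iff] at hN
    omega
  obtain ⟨g0, hg0, hmin⟩ := Finset.exists_min_image (Icc (1 : ℤ) N) x hN
  by_cases hm : 0 ≤ x g0
  · intro g
    by_cases hg : g ∈ Icc (1 : ℤ) N
    · exact hm.trans (hmin g hg)
    · rw [h.1 g]
      rw [Finset.mem_Icc] at hg
      omega
  exfalso
  rw [not_le] at hm
  set m := x g0 with hmdef
  have hrho := G.rho_pos
  -- basic inequality
  have hbas : ∀ g ∈ Icc (1 : ℤ) N, x g = m →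
      ∑ g' ∈ Icc (1 : ℤ) N, G.Kc g g' * (x g' - m) + m * ∑ g' ∈ Icc (1 : ℤ) N, G.Kc g g' ≤ m := by
    intro g hg hxg
    have h1 := h.2 g hg
    have h2 := he g hg
    have h3 : ∑ g' ∈ Icc (1 : ℤ) N, G.Kc g g' * (x g' - m) + m * ∑ g' ∈ Icc (1 : ℤ) N, G.Kc g g'
        = ∑ g' ∈ Icc (1 : ℤ) N, G.Kc g g' * x g' := by
      rw [Finset.mul_sum, ← Finset.sum_add_distrib]
      exact Finset.sum_congr rfl fun g' _ => by ring
    rw [h3]
    linarith
  have hterm : ∀ g, ∀ g' ∈ Icc (1 : ℤ) N, 0 ≤ G.Kc g g' * (x g' - m) := fun g g' hg' =>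
    mul_nonneg (VL.Kc_nonneg G _ _) (sub_nonneg.2 (hmin g' hg'))
  have hind : ∀ n : ℕ, 1 ≤ n → n ≤ N → x n = m → False := by
    intro n
    induction n with
    | zero => intro h1; omega
    | succ n ih =>
      intro _ h2 h3
      have hmem : (((n + 1 : ℕ)) : ℤ) ∈ Icc (1 : ℤ) N := by
        rw [Finset.mem_Icc]; omega
      have hb := hbas _ hmem h3
      rcases Nat.eq_zero_or_pos n with h0 | h0
      · subst h0
        have h4 : 0 ≤ ∑ g' ∈ Icc (1 : ℤ) N, G.Kc ((0 + 1 : ℕ) : ℤ) g' * (x g' - m) :=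
          Finset.sum_nonneg fun g' hg' => hterm _ g' hg'
        have h5 := Kc_sum_one G N
        simp only [zero_add, Nat.cast_one] at hb h4
        nlinarith
      · have hmem' : (n : ℤ) ∈ Icc (1 : ℤ) N := by rw [Finset.mem_Icc]; omega
        refine ih h0 (by omega) ?_
        by_contra hne
        have hgt : m < x n := lt_of_le_of_ne (hmin _ hmem') (Ne.symm hne)
        have h4 : G.Kc ((n + 1 : ℕ) : ℤ) n * (x n - m)
            ≤ ∑ g' ∈ Icc (1 : ℤ) N, G.Kc ((n + 1 : ℕ) : ℤ) g' * (x g' - m) :=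
          Finset.single_le_sum (f := fun g' : ℤ => G.Kc ((n + 1 : ℕ) : ℤ) g' * (x g' - m))
            (fun g' hg' => hterm _ g' hg') hmem'
        have h5 := VL.Kc_down G ((n + 1 : ℕ) : ℤ) (by omega)
        rw [show ((n + 1 : ℕ) : ℤ) - 1 = n by push_cast; ring] at h5
        have h6 := Kc_sum_le G ((n + 1 : ℕ) : ℤ) (Icc (1 : ℤ) N)
        have h7 : 0 < G.rho * (x n - m) := mul_pos hrho (sub_pos.2 hgt)
        have h8 := mul_le_mul_of_nonneg_right h5 (sub_pos.2 hgt).le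
        nlinarith
  rw [Finset.mem_Icc] at hg0
  refine hind g0.toNat (by omega) (by omega) ?_
  rw [Int.toNat_of_nonneg (by omega)]

end VX

open VX in
/-- MODULE VEX. -/
theorem VEX (hRE : RE_Stmt) (hSUP : SUP_Stmt) : VEX_Stmt := by
  intro G R' s hs hs0
  have hz : ‖(G.rho : ℂ)‖ ≤ G.rho := by
    rw [Complex.norm_real, Real.norm_of_nonneg G.rho_pos.le]
  obtain ⟨_, _, hRE'⟩ := hRE G
  have hex : ∀ N : ℕ, ∃ x : ℤ → ℝ, RS G N x s := by
    intro N
    obtain ⟨V, hV⟩ := (hRE' N 0 (G.rho : ℂ) le_rfl hz).1 (fun g => ((s g : ℝ) : ℂ))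
    exact ⟨_, RS_of_solves G hV⟩
  choose X hX using hex
  have hXn : ∀ N g, 0 ≤ X N g := fun N => RS_nonneg G (hX N) fun g _ => hs g
  -- monotone
  have hmono : ∀ g, Monotone fun N => X N g := by
    intro g
    refine monotone_nat_of_le_succ fun N => ?_
    set y : ℤ → ℝ := fun g => if g ∈ Icc (1 : ℤ) N then X (N + 1) g - X N g else 0 with hy
    have hRS : RS G N y (fun g => G.Kc g ((N + 1 : ℕ) : ℤ) * X (N + 1) ((N + 1 : ℕ) : ℤ)) := by
      refine ⟨fun g hg => ?_, fun g hg => ?_⟩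
      · simp only [hy]
        rw [if_neg]
        rw [Finset.mem_Icc]
        omega
      · have h1 := (hX N).2 g hg
        have h2 := (hX (N + 1)).2 g (by rw [Finset.mem_Icc] at hg ⊢; push_cast; omega)
        have h3 : Icc (1 : ℤ) ((N + 1 : ℕ) : ℤ) = insert ((N + 1 : ℕ) : ℤ) (Icc (1 : ℤ) N) := by
          ext u
          simp only [Finset.mem_insert, Finset.mem_Icc]
          push_cast
          omega
        rw [h3, Finset.sum_insert (by rw [Finset.mem_Icc]; push_cast; omega)] at h2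
        have h4 : ∑ g' ∈ Icc (1 : ℤ) N, G.Kc g g' * y g'
            = ∑ g' ∈ Icc (1 : ℤ) N, G.Kc g g' * X (N + 1) g'
              - ∑ g' ∈ Icc (1 : ℤ) N, G.Kc g g' * X N g' := by
          rw [← Finset.sum_sub_distrib]
          refine Finset.sum_congr rfl fun g' hg' => ?_
          simp only [hy]
          rw [if_pos hg']
          ring
        rw [h4]
        simp only [hy]
        rw [if_pos hg]
        linarith
    have hpos := RS_nonneg G hRS (fun g _ => mul_nonneg (VL.Kc_nonneg G _ _) (hXn _ _)) g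
    by_cases hg : g ∈ Icc (1 : ℤ) N
    · simp only [hy] at hpos
      rw [if_pos hg] at hpos
      linarith
    · rw [(hX N).1 g (by rw [Finset.mem_Icc] at hg; omega)]
      exact hXn _ _
  -- bounds
  obtain ⟨C, hCpos, hC⟩ := hSUP G R'
  set L := l1 R' (fun g => ((s g : ℝ) : ℂ)) with hL
  have hsup : ∀ N, (∀ g, X N g ≤ C * L) ∧
      ∑ g ∈ Icc (0 : ℤ) N, (X N (g + 1) - X N g) ^ 2 ≤ C * L ^ 2 := by
    intro N
    have h1 := hC N 0 (G.rho : ℂ) _ _ le_rfl hz (RS_solves G (hX N))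
      (fun g hg => by rw [hs0 g (Or.inr hg)]; simp)
    refine ⟨fun g => ?_, ?_⟩
    · have := h1.1 g
      rw [Complex.norm_real, Real.norm_of_nonneg (hXn N g)] at this
      exact this
    · have h2 := h1.2
      have h3 : Pot 0 N (fun g => ((X N g : ℝ) : ℂ)) = 0 := by
        unfold Pot
        simp
      rw [h3, add_zero] at h2
      refine le_trans (le_of_eq ?_) h2
      unfold En
      refine Finset.sum_congr rfl fun g _ => ?_
      rw [← Complex.ofReal_sub, Complex.norm_real, Real.norm_eq_abs, sq_abs]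
  have hbdd : ∀ g, BddAbove (Set.range fun N => X N g) := by
    intro g
    refine ⟨C * L, ?_⟩
    rintro _ ⟨N, rfl⟩
    exact (hsup N).1 g
  set v : ℤ → ℝ := fun g => ⨆ N, X N g with hv
  have hlim : ∀ g, Tendsto (fun N => X N g) atTop (𝓝 (v g)) := fun g =>
    tendsto_atTop_ciSup (hmono g) (hbdd g)
  refine ⟨v, ?_, ?_, ⟨C * L, ?_⟩, ⟨C * L ^ 2, ?_⟩, ?_⟩
  · intro g hg
    refine tendsto_nhds_unique (hlim g) ?_
    have : (fun N => X N g) = fun _ => 0 := by
      funext N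
      exact (hX N).1 g (by omega)
    rw [this]
    exact tendsto_const_nhds
  · intro g
    exact ge_of_tendsto' (hlim g) fun N => hXn N g
  · intro g
    exact le_of_tendsto' (hlim g) fun N => (hsup N).1 g
  · intro M
    have h1 : Tendsto (fun N => ∑ g ∈ Icc (0 : ℤ) M, (X N (g + 1) - X N g) ^ 2) atTop
        (𝓝 (∑ g ∈ Icc (0 : ℤ) M, (v (g + 1) - v g) ^ 2)) :=
      tendsto_finsetSum _ fun g _ => ((hlim (g + 1)).sub (hlim g)).pow 2
    refine le_of_tendsto h1 ?_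
    filter_upwards [eventually_ge_atTop M] with N hN
    refine le_trans ?_ (hsup N).2
    exact Finset.sum_le_sum_of_subset_of_nonneg
      (Finset.Icc_subset_Icc le_rfl (by exact_mod_cast hN)) fun g _ _ => sq_nonneg _
  · intro g hg
    have h1 : Tendsto (fun N => s g + ∑ g' ∈ Icc (g - (G.R : ℤ)) (g + G.R), G.Kc g g' * X N g') atTop
        (𝓝 (s g + ∑ g' ∈ Icc (g - (G.R : ℤ)) (g + G.R), G.Kc g g' * v g')) :=
      tendsto_const_nhds.add (tendsto_finsetSum _ fun g' _ => (hlim g').const_mul _)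
    refine tendsto_nhds_unique (hlim g) (h1.congr' ?_)
    filter_upwards [eventually_ge_atTop (g + G.R).toNat] with N hN
    have hgN : g ∈ Icc (1 : ℤ) N := by rw [Finset.mem_Icc]; omega
    rw [(hX N).2 g hgN]
    congr 1
    have e1 : ∑ g' ∈ Icc (1 : ℤ) N ∩ Icc (g - (G.R : ℤ)) (g + G.R), G.Kc g g' * X N g'
        = ∑ g' ∈ Icc (g - (G.R : ℤ)) (g + G.R), G.Kc g g' * X N g' := by
      refine Finset.sum_subset Finset.inter_subset_right fun g' h2 h3 => ?_
      have h4 : g' ∉ Icc (1 : ℤ) N := fun hc => h3 (Finset.mem_inter.2 ⟨hc, h2⟩)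
      rw [Finset.mem_Icc] at h4
      rw [(hX N).1 g' (by omega), mul_zero]
    have e2 : ∑ g' ∈ Icc (1 : ℤ) N ∩ Icc (g - (G.R : ℤ)) (g + G.R), G.Kc g g' * X N g'
        = ∑ g' ∈ Icc (1 : ℤ) N, G.Kc g g' * X N g' := by
      refine Finset.sum_subset Finset.inter_subset_left fun g' h2 h3 => ?_
      have h4 : g' ∉ Icc (g - (G.R : ℤ)) (g + G.R) := fun hc => h3 (Finset.mem_inter.2 ⟨h2, hc⟩)
      rw [Finset.mem_Icc] at h4
      have h5 : G.Kc g g' = 0 := by
        unfold GapKernel.Kc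
        refine Finset.sum_eq_zero fun i _ => ?_
        rw [G.K_range i g g' ?_, mul_zero]
        rw [lt_abs]
        omega
      rw [h5, zero_mul]
    rw [← e1, e2]

end Pool.Agent.TPK
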