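import Pool.Agent.TPK.Stmts2
import Pool.Agent.TPK.QGV
import Pool.Agent.TPK.GE
import Pool.Agent.TPK.GFIN

/-!
# MODULE GV2 (MP_f6626d_co, version 2): the critical solution, new lower bound

Existence, upper bound, energy and equation: the text of `EXW.QGV.core`. The lower bound is
obtained by comparing `max (δ - v) 0` with the truncated solution whose source dominates the
killing probability where `v` is small.
-/

set_option autoImplicit false

open Finset Filter Topology

namespace Pool.Agent.TPK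

open Pool.Agent.Gap Pool.Agent.FL Pool.Agent.EXW

namespace GV2

open Pool.Agent.TPK.GV

/-- existence with the upper bounds (the text of `QGV.core`) -/
theorem core {C θ C1 : ℝ} (hC : 0 < C) (hθ : 0 < θ) (hθ1 : θ < 1) (hC1 : 0 < C1)
    (G : GapKernel)
    (hRE : ∀ (N : ℕ) (e : ℤ → ℂ), ∃ v : ℤ → ℂ, G.Solves 0 (G.rho : ℂ) N v e)
    (hSUP : ∀ (N : ℕ) (v e : ℤ → ℂ), G.Solves 0 (G.rho : ℂ) N v e →
      (∀ g, ‖v g‖ ≤ C1 * lw 1 N e) ∧ En N v + Pot 0 N v ≤ C1 * (lw 1 N e) ^ 2)
    (R' : ℕ) (s : ℤ → ℝ) (hs : CritSrc C θ R' s) :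
    ∃ v : ℤ → ℝ, (∀ g ≤ 0, v g = 0) ∧ (∀ g, 0 ≤ v g) ∧
      (∀ g, v g ≤ C1 * (C * ∑' n : ℕ, (n : ℝ) ^ 1 * θ ^ n)) ∧
      (∀ N : ℕ, ∑ g ∈ Icc (0 : ℤ) N, (v (g + 1) - v g) ^ 2
        ≤ C1 * (C * ∑' n : ℕ, (n : ℝ) ^ 1 * θ ^ n) ^ 2) ∧
      ∀ g : ℤ, 1 ≤ g → v g = s g + ∑ g' ∈ Icc (g - G.R) (g + G.R), G.Kc g g' * v g' := by
  have hsum : Summable fun n : ℕ => (n : ℝ) ^ 1 * θ ^ n :=
    summable_pow_mul_geometric_of_norm_lt_one (R := ℝ) 1 (by rw [Real.norm_of_nonneg hθ.le]; exact hθ1)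
  set Sθ := ∑' n : ℕ, (n : ℝ) ^ 1 * θ ^ n with hSθ
  have hS0 : 0 ≤ Sθ := tsum_nonneg fun n => by positivity
  have hex : ∀ (N : ℕ) (e : ℤ → ℝ), ∃ x : ℤ → ℝ, VX.RS G N x e := by
    intro N e
    obtain ⟨V, hV⟩ := hRE N (fun g => ((e g : ℝ) : ℂ))
    exact ⟨_, VX.RS_of_solves G hV⟩
  have hlw : ∀ (N : ℕ) (e : ℤ → ℝ), (∀ g, 0 ≤ e g) →
      lw 1 N (fun g => ((e g : ℝ) : ℂ)) = ∑ g ∈ Icc (1 : ℤ) N, (g : ℝ) * e g := by
    intro N e he
    unfold lw
    refine Finset.sum_congr rfl fun g _ => ?_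
    rw [pow_one, Complex.norm_real, Real.norm_of_nonneg (he g)]
  choose X hX using fun N => hex N s
  have hXn : ∀ N g, 0 ≤ X N g := fun N => VX.RS_nonneg G (hX N) fun g _ => hs.nonneg g
  -- monotone
  have hmono : ∀ g, Monotone fun N => X N g := by
    intro g
    refine monotone_nat_of_le_succ fun N => ?_
    set y : ℤ → ℝ := fun g => if g ∈ Icc (1 : ℤ) N then X (N + 1) g else 0 with hy
    have hRS : VX.RS G N y (fun g => s g + G.Kc g ((N + 1 : ℕ) : ℤ) * X (N + 1) ((N + 1 : ℕ) : ℤ)) := by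
      refine ⟨fun g hg => ?_, fun g hg => ?_⟩
      · simp only [hy]
        rw [if_neg]
        rw [Finset.mem_Icc]
        omega
      · have h2 := (hX (N + 1)).2 g (by rw [Finset.mem_Icc] at hg ⊢; push_cast; omega)
        have h3 : Icc (1 : ℤ) ((N + 1 : ℕ) : ℤ) = insert ((N + 1 : ℕ) : ℤ) (Icc (1 : ℤ) N) := by
          ext u
          simp only [Finset.mem_insert, Finset.mem_Icc]
          push_cast
          omega
        rw [h3, Finset.sum_insert (by rw [Finset.mem_Icc]; push_cast; omega)] at h2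
        have h4 : ∑ g' ∈ Icc (1 : ℤ) N, G.Kc g g' * y g'
            = ∑ g' ∈ Icc (1 : ℤ) N, G.Kc g g' * X (N + 1) g' := by
          refine Finset.sum_congr rfl fun g' hg' => ?_
          simp only [hy]
          rw [if_pos hg']
        rw [h4]
        simp only [hy]
        rw [if_pos hg]
        linarith
    have hle := RS_le G (hX N) hRS (fun g _ => by
      have := mul_nonneg (VL.Kc_nonneg G g ((N + 1 : ℕ) : ℤ)) (hXn (N + 1) ((N + 1 : ℕ) : ℤ))
      linarith) g
    refine hle.trans ?_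
    simp only [hy]
    split_ifs
    · exact le_rfl
    · exact hXn _ _
  -- bounds
  have hls : ∀ N : ℕ, lw 1 N (fun g => ((s g : ℝ) : ℂ)) ≤ C * Sθ := by
    intro N
    rw [hlw N s hs.nonneg, sum_Icc_cast]
    have h3 : ∀ n ∈ Icc 1 N, ((n : ℤ) : ℝ) * s (n : ℤ) ≤ C * ((n : ℝ) ^ 1 * θ ^ n) := by
      intro n _
      have h4 := mul_le_mul_of_nonneg_left (hs.dec n) (Nat.cast_nonneg (α := ℝ) n)
      push_cast
      rw [pow_one]
      linarith
    refine (Finset.sum_le_sum h3).trans ?_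
    rw [← Finset.mul_sum]
    exact mul_le_mul_of_nonneg_left (hsum.sum_le_tsum _ fun n _ => by positivity) hC.le
  have hls0 : ∀ N : ℕ, 0 ≤ lw 1 N (fun g => ((s g : ℝ) : ℂ)) := by
    intro N
    rw [hlw N s hs.nonneg]
    refine Finset.sum_nonneg fun g hg => mul_nonneg ?_ (hs.nonneg g)
    rw [Finset.mem_Icc] at hg
    have : (0 : ℤ) ≤ g := by omega
    exact_mod_cast this
  have hsup : ∀ N, (∀ g, X N g ≤ C1 * (C * Sθ)) ∧
      ∑ g ∈ Icc (0 : ℤ) N, (X N (g + 1) - X N g) ^ 2 ≤ C1 * (C * Sθ) ^ 2 := by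
    intro N
    have h1 := hSUP N _ _ (VX.RS_solves G (hX N))
    refine ⟨fun g => ?_, ?_⟩
    · have := h1.1 g
      rw [Complex.norm_real, Real.norm_of_nonneg (hXn N g)] at this
      exact this.trans (mul_le_mul_of_nonneg_left (hls N) hC1.le)
    · have h2 := h1.2
      have h3 : Pot 0 N (fun g => ((X N g : ℝ) : ℂ)) = 0 := by
        unfold Pot
        simp
      rw [h3, add_zero] at h2
      refine le_trans (le_of_eq ?_) (h2.trans
        (mul_le_mul_of_nonneg_left (pow_le_pow_left₀ (hls0 N) (hls N) 2) hC1.le))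
      unfold En
      refine Finset.sum_congr rfl fun g _ => ?_
      rw [← Complex.ofReal_sub, Complex.norm_real, Real.norm_eq_abs, sq_abs]
  have hbdd : ∀ g, BddAbove (Set.range fun N => X N g) := by
    intro g
    refine ⟨C1 * (C * Sθ), ?_⟩
    rintro _ ⟨N, rfl⟩
    exact (hsup N).1 g
  set v : ℤ → ℝ := fun g => ⨆ N, X N g with hv
  have hlim : ∀ g, Tendsto (fun N => X N g) atTop (𝓝 (v g)) := fun g =>
    tendsto_atTop_ciSup (hmono g) (hbdd g)
  refine ⟨v, ?_, ?_, ?_, ?_, ?_⟩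
  · intro g hg
    refine tendsto_nhds_unique (hlim g) ?_
    have : (fun N => X N g) = fun _ => 0 := by
      funext N
      exact (hX N).1 g (by omega)
    rw [this]
    exact tendsto_const_nhds
  · intro g
    exact ge_of_tendsto' (hlim g) fun N => hXn N g
  · intro g
    exact le_of_tendsto' (hlim g) fun N => (hsup N).1 g
  · intro M
    have h1 : Tendsto (fun N => ∑ g ∈ Icc (0 : ℤ) M, (X N (g + 1) - X N g) ^ 2) atTop
        (𝓝 (∑ g ∈ Icc (0 : ℤ) M, (v (g + 1) - v g) ^ 2)) :=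
      tendsto_finsetSum _ fun g _ => ((hlim (g + 1)).sub (hlim g)).pow 2
    refine le_of_tendsto (b := C1 * (C * Sθ) ^ 2) h1 ?_
    filter_upwards [eventually_ge_atTop M] with N hN
    refine le_trans ?_ (hsup N).2
    exact Finset.sum_le_sum_of_subset_of_nonneg
      (Finset.Icc_subset_Icc le_rfl (by exact_mod_cast hN)) fun g _ _ => sq_nonneg _
  · intro g hg
    have h1 : Tendsto (fun N => s g + ∑ g' ∈ Icc (g - (G.R : ℤ)) (g + G.R), G.Kc g g' * X N g') atTop
        (𝓝 (s g + ∑ g' ∈ Icc (g - (G.R : ℤ)) (g + G.R), G.Kc g g' * v g')) :=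
      tendsto_const_nhds.add (tendsto_finsetSum _ fun g' _ => (hlim g').const_mul _)
    refine tendsto_nhds_unique (hlim g) (h1.congr' ?_)
    filter_upwards [eventually_ge_atTop (g + G.R).toNat] with N hN
    have hgN : g ∈ Icc (1 : ℤ) N := by rw [Finset.mem_Icc]; omega
    rw [(hX N).2 g hgN]
    congr 1
    exact (sum_full G g (X N) (Icc (1 : ℤ) N) fun g' h1 h2 h3 => by
      rw [Finset.mem_Icc]; omega).symm

/-- the source which dominates the killing probability at small values of the solution -/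
noncomputable def src (G : GapKernel) (L : ℕ) (eps : ℝ) (g : ℤ) : ℝ :=
  kt G L g + if g ≤ (L : ℤ) then 2 * eps else 0

lemma src_nonneg (G : GapKernel) (L : ℕ) {eps : ℝ} (h : 0 ≤ eps) (g : ℤ) :
    0 ≤ src G L eps g := by
  unfold src
  have := kt_nonneg G L g
  split_ifs <;> linarith

/-- the comparison -/
lemma cmp {G : GapKernel} (hL : Loc G) {N L : ℕ} (hN : 1 ≤ N) {eps delta P : ℝ} (heps : 0 ≤ eps)
    (hdelta : 0 ≤ delta) (hP : P * delta = eps) (hP0 : 0 ≤ P) {v s t : ℤ → ℝ} (hv : ∀ g, 0 ≤ v g)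
    (hs : ∀ g, 0 ≤ s g)
    (heq : ∀ g : ℤ, 1 ≤ g → v g = s g + ∑ g' ∈ Icc (g - G.R) (g + G.R), G.Kc g g' * v g')
    (hkap : ∀ a : ℤ, 1 ≤ a → G.kap a ≤ eps + P * v a)
    (ht : VX.RS G N t (src G L eps)) (g : ℤ) (hg : g ∈ Icc (1 : ℤ) N) :
    delta - v g ≤ delta * (((g : ℝ) + G.R) / N + t g) := by
  have hN0 : (0 : ℝ) < N := by exact_mod_cast hN
  set z : ℤ → ℝ := fun g => if g ∈ Icc (1 : ℤ) N then max (delta - v g) 0 else 0 with hzdef
  have hz0 : ∀ g, 0 ≤ z g := by
    intro g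
    simp only [hzdef]
    split_ifs
    · exact le_max_right _ _
    · exact le_rfl
  have hz : VX.RS G N z (fun g => z g - ∑ g' ∈ Icc (1 : ℤ) N, G.Kc g g' * z g') := by
    refine ⟨fun g hg => ?_, fun g hg => ?_⟩
    · simp only [hzdef]
      rw [if_neg]
      rw [Finset.mem_Icc]
      omega
    · simp only
      ring
  -- the linear function
  have hh : VX.RS G N (fun g => if g ∈ Icc (1 : ℤ) N then ((g : ℝ) + G.R) / N else 0)
      (fun g => ((g : ℝ) + G.R) / N - (∑ g' ∈ Icc (1 : ℤ) N, G.Kc g g' * ((g' : ℝ) + G.R)) / N) := by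
    refine ⟨fun g hg => ?_, fun g hg => ?_⟩
    · simp only
      rw [if_neg]
      rw [Finset.mem_Icc]
      omega
    · simp only
      rw [if_pos hg]
      have : ∑ g' ∈ Icc (1 : ℤ) N,
          G.Kc g g' * (if g' ∈ Icc (1 : ℤ) N then ((g' : ℝ) + G.R) / N else 0)
          = (∑ g' ∈ Icc (1 : ℤ) N, G.Kc g g' * ((g' : ℝ) + G.R)) / N := by
        rw [Finset.sum_div]
        exact Finset.sum_congr rfl fun g' hg' => by rw [if_pos hg', mul_div_assoc]
      rw [this]
      ring
  have key := RS_le G hz (RS_smul G delta (RS_add G hh ht)) (fun g hg => ?_) g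
  · simp only [hzdef] at key
    rw [if_pos hg, if_pos hg] at key
    exact (le_max_left _ _).trans key
  · have hgm := Finset.mem_Icc.1 hg
    -- superharmonicity with the part beyond `N`
    set β := ∑ g' ∈ Icc ((N : ℤ) + 1) (N + G.R), G.Kc g g' * 1 with hβ
    have hβ0 : 0 ≤ β := Finset.sum_nonneg fun g' _ => mul_nonneg (VL.Kc_nonneg G _ _) zero_le_one
    have h1 := sum_split G N g hg (fun g' => (g' : ℝ) + G.R)
    have h2 := lin_super G g hgm.1
    have h3 : (N : ℝ) * β ≤ ∑ g' ∈ Icc ((N : ℤ) + 1) (N + G.R), G.Kc g g' * ((g' : ℝ) + G.R) := by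
      rw [hβ, Finset.mul_sum]
      refine Finset.sum_le_sum fun g' hg' => ?_
      rw [Finset.mem_Icc] at hg'
      have h4 : (N : ℝ) ≤ (g' : ℝ) + G.R := by
        have : (N : ℤ) ≤ g' + G.R := by omega
        exact_mod_cast this
      have h5 := mul_le_mul_of_nonneg_left h4 (VL.Kc_nonneg G g g')
      linarith
    have h6 : β ≤ ((g : ℝ) + G.R) / N
        - (∑ g' ∈ Icc (1 : ℤ) N, G.Kc g g' * ((g' : ℝ) + G.R)) / N := by
      rw [← sub_div, le_div_iff₀ hN0]
      linarith
    set w : ℝ := ((g : ℝ) + G.R) / N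
        - (∑ g' ∈ Icc (1 : ℤ) N, G.Kc g g' * ((g' : ℝ) + G.R)) / N with hw
    have hKz : 0 ≤ ∑ g' ∈ Icc (1 : ℤ) N, G.Kc g g' * z g' :=
      Finset.sum_nonneg fun g' _ => mul_nonneg (VL.Kc_nonneg G _ _) (hz0 g')
    have hsrc := src_nonneg G L heps g
    rcases le_or_gt delta (v g) with hc | hc
    · have hzg : z g = 0 := by
        simp only [hzdef]
        rw [if_pos hg]
        exact max_eq_right (by linarith)
      rw [hzg]
      have : 0 ≤ delta * (w + src G L eps g) := mul_nonneg hdelta (by linarith)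
      linarith
    · have hzg : z g = delta - v g := by
        simp only [hzdef]
        rw [if_pos hg]
        exact max_eq_left (by linarith)
      -- the killing probability
      have hk1 : G.kap g ≤ 2 * eps := by
        have h7 := hkap g hgm.1
        have h8 : P * v g ≤ P * delta := mul_le_mul_of_nonneg_left hc.le hP0
        linarith
      have hk2 : G.kap g ≤ src G L eps g := by
        unfold src
        by_cases hgL : (L : ℤ) < g
        · have h12 : kt G L g = kp G g := by unfold kt; rw [if_pos hgL]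
          have h13 := kap_le hL g hgm.1
          rw [h12, if_neg (by omega)]
          linarith
        · have h12 := kt_nonneg G L g
          rw [if_pos (by omega)]
          linarith
      -- the equation of the constant
      have h8 : ∑ g' ∈ Icc (g - G.R) (g + G.R), G.Kc g g' = 1 - G.kap g := by
        unfold GapKernel.kap
        simp
      have h9 := sum_split G N g hg (fun g' => delta - v g')
      have h10 : ∑ g' ∈ Icc (g - G.R) (g + G.R), G.Kc g g' * (delta - v g')
          = delta * (1 - G.kap g) - ∑ g' ∈ Icc (g - G.R) (g + G.R), G.Kc g g' * v g' := by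
        rw [← h8, Finset.mul_sum, ← Finset.sum_sub_distrib]
        exact Finset.sum_congr rfl fun g' _ => by ring
      have h11 : ∑ g' ∈ Icc (1 : ℤ) N, G.Kc g g' * (delta - v g')
          ≤ ∑ g' ∈ Icc (1 : ℤ) N, G.Kc g g' * z g' := by
        refine Finset.sum_le_sum fun g' hg' => ?_
        refine mul_le_mul_of_nonneg_left ?_ (VL.Kc_nonneg G _ _)
        simp only [hzdef]
        rw [if_pos hg']
        exact le_max_left _ _
      have h12 : ∑ g' ∈ Icc ((N : ℤ) + 1) (N + G.R), G.Kc g g' * (delta - v g') ≤ delta * β := by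
        rw [hβ, Finset.mul_sum]
        refine Finset.sum_le_sum fun g' _ => ?_
        have h13 := mul_nonneg (VL.Kc_nonneg G g g') (hv g')
        nlinarith
      have h14 := heq g hgm.1
      have h15 := hs g
      have h16 : delta * G.kap g ≤ delta * src G L eps g := mul_le_mul_of_nonneg_left hk2 hdelta
      have h17 : delta * β ≤ delta * w := mul_le_mul_of_nonneg_left h6 hdelta
      rw [hzg]
      nlinarith

end GV2

open GV2 Pool.Agent.TPK.GV in
/-- MODULE GV2. -/
theorem t_GV2 (h1 : QGRE_Stmt) (h2 : QGSUP_Stmt) : GV2_Stmt := by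
  obtain ⟨K0, hRE⟩ := h1
  obtain ⟨K1, hSUP⟩ := h2
  obtain ⟨K2, hT⟩ := QGV.tail_cut
  -- the polynomial bounds
  have hS : PB fun D => ∑' n : ℕ, (n : ℝ) ^ 1 * (1 - D⁻¹) ^ n :=
    PB.geo' 1 (fun D hD => (th_pos hD).le) LB.inv_self fun D _ => le_rfl
  have hA : PB fun D => 8 * D ^ K1 *
      (2 * (2 * ((K1 + 1 + K2 + 3 : ℕ) : ℝ) * D ^ 2 + 1)) ^ 2 :=
    ((PB.const 8).mul (PB.pow_self K1)).mul
      (((PB.const 2).mul (((PB.const (2 * ((K1 + 1 + K2 + 3 : ℕ) : ℝ))).mul (PB.pow_self 2)).add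
        (PB.const 1))).pow 2)
  have hB : PB fun D => D ^ K1 * (D * ∑' n : ℕ, (n : ℝ) ^ 1 * (1 - D⁻¹) ^ n)
      + D ^ K1 * (D * ∑' n : ℕ, (n : ℝ) ^ 1 * (1 - D⁻¹) ^ n) ^ 2 + 1 :=
    (((PB.pow_self K1).mul (PB.id.mul hS)).add
      ((PB.pow_self K1).mul ((PB.id.mul hS).pow 2))).add (PB.const 1)
  obtain ⟨J, hJ⟩ := hA.le
  obtain ⟨K3, hK3⟩ := hB.le
  refine ⟨max (J + 1) K3, J, fun D hD G hG R' s hs => ?_⟩
  have hD0 : (0 : ℝ) < D := by linarith
  have hD1 : (1 : ℝ) ≤ D := by linarith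
  have hz : ‖(G.rho : ℂ)‖ ≤ G.rho := by
    rw [Complex.norm_real, Real.norm_of_nonneg G.rho_pos.le]
  obtain ⟨v, hv0, hvn, hvu, hve, hveq⟩ := core hD0 (th_pos hD) (th_lt hD) (C1 := D ^ K1)
    (by positivity) G (fun N e => (hRE D hD G hG N 0 (G.rho : ℂ) le_rfl hz).1 e)
    (fun N v e hve => hSUP D hD G hG N 0 (G.rho : ℂ) v e le_rfl hz hve) R' s hs
  refine ⟨v, hvn, hveq, fun P hP hkap => ?_⟩
  have hP0 : (0 : ℝ) < P := by linarith
  have hS0 : 0 ≤ ∑' n : ℕ, (n : ℝ) ^ 1 * (1 - D⁻¹) ^ n := by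
    have := th_pos hD
    exact tsum_nonneg fun n => by positivity
  set S : ℝ := ∑' n : ℕ, (n : ℝ) ^ 1 * (1 - D⁻¹) ^ n with hSdef
  have hKD := hK3 D hD
  have hp1 : 0 ≤ D ^ K1 * (D * S) := by positivity
  have hp2 : 0 ≤ D ^ K1 * (D * S) ^ 2 := by positivity
  have hDK3 : D ^ K3 ≤ D ^ (max (J + 1) K3) * P := by
    have h3 : D ^ K3 ≤ D ^ (max (J + 1) K3) := pow_le_pow_right₀ hD1 (le_max_right _ _)
    have h4 : 0 < D ^ (max (J + 1) K3) := by positivity
    nlinarith
  refine ⟨hv0, ?_, fun g => ?_, fun N => ?_, hveq⟩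
  · -- the lower bound
    intro g hg
    set X : ℝ := 2 * ((K1 + 1 + K2 + 3 : ℕ) : ℝ) * D ^ 2 with hX
    have hX0 : 0 < X := by
      have : (0 : ℝ) < ((K1 + 1 + K2 + 3 : ℕ) : ℝ) := by
        exact_mod_cast (by omega : 0 < K1 + 1 + K2 + 3)
      positivity
    set a : ℕ := ⌈X⌉₊ with ha
    have ha1 : X ≤ a := Nat.le_ceil X
    have ha2 : (a : ℝ) ≤ X + 1 := (Nat.ceil_lt_add_one hX0.le).le
    have htail := hT (K1 + 1) D hD G hG a ha1
    set eps : ℝ := (D ^ J)⁻¹ with heps
    have heps0 : 0 < eps := by positivity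
    set delta : ℝ := eps / P with hdelta
    have hdelta0 : 0 < delta := by positivity
    have hPd : P * delta = eps := by rw [hdelta]; field_simp
    have hmain : ∀ N : ℕ, 1 ≤ N → g ≤ N →
        delta - v g ≤ delta * (((g : ℝ) + G.R) / N + 1 / 2) := by
      intro N hN hgN
      obtain ⟨V, hV⟩ := (hRE D hD G hG N 0 (G.rho : ℂ) le_rfl hz).1
        (fun g => ((src G (2 * a) eps g : ℝ) : ℂ))
      have ht := VX.RS_of_solves G hV
      set t : ℤ → ℝ := fun g => (V g).re with htdef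
      have h1 := cmp hG.loc hN (L := 2 * a) heps0.le hdelta0.le hPd hP0.le hvn hs.nonneg hveq hkap
        ht g (by rw [Finset.mem_Icc]; omega)
      have h3 : t g ≤ 1 / 2 := by
        have h4 := (hSUP D hD G hG N 0 (G.rho : ℂ) _ _ le_rfl hz (VX.RS_solves G ht)).1 g
        have h5 : lw 1 N (fun g => ((src G (2 * a) eps g : ℝ) : ℂ))
            = ∑ g ∈ Icc (1 : ℤ) N, (g : ℝ) * src G (2 * a) eps g := by
          unfold lw
          refine Finset.sum_congr rfl fun g _ => ?_
          rw [pow_one, Complex.norm_real, Real.norm_of_nonneg (src_nonneg G _ heps0.le g)]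
        rw [h5] at h4
        have h6 : ∑ g ∈ Icc (1 : ℤ) N, (g : ℝ) * src G (2 * a) eps g
            = ∑ g ∈ Icc (1 : ℤ) N, (g : ℝ) * kt G (2 * a) g
              + ∑ g ∈ Icc (1 : ℤ) N, (if g ≤ ((2 * a : ℕ) : ℤ) then (g : ℝ) * (2 * eps) else 0) := by
          rw [← Finset.sum_add_distrib]
          refine Finset.sum_congr rfl fun g _ => ?_
          unfold src
          split_ifs <;> ring
        have h7 : ∑ g ∈ Icc (1 : ℤ) N,
            (if g ≤ ((2 * a : ℕ) : ℤ) then (g : ℝ) * (2 * eps) else 0)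
            ≤ (((2 * a : ℕ) : ℝ)) * ((((2 * a : ℕ) : ℝ)) * (2 * eps)) := by
          rw [← Finset.sum_filter]
          have h8 : ∀ g ∈ (Icc (1 : ℤ) N).filter (fun g => g ≤ ((2 * a : ℕ) : ℤ)),
              (g : ℝ) * (2 * eps) ≤ ((2 * a : ℕ) : ℝ) * (2 * eps) := by
            intro g hg
            rw [Finset.mem_filter] at hg
            have : (g : ℝ) ≤ ((2 * a : ℕ) : ℝ) := by exact_mod_cast hg.2
            exact mul_le_mul_of_nonneg_right this (by positivity)
          refine (Finset.sum_le_sum h8).trans ?_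
          rw [Finset.sum_const, nsmul_eq_mul]
          have h9 : ((Icc (1 : ℤ) N).filter (fun g => g ≤ ((2 * a : ℕ) : ℤ))).card ≤ 2 * a := by
            have h10 : (Icc (1 : ℤ) N).filter (fun g => g ≤ ((2 * a : ℕ) : ℤ))
                ⊆ Icc (1 : ℤ) ((2 * a : ℕ) : ℤ) := by
              intro g hg
              rw [Finset.mem_filter, Finset.mem_Icc] at hg
              rw [Finset.mem_Icc]
              omega
            refine (Finset.card_le_card h10).trans ?_
            rw [Int.card_Icc]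
            omega
          have h11 : (((Icc (1 : ℤ) N).filter (fun g => g ≤ ((2 * a : ℕ) : ℤ))).card : ℝ)
              ≤ ((2 * a : ℕ) : ℝ) := by exact_mod_cast h9
          exact mul_le_mul_of_nonneg_right h11 (by positivity)
        have h12 := (sum_kt_le G (2 * a) N).trans htail
        have h13 : t g ≤ ‖((t g : ℝ) : ℂ)‖ := by
          rw [Complex.norm_real]
          exact Real.le_norm_self _
        have hDK1 : 0 < D ^ K1 := by positivity
        have h14 : D ^ K1 * (1 / (2 * D ^ (K1 + 1))) ≤ 1 / 4 := by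
          rw [pow_succ]
          have e1 : D ^ K1 * (1 / (2 * (D ^ K1 * D))) = 1 / (2 * D) := by
            field_simp
          rw [e1]
          exact one_div_le_one_div_of_le (by norm_num) (by linarith)
        have h15 : D ^ K1 * ((((2 * a : ℕ) : ℝ)) * ((((2 * a : ℕ) : ℝ)) * (2 * eps))) ≤ 1 / 4 := by
          have h16 : (((2 * a : ℕ) : ℝ)) ≤ 2 * (X + 1) := by
            push_cast
            linarith
          have h17 : (0 : ℝ) ≤ ((2 * a : ℕ) : ℝ) := Nat.cast_nonneg _
          have h18 : (((2 * a : ℕ) : ℝ)) ^ 2 ≤ (2 * (X + 1)) ^ 2 := pow_le_pow_left₀ h17 h16 2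
          have h19 : 8 * D ^ K1 * (2 * (X + 1)) ^ 2 ≤ D ^ J := hJ D hD
          have h20 : 8 * D ^ K1 * (((2 * a : ℕ) : ℝ)) ^ 2 ≤ D ^ J :=
            (mul_le_mul_of_nonneg_left h18 (by positivity)).trans h19
          have h21 : 8 * D ^ K1 * (((2 * a : ℕ) : ℝ)) ^ 2 * eps ≤ 1 := by
            have h22 := mul_le_mul_of_nonneg_right h20 heps0.le
            have h23 : D ^ J * eps = 1 := by
              rw [heps]
              exact mul_inv_cancel₀ (by positivity)
            linarith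
          nlinarith
        have h24 : D ^ K1 * (∑ g ∈ Icc (1 : ℤ) N, (g : ℝ) * src G (2 * a) eps g) ≤ 1 / 2 := by
          rw [h6, mul_add]
          have h25 := mul_le_mul_of_nonneg_left h12 hDK1.le
          have h26 := mul_le_mul_of_nonneg_left h7 hDK1.le
          linarith
        linarith
      refine h1.trans (mul_le_mul_of_nonneg_left ?_ hdelta0.le)
      linarith
    have h3 : Tendsto (fun N : ℕ => delta * (((g : ℝ) + G.R) / N + 1 / 2)) atTop
        (𝓝 (delta * (0 + 1 / 2))) :=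
      ((tendsto_const_div_atTop_nhds_zero_nat _).add tendsto_const_nhds).const_mul _
    have h4 : delta - v g ≤ delta * (0 + 1 / 2) := by
      refine ge_of_tendsto h3 ?_
      filter_upwards [eventually_ge_atTop (max 1 g.toNat)] with N hN
      exact hmain N (le_trans (le_max_left _ _) hN) (by
        have := le_trans (le_max_right 1 g.toNat) hN
        omega)
    have h5 : delta / 2 ≤ v g := by linarith
    refine le_trans ?_ h5
    have h6 : delta / 2 = (2 * D ^ J * P)⁻¹ := by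
      rw [hdelta, heps]
      field_simp
    rw [h6]
    refine inv_anti₀ (by positivity) ?_
    refine mul_le_mul_of_nonneg_right ?_ hP0.le
    calc 2 * D ^ J ≤ D * D ^ J := mul_le_mul_of_nonneg_right hD (by positivity)
      _ = D ^ (J + 1) := by rw [pow_succ]; ring
      _ ≤ _ := pow_le_pow_right₀ hD1 (le_max_left _ _)
  · exact (hvu g).trans (by linarith)
  · exact (hve N).trans (by linarith)

end Pool.Agent.TPK
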