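import Mathlib
import Pool.Agent.TPK.Stmts3
import Pool.Agent.TPK.GE
import Pool.Agent.TPK.GFIN

/-!
# Module MOMA: moments of the area of the closed model, up to a power of `log n`
-/

set_option autoImplicit false

open Finset Filter Topology

namespace Pool.Agent.TPK

open Pool.Agent.Lib27 Pool.Agent.SapR Pool.Agent.Gap Pool.Agent.FL Pool.Agent.EXW
open Pool.Agent.KCG (mr)

namespace MOMA

/-- elementary facts on the scale `n` -/
theorem scale {D W : ℝ} {K Kc r n : ℕ} (hD : 2 ≤ D) (hW : 2 ≤ W)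
    (hK : 4 * (Kc + 2) + (2 * r + 2) ≤ K) (hbig : (D * W) ^ K ≤ n) :
    1 ≤ (n : ℝ) ∧ (2 * r + 2 : ℝ) ≤ Real.log n ∧ D ^ Kc * Real.sqrt n * Real.log n ≤ n := by
  have hDW : 4 ≤ D * W := by nlinarith
  have hDW1 : 1 ≤ D * W := by linarith
  have hn4 : (4 : ℝ) ^ K ≤ n := (pow_le_pow_left₀ (by norm_num) hDW K).trans hbig
  have hn1 : 1 ≤ (n : ℝ) := (one_le_pow₀ (by norm_num)).trans hn4
  have hn0 : 0 < (n : ℝ) := by linarith
  have hlog : (2 * r + 2 : ℝ) ≤ Real.log n := by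
    rw [Real.le_log_iff_exp_le hn0]
    have h1 : Real.exp (2 * r + 2 : ℝ) = Real.exp 1 ^ (2 * r + 2) := by
      rw [← Real.exp_nat_mul]
      congr 1
      push_cast
      ring
    rw [h1]
    have h2 : Real.exp 1 ≤ 4 := by
      have := Real.exp_one_lt_d9
      linarith
    calc Real.exp 1 ^ (2 * r + 2) ≤ 4 ^ (2 * r + 2) :=
          pow_le_pow_left₀ (Real.exp_pos _).le h2 _
      _ ≤ 4 ^ K := pow_le_pow_right₀ (by norm_num) (by omega)
      _ ≤ n := hn4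
  refine ⟨hn1, hlog, ?_⟩
  obtain ⟨y, hy⟩ : ∃ y : ℝ, y = Real.sqrt (Real.sqrt n) := ⟨_, rfl⟩
  have hy0 : 0 ≤ y := by rw [hy]; exact Real.sqrt_nonneg _
  have hy2 : y ^ 2 = Real.sqrt n := by rw [hy]; exact Real.sq_sqrt (Real.sqrt_nonneg _)
  have hy4 : y ^ 4 = n := by
    have : y ^ 4 = (y ^ 2) ^ 2 := by ring
    rw [this, hy2]
    exact Real.sq_sqrt hn0.le
  have hypos : 0 < y := by
    rcases hy0.lt_or_eq with h | h
    · exact h
    · rw [← h] at hy4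
      norm_num at hy4
      linarith
  have hly : Real.log n ≤ 4 * y := by
    rw [← hy4, Real.log_pow]
    have := Real.log_le_sub_one_of_pos hypos
    push_cast
    linarith
  have hDy : 4 * D ^ Kc ≤ y := by
    have h1 : (D ^ (Kc + 2)) ^ 4 ≤ y ^ 4 := by
      rw [hy4, ← pow_mul]
      calc D ^ ((Kc + 2) * 4) ≤ D ^ K := pow_le_pow_right₀ (by linarith) (by omega)
        _ ≤ (D * W) ^ K := pow_le_pow_left₀ (by linarith) (by nlinarith) K
        _ ≤ n := hbig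
    have h2 : D ^ (Kc + 2) ≤ y := le_of_pow_le_pow_left₀ (by norm_num) hy0 h1
    refine le_trans ?_ h2
    rw [pow_add]
    have h3 : (4 : ℝ) ≤ D ^ 2 := by nlinarith
    have h4 : 0 < D ^ Kc := by positivity
    nlinarith
  have hDpos : 0 < D ^ Kc := by positivity
  have hl0 : 0 ≤ Real.log n := Real.log_nonneg hn1
  calc D ^ Kc * Real.sqrt n * Real.log n ≤ D ^ Kc * y ^ 2 * (4 * y) := by
        rw [hy2]
        gcongr
    _ = (4 * D ^ Kc) * y ^ 3 := by ring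
    _ ≤ y * y ^ 3 := by gcongr
    _ = n := by rw [← hy4]; ring

/-- the exponential factor -/
theorem expo {D L N g : ℝ} {Kc r : ℕ} (hD : 2 ≤ D) (hN : 1 ≤ N) (hL : L = Real.log N)
    (hL2 : (2 * r + 2 : ℝ) ≤ L) (hg : D ^ Kc * Real.sqrt N * L ≤ g) :
    Real.exp (-(g ^ 2 / (D ^ Kc * N))) ≤ (N ^ (2 * r + 2))⁻¹ := by
  have hN0 : 0 < N := by linarith
  have hD1 : 1 ≤ D ^ Kc := one_le_pow₀ (by linarith)
  have hL0 : 0 < L := by
    have : (0 : ℝ) ≤ r := Nat.cast_nonneg r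
    linarith
  have hs0 : 0 ≤ Real.sqrt N := Real.sqrt_nonneg N
  have hs2 : Real.sqrt N ^ 2 = N := Real.sq_sqrt hN0.le
  have h1 : L ^ 2 ≤ g ^ 2 / (D ^ Kc * N) := by
    rw [le_div_iff₀ (by positivity)]
    calc L ^ 2 * (D ^ Kc * N) ≤ L ^ 2 * (D ^ Kc * (D ^ Kc * N)) := by
          have : D ^ Kc * N ≤ D ^ Kc * (D ^ Kc * N) := by
            refine le_mul_of_one_le_left (by positivity) hD1
          gcongr
      _ = (D ^ Kc * Real.sqrt N * L) ^ 2 := by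
          rw [mul_pow, mul_pow, hs2]
          ring
      _ ≤ g ^ 2 := pow_le_pow_left₀ (by positivity) hg 2
  have h2 : (2 * r + 2 : ℝ) * L ≤ L ^ 2 := by nlinarith
  have h3 : (N ^ (2 * r + 2))⁻¹ = Real.exp (-((2 * r + 2 : ℝ) * L)) := by
    rw [Real.exp_neg]
    congr 1
    have h4 : ((2 * r + 2 : ℝ)) * L = ((2 * r + 2 : ℕ) : ℝ) * L := by push_cast; ring
    rw [h4, Real.exp_nat_mul, hL, Real.exp_log hN0]
  rw [h3]
  exact Real.exp_le_exp.2 (by linarith)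

/-- the final inequality -/
theorem fin {D A Q N S L g R m : ℝ} {Kc Kp r : ℕ} (hD : 2 ≤ D) (hA : 0 < A) (hN : 1 ≤ N)
    (hS0 : 1 ≤ S) (hSN : S ≤ N) (hL : 1 ≤ L)
    (hp : (D ^ Kp)⁻¹ ≤ N * S * R * A) (hg0 : 0 ≤ g) (hg : g ≤ D ^ Kc * S * L + 1)
    (hQ : R * Q ≤ D ^ Kc * (N ^ (2 * r + 2))⁻¹)
    (hm : m ≤ (2 * N * g) ^ r * A + (8 * N ^ 2) ^ r * Q) :
    m ≤ D ^ ((Kc + 2) * r + (3 * r + Kc + Kp) + 1) * (N * S * L) ^ r * A := by
  have hD1 : 1 ≤ D := by linarith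
  have hDc : 1 ≤ D ^ Kc := one_le_pow₀ hD1
  have hN0 : 0 < N := by linarith
  have hNSL : 1 ≤ N * S * L := by
    have : 1 ≤ N * S := by nlinarith
    nlinarith
  have hX : 1 ≤ D ^ Kc * S * L := by
    have : 1 ≤ D ^ Kc * S := by nlinarith
    nlinarith
  have h4 : (4 : ℝ) ≤ D ^ 2 := by nlinarith
  have h8 : (8 : ℝ) ≤ D ^ 3 := by
    calc (8 : ℝ) = 2 ^ 3 := by norm_num
      _ ≤ D ^ 3 := pow_le_pow_left₀ (by norm_num) hD 3
  have hT : 1 ≤ (N * S * L) ^ r := one_le_pow₀ hNSL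
  -- the first term
  have t1 : (2 * N * g) ^ r * A ≤ D ^ ((Kc + 2) * r) * (N * S * L) ^ r * A := by
    refine mul_le_mul_of_nonneg_right ?_ hA.le
    rw [pow_mul, ← mul_pow]
    refine pow_le_pow_left₀ (by positivity) ?_ r
    calc 2 * N * g ≤ 2 * N * (2 * (D ^ Kc * S * L)) := by
          refine mul_le_mul_of_nonneg_left ?_ (by positivity)
          linarith
      _ = 4 * D ^ Kc * (N * S * L) := by ring
      _ ≤ D ^ 2 * D ^ Kc * (N * S * L) := by gcongr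
      _ = D ^ (Kc + 2) * (N * S * L) := by rw [pow_add]; ring
  -- the second term
  have hQ' : Q ≤ D ^ Kc * (N ^ (2 * r + 2))⁻¹ * (D ^ Kp * (N * S * A)) := by
    have e1 : 1 ≤ D ^ Kp * (N * S * A) * R := by
      have := mul_le_mul_of_nonneg_left hp (by positivity : 0 ≤ D ^ Kp)
      rw [mul_inv_cancel₀ (by positivity)] at this
      calc 1 ≤ _ := this
        _ = _ := by ring
    rcases le_or_gt 0 Q with hQ0 | hQ0
    · calc Q = Q * 1 := (mul_one Q).symm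
        _ ≤ Q * (D ^ Kp * (N * S * A) * R) := mul_le_mul_of_nonneg_left e1 hQ0
        _ = (R * Q) * (D ^ Kp * (N * S * A)) := by ring
        _ ≤ D ^ Kc * (N ^ (2 * r + 2))⁻¹ * (D ^ Kp * (N * S * A)) :=
            mul_le_mul_of_nonneg_right hQ (by positivity)
    · exact hQ0.le.trans (by positivity)
  have t2 : (8 * N ^ 2) ^ r * Q ≤ D ^ (3 * r + Kc + Kp) * (N * S * L) ^ r * A := by
    have e1 : N * S * (N ^ (2 * r + 2))⁻¹ * (N ^ 2) ^ r ≤ 1 := by
      have e2 : N ^ (2 * r + 2) = (N ^ 2) ^ r * (N * N) := by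
        rw [← pow_mul, pow_add]
        ring
      rw [e2, mul_inv]
      have e3 : N * S * (((N ^ 2) ^ r)⁻¹ * (N * N)⁻¹) * (N ^ 2) ^ r = S / N := by
        field_simp
      rw [e3, div_le_one hN0]
      exact hSN
    calc (8 * N ^ 2) ^ r * Q
        ≤ (8 * N ^ 2) ^ r * (D ^ Kc * (N ^ (2 * r + 2))⁻¹ * (D ^ Kp * (N * S * A))) :=
          mul_le_mul_of_nonneg_left hQ' (by positivity)
      _ = 8 ^ r * D ^ Kc * D ^ Kp * A * (N * S * (N ^ (2 * r + 2))⁻¹ * (N ^ 2) ^ r) := by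
          rw [mul_pow]
          ring
      _ ≤ 8 ^ r * D ^ Kc * D ^ Kp * A * 1 := mul_le_mul_of_nonneg_left e1 (by positivity)
      _ ≤ (D ^ 3) ^ r * D ^ Kc * D ^ Kp * A * (N * S * L) ^ r := by gcongr
      _ = D ^ (3 * r + Kc + Kp) * (N * S * L) ^ r * A := by
          rw [← pow_mul, pow_add, pow_add]
          ring
  have u1 : D ^ ((Kc + 2) * r) ≤ D ^ ((Kc + 2) * r + (3 * r + Kc + Kp)) :=
    pow_le_pow_right₀ hD1 (by omega)
  have u2 : D ^ (3 * r + Kc + Kp) ≤ D ^ ((Kc + 2) * r + (3 * r + Kc + Kp)) :=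
    pow_le_pow_right₀ hD1 (by omega)
  have hTA : 0 ≤ (N * S * L) ^ r * A := by positivity
  calc m ≤ D ^ ((Kc + 2) * r) * (N * S * L) ^ r * A +
        D ^ (3 * r + Kc + Kp) * (N * S * L) ^ r * A := by linarith
    _ = (D ^ ((Kc + 2) * r) + D ^ (3 * r + Kc + Kp)) * ((N * S * L) ^ r * A) := by ring
    _ ≤ (D ^ ((Kc + 2) * r + (3 * r + Kc + Kp)) * D) * ((N * S * L) ^ r * A) := by
        refine mul_le_mul_of_nonneg_right ?_ hTA
        have : 0 < D ^ ((Kc + 2) * r + (3 * r + Kc + Kp)) := by positivity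
        nlinarith
    _ = _ := by rw [pow_succ D ((Kc + 2) * r + (3 * r + Kc + Kp))]; ring

end MOMA

theorem t_MOMA (hQ : QRAT_Stmt) (hA : CHA_Stmt) (hB : CHB_Stmt) : MOMA_Stmt := by
  intro r
  obtain ⟨Kq, Kp, hQ⟩ := hQ
  obtain ⟨Kc, hB⟩ := hB
  refine ⟨Kq + (4 * (Kc + 2) + (2 * r + 2)), (Kc + 2) * r + (3 * r + Kc + Kp) + 1, ?_⟩
  intro D hD G hG C0 s t Vs Vt B hs ht hVs hVt hSol W n n0 hSc hW
  have hD1 : (1 : ℝ) ≤ D := by linarith
  have hW2 := hSc.W2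
  have hDW1 : 1 ≤ D * W := by nlinarith
  have hSc' : Sc0 Kq D W G n n0 :=
    { D2 := hSc.D2
      W2 := hSc.W2
      cls := hSc.cls
      big := (pow_le_pow_right₀ hDW1 (by omega)).trans hSc.big
      near := hSc.near }
  obtain ⟨hp, -, -⟩ := hQ D hD G hG C0 s t Vs Vt B hs ht hVs hVt hSol W n n0 hSc'
    ((pow_le_pow_right₀ hD1 (by omega)).trans hW)
  obtain ⟨hn1, hlog, hg0n⟩ := MOMA.scale (r := r) (Kc := Kc) hD hW2 (by omega) hSc.big
  have hr0 : (0 : ℝ) ≤ r := Nat.cast_nonneg r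
  have hL1 : 1 ≤ Real.log n := by linarith
  have hS1 : 1 ≤ Real.sqrt n := by
    rw [Real.one_le_sqrt]
    exact hn1
  have hSn : Real.sqrt n ≤ n := by
    rw [Real.sqrt_le_left (by linarith)]
    nlinarith
  have hR : 0 < G.rho ^ n := pow_pos G.rho_pos n
  have hDc : 1 ≤ D ^ Kc := one_le_pow₀ hD1
  have hA0 : 0 < (closeP C0 t B n).eval 1 := by
    have h1 : 0 < (D ^ Kp)⁻¹ := by positivity
    have h2 := h1.trans_le hp
    have h3 : 0 < (n : ℝ) * Real.sqrt n * G.rho ^ n := by positivity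
    exact (pos_iff_pos_of_mul_pos h2).1 h3
  obtain ⟨g0, hg0⟩ : ∃ g0 : ℕ, g0 = ⌈D ^ Kc * Real.sqrt n * Real.log n⌉₊ := ⟨_, rfl⟩
  have hXpos : 1 ≤ D ^ Kc * Real.sqrt n * Real.log n := by
    have : 1 ≤ D ^ Kc * Real.sqrt n := by nlinarith
    nlinarith
  have g1 : D ^ Kc * Real.sqrt n * Real.log n ≤ g0 := by
    rw [hg0]
    exact Nat.le_ceil _
  have g2 : (g0 : ℝ) ≤ D ^ Kc * Real.sqrt n * Real.log n + 1 := by
    rw [hg0]
    exact (Nat.ceil_lt_add_one (by linarith)).le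
  have g3 : 1 ≤ g0 := by
    have : (1 : ℝ) ≤ g0 := hXpos.trans g1
    exact_mod_cast this
  have g4 : g0 ≤ n := by
    rw [hg0]
    exact Nat.ceil_le.2 hg0n
  obtain ⟨-, hU⟩ := hA G hG.loc C0 s t hs.cap ht.cap hs.supp ht.supp B hSol
  obtain ⟨U, hU0, hU1, hU2, hU3⟩ := hU g0 g3
  have key := hB D hD G hG C0 s t hs ht B hSol g0 g3 (fun n g => (U n g).eval 1)
    (fun n g hg => by simp only [hU0 n g hg, Polynomial.eval_zero])
    (fun n g hg => by simp only [hU1 n g hg])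
    (fun n g hg hg' => by
      rw [hU2 n g hg hg', Polynomial.eval_finsetSum]
      refine Finset.sum_congr rfl fun i _ => ?_
      split_ifs with h
      · rw [Polynomial.eval_finsetSum]
        refine Finset.sum_congr rfl fun g' _ => ?_
        simp
      · simp) n g4
  have hcl : ∑ m ∈ range (n + 1), ∑ g ∈ Icc (1 : ℤ) C0, t m g * (U (n - m) g).eval 1 =
      (closeP C0 t U n).eval 1 := by
    unfold closeP
    rw [Polynomial.eval_finsetSum]
    refine Finset.sum_congr rfl fun m _ => ?_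
    rw [Polynomial.eval_finsetSum]
    refine Finset.sum_congr rfl fun g _ => ?_
    simp
  simp only [hcl] at key
  have hexp := MOMA.expo (N := n) (g := g0) (r := r) hD hn1 rfl hlog g1
  exact MOMA.fin hD hA0 hn1 hS1 hSn hL1 hp (Nat.cast_nonneg g0) g2
    (key.trans (mul_le_mul_of_nonneg_left hexp (by positivity))) (hU3 r n)

end Pool.Agent.TPK
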