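import Pool.Agent.TPK.Stmts3
import Pool.Agent.TPK.QSIDE
import Pool.Agent.KCS.IDN
import Pool.Agent.TPK.GE
import Pool.Agent.TPK.GFIN

/-!
# Two points (text of `EXW/MOMC.lean`), version 3, module MOMC: limits of the moments of the area polynomials
-/

set_option autoImplicit false

open Finset Filter Topology

namespace Pool.Agent.TPK

open Pool.Agent.Gap Pool.Agent.FL Pool.Agent.EXW
open Pool.Agent.KCG (mr)
open Pool.Agent.KCS (airyMoment kap)

namespace MOMC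

open QSIDE

/-- the scale of the staircase model -/
noncomputable def N0 {D : ℕ → ℝ} (M : QModel D) (n : ℕ) : ℕ :=
  ⌊2 * (M.G n).sig2 * n / (M.G n).mbar⌋₊

theorem log_U {m : ℕ} (hm : m ≠ 0) (j : ℕ) :
    Tendsto (fun n : ℕ => Real.log n ^ j / U m n) atTop (𝓝 0) := by
  have hm0 : (0 : ℝ) < m := by exact_mod_cast Nat.pos_of_ne_zero hm
  have h := (isLittleO_log_rpow_rpow_atTop (s := (m : ℝ)⁻¹) (j : ℝ)
    (by positivity)).tendsto_div_nhds_zero
  have h2 := h.comp tendsto_natCast_atTop_atTop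
  refine h2.congr fun n => ?_
  simp only [Function.comp_apply, Real.rpow_natCast]
  rfl

/-- near of the scales -/
theorem near_N0 {D : ℕ → ℝ} (hD : Slow D) (M : QModel D) (n : ℕ) :
    |(N0 M n : ℝ) * (M.G n).mbar - 2 * (M.G n).sig2 * n| ≤ (M.G n).mbar := by
  obtain ⟨Kp, hpar⟩ := par_bounds
  obtain ⟨p1, -, -, -, p5, -⟩ := hpar (D n) (hD.two_le n) (M.G n) (M.cls n)
  have hDp : 0 < D n := by linarith [hD.two_le n]
  have hmb : 0 < (M.G n).mbar := by linarith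
  have hsg : 0 < (M.G n).sig2 := lt_of_lt_of_le (inv_pos.2 hDp) p5
  obtain ⟨x, hx⟩ : ∃ x, x = 2 * (M.G n).sig2 * n / (M.G n).mbar := ⟨_, rfl⟩
  have hx0 : 0 ≤ x := by rw [hx]; positivity
  have e : (N0 M n : ℝ) * (M.G n).mbar - 2 * (M.G n).sig2 * n =
      ((N0 M n : ℝ) - x) * (M.G n).mbar := by
    rw [hx]; field_simp
  have hfl : N0 M n = ⌊x⌋₊ := by rw [hx]; rfl
  rw [e, abs_mul, abs_of_pos hmb]
  refine mul_le_of_le_one_left hmb.le ?_
  rw [hfl, abs_le]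
  constructor
  · have := Nat.lt_floor_add_one x
    linarith
  · have := Nat.floor_le hx0
    linarith

/-- the choice of the parameters -/
theorem scales {D : ℕ → ℝ} (hD : Slow D) (M : QModel D) (K0 K1 r : ℕ) :
    ∃ W lam : ℕ → ℝ,
      (∀ᶠ n : ℕ in atTop, Sc0 K0 (D n) (W n) (M.G n) n (N0 M n) ∧ D n ^ K0 ≤ W n ∧
        0 < lam n ∧ lam n ≤ 1) ∧ Tendsto W atTop atTop ∧
      Tendsto (fun n : ℕ => ((D n * W n) ^ K1 / qn n + D n ^ K1 / Real.sqrt (W n)) / lam n ^ r +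
        D n ^ K1 * (Real.log n) ^ (r + 1) * lam n) atTop (𝓝 0) := by
  have hD1 : ∀ n, 1 ≤ D n := fun n => by linarith [hD.two_le n]
  have hDp : ∀ n, 0 < D n := fun n => by linarith [hD.two_le n]
  obtain ⟨m, hm⟩ : ∃ m, m = 4 * (r + 1) * (K0 + K1) + r + 2 := ⟨_, rfl⟩
  have h2m : 2 * m ≠ 0 := by omega
  have h8m : 4 * (2 * m) ≠ 0 := by omega
  obtain ⟨v, hv⟩ : ∃ v : ℕ → ℝ, v = U (4 * (2 * m)) := ⟨_, rfl⟩
  have hv0 : ∀ n, 0 ≤ v n := fun n => by rw [hv]; exact U_nonneg _ _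
  have hvn : ∀ n, v n ^ (4 * (2 * m)) = n := fun n => by rw [hv]; exact U_pow h8m n
  have hvq : ∀ n, qn n = v n ^ (2 * m) := fun n => by rw [hv]; exact sqrt_U h2m n
  have hvt : Tendsto v atTop atTop := by rw [hv]; exact U_tendsto h8m
  have hslow : ∀ K : ℕ, Tendsto (fun n : ℕ => D n ^ K / v n) atTop (𝓝 0) := by
    rw [hv]; exact slow_U hD h8m
  have hlog : ∀ j : ℕ, Tendsto (fun n : ℕ => Real.log n ^ j / v n) atTop (𝓝 0) := by
    rw [hv]; exact log_U h8m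
  have hDU : ∀ K : ℕ, ∀ᶠ n : ℕ in atTop, D n ^ K ≤ v n := by
    intro K
    filter_upwards [(hslow K).eventually (ge_mem_nhds one_pos), hvt.eventually_ge_atTop 1]
      with n h1 h2
    have h3 : 0 < v n := by linarith
    rwa [div_le_one h3] at h1
  refine ⟨fun n => v n ^ (8 * (r + 1)), fun n => (v n ^ 2)⁻¹, ?_, ?_, ?_⟩
  · filter_upwards [hDU K0, hvt.eventually_ge_atTop 2] with n h2 h3
    have h1 : 1 ≤ v n := by linarith
    have hle : v n ≤ v n ^ (8 * (r + 1)) := le_self_pow₀ h1 (by omega)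
    refine ⟨⟨hD.two_le n, h3.trans hle, M.cls n, ?_, near_N0 hD M n⟩, h2.trans hle, ?_, ?_⟩
    · have e : (D n * v n ^ (8 * (r + 1))) ^ K0 = D n ^ K0 * v n ^ (8 * (r + 1) * K0) := by
        rw [mul_pow, ← pow_mul]
      rw [e]
      conv_rhs => rw [← hvn n]
      calc D n ^ K0 * v n ^ (8 * (r + 1) * K0) ≤ v n * v n ^ (8 * (r + 1) * K0) :=
            mul_le_mul_of_nonneg_right h2 (by have := hv0 n; positivity)
        _ = v n ^ (8 * (r + 1) * K0 + 1) := by ring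
        _ ≤ v n ^ (4 * (2 * m)) := pow_le_pow_right₀ h1 (by rw [hm]; nlinarith)
    · positivity
    · exact inv_le_one_of_one_le₀ (one_le_pow₀ h1)
  · exact (tendsto_pow_atTop (by omega)).comp hvt
  · have hlim : Tendsto (fun n : ℕ => 2 * (D n ^ K1 / v n) +
        (D n ^ K1 / v n) * (Real.log n ^ (r + 1) / v n)) atTop (𝓝 0) := by
      have h1 := ((hslow K1).const_mul 2).add ((hslow K1).mul (hlog (r + 1)))
      simpa only [mul_zero, add_zero] using h1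
    refine squeeze_zero' ?_ ?_ hlim
    · filter_upwards [eventually_ge_atTop 1] with n hn
      have h1 := hDp n
      have h2 := hv0 n
      have h3 : 0 ≤ qn n := by rw [hvq]; positivity
      have h4 : 0 ≤ Real.log n := Real.log_nonneg (by exact_mod_cast hn)
      positivity
    · filter_upwards [hvt.eventually_ge_atTop 1] with n h1
      have hv1 : 0 < v n := by linarith
      have hDn := hDp n
      have hsW : Real.sqrt (v n ^ (8 * (r + 1))) = v n ^ (4 * (r + 1)) := by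
        have : v n ^ (8 * (r + 1)) = (v n ^ (4 * (r + 1))) ^ 2 := by
          rw [← pow_mul]; congr 1; ring
        rw [this, Real.sqrt_sq (by positivity)]
      rw [hsW, hvq]
      have e1 : (D n * v n ^ (8 * (r + 1))) ^ K1 / v n ^ (2 * m) / ((v n ^ 2)⁻¹) ^ r ≤
          D n ^ K1 / v n := by
        have e : (D n * v n ^ (8 * (r + 1))) ^ K1 / v n ^ (2 * m) / ((v n ^ 2)⁻¹) ^ r =
            D n ^ K1 * v n ^ (8 * (r + 1) * K1 + 2 * r) / v n ^ (2 * m) := by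
          rw [inv_pow, div_inv_eq_mul, mul_pow, ← pow_mul, ← pow_mul, pow_add]
          ring
        rw [e, div_le_div_iff₀ (by positivity) hv1]
        calc D n ^ K1 * v n ^ (8 * (r + 1) * K1 + 2 * r) * v n =
              D n ^ K1 * v n ^ (8 * (r + 1) * K1 + 2 * r + 1) := by ring
          _ ≤ D n ^ K1 * v n ^ (2 * m) := by
              refine mul_le_mul_of_nonneg_left (pow_le_pow_right₀ h1 ?_) (by positivity)
              rw [hm]; nlinarith
      have e2 : D n ^ K1 / v n ^ (4 * (r + 1)) / ((v n ^ 2)⁻¹) ^ r ≤ D n ^ K1 / v n := by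
        have e : D n ^ K1 / v n ^ (4 * (r + 1)) / ((v n ^ 2)⁻¹) ^ r =
            D n ^ K1 * v n ^ (2 * r) / v n ^ (4 * (r + 1)) := by
          rw [inv_pow, div_inv_eq_mul, ← pow_mul]
          ring
        rw [e, div_le_div_iff₀ (by positivity) hv1]
        calc D n ^ K1 * v n ^ (2 * r) * v n = D n ^ K1 * v n ^ (2 * r + 1) := by ring
          _ ≤ D n ^ K1 * v n ^ (4 * (r + 1)) :=
              mul_le_mul_of_nonneg_left (pow_le_pow_right₀ h1 (by omega)) (by positivity)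
      have e3 : D n ^ K1 * Real.log n ^ (r + 1) * (v n ^ 2)⁻¹ =
          (D n ^ K1 / v n) * (Real.log n ^ (r + 1) / v n) := by
        field_simp
      rw [add_div, e3]
      linarith

/-- comparison of the scales -/
theorem cmp (hP : QPAR_Stmt) : ∃ K : ℕ, ∀ D : ℕ → ℝ, Slow D → ∀ M : QModel D,
    (∀ᶠ n : ℕ in atTop, 1 ≤ n ∧ 1 ≤ N0 M n ∧ (n : ℝ) ≤ D n ^ K * N0 M n) ∧
      Tendsto (N0 M) atTop atTop := by
  obtain ⟨K0', K1', hP⟩ := hP
  refine ⟨K1', fun D hD M => ?_⟩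
  obtain ⟨W, lam, h1, hWt, -⟩ := scales hD M K0' 0 0
  have hcmp : ∀ᶠ n : ℕ in atTop, 1 ≤ n ∧ 1 ≤ N0 M n ∧ W n ≤ N0 M n ∧
      (n : ℝ) ≤ D n ^ K1' * N0 M n := by
    filter_upwards [h1] with n hS
    have h1 := (hP (D n) (W n) (M.G n) n (N0 M n) 0 0 ⟨hS.1, le_rfl, by
      rw [zero_mul]; linarith [hS.1.W2], by rw [mul_zero, mul_zero]⟩).1
    exact ⟨h1.1, h1.2.1, h1.2.2.2.1, h1.2.2.2.2.1⟩
  refine ⟨?_, ?_⟩
  · filter_upwards [hcmp] with n hn using ⟨hn.1, hn.2.1, hn.2.2.2⟩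
  · have h1 : Tendsto (fun n => (N0 M n : ℝ)) atTop atTop := by
      refine tendsto_atTop_mono' atTop ?_ hWt
      filter_upwards [hcmp] with n hn using hn.2.2.1
    exact tendsto_natCast_atTop_iff.1 h1

/-- the factor of the scaled moments -/
noncomputable def kp {D : ℕ → ℝ} (M : QModel D) (n : ℕ) : ℝ :=
  2 * (M.G n).sig2 / ((M.G n).hbar * ((N0 M n : ℝ) * Real.sqrt (N0 M n)))

/-- positivity and an upper bound of the factor -/
theorem kp_bounds (hP : QPAR_Stmt) : ∃ K : ℕ, ∀ D : ℕ → ℝ, Slow D → ∀ M : QModel D,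
    ∀ᶠ n : ℕ in atTop, 0 < kp M n ∧ kp M n * ((n : ℝ) * Real.sqrt n) ≤ D n ^ K := by
  obtain ⟨K1', hcmp⟩ := cmp hP
  obtain ⟨Kp, hpar⟩ := par_bounds
  refine ⟨1 + Kp + 2 * K1', fun D hD M => ?_⟩
  have hD1 : ∀ n, 1 ≤ D n := fun n => by linarith [hD.two_le n]
  have hDp : ∀ n, 0 < D n := fun n => by linarith [hD.two_le n]
  filter_upwards [(hcmp D hD M).1] with n hc
  obtain ⟨c1, c2, c4⟩ := hc
  obtain ⟨p1, -, p3, -, p5, p6⟩ := hpar (D n) (hD.two_le n) (M.G n) (M.cls n)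
  have hh : 0 < (M.G n).hbar := by linarith
  have hsg : 0 < (M.G n).sig2 := lt_of_lt_of_le (inv_pos.2 (hDp n)) p5
  have hn : (0 : ℝ) < n := by exact_mod_cast c1
  have hnn : (0 : ℝ) < N0 M n := by exact_mod_cast c2
  have hsn : 0 < Real.sqrt n := Real.sqrt_pos.2 hn
  have hsn0 : 0 < Real.sqrt (N0 M n) := Real.sqrt_pos.2 hnn
  refine ⟨by unfold kp; positivity, ?_⟩
  have hDn := hDp n
  have hDK : (1 : ℝ) ≤ D n ^ K1' := one_le_pow₀ (hD1 n)
  have h1 : Real.sqrt n ≤ D n ^ K1' * Real.sqrt (N0 M n) := by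
    calc Real.sqrt n ≤ Real.sqrt (D n ^ K1' * N0 M n) := Real.sqrt_le_sqrt c4
      _ = Real.sqrt (D n ^ K1') * Real.sqrt (N0 M n) := Real.sqrt_mul (by positivity) _
      _ ≤ D n ^ K1' * Real.sqrt (N0 M n) := by
        refine mul_le_mul_of_nonneg_right ?_ hsn0.le
        rw [Real.sqrt_le_left (by positivity)]
        exact le_self_pow₀ hDK (by norm_num)
  have h2 : (n : ℝ) * Real.sqrt n ≤
      D n ^ (2 * K1') * ((N0 M n : ℝ) * Real.sqrt (N0 M n)) := by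
    calc (n : ℝ) * Real.sqrt n ≤ (D n ^ K1' * N0 M n) * (D n ^ K1' * Real.sqrt (N0 M n)) :=
          mul_le_mul c4 h1 hsn.le (by positivity)
      _ = _ := by ring
  have h3 : 2 * (M.G n).sig2 ≤ D n ^ (1 + Kp) := by
    rw [pow_add, pow_one]
    exact mul_le_mul (hD.two_le n) p6 hsg.le hDn.le
  unfold kp
  rw [div_mul_eq_mul_div, div_le_iff₀ (by positivity)]
  calc 2 * (M.G n).sig2 * ((n : ℝ) * Real.sqrt n)
      ≤ D n ^ (1 + Kp) * (D n ^ (2 * K1') * ((N0 M n : ℝ) * Real.sqrt (N0 M n))) :=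
        mul_le_mul h3 h2 (by positivity) (by positivity)
    _ = D n ^ (1 + Kp + 2 * K1') * (1 * ((N0 M n : ℝ) * Real.sqrt (N0 M n))) := by ring
    _ ≤ D n ^ (1 + Kp + 2 * K1') *
        ((M.G n).hbar * ((N0 M n : ℝ) * Real.sqrt (N0 M n))) := by
        gcongr

/-- the scaled moments converge -/
theorem scaled (hMD : MOMD_Stmt) (hSM : SMM_Stmt) (hP : QPAR_Stmt) {D : ℕ → ℝ} (hD : Slow D)
    (M : QModel D) (r : ℕ) :
    Tendsto (fun n : ℕ => kp M n ^ r * (mr r (M.P n) / (M.P n).eval 1)) atTop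
      (𝓝 (kap r / kap 0)) := by
  obtain ⟨K0, K1, hMD⟩ := hMD r
  obtain ⟨Kc, hcmp⟩ := cmp hP
  obtain ⟨W, lam, h1, hWt, hlim⟩ := scales hD M K0 K1 r
  have h2 : Tendsto (fun n : ℕ => mr r (closeP 1 cap1 B0 (N0 M n)) /
      ((((N0 M n : ℕ) : ℝ) * Real.sqrt (N0 M n)) ^ r * (closeP 1 cap1 B0 (N0 M n)).eval 1)) atTop
      (𝓝 (kap r / kap 0)) := (hSM.2 r).comp (hcmp D hD M).2
  have h3 : Tendsto (fun n : ℕ => kp M n ^ r * (mr r (M.P n) / (M.P n).eval 1) -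
      mr r (closeP 1 cap1 B0 (N0 M n)) /
      ((((N0 M n : ℕ) : ℝ) * Real.sqrt (N0 M n)) ^ r * (closeP 1 cap1 B0 (N0 M n)).eval 1)) atTop
      (𝓝 0) := by
    refine squeeze_zero_norm' ?_ hlim
    filter_upwards [h1] with n hn
    rw [Real.norm_eq_abs]
    exact hMD (D n) (hD.two_le n) (M.G n) (M.cls n) (M.C0 n) (M.s n) (M.t n) (M.Vs n) (M.Vt n)
      (M.B n) (M.cap_s n) (M.cap_t n) (M.crit_s n) (M.crit_t n) (M.sol n) (W n) n (N0 M n) (lam n)
      hn.1 hn.2.1 hn.2.2.1 hn.2.2.2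
  have h4 := h3.add h2
  rw [zero_add] at h4
  exact h4.congr fun n => by ring

end MOMC

open MOMC in
theorem t_MOMC (hMD : MOMD_Stmt) (hMA : MOMA_Stmt) (hQ : QRAT_Stmt) (hSM : SMM_Stmt)
    (hP : QPAR_Stmt) : MOMC_Stmt := by
  intro D hD M
  have hD1 : ∀ n, 1 ≤ D n := fun n => by linarith [hD.two_le n]
  have hDp : ∀ n, 0 < D n := fun n => by linarith [hD.two_le n]
  have hk0 : 0 < kap 0 := KCS.IDN.kap_zero_pos
  have hk1 : 0 < kap 1 / kap 0 := by
    rw [KCS.IDN.kap_one]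
    positivity
  obtain ⟨Kk, hkp⟩ := kp_bounds hP
  have hkp := hkp D hD M
  have hsc := fun r => scaled hMD hSM hP hD M r
  have h1 := hsc 1
  simp only [pow_one] at h1
  refine ⟨fun r => ?_, ?_, fun r => ?_, ?_⟩
  · have h2 := (hsc r).div (h1.pow r) (pow_ne_zero r hk1.ne')
    rw [KCS.IDN.kap_ratio r] at h2
    refine h2.congr' ?_
    filter_upwards [hkp] with n hn
    simp only [Pi.div_apply]
    rw [mul_pow, mul_div_mul_left _ _ (pow_ne_zero r hn.1.ne')]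
  · obtain ⟨Kc, hKc⟩ : ∃ Kc : ℕ, 2 / (kap 1 / kap 0) < 2 ^ Kc :=
      pow_unbounded_of_one_lt _ (by norm_num)
    refine ⟨Kc + Kk, ?_⟩
    filter_upwards [h1.eventually (lt_mem_nhds (half_lt_self hk1)), hkp,
      eventually_ge_atTop 1] with n a1 a2 a3
    have hn : (0 : ℝ) < n := by exact_mod_cast a3
    have hsn : 0 < Real.sqrt n := Real.sqrt_pos.2 hn
    have hnn : 0 < (n : ℝ) * Real.sqrt n := by positivity
    have hDn := hDp n
    have h4 : (D n ^ Kc)⁻¹ ≤ (kap 1 / kap 0) / 2 := by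
      have h5 : (2 : ℝ) ^ Kc ≤ D n ^ Kc := pow_le_pow_left₀ (by norm_num) (hD.two_le n) _
      have h6 : 2 / (kap 1 / kap 0) ≤ D n ^ Kc := hKc.le.trans h5
      rw [inv_le_comm₀ (by positivity) (by positivity), inv_div]
      exact h6
    obtain ⟨X, hX⟩ : ∃ X, X = mr 1 (M.P n) / (M.P n).eval 1 := ⟨_, rfl⟩
    rw [← hX] at a1 ⊢
    have h7 : (D n ^ Kc)⁻¹ ≤ kp M n * X := h4.trans a1.le
    have h8 : (n : ℝ) * Real.sqrt n ≤ D n ^ Kk / kp M n := by
      rw [le_div_iff₀ a2.1]; linarith [a2.2]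
    calc (D n ^ (Kc + Kk))⁻¹ * ((n : ℝ) * Real.sqrt n) ≤
          (D n ^ (Kc + Kk))⁻¹ * (D n ^ Kk / kp M n) :=
          mul_le_mul_of_nonneg_left h8 (by positivity)
      _ = (D n ^ Kc)⁻¹ / kp M n := by
          rw [pow_add]; field_simp
      _ ≤ (kp M n * X) / kp M n := div_le_div_of_nonneg_right h7 a2.1.le
      _ = X := by rw [mul_div_cancel_left₀ _ a2.1.ne']
  · obtain ⟨K0, K1, hMA⟩ := hMA r
    obtain ⟨K0', K1', hQ⟩ := hQ
    refine ⟨K1, ?_⟩
    obtain ⟨W, lam, h1, hWt, -⟩ := scales hD M (K0 + K0') 0 0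
    filter_upwards [h1, eventually_ge_atTop 1, hWt.eventually_ge_atTop 1] with n hn h2 h3
    have hKW : ∀ K, K ≤ K0 + K0' → D n ^ K ≤ W n := fun K hK =>
      (pow_le_pow_right₀ (hD1 n) hK).trans hn.2.1
    have h4 := hMA (D n) (hD.two_le n) (M.G n) (M.cls n) (M.C0 n) (M.s n) (M.t n) (M.Vs n)
      (M.Vt n) (M.B n) (M.cap_s n) (M.cap_t n) (M.crit_s n) (M.crit_t n) (M.sol n) (W n) n
      (N0 M n) (QSIDE.sc0_mono (by omega) hn.1) (hKW _ (by omega))
    have h5 := (hQ (D n) (hD.two_le n) (M.G n) (M.cls n) (M.C0 n) (M.s n) (M.t n) (M.Vs n)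
      (M.Vt n) (M.B n) (M.cap_s n) (M.cap_t n) (M.crit_s n) (M.crit_t n) (M.sol n) (W n) n
      (N0 M n) (QSIDE.sc0_mono (by omega) hn.1) (hKW _ (by omega))).1
    have hpos : 0 < (M.P n).eval 1 := by
      by_contra hcon
      have h6 : ((n : ℝ) * Real.sqrt n) * (M.G n).rho ^ n * (M.P n).eval 1 ≤ 0 :=
        mul_nonpos_of_nonneg_of_nonpos (by have := (M.G n).rho_pos; positivity) (not_lt.1 hcon)
      have h7 : 0 < (D n ^ K1')⁻¹ := by have := hDp n; positivity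
      unfold QModel.P at h6
      linarith
    rw [div_le_iff₀ hpos]
    exact h4
  · obtain ⟨K0', K1', hQ⟩ := hQ
    refine ⟨K1', ?_⟩
    obtain ⟨W, lam, h1, hWt, -⟩ := scales hD M K0' 0 0
    filter_upwards [h1] with n hn
    exact (hQ (D n) (hD.two_le n) (M.G n) (M.cls n) (M.C0 n) (M.s n) (M.t n) (M.Vs n)
      (M.Vt n) (M.B n) (M.cap_s n) (M.cap_t n) (M.crit_s n) (M.crit_t n) (M.sol n) (W n) n
      (N0 M n) hn.1 hn.2.1).1

end Pool.Agent.TPK
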