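import Mathlib
import Pool.Agent.TPK.StmtsA
import Pool.Agent.TPK.GE
import Pool.Agent.TPK.GFIN

/-!
# Module QE: comparison of the solutions with explicit constants
-/

set_option autoImplicit false

open Finset Filter Topology

namespace Pool.Agent.TPK

open Pool.Agent.Gap Pool.Agent.FL Pool.Agent.EXW

namespace QE

/-- the bound of the weighted norm of the wall part -/
noncomputable def fa (Kt P1 K Ke : ℕ) (Ce X : ℝ) : ℝ :=
  X ^ Kt * X ^ P1 + X ^ K * (X ^ Ke * (Ce * X * X ^ P1 + 4 * X ^ P1 + 1))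

/-- the bound of the bulk part -/
noncomputable def fM (P1 K Ke R1 Ks : ℕ) (X : ℝ) : ℝ :=
  X ^ (2 * K) * (X ^ Ke * X ^ R1) ^ 2 + X ^ K
    + ((X + 1) * (4 * X ^ Ks)) ^ 2 * (2 * X ^ P1) ^ 2 * X ^ K

/-- the final bound -/
noncomputable def fF (Kt P1 K Ke Kw Kr R1 Ks : ℕ) (Ce X : ℝ) : ℝ :=
  3 * (X ^ Kw * fa Kt P1 K Ke Ce X ^ 2 * X ^ P1
    + X ^ (2 * Kr) * (3 * fM P1 K Ke R1 Ks X) * X ^ (2 * P1) + X ^ K)

lemma pb_fa (Kt P1 K Ke : ℕ) (Ce : ℝ) : PB fun X => fa Kt P1 K Ke Ce X :=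
  ((PB.pow_self _).mul (PB.pow_self _)).add ((PB.pow_self _).mul ((PB.pow_self _).mul
    (((((PB.const Ce).mul PB.id).mul (PB.pow_self _)).add
      ((PB.const 4).mul (PB.pow_self _))).add (PB.const 1))))

lemma pb_fM (P1 K Ke R1 Ks : ℕ) : PB fun X => fM P1 K Ke R1 Ks X :=
  (((PB.pow_self _).mul (((PB.pow_self _).mul (PB.pow_self _)).pow 2)).add
    (PB.pow_self _)).add
    ((((((PB.id.add (PB.const 1)).mul ((PB.const 4).mul (PB.pow_self _))).pow 2).mul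
      (((PB.const 2).mul (PB.pow_self _)).pow 2))).mul (PB.pow_self _))

lemma pb_fF (Kt P1 K Ke Kw Kr R1 Ks : ℕ) (Ce : ℝ) :
    PB fun X => fF Kt P1 K Ke Kw Kr R1 Ks Ce X :=
  (PB.const 3).mul ((((((PB.pow_self _).mul ((pb_fa Kt P1 K Ke Ce).pow 2)).mul
    (PB.pow_self _))).add (((PB.pow_self _).mul ((PB.const 3).mul (pb_fM P1 K Ke R1 Ks))).mul
      (PB.pow_self _))).add (PB.pow_self _))

lemma sc_mono {K K' : ℕ} (h : K' ≤ K) {D W : ℝ} {G : GapKernel} {n n0 : ℕ} {eps eps' : ℝ}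
    (hS : Sc K D W G n n0 eps eps') : Sc K' D W G n n0 eps eps' := by
  have h1 : 1 ≤ D * W := by
    have := hS.D2
    have := hS.W2
    nlinarith
  exact { hS with big := (pow_le_pow_right₀ h1 h).trans hS.big }

lemma Lop_sub (G : GapKernel) (e : ℝ) (z : ℂ) (N : ℕ) (f k : ℤ → ℂ) (g : ℤ) :
    G.Lop e z N (fun x => f x - k x) g = G.Lop e z N f g - G.Lop e z N k g := by
  unfold GapKernel.Lop
  rw [Kap_sub]
  ring

lemma Lop_smul (G : GapKernel) (e : ℝ) (z : ℂ) (N : ℕ) (c : ℂ) (f : ℤ → ℂ) (g : ℤ) :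
    G.Lop e z N (fun x => c * f x) g = c * G.Lop e z N f g := by
  unfold GapKernel.Lop
  rw [Kap_smul]
  ring

/-- numbers: the scale `u = n ^ (-1/4)` -/
lemma scale {n n0 N : ℕ} {D W X : ℝ} {P1 : ℕ} {Ce δ δ' ε ε' : ℝ} (hCe : 0 < Ce) (hX : 4 ≤ X)
    (hD : 2 ≤ D) (hDX : D ≤ X) (hWX : W ≤ X) (hn : 1 ≤ n)
    (hn0 : 1 ≤ n0) (hnn0 : (n : ℝ) ≤ D ^ P1 * n0) (hN : 4 * n ^ 2 + 4 * n0 ^ 2 ≤ N)
    (hδ : δ * n ≤ X ^ P1) (hδ' : δ' * n ≤ X ^ P1)
    (hε : ε * ((n : ℝ) * Real.sqrt n) ≤ X ^ P1) (hε' : ε' * ((n : ℝ) * Real.sqrt n) ≤ X ^ P1) :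
    (Ce * W * (qn n0)⁻¹ + δ + δ' + ε + ε' + (N : ℝ)⁻¹
      ≤ (Ce * X * X ^ P1 + 4 * X ^ P1 + 1) * (qn n)⁻¹) ∧
    δ ≤ X ^ P1 * (qn n)⁻¹ ∧ ε * n ≤ X ^ P1 := by
  have hn1 : (1 : ℝ) ≤ n := by exact_mod_cast hn
  have hn' : (0 : ℝ) < n := by linarith
  have hq := qn_pos n hn
  have hq0 := qn_pos n0 hn0
  have hq4 := qn_four n
  have hq04 := qn_four n0
  have hX1 : 1 ≤ X ^ P1 := one_le_pow₀ (by linarith)
  have hXp : 0 < X ^ P1 := by linarith
  have hq1 : 1 ≤ qn n := by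
    by_contra hcon
    rw [not_le] at hcon
    have := pow_lt_one₀ hq.le hcon (by norm_num : (4 : ℕ) ≠ 0)
    linarith
  set u := (qn n)⁻¹ with hu
  have hu0 : 0 < u := inv_pos.mpr hq
  have hu1 : u ≤ 1 := inv_le_one_of_one_le₀ hq1
  have hu4 : (n : ℝ)⁻¹ = u ^ 4 := by rw [hu, inv_pow, hq4]
  have hu4u : u ^ 4 ≤ u := by
    have := pow_le_pow_of_le_one hu0.le hu1 (by norm_num : 1 ≤ 4)
    rwa [pow_one] at this
  have hninv : (n : ℝ)⁻¹ ≤ u := hu4.trans_le hu4u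
  have key : ∀ x : ℝ, x * n ≤ X ^ P1 → x ≤ X ^ P1 * u := by
    intro x hx
    calc x = x * n * (n : ℝ)⁻¹ := by field_simp
      _ ≤ X ^ P1 * (n : ℝ)⁻¹ := mul_le_mul_of_nonneg_right hx (by positivity)
      _ ≤ X ^ P1 * u := mul_le_mul_of_nonneg_left hninv hXp.le
  have hs1 : 1 ≤ Real.sqrt n := Real.one_le_sqrt.mpr hn1
  have key2 : ∀ x : ℝ, x * ((n : ℝ) * Real.sqrt n) ≤ X ^ P1 → x * n ≤ X ^ P1 := by
    intro x hx
    rcases le_or_gt 0 x with h0 | h0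
    · refine le_trans ?_ hx
      refine mul_le_mul_of_nonneg_left ?_ h0
      nlinarith
    · have : x * n ≤ 0 := mul_nonpos_of_nonpos_of_nonneg h0.le hn'.le
      linarith
  have hη : Ce * W * (qn n0)⁻¹ ≤ Ce * X * X ^ P1 * u := by
    have h1 : qn n ≤ X ^ P1 * qn n0 := by
      refine le_of_pow_le_pow_left₀ (by norm_num : (4 : ℕ) ≠ 0) (by positivity) ?_
      rw [mul_pow, hq4, hq04]
      have h2 : D ^ P1 ≤ X ^ P1 := pow_le_pow_left₀ (by linarith) hDX _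
      have h3 : X ^ P1 ≤ (X ^ P1) ^ 4 := le_self_pow₀ hX1 (by norm_num)
      have h4 : (0 : ℝ) ≤ n0 := by positivity
      calc (n : ℝ) ≤ D ^ P1 * n0 := hnn0
        _ ≤ (X ^ P1) ^ 4 * n0 := mul_le_mul_of_nonneg_right (h2.trans h3) h4
    have h2 : (qn n0)⁻¹ ≤ X ^ P1 * u := by
      rw [hu, ← div_eq_mul_inv, le_div_iff₀ hq, inv_mul_le_iff₀ hq0, mul_comm]
      exact h1
    calc Ce * W * (qn n0)⁻¹ ≤ Ce * X * (qn n0)⁻¹ := by
          refine mul_le_mul_of_nonneg_right ?_ (inv_pos.mpr hq0).le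
          exact mul_le_mul_of_nonneg_left hWX hCe.le
      _ ≤ Ce * X * (X ^ P1 * u) := by
          refine mul_le_mul_of_nonneg_left h2 ?_
          have : 0 ≤ X := by linarith
          positivity
      _ = _ := by ring
  have hNu : (N : ℝ)⁻¹ ≤ u := by
    refine le_trans ?_ hninv
    refine inv_anti₀ hn' ?_
    have : n ≤ N := by nlinarith
    exact_mod_cast this
  refine ⟨?_, key δ hδ, key2 ε hε⟩
  have h1 := key δ hδ
  have h2 := key δ' hδ'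
  have h3 := key ε (key2 ε hε)
  have h4 := key ε' (key2 ε' hε')
  nlinarith

end QE

open QE in
/-- MODULE QE : comparison of the solutions -/
theorem t_QE (hRE : QGRE_Stmt) (hW : QGW_Stmt) (hEB : QGEB_Stmt) (hPAR : QPAR_Stmt)
    (_hS0 : QS0_Stmt) (hETA : QETA_Stmt) (hRB : QRB_Stmt) : QE_Stmt := by
  obtain ⟨Kr, hr⟩ := hRE
  obtain ⟨Kw, hw'⟩ := hW
  obtain ⟨Ke, hE⟩ := hEB
  obtain ⟨P0, P1, hP⟩ := hPAR
  obtain ⟨Ce, hCe, hη⟩ := hETA
  obtain ⟨R0, R1, hR⟩ := hRB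
  obtain ⟨Ks, hBsum⟩ := sum_pow 2
  have hT : PB fun D => D * (D * ∑' m : ℕ, (m : ℝ) ^ 5 * (1 - D⁻¹) ^ m) :=
    PB.id.mul (PB.id.mul (PB.geo' 5 (fun D hD => (th_pos hD).le) LB.inv_self fun D _ => le_rfl))
  obtain ⟨Kt, hKt⟩ := hT.le
  intro K
  obtain ⟨K1, hK1⟩ := (pb_fF Kt P1 K Ke Kw Kr R1 Ks Ce).le
  refine ⟨max P0 R0, K1, ?_⟩
  intro D W G n n0 eps eps' hS C0 s V A hs hV hL w N v v0 hw1 hwW hN hv hv0
  have hD := hS.D2
  have hW2 := hS.W2
  have hcls := hS.cls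
  have he0' := hS.eps_nonneg
  have heW := hS.eps_le
  obtain ⟨⟨hn, hn0, hWn, hWn0, hnn0, hn0n⟩, ⟨he0, he1, he1', hen, hen'⟩, hPw⟩ :=
    hP D W G n n0 eps eps' (sc_mono (le_max_left _ _) hS)
  obtain ⟨hz1, hz2, hz3, hδ'n, hδn, hδn', _⟩ := hPw w hw1 hwW
  have hRBb := hR D W G n n0 eps eps' (sc_mono (le_max_right _ _) hS) w N v0 hw1 hwW hN hv0
  have hX : 4 ≤ D * W := by nlinarith
  have hDX : D ≤ D * W := by nlinarith
  have hWX : W ≤ D * W := by nlinarith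
  generalize D * W = X at *
  refine le_trans ?_ (hK1 X (by linarith))
  have hX0 : 0 < X := by linarith
  have hX1 : 1 ≤ X := by linarith
  have hDp : ∀ k : ℕ, D ^ k ≤ X ^ k := fun k => pow_le_pow_left₀ (by linarith) hDX k
  have hwre : 0 < w.re := by rw [hw1]; exact one_pos
  have hn1 : (1 : ℝ) ≤ n := by exact_mod_cast hn
  have hn' : (0 : ℝ) < n := by linarith
  have hzle : ‖zn G.rho w n‖ ≤ G.rho := zn_norm_le _ G.rho_pos w hwre n
  have hz'le : ‖zn (1 / 4) w n0‖ ≤ 1 / 4 := zn_norm_le (1 / 4) (by norm_num) w hwre _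
  have hne : zn G.rho w n ≠ (G.rho : ℂ) := zn_ne _ G.rho_pos w hwre n hn
  have hθ0 := th_pos hD
  have hθ1 := th_lt hD
  have hD0 : 0 < D := by linarith
  -- the staircase solution near the wall
  have hη0 : 0 ≤ Ce * W * (qn n0)⁻¹ := by
    have := qn_nonneg n0
    positivity
  have hηb := hη W n0 N eps' w v0 (by linarith) hWn0 (by nlinarith) hw1 hwW he0' heW hv0
  obtain ⟨rb, rl, hres, hrb, hrl⟩ := hE D hD G hcls N eps eps' (Ce * W * (qn n0)⁻¹)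
    (zn G.rho w n) (zn (1 / 4) w n0) v0 he0 he1 he0' he1' hzle hz'le hz3 hη0 hv0 hηb
  obtain ⟨hSb, hδu, hεn⟩ := QE.scale (n0 := n0) (N := N) hCe hX hD hDX hWX hn hn0 hnn0 hN hδn
    hδ'n hen hen'
  generalize hzz : zn G.rho w n = z at *
  generalize hzz' : zn (1 / 4) w n0 = z' at *
  set δ : ℝ := ‖(G.rho : ℂ) - z‖ with hδdef
  have hδpos : 0 < δ := norm_pos_iff.mpr (sub_ne_zero.mpr hne.symm)
  have hq := qn_pos n hn
  set u := (qn n)⁻¹ with hu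
  have hu0 : 0 < u := inv_pos.mpr hq
  have hu4 : (n : ℝ)⁻¹ = u ^ 4 := by rw [hu, inv_pow, qn_four]
  have hA0 : 0 ≤ A := le_trans (by positivity) hL.low
  have hAX : A ≤ X ^ K := hL.up.trans (hDp K)
  -- the bulk residual
  have hrbX : Real.sqrt (nsq N rb) ≤ X ^ Ke * X ^ R1 / n := by
    have hDe : 1 ≤ D ^ Ke := one_le_pow₀ (by linarith)
    have ha : 0 ≤ ‖2 * (G.sig2 : ℂ) * (1 - 4 * z') - (G.mbar : ℂ) * (1 - z / (G.rho : ℂ))‖
        * Real.sqrt (nsq N v0) := by positivity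
    have hb : 0 ≤ 2 * |2 * G.sig2 * eps' - G.hbar * eps| * Real.sqrt (nsq N (mulg 1 v0)) := by
      positivity
    generalize ‖2 * (G.sig2 : ℂ) * (1 - 4 * z') - (G.mbar : ℂ) * (1 - z / (G.rho : ℂ))‖
        * Real.sqrt (nsq N v0) = a at *
    generalize 2 * |2 * G.sig2 * eps' - G.hbar * eps| * Real.sqrt (nsq N (mulg 1 v0)) = b at *
    have h1 := mul_le_mul_of_nonneg_left hRBb (by positivity : (0 : ℝ) ≤ D ^ Ke)
    have h2 : D ^ Ke * (X ^ R1 / n) ≤ X ^ Ke * (X ^ R1 / n) :=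
      mul_le_mul_of_nonneg_right (hDp Ke) (by positivity)
    have h3 : X ^ Ke * (X ^ R1 / n) = X ^ Ke * X ^ R1 / n := by ring
    nlinarith
  -- the two parts of the source
  set cd : ℤ → ℂ := fun g => capz C0 s 0 z g - (GE.sr G.rho C0 s g : ℂ) with hcd
  set e1 : ℤ → ℂ := fun g => cd g - (A : ℂ) * rl g with he1d
  set edge : ℤ → ℂ := fun g =>
    ((∑ g' ∈ (Icc (g - G.R) (g + G.R)).filter (fun g' => ((N : ℕ) : ℤ) < g'),
      G.Kc g g' * (V g' - A) : ℝ) : ℂ) with hedge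
  set Dd : ℤ → ℂ := Df G eps z N (Yf N V A) with hDdef
  set e2 : ℤ → ℂ := fun g => (-((A : ℂ) * rb g)) + (-edge g) + (-Dd g) with he2
  set Wd : ℤ → ℂ := fun g => v g - (A : ℂ) * v0 g - Yf N V A g with hWdef
  obtain ⟨W1, hW1⟩ := (hr D hD G hcls N eps z he0 hzle).1 e1
  have hWeq : ∀ g ∈ Icc (1 : ℤ) N, G.Lop eps z N Wd g = e1 g + e2 g := by
    intro g hg
    have hL' : G.Lop eps z N Wd g
        = capz C0 s 0 z g - (A : ℂ) * G.Lop eps z N v0 g - G.Lop eps z N (Yf N V A) g := by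
      have e3 : Wd = fun x => (fun y => v y - (fun t => (A : ℂ) * v0 t) y) x
          - Yf N V A x := rfl
      rw [e3, QE.Lop_sub, QE.Lop_sub, QE.Lop_smul, hv.2 g hg]
    rw [hL', Lop_eq_crit G eps z N (Yf N V A) g,
      Lop_Yf G N (GE.sr G.rho C0 s) V A hV.eq g hg, hres g hg]
    simp only [he1d, he2, hedge, hDdef, hcd]
    push_cast
    ring
  have hW2' : G.Solves eps z N (fun g => Wd g - W1 g) e2 := by
    refine ⟨fun g hg => ?_, fun g hg => ?_⟩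
    · have h1 := hv.1 g hg
      have h2 := hv0.1 g hg
      have h3 := hW1.1 g hg
      have h4 : Yf N V A g = 0 := by
        unfold Yf
        rw [if_neg]
        omega
      simp only [hWdef, h1, h2, h3, h4]
      ring
    · rw [QE.Lop_sub, hWeq g hg, hW1.2 g hg]
      ring
  -- weighted norm of `e1`
  have hfa0 : 0 ≤ QE.fa Kt P1 K Ke Ce X := by
    unfold QE.fa
    positivity
  have hlw : lw 4 N e1 ≤ QE.fa Kt P1 K Ke Ce X * u := by
    have h1 := GE.lw_sub_smul 4 N cd rl (A : ℂ)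
    have h2 := GE.lw_capdiff hD0 hθ0 hθ1 hcls hs N z hzle
    have h4 : ‖(A : ℂ)‖ ≤ X ^ K := by
      rw [Complex.norm_real, Real.norm_of_nonneg hA0]
      exact hAX
    have h5 : lw 4 N rl ≤ X ^ Ke * ((Ce * X * X ^ P1 + 4 * X ^ P1 + 1) * u) :=
      hrl.trans (mul_le_mul (hDp Ke) hSb (by positivity) (by positivity))
    have h6 : ‖(A : ℂ)‖ * lw 4 N rl ≤
        X ^ K * (X ^ Ke * ((Ce * X * X ^ P1 + 4 * X ^ P1 + 1) * u)) :=
      mul_le_mul h4 h5 (GE.lw_nonneg _ _ _) (by positivity)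
    have h7 : lw 4 N cd ≤ X ^ Kt * (X ^ P1 * u) := by
      refine h2.trans (mul_le_mul ((hKt D hD).trans (hDp Kt)) hδu (norm_nonneg _)
        (by positivity))
    unfold QE.fa
    calc lw 4 N e1 ≤ lw 4 N cd + ‖(A : ℂ)‖ * lw 4 N rl := h1
      _ ≤ X ^ Kt * (X ^ P1 * u) +
          X ^ K * (X ^ Ke * ((Ce * X * X ^ P1 + 4 * X ^ P1 + 1) * u)) := add_le_add h7 h6
      _ = _ := by ring
  -- W1
  have hδlow : (X ^ P1)⁻¹ ≤ δ * n := (inv_anti₀ (by positivity) (hDp P1)).trans hδn'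
  have hT1 : nsq N W1 ≤ X ^ Kw * QE.fa Kt P1 K Ke Ce X ^ 2 * X ^ P1 := by
    have h1 := (hw' D hD G hcls N eps z W1 e1 he0 hzle hne hW1).1 0 (by norm_num)
    rw [nsq_mulg_zero, pow_zero, mul_one] at h1
    have hsδ : (X ^ P1)⁻¹ * u ^ 2 ≤ Real.sqrt δ := by
      refine Real.le_sqrt_of_sq_le ?_
      have h2 : δ = δ * n * u ^ 4 := by
        rw [← hu4]
        field_simp
      rw [h2, mul_pow]
      have h3 : ((X ^ P1)⁻¹) ^ 2 ≤ δ * n := by
        refine le_trans ?_ hδlow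
        have h4 : (X ^ P1)⁻¹ ≤ 1 := inv_le_one_of_one_le₀ (one_le_pow₀ hX1)
        have h5 : 0 ≤ (X ^ P1)⁻¹ := by positivity
        nlinarith
      have h4 : (u ^ 2) ^ 2 = u ^ 4 := by ring
      rw [h4]
      exact mul_le_mul_of_nonneg_right h3 (by positivity)
    have hsδ0 : 0 < Real.sqrt δ := Real.sqrt_pos.mpr hδpos
    have hus : u ^ 2 / Real.sqrt δ ≤ X ^ P1 := by
      rw [div_le_iff₀ hsδ0]
      have h2 := mul_le_mul_of_nonneg_left hsδ (by positivity : (0 : ℝ) ≤ X ^ P1)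
      have h3 : X ^ P1 * ((X ^ P1)⁻¹ * u ^ 2) = u ^ 2 := by
        rw [← mul_assoc, mul_inv_cancel₀ (by positivity), one_mul]
      linarith
    calc nsq N W1 ≤ D ^ Kw * (lw 4 N e1) ^ 2 / Real.sqrt δ := h1
      _ ≤ X ^ Kw * (QE.fa Kt P1 K Ke Ce X * u) ^ 2 / Real.sqrt δ := by
          refine div_le_div_of_nonneg_right ?_ hsδ0.le
          refine mul_le_mul (hDp Kw) ?_ (sq_nonneg _) (by positivity)
          exact pow_le_pow_left₀ (GE.lw_nonneg _ _ _) hlw 2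
      _ = X ^ Kw * QE.fa Kt P1 K Ke Ce X ^ 2 * (u ^ 2 / Real.sqrt δ) := by ring
      _ ≤ _ := mul_le_mul_of_nonneg_left hus (by positivity)
  -- e2
  have hVsum := hL.sum
  have hE2 : nsq N e2 ≤ 3 * QE.fM P1 K Ke R1 Ks X / (n : ℝ) ^ 2 := by
    have hNn : 1 ≤ N := by nlinarith
    have hN' : (0 : ℝ) < N := by exact_mod_cast hNn
    have hNn2 : (n : ℝ) ^ 2 ≤ N := by
      have h1 : n ^ 2 ≤ N := by nlinarith
      exact_mod_cast h1
    have h3 := nsq_add3 N (fun g => -((A : ℂ) * rb g)) (fun g => -edge g) (fun g => -Dd g)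
    have h4 : nsq N (fun g => -((A : ℂ) * rb g)) ≤
        X ^ (2 * K) * (X ^ Ke * X ^ R1) ^ 2 / (n : ℝ) ^ 2 := by
      have h5 : nsq N (fun g => -((A : ℂ) * rb g)) = A ^ 2 * nsq N rb := by
        unfold nsq
        rw [Finset.mul_sum]
        refine Finset.sum_congr rfl fun g _ => ?_
        rw [norm_neg, norm_mul, mul_pow, Complex.norm_real, Real.norm_eq_abs, sq_abs]
      rw [h5]
      have h6 : nsq N rb ≤ (X ^ Ke * X ^ R1 / n) ^ 2 := by
        rw [← Real.sq_sqrt (nsq_nonneg N rb)]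
        exact pow_le_pow_left₀ (Real.sqrt_nonneg _) hrbX 2
      have h7 : A ^ 2 ≤ X ^ (2 * K) := by
        rw [mul_comm 2 K, pow_mul]
        exact pow_le_pow_left₀ hA0 hAX 2
      calc A ^ 2 * nsq N rb ≤ X ^ (2 * K) * (X ^ Ke * X ^ R1 / n) ^ 2 :=
            mul_le_mul h7 h6 (nsq_nonneg _ _) (by positivity)
        _ = _ := by ring
    have h5 : nsq N (fun g => -edge g) ≤ X ^ K / (n : ℝ) ^ 2 := by
      have h8 := GE.nsq_edge' G V A (D ^ K) hVsum N hNn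
      have h9 : nsq N (fun g => -edge g) ≤ D ^ K / N := by
        refine le_trans (le_of_eq ?_) h8
        unfold nsq
        refine Finset.sum_congr rfl fun g _ => ?_
        rw [norm_neg]
      refine h9.trans ?_
      exact div_le_div₀ (by positivity) (hDp K) (by positivity) hNn2
    have h6 : nsq N (fun g => -Dd g) ≤
        ((X + 1) * (4 * X ^ Ks)) ^ 2 * (2 * X ^ P1) ^ 2 * X ^ K / (n : ℝ) ^ 2 := by
      have h8 := GE.nsq_Df' hD0 (by positivity : (0 : ℝ) ≤ D ^ Ks) hcls (hBsum D hD G hcls)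
        eps z N V A (D ^ K) he0 hzle (hVsum N)
      have h9 : nsq N (fun g => -Dd g) ≤
          ((D + 1) * (4 * D ^ Ks)) ^ 2 * (δ + eps) ^ 2 * D ^ K := by
        refine le_trans (le_of_eq ?_) h8
        unfold nsq
        refine Finset.sum_congr rfl fun g _ => ?_
        rw [norm_neg]
      refine h9.trans ?_
      have h10 : δ + eps ≤ 2 * X ^ P1 / n := by
        rw [le_div_iff₀ hn']
        linarith
      have h11 : (D + 1) * (4 * D ^ Ks) ≤ (X + 1) * (4 * X ^ Ks) := by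
        have := hDp Ks
        refine mul_le_mul (by linarith) (by linarith) (by positivity) (by positivity)
      calc ((D + 1) * (4 * D ^ Ks)) ^ 2 * (δ + eps) ^ 2 * D ^ K
          ≤ ((X + 1) * (4 * X ^ Ks)) ^ 2 * (2 * X ^ P1 / n) ^ 2 * X ^ K := by
            refine mul_le_mul (mul_le_mul ?_ ?_ (sq_nonneg _) (sq_nonneg _)) (hDp K)
              (by positivity) (by positivity)
            · exact pow_le_pow_left₀ (by positivity) h11 2
            · exact pow_le_pow_left₀ (by positivity) h10 2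
        _ = _ := by ring
    unfold QE.fM
    calc nsq N e2 ≤ _ := h3
      _ ≤ 3 * (X ^ (2 * K) * (X ^ Ke * X ^ R1) ^ 2 / (n : ℝ) ^ 2 + X ^ K / (n : ℝ) ^ 2
          + ((X + 1) * (4 * X ^ Ks)) ^ 2 * (2 * X ^ P1) ^ 2 * X ^ K / (n : ℝ) ^ 2) := by
          linarith
      _ = _ := by ring
  -- W2
  have hT2 : nsq N (fun g => Wd g - W1 g) ≤
      X ^ (2 * Kr) * (3 * QE.fM P1 K Ke R1 Ks X) * X ^ (2 * P1) := by
    have h1 := ((hr D hD G hcls N eps z he0 hzle).2.2 _ _ hW2').1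
    set Y := nsq N (fun g => Wd g - W1 g) with hY
    have hY0 : 0 ≤ Y := nsq_nonneg _ _
    have hE0 := nsq_nonneg N e2
    have h2 : δ ^ 2 * Y ≤ X ^ (2 * Kr) * nsq N e2 := by
      have h3 : (δ * Real.sqrt Y) ^ 2 ≤ (D ^ Kr * Real.sqrt (nsq N e2)) ^ 2 :=
        pow_le_pow_left₀ (by positivity) h1 2
      rw [mul_pow, mul_pow, Real.sq_sqrt hY0, Real.sq_sqrt hE0] at h3
      refine h3.trans (mul_le_mul_of_nonneg_right ?_ hE0)
      rw [mul_comm 2 Kr, pow_mul]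
      exact pow_le_pow_left₀ (by positivity) (hDp Kr) 2
    have h4 : (δ * n) ^ 2 * Y ≤ X ^ (2 * Kr) * (3 * QE.fM P1 K Ke R1 Ks X) := by
      have h5 := h2.trans (mul_le_mul_of_nonneg_left hE2 (by positivity))
      have h6 := mul_le_mul_of_nonneg_right h5 (by positivity : (0 : ℝ) ≤ (n : ℝ) ^ 2)
      calc (δ * n) ^ 2 * Y = δ ^ 2 * Y * (n : ℝ) ^ 2 := by ring
        _ ≤ _ := h6
        _ = _ := by field_simp
    have h5 : ((X ^ P1)⁻¹) ^ 2 ≤ (δ * n) ^ 2 := pow_le_pow_left₀ (by positivity) hδlow 2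
    have h6 : ((X ^ P1)⁻¹) ^ 2 * Y ≤ X ^ (2 * Kr) * (3 * QE.fM P1 K Ke R1 Ks X) :=
      (mul_le_mul_of_nonneg_right h5 hY0).trans h4
    have h7 := mul_le_mul_of_nonneg_right h6 (by positivity : (0 : ℝ) ≤ X ^ (2 * P1))
    have h8 : ((X ^ P1)⁻¹) ^ 2 * Y * X ^ (2 * P1) = Y := by
      rw [mul_comm 2 P1, pow_mul]
      field_simp
    linarith
  -- Y
  have hT3 : nsq N (Yf N V A) ≤ X ^ K := (nsq_Yf N V A (D ^ K) (hVsum N)).trans (hDp K)
  -- conclusion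
  have h1 := nsq_add3 N W1 (fun g => Wd g - W1 g) (Yf N V A)
  have h2 : nsq N (fun g => W1 g + (Wd g - W1 g) + Yf N V A g)
      = nsq N (fun g => v g - (A : ℂ) * v0 g) := by
    refine nsq_congr _ _ _ fun g _ => ?_
    simp only [hWdef]
    ring
  rw [h2] at h1
  unfold QE.fF
  linarith

end Pool.Agent.TPK
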