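import Pool.Agent.TPK.StmtsA
import Pool.Agent.TPK.GC
import Pool.Agent.TPK.GC2
import Pool.Agent.TPK.GE
import Pool.Agent.TPK.GFIN

/-!
# Two points (MP_f6626d_co), module QGC: coercivity with a constant which is a power of `D`
-/

set_option autoImplicit false

open Finset Filter Topology

namespace Pool.Agent.TPK

open Pool.Agent.Gap Pool.Agent.TPK.H62 Pool.Agent.FL Pool.Agent.EXW

/-- MODULE QGC -/
theorem t_QGC : QGC_Stmt := by
  obtain ⟨C2, hC2, hC2'⟩ := gc2
  obtain ⟨K2, hK2⟩ := sum_pow 2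
  obtain ⟨K4, hK4⟩ := sum_pow 4
  have h3 : PB fun D : ℝ => 1 + (D ^ K2 * D ^ 2) ^ 2 :=
    (PB.const 1).add (((PB.id.pow K2).mul (PB.id.pow 2)).pow 2)
  have h4 : PB fun D : ℝ => 40 * (1 + C2 * D ^ K4 * D) :=
    (PB.const 40).mul ((PB.const 1).add (((PB.const C2).mul (PB.id.pow K4)).mul PB.id))
  have h5 : LB fun D : ℝ => min (3 * min (D⁻¹ / 2) (1 / (1 + (D ^ K2 * D ^ 2) ^ 2)) / 6)
      (min (1 / (40 * (1 + C2 * D ^ K4 * D)) / 2) (D⁻¹ / 80)) := by
    refine LB.min ?_ (LB.min ?_ ?_)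
    · have h6 : LB fun D : ℝ => (3 / 6) * min (1 / 2 * D⁻¹) (1 / (1 + (D ^ K2 * D ^ 2) ^ 2)) :=
        (LB.const (by norm_num)).mul (((LB.const (by norm_num)).mul LB.inv_self).min
          (LB.one_div h3 fun D hD => by positivity))
      refine h6.of_le fun D _ => le_of_eq ?_
      rw [show D⁻¹ / 2 = 1 / 2 * D⁻¹ by ring]
      ring
    · have h6 : LB fun D : ℝ => (1 / 2) * (1 / (40 * (1 + C2 * D ^ K4 * D))) :=
        (LB.const (by norm_num)).mul (LB.one_div h4 fun D hD => by positivity)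
      exact h6.of_le fun D _ => le_of_eq (by ring)
    · have h6 : LB fun D : ℝ => (1 / 80) * D⁻¹ := (LB.const (by norm_num)).mul LB.inv_self
      exact h6.of_le fun D _ => le_of_eq (by ring)
  obtain ⟨K, hK⟩ := h5
  refine ⟨K, fun D hD G hG N eps z f he hz hf => ?_⟩
  have hD0 : (0 : ℝ) < D := by linarith
  have h6 := GC.core hC2 (pow_pos hD0 K2) (pow_pos hD0 K4) hD0 hC2' (hK2 D hD) (hK4 D hD)
    G hG N eps z f he hz hf
  refine le_trans ?_ h6
  refine mul_le_mul_of_nonneg_right (hK D hD) ?_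
  have h7 := H62.nsq_nonneg N f
  have h8 := H62.En_nonneg N f
  have h9 := Pot_nonneg he N f
  positivity

end Pool.Agent.TPK
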