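import Pool.Agent.TPK.OW
import Pool.Agent.TPK.OJ1

/-! Module J2: bounds of the closed generating functions. -/

set_option autoImplicit false

open Finset Filter Topology

namespace Pool.Agent.TPK

open Pool.Agent.Gap

namespace H22

/-- l2 norm -/
noncomputable def nrm (N : ℕ) (f : ℤ → ℂ) : ℝ := Real.sqrt (nsq N f)

lemma nrm_nonneg (N : ℕ) (f : ℤ → ℂ) : 0 ≤ nrm N f := Real.sqrt_nonneg _

lemma nrm_sq (N : ℕ) (f : ℤ → ℂ) : nrm N f ^ 2 = nsq N f := Real.sq_sqrt (nsq_nonneg N f)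

lemma norm_le_nrm (N : ℕ) (f : ℤ → ℂ) (g : ℤ) (hg : g ∈ Icc (1 : ℤ) N) : ‖f g‖ ≤ nrm N f := by
  refine Real.le_sqrt_of_sq_le ?_
  exact Finset.single_le_sum (f := fun g => ‖f g‖ ^ 2) (fun g _ => sq_nonneg _) hg

lemma sum_norm_mul_le (N : ℕ) (f h : ℤ → ℂ) :
    ∑ g ∈ Icc (1 : ℤ) N, ‖f g‖ * ‖h g‖ ≤ nrm N f * nrm N h := by
  have := Real.sum_mul_le_sqrt_mul_sqrt (Icc (1 : ℤ) N) (fun g => ‖f g‖) (fun g => ‖h g‖)
  simpa [nrm, nsq] using this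

lemma pair_le (N : ℕ) (f h : ℤ → ℂ) :
    ‖∑ g ∈ Icc (1 : ℤ) N, f g * h g‖ ≤ nrm N f * nrm N h := by
  refine (norm_sum_le _ _).trans ?_
  simp only [norm_mul]
  exact sum_norm_mul_le N f h

lemma nrm_add (N : ℕ) (f h : ℤ → ℂ) : nrm N (fun g => f g + h g) ≤ nrm N f + nrm N h := by
  have h1 : nsq N (fun g => f g + h g) ≤ (nrm N f + nrm N h) ^ 2 := by
    have h2 : nsq N (fun g => f g + h g) ≤
        nsq N f + 2 * ∑ g ∈ Icc (1 : ℤ) N, ‖f g‖ * ‖h g‖ + nsq N h := by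
      unfold nsq
      rw [Finset.mul_sum, ← Finset.sum_add_distrib, ← Finset.sum_add_distrib]
      refine Finset.sum_le_sum fun g _ => ?_
      have := norm_add_le (f g) (h g)
      have h3 := pow_le_pow_left₀ (norm_nonneg _) this 2
      nlinarith
    have h3 := sum_norm_mul_le N f h
    have h4 := nrm_sq N f
    have h5 := nrm_sq N h
    nlinarith
  unfold nrm
  rw [Real.sqrt_le_left (by positivity)]
  exact h1

lemma nrm_smul (N : ℕ) (c : ℂ) (f : ℤ → ℂ) : nrm N (fun g => c * f g) = ‖c‖ * nrm N f := by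
  unfold nrm
  have h1 : nsq N (fun g => c * f g) = ‖c‖ ^ 2 * nsq N f := by
    unfold nsq
    rw [Finset.mul_sum]
    exact Finset.sum_congr rfl fun g _ => by rw [norm_mul, mul_pow]
  rw [h1, Real.sqrt_mul (sq_nonneg _), Real.sqrt_sq (norm_nonneg _)]

lemma nrm_le_sum (N : ℕ) (f : ℤ → ℂ) : nrm N f ≤ ∑ g ∈ Icc (1 : ℤ) N, ‖f g‖ := by
  unfold nrm
  rw [Real.sqrt_le_left (Finset.sum_nonneg fun _ _ => norm_nonneg _)]
  unfold nsq
  exact Finset.sum_sq_le_sq_sum_of_nonneg fun g _ => norm_nonneg _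

/-- Schur test -/
lemma nrm_schur (N : ℕ) (k : ℤ → ℤ → ℂ) (κ : ℤ → ℝ) (Cκ : ℝ) (hκ0 : 0 ≤ Cκ)
    (hk : ∀ g ∈ Icc (1 : ℤ) N, ∀ g' ∈ Icc (1 : ℤ) N, ‖k g g'‖ ≤ κ (g' - g))
    (h1 : ∀ g, ∑ g' ∈ Icc (1 : ℤ) N, κ (g' - g) ≤ Cκ)
    (h2 : ∀ g', ∑ g ∈ Icc (1 : ℤ) N, κ (g' - g) ≤ Cκ) (hκ : ∀ d, 0 ≤ κ d) (f : ℤ → ℂ) :
    nrm N (fun g => ∑ g' ∈ Icc (1 : ℤ) N, k g g' * f g') ≤ Cκ * nrm N f := by
  have h3 : nsq N (fun g => ∑ g' ∈ Icc (1 : ℤ) N, k g g' * f g') ≤ Cκ ^ 2 * nsq N f := by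
    calc nsq N (fun g => ∑ g' ∈ Icc (1 : ℤ) N, k g g' * f g')
        ≤ ∑ g ∈ Icc (1 : ℤ) N, Cκ * ∑ g' ∈ Icc (1 : ℤ) N, κ (g' - g) * ‖f g'‖ ^ 2 := by
          unfold nsq
          refine Finset.sum_le_sum fun g hg => ?_
          have h4 : ‖∑ g' ∈ Icc (1 : ℤ) N, k g g' * f g'‖ ≤
              ∑ g' ∈ Icc (1 : ℤ) N, κ (g' - g) * ‖f g'‖ := by
            refine (norm_sum_le _ _).trans (Finset.sum_le_sum fun g' hg' => ?_)
            rw [norm_mul]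
            exact mul_le_mul_of_nonneg_right (hk g hg g' hg') (norm_nonneg _)
          have h5 : (∑ g' ∈ Icc (1 : ℤ) N, κ (g' - g) * ‖f g'‖) ^ 2 ≤
              (∑ g' ∈ Icc (1 : ℤ) N, κ (g' - g)) *
                ∑ g' ∈ Icc (1 : ℤ) N, κ (g' - g) * ‖f g'‖ ^ 2 := by
            refine Finset.sum_sq_le_sum_mul_sum_of_sq_le_mul _ (fun g' _ => hκ _)
              (fun g' _ => mul_nonneg (hκ _) (sq_nonneg _)) (fun g' _ => le_of_eq (by ring))
          have h6 : 0 ≤ ∑ g' ∈ Icc (1 : ℤ) N, κ (g' - g) * ‖f g'‖ ^ 2 :=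
            Finset.sum_nonneg fun g' _ => mul_nonneg (hκ _) (sq_nonneg _)
          calc ‖∑ g' ∈ Icc (1 : ℤ) N, k g g' * f g'‖ ^ 2
              ≤ (∑ g' ∈ Icc (1 : ℤ) N, κ (g' - g) * ‖f g'‖) ^ 2 :=
                pow_le_pow_left₀ (norm_nonneg _) h4 2
            _ ≤ _ := h5.trans (mul_le_mul_of_nonneg_right (h1 g) h6)
      _ = Cκ * ∑ g' ∈ Icc (1 : ℤ) N, (∑ g ∈ Icc (1 : ℤ) N, κ (g' - g)) * ‖f g'‖ ^ 2 := by
          rw [← Finset.mul_sum, Finset.sum_comm]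
          simp_rw [Finset.sum_mul]
      _ ≤ Cκ * ∑ g' ∈ Icc (1 : ℤ) N, Cκ * ‖f g'‖ ^ 2 := by
          refine mul_le_mul_of_nonneg_left (Finset.sum_le_sum fun g' _ => ?_) hκ0
          exact mul_le_mul_of_nonneg_right (h2 g') (sq_nonneg _)
      _ = Cκ ^ 2 * nsq N f := by
          unfold nsq
          rw [← Finset.mul_sum]
          ring
  unfold nrm
  calc Real.sqrt (nsq N (fun g => ∑ g' ∈ Icc (1 : ℤ) N, k g g' * f g'))
      ≤ Real.sqrt (Cκ ^ 2 * nsq N f) := Real.sqrt_le_sqrt h3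
    _ = Cκ * Real.sqrt (nsq N f) := by rw [Real.sqrt_mul (sq_nonneg _), Real.sqrt_sq hκ0]

end H22

namespace GapKernel

variable (G : GapKernel)

/-- free critical kernel with three marks -/
noncomputable def k3 (d : ℤ) : ℝ := ∑ i ∈ G.S, (i.1 : ℝ) ^ 3 * G.rho ^ i.1 * G.T i d

/-- its mass -/
noncomputable def m3 : ℝ := ∑ i ∈ G.S, (i.1 : ℝ) ^ 3 * G.rho ^ i.1 * G.tot i

lemma k3_nonneg (d : ℤ) : 0 ≤ G.k3 d := by
  refine Finset.sum_nonneg fun i _ => ?_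
  have := G.rho_pos
  have := G.T_nonneg i d
  positivity

lemma m3_nonneg : 0 ≤ G.m3 := by
  refine Finset.sum_nonneg fun i _ => ?_
  have := G.rho_pos
  have := G.tot_nonneg i
  positivity

lemma k3_even (d : ℤ) : G.k3 (-d) = G.k3 d :=
  Finset.sum_congr rfl fun i _ => by rw [G.T_even]

lemma sum_k3_shift (g : ℤ) (s : Finset ℤ) : ∑ g' ∈ s, G.k3 (g' - g) ≤ G.m3 := by
  unfold k3 m3
  rw [Finset.sum_comm]
  refine Finset.sum_le_sum fun i _ => ?_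
  rw [← Finset.mul_sum]
  have := G.rho_pos
  exact mul_le_mul_of_nonneg_left (G.sum_T_shift i g s) (by positivity)

lemma sum_k3_shift' (g' : ℤ) (s : Finset ℤ) : ∑ g ∈ s, G.k3 (g' - g) ≤ G.m3 := by
  have h : ∀ g : ℤ, G.k3 (g' - g) = G.k3 (g - g') := by
    intro g
    rw [← G.k3_even, neg_sub]
  simp_rw [h]
  exact G.sum_k3_shift g' s

lemma norm_Kz_le3 {eps : ℝ} (h : 0 ≤ eps) {z : ℂ} (hz : ‖z‖ ≤ G.rho) (j : ℕ) (hj : j ≤ 3)
    (g g' : ℤ) (hg : 0 ≤ g) (hg' : 0 ≤ g') : ‖G.Kz j eps z g g'‖ ≤ G.k3 (g' - g) := by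
  refine (norm_sum_le _ _).trans (Finset.sum_le_sum fun i hi => ?_)
  have hρ := G.rho_pos
  have hK := G.K_nonneg i g g'
  rw [norm_mul, norm_mul, norm_pow, norm_pow, Complex.norm_natCast, Complex.norm_real,
    Real.norm_eq_abs, abs_of_nonneg (mul_nonneg hK (wt_nonneg _ _ _ _))]
  have hm : (1 : ℝ) ≤ i.1 := by exact_mod_cast (G.pos_mem i hi).1
  have h1 : (i.1 : ℝ) ^ j ≤ (i.1 : ℝ) ^ 3 := pow_le_pow_right₀ hm hj
  have h2 : ‖z‖ ^ i.1 ≤ G.rho ^ i.1 := pow_le_pow_left₀ (norm_nonneg _) hz _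
  have h3 : G.K i g g' * wt eps i g g' ≤ G.T i (g' - g) :=
    (mul_le_of_le_one_right hK (wt_le_one h i g g' hg hg')).trans (G.K_le i g g')
  have h4 : 0 ≤ G.K i g g' * wt eps i g g' := mul_nonneg hK (wt_nonneg _ _ _ _)
  exact mul_le_mul (mul_le_mul h1 h2 (by positivity) (by positivity)) h3 h4 (by positivity)

lemma nrm_Kap_le {eps : ℝ} (h : 0 ≤ eps) {z : ℂ} (hz : ‖z‖ ≤ G.rho) (j : ℕ) (hj : j ≤ 3) (N : ℕ)
    (f : ℤ → ℂ) : H22.nrm N (G.Kap j eps z N f) ≤ G.m3 * H22.nrm N f := by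
  refine H22.nrm_schur N (fun g g' => G.Kz j eps z g g') G.k3 G.m3 G.m3_nonneg ?_
    (fun g => G.sum_k3_shift g _) (fun g' => G.sum_k3_shift' g' _) G.k3_nonneg f
  intro g hg g' hg'
  rw [Finset.mem_Icc] at hg hg'
  exact G.norm_Kz_le3 h hz j hj g g' (by omega) (by omega)

/-- symmetry of the operator -/
lemma Kap_symm (j : ℕ) (eps : ℝ) (z : ℂ) (N : ℕ) (f h : ℤ → ℂ) :
    ∑ g ∈ Icc (1 : ℤ) N, G.Kap j eps z N f g * h g = ∑ g ∈ Icc (1 : ℤ) N, f g * G.Kap j eps z N h g := by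
  unfold Kap
  simp_rw [Finset.sum_mul, Finset.mul_sum]
  rw [Finset.sum_comm]
  refine Finset.sum_congr rfl fun g _ => Finset.sum_congr rfl fun g' _ => ?_
  rw [G.Kz_symm j eps z g' g]
  ring

lemma Lop_symm (eps : ℝ) (z : ℂ) (N : ℕ) (f h : ℤ → ℂ) :
    ∑ g ∈ Icc (1 : ℤ) N, G.Lop eps z N f g * h g = ∑ g ∈ Icc (1 : ℤ) N, f g * G.Lop eps z N h g := by
  unfold Lop
  simp_rw [sub_mul, mul_sub, Finset.sum_sub_distrib]
  rw [G.Kap_symm]

end GapKernel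

namespace H22

/-- mass of a cap -/
noncomputable def capM (rho : ℝ) (C0 : ℕ) (s : ℕ → ℤ → ℝ) : ℝ :=
  ∑ g ∈ Icc (1 : ℤ) C0, ∑ m ∈ range (C0 + 1), ((m : ℝ) + 1) ^ 3 * rho ^ m * s m g

lemma capM_nonneg {rho : ℝ} (hr : 0 < rho) {C0 : ℕ} {s : ℕ → ℤ → ℝ} (hs : IsCap C0 s) :
    0 ≤ capM rho C0 s :=
  Finset.sum_nonneg fun g _ => Finset.sum_nonneg fun m _ => by
    have := hs.nonneg m g
    positivity

lemma capz_zero {C0 : ℕ} {s : ℕ → ℤ → ℝ} (hs : IsCap C0 s) (j : ℕ) (z : ℂ) (g : ℤ)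
    (hg : g < 1 ∨ (C0 : ℤ) < g) : capz C0 s j z g = 0 := by
  unfold capz
  refine Finset.sum_eq_zero fun m _ => ?_
  rw [hs.supp_g m g hg]
  simp

lemma norm_capz_le {rho : ℝ} {C0 : ℕ} {s : ℕ → ℤ → ℝ} (hs : IsCap C0 s) (j : ℕ)
    (hj : j ≤ 3) {z : ℂ} (hz : ‖z‖ ≤ rho) (g : ℤ) :
    ‖capz C0 s j z g‖ ≤ ∑ m ∈ range (C0 + 1), ((m : ℝ) + 1) ^ 3 * rho ^ m * s m g := by
  refine (norm_sum_le _ _).trans (Finset.sum_le_sum fun m _ => ?_)
  rw [norm_mul, norm_mul, norm_pow, norm_pow, Complex.norm_natCast, Complex.norm_real,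
    Real.norm_eq_abs, abs_of_nonneg (hs.nonneg m g)]
  have hm : (0 : ℝ) ≤ m := Nat.cast_nonneg m
  have h1 : (m : ℝ) ^ j ≤ ((m : ℝ) + 1) ^ 3 :=
    (pow_le_pow_left₀ hm (by linarith) j).trans (pow_le_pow_right₀ (by linarith) hj)
  have h2 : ‖z‖ ^ m ≤ rho ^ m := pow_le_pow_left₀ (norm_nonneg _) hz _
  have hr : 0 ≤ rho := (norm_nonneg _).trans hz
  exact mul_le_mul_of_nonneg_right (mul_le_mul h1 h2 (by positivity) (by positivity)) (hs.nonneg m g)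

lemma l1_capz_le {rho : ℝ} {C0 : ℕ} {s : ℕ → ℤ → ℝ} (hs : IsCap C0 s) (j : ℕ)
    (hj : j ≤ 3) {z : ℂ} (hz : ‖z‖ ≤ rho) : l1 C0 (capz C0 s j z) ≤ capM rho C0 s :=
  Finset.sum_le_sum fun g _ => norm_capz_le hs j hj hz g

lemma sum_capz_ext {C0 N : ℕ} {s : ℕ → ℤ → ℝ} (hs : IsCap C0 s) (hN : C0 ≤ N) (j : ℕ)
    {β : Type*} [AddCommMonoid β] (z : ℂ) (F : ℤ → ℂ → β) (hF : ∀ g, F g 0 = 0) :
    ∑ g ∈ Icc (1 : ℤ) N, F g (capz C0 s j z g) = ∑ g ∈ Icc (1 : ℤ) C0, F g (capz C0 s j z g) := by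
  symm
  refine Finset.sum_subset (Finset.Icc_subset_Icc le_rfl (by exact_mod_cast hN)) fun g hg hg' => ?_
  rw [Finset.mem_Icc] at hg hg'
  rw [capz_zero hs j z g (by omega), hF]

lemma nrm_capz_le {rho : ℝ} {C0 N : ℕ} {s : ℕ → ℤ → ℝ} (hs : IsCap C0 s) (hN : C0 ≤ N) (j : ℕ)
    (hj : j ≤ 3) {z : ℂ} (hz : ‖z‖ ≤ rho) : nrm N (capz C0 s j z) ≤ capM rho C0 s := by
  refine (nrm_le_sum N _).trans ?_
  rw [sum_capz_ext hs hN j z (fun _ x => ‖x‖) (fun _ => norm_zero)]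
  exact l1_capz_le hs j hj hz

lemma close_eq {C0 : ℕ} {t : ℕ → ℤ → ℝ} (ht : IsCap C0 t) (b : ℕ → ℤ → ℝ) (n : ℕ) :
    close C0 t b n = ∑ m ∈ range (C0 + 1), ∑ g ∈ Icc (1 : ℤ) C0,
      t m g * (if m ≤ n then b (n - m) g else 0) := by
  unfold close
  have h1 : ∑ m ∈ range (n + 1), ∑ g ∈ Icc (1 : ℤ) C0, t m g * b (n - m) g =
      ∑ m ∈ range (n + 1 + (C0 + 1)), ∑ g ∈ Icc (1 : ℤ) C0,
        t m g * (if m ≤ n then b (n - m) g else 0) := by
    have h2 : range (n + 1) ⊆ range (n + 1 + (C0 + 1)) := range_subset_range.2 (by omega)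
    rw [← Finset.sum_subset h2]
    · refine Finset.sum_congr rfl fun m hm => Finset.sum_congr rfl fun g _ => ?_
      rw [mem_range] at hm
      rw [if_pos (by omega)]
    · intro m _ hm
      rw [mem_range] at hm
      refine Finset.sum_eq_zero fun g _ => ?_
      rw [if_neg (by omega), mul_zero]
  have h3 : ∑ m ∈ range (C0 + 1), ∑ g ∈ Icc (1 : ℤ) C0,
        t m g * (if m ≤ n then b (n - m) g else 0) =
      ∑ m ∈ range (n + 1 + (C0 + 1)), ∑ g ∈ Icc (1 : ℤ) C0,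
        t m g * (if m ≤ n then b (n - m) g else 0) := by
    have h2 : range (C0 + 1) ⊆ range (n + 1 + (C0 + 1)) := range_subset_range.2 (by omega)
    refine Finset.sum_subset h2 ?_
    intro m _ hm
    rw [mem_range] at hm
    refine Finset.sum_eq_zero fun g _ => ?_
    rw [ht.supp_m m g (by omega), zero_mul]
  rw [h1, h3]

lemma close_hasSum {G : GapKernel} {C0 : ℕ} {s t : ℕ → ℤ → ℝ} (hs : IsCap C0 s) (ht : IsCap C0 t)
    {eps : ℝ} (heps : 0 ≤ eps) {N : ℕ} {b : ℕ → ℤ → ℝ} (hb : IsArr G s eps N b) (z : ℂ)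
    (hz : ‖z‖ < G.rho) (j : ℕ) :
    HasSum (fun n : ℕ => ((n : ℂ)) ^ j * ((close C0 t b n : ℝ) : ℂ) * z ^ n)
      (∑ l ∈ range (j + 1), ((j.choose l : ℕ) : ℂ) *
        ∑ g ∈ Icc (1 : ℤ) C0, capz C0 t (j - l) z g * gf l b z g) := by
  have h1 : HasSum (fun n : ℕ => ∑ m ∈ range (C0 + 1), ∑ g ∈ Icc (1 : ℤ) C0,
      ((t m g : ℝ) : ℂ) * (if m ≤ n then
        ((n : ℂ)) ^ j * ((b (n - m) g : ℝ) : ℂ) * z ^ n else 0))
      (∑ m ∈ range (C0 + 1), ∑ g ∈ Icc (1 : ℤ) C0, ((t m g : ℝ) : ℂ) *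
        (∑ l ∈ range (j + 1), ((j.choose l : ℕ) : ℂ) *
          (((m : ℕ) : ℂ) ^ (j - l) * z ^ m * gf l b z g))) := by
    refine hasSum_sum fun m _ => hasSum_sum fun g _ => ?_
    exact (shift_hasSum hs heps hb z hz j m g).mul_left _
  have h2 : (fun n : ℕ => ((n : ℂ)) ^ j * ((close C0 t b n : ℝ) : ℂ) * z ^ n) =
      fun n : ℕ => ∑ m ∈ range (C0 + 1), ∑ g ∈ Icc (1 : ℤ) C0,
      ((t m g : ℝ) : ℂ) * (if m ≤ n then
        ((n : ℂ)) ^ j * ((b (n - m) g : ℝ) : ℂ) * z ^ n else 0) := by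
    funext n
    rw [close_eq ht b n, Complex.ofReal_sum, Finset.mul_sum, Finset.sum_mul]
    refine Finset.sum_congr rfl fun m _ => ?_
    rw [Complex.ofReal_sum, Finset.mul_sum, Finset.sum_mul]
    refine Finset.sum_congr rfl fun g _ => ?_
    split_ifs with h
    · push_cast
      ring
    · simp
  have h3 : (∑ l ∈ range (j + 1), ((j.choose l : ℕ) : ℂ) *
        ∑ g ∈ Icc (1 : ℤ) C0, capz C0 t (j - l) z g * gf l b z g) =
      (∑ m ∈ range (C0 + 1), ∑ g ∈ Icc (1 : ℤ) C0, ((t m g : ℝ) : ℂ) *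
        (∑ l ∈ range (j + 1), ((j.choose l : ℕ) : ℂ) *
          (((m : ℕ) : ℂ) ^ (j - l) * z ^ m * gf l b z g))) := by
    simp_rw [Finset.mul_sum]
    rw [Finset.sum_comm]
    symm
    rw [Finset.sum_comm]
    refine Finset.sum_congr rfl fun g _ => ?_
    rw [Finset.sum_comm]
    refine Finset.sum_congr rfl fun l _ => ?_
    unfold capz
    rw [Finset.sum_mul, Finset.mul_sum]
    refine Finset.sum_congr rfl fun m _ => ?_
    ring
  rw [h2, h3]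
  exact h1

/-- the closed generating function through the dual solution -/
lemma sgf_eq {G : GapKernel} {C0 : ℕ} {s t : ℕ → ℤ → ℝ} (hs : IsCap C0 s) (ht : IsCap C0 t)
    {eps : ℝ} (heps : 0 ≤ eps) {N : ℕ} (hN : C0 ≤ N) {b b' : ℕ → ℤ → ℝ} (hb : IsArr G s eps N b)
    (hb' : IsArr G t eps N b') (z : ℂ) (hz : ‖z‖ < G.rho) (j : ℕ) :
    sgf j (close C0 t b) z =
      (∑ l ∈ range j, ((j.choose l : ℕ) : ℂ) *
        ∑ g ∈ Icc (1 : ℤ) N, capz C0 t (j - l) z g * gf l b z g) +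
      (∑ g ∈ Icc (1 : ℤ) N, gf 0 b' z g * capz C0 s j z g) +
      ∑ l ∈ range j, ((j.choose l : ℕ) : ℂ) *
        ∑ g ∈ Icc (1 : ℤ) N, gf 0 b' z g * G.Kap (j - l) eps z N (gf l b z) g := by
  have h1 : sgf j (close C0 t b) z = _ := (close_hasSum hs ht heps hb z hz j).tsum_eq
  rw [h1, Finset.sum_range_succ, Nat.choose_self, Nat.sub_self, Nat.cast_one, one_mul]
  have hV := (((J1 G C0 s hs N eps heps).2 b hb).2.2.2) z hz j
  have hW := (((J1 G C0 t ht N eps heps).2 b' hb').2.2.2) z hz 0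
  have h2 : ∑ g ∈ Icc (1 : ℤ) C0, capz C0 t 0 z g * gf j b z g =
      ∑ g ∈ Icc (1 : ℤ) N, gf 0 b' z g * (capz C0 s j z g + ∑ l ∈ range j, ((j.choose l : ℕ) : ℂ) *
        G.Kap (j - l) eps z N (gf l b z) g) := by
    rw [← sum_capz_ext ht hN 0 z (fun g x => x * gf j b z g) (fun g => zero_mul _)]
    have h3 : ∑ g ∈ Icc (1 : ℤ) N, capz C0 t 0 z g * gf j b z g =
        ∑ g ∈ Icc (1 : ℤ) N, G.Lop eps z N (gf 0 b' z) g * gf j b z g := by
      refine Finset.sum_congr rfl fun g hg => ?_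
      rw [hW.2 g hg]
      simp
    rw [h3, G.Lop_symm]
    refine Finset.sum_congr rfl fun g hg => ?_
    rw [hV.2 g hg]
  have h4 : ∀ l : ℕ, ∑ g ∈ Icc (1 : ℤ) C0, capz C0 t (j - l) z g * gf l b z g =
      ∑ g ∈ Icc (1 : ℤ) N, capz C0 t (j - l) z g * gf l b z g := fun l =>
    (sum_capz_ext ht hN (j - l) z (fun g x => x * gf l b z g) (fun g => zero_mul _)).symm
  simp_rw [h4]
  rw [h2, add_assoc]
  congr 1
  simp_rw [mul_add, Finset.sum_add_distrib]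
  congr 1
  simp_rw [Finset.mul_sum]
  rw [Finset.sum_comm]
  refine Finset.sum_congr rfl fun l _ => Finset.sum_congr rfl fun g _ => ?_
  ring

lemma norm_pow_sub_le {z : ℂ} {r : ℝ} (hr : 0 ≤ r) (hz : ‖z‖ ≤ r) (m : ℕ) :
    ‖z ^ m - (r : ℂ) ^ m‖ ≤ m * r ^ (m - 1) * ‖(r : ℂ) - z‖ := by
  induction m with
  | zero => simp
  | succ m ih =>
    have h1 : z ^ (m + 1) - (r : ℂ) ^ (m + 1) = (z - (r : ℂ)) * z ^ m + (r : ℂ) * (z ^ m - (r : ℂ) ^ m) := by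
      ring
    rw [h1, Nat.add_sub_cancel]
    have h2 : ‖z‖ ^ m ≤ r ^ m := pow_le_pow_left₀ (norm_nonneg _) hz m
    have h3 : ‖(r : ℂ)‖ = r := by rw [Complex.norm_real, Real.norm_eq_abs, abs_of_nonneg hr]
    have h4 : r * (m * r ^ (m - 1)) = m * r ^ m := by
      rcases Nat.eq_zero_or_pos m with h | h
      · subst h; simp
      · obtain ⟨k, rfl⟩ := Nat.exists_eq_succ_of_ne_zero h.ne'
        simp only [Nat.succ_eq_add_one, Nat.add_sub_cancel]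
        ring
    calc ‖(z - (r : ℂ)) * z ^ m + (r : ℂ) * (z ^ m - (r : ℂ) ^ m)‖
        ≤ ‖z - (r : ℂ)‖ * ‖z‖ ^ m + r * ‖z ^ m - (r : ℂ) ^ m‖ := by
          refine (norm_add_le _ _).trans (le_of_eq ?_)
          rw [norm_mul, norm_mul, norm_pow, h3]
      _ ≤ ‖(r : ℂ) - z‖ * r ^ m + r * (m * r ^ (m - 1) * ‖(r : ℂ) - z‖) := by
          rw [norm_sub_rev z]
          exact add_le_add (mul_le_mul_of_nonneg_left h2 (norm_nonneg _))
            (mul_le_mul_of_nonneg_left ih hr)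
      _ = ‖(r : ℂ) - z‖ * r ^ m + (r * (m * r ^ (m - 1))) * ‖(r : ℂ) - z‖ := by ring
      _ = _ := by rw [h4]; push_cast; ring

lemma nrm_Kap_sum (G : GapKernel) (eps : ℝ) (z : ℂ) (N : ℕ) (U W : ℤ → ℂ) (j : ℕ) :
    ∑ g ∈ Icc (1 : ℤ) N, W g * G.Kap j eps z N U g =
      ∑ i ∈ G.S, ((i.1 : ℂ)) ^ j * z ^ i.1 * ∑ g ∈ Icc (1 : ℤ) N, ∑ g' ∈ Icc (1 : ℤ) N,
          ((G.K i g g' * GapKernel.wt eps i g g' : ℝ) : ℂ) * W g * U g' := by
  unfold GapKernel.Kap GapKernel.Kz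
  simp_rw [Finset.mul_sum, Finset.sum_mul, Finset.mul_sum]
  symm
  rw [Finset.sum_comm]
  refine Finset.sum_congr rfl fun g _ => ?_
  rw [Finset.sum_comm]
  refine Finset.sum_congr rfl fun g' _ => Finset.sum_congr rfl fun i _ => ?_
  ring

/-- the mean half length through the kernel -/
lemma mbar_eq (G : GapKernel) : (G.mbar : ℂ) = ∑ i ∈ G.S, (i.1 : ℂ) * (G.rho : ℂ) ^ i.1 * (G.tot i : ℂ) := by
  unfold GapKernel.mbar
  push_cast
  rfl

end H22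

open H22 in
/-- MODULE J2 -/
theorem J2 (h2 : C2_Stmt) (hC : C_Stmt) (hRE : RE_Stmt) : J2_Stmt := by
  intro G C0 s t hs ht
  obtain ⟨CW, hCW, HW⟩ := W hC G C0
  obtain ⟨CS, hCS, HS⟩ := SUP hC G C0
  obtain ⟨CR, hCR, HR⟩ := hRE G
  obtain ⟨Cc, hCc, H2⟩ := h2 G
  have hρ := G.rho_pos
  set Ms : ℝ := capM G.rho C0 s with hMs
  set Mt : ℝ := capM G.rho C0 t with hMt
  have hMs0 : 0 ≤ Ms := capM_nonneg hρ hs
  have hMt0 : 0 ≤ Mt := capM_nonneg hρ ht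
  set M : ℝ := G.m3 with hM
  have hM0 : 0 ≤ M := G.m3_nonneg
  set q0 : ℝ := Real.sqrt (Real.sqrt (2 * G.rho)) with hq0
  have hq00 : 0 ≤ q0 := Real.sqrt_nonneg _
  set A0 : ℝ := Real.sqrt CW * Ms with hA0
  set B0 : ℝ := Real.sqrt CW * Mt with hB0
  have hA00 : 0 ≤ A0 := by positivity
  have hB00 : 0 ≤ B0 := by positivity
  set A1 : ℝ := CR * (Ms * q0 + M * A0) with hA1
  have hA10 : 0 ≤ A1 := by positivity
  set A2 : ℝ := CR * (Ms * q0 ^ 5 + M * (A0 * q0 ^ 4) + 2 * (M * A1)) with hA2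
  have hA20 : 0 ≤ A2 := by positivity
  set D1 : ℝ := 2 * (CS * Mt * Ms) + ((∑ i ∈ G.S, (i.1 : ℝ) * G.rho ^ i.1) * (Cc * (CS * Mt * Ms)) +
    (∑ i ∈ G.S, (i.1 : ℝ) * (i.1 * G.rho ^ (i.1 - 1)) * G.tot i) * (q0 ^ 2 * (B0 * A0))) with hD1
  have hS1 : 0 ≤ ∑ i ∈ G.S, (i.1 : ℝ) * G.rho ^ i.1 :=
    Finset.sum_nonneg fun i _ => by positivity
  have hS2 : 0 ≤ ∑ i ∈ G.S, (i.1 : ℝ) * (i.1 * G.rho ^ (i.1 - 1)) * G.tot i :=
    Finset.sum_nonneg fun i _ => by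
      have := G.tot_nonneg i
      positivity
  have hD10 : 0 ≤ D1 := by positivity
  set D2 : ℝ := Mt * (A0 * q0 ^ 5) + 2 * (Mt * (A1 * q0)) + B0 * Ms * q0 ^ 5 +
    B0 * (M * A0) * q0 ^ 4 + 2 * (B0 * (M * A1)) with hD2
  have hD20 : 0 ≤ D2 := by positivity
  set D3 : ℝ := Mt * (A0 * q0 ^ 9) + 3 * (Mt * (A1 * q0 ^ 5)) + 3 * (Mt * (A2 * q0)) +
    B0 * Ms * q0 ^ 9 + B0 * (M * A0) * q0 ^ 8 + 3 * (B0 * (M * A1) * q0 ^ 4) +
    3 * (B0 * (M * A2)) with hD3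
  have hD30 : 0 ≤ D3 := by positivity
  refine ⟨D1 + D2 + D3 + 1, by positivity, ?_⟩
  intro N eps heps hN b b' hb hb' z hz
  have hz' : ‖z‖ ≤ G.rho := hz.le
  have hzne : z ≠ (G.rho : ℂ) := by
    rintro rfl
    rw [Complex.norm_real, Real.norm_eq_abs, abs_of_pos hρ] at hz
    exact lt_irrefl _ hz
  set δ : ℝ := ‖(G.rho : ℂ) - z‖ with hδ
  have hδ0 : 0 < δ := norm_pos_iff.mpr (sub_ne_zero.mpr (Ne.symm hzne))
  have hδ2 : δ ≤ 2 * G.rho := delta_le hz'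
  set q : ℝ := Real.sqrt (Real.sqrt δ) with hq
  have hqpos : 0 < q := Real.sqrt_pos.mpr (Real.sqrt_pos.mpr hδ0)
  have hq2 : Real.sqrt δ = q ^ 2 := (Real.sq_sqrt (Real.sqrt_nonneg _)).symm
  have hq4 : δ = q ^ 4 := by
    have : δ = Real.sqrt δ ^ 2 := (Real.sq_sqrt hδ0.le).symm
    rw [this, hq2]
    ring
  have hqq0 : q ≤ q0 := Real.sqrt_le_sqrt (Real.sqrt_le_sqrt hδ2)
  have hqk : ∀ k : ℕ, q ^ k ≤ q0 ^ k := fun k => pow_le_pow_left₀ hqpos.le hqq0 k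
  set V : ℕ → ℤ → ℂ := fun j => gf j b z with hV
  set U : ℤ → ℂ := gf 0 b' z with hU
  have sV : ∀ j, G.Solves eps z N (V j) (fun g => capz C0 s j z g +
      ∑ l ∈ range j, ((j.choose l : ℕ) : ℂ) * G.Kap (j - l) eps z N (V l) g) :=
    (((J1 G C0 s hs N eps heps).2 b hb).2.2.2) z hz
  have sU : G.Solves eps z N U (capz C0 t 0 z) := by
    have := (((J1 G C0 t ht N eps heps).2 b' hb').2.2.2) z hz 0
    simpa using this
  have sV0 : G.Solves eps z N (V 0) (capz C0 s 0 z) := by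
    have := sV 0
    simpa using this
  have supS : ∀ (j : ℕ) (g : ℤ), (C0 : ℤ) < g → capz C0 s j z g = 0 := fun j g hg =>
    capz_zero hs j z g (Or.inr hg)
  have supT : ∀ (j : ℕ) (g : ℤ), (C0 : ℤ) < g → capz C0 t j z g = 0 := fun j g hg =>
    capz_zero ht j z g (Or.inr hg)
  have l1S : l1 C0 (capz C0 s 0 z) ≤ Ms := l1_capz_le hs 0 (by norm_num) hz'
  have l1T : l1 C0 (capz C0 t 0 z) ≤ Mt := l1_capz_le ht 0 (by norm_num) hz'
  -- L2 bounds at level 0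
  have lev0 : ∀ (f e : ℤ → ℂ) (m : ℝ), G.Solves eps z N f e → (∀ g : ℤ, (C0 : ℤ) < g → e g = 0) →
      l1 C0 e ≤ m → 0 ≤ m → nrm N f * q ≤ Real.sqrt CW * m := by
    intro f e m hs1 he1 hl hm
    have h1 := (HW N eps z f e heps hz' hzne hs1 he1).1 0 (by norm_num)
    have h3 : mulg 0 f = f := by funext g; simp [mulg]
    rw [h3, pow_zero, mul_one, ← hδ, hq2, le_div_iff₀ (by positivity), ← nrm_sq] at h1
    have h4 : (nrm N f * q) ^ 2 ≤ (Real.sqrt CW * m) ^ 2 := by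
      rw [mul_pow, mul_pow, Real.sq_sqrt hCW.le]
      exact h1.trans (mul_le_mul_of_nonneg_left (pow_le_pow_left₀ (l1_nonneg _ _) hl 2) hCW.le)
    exact (pow_le_pow_iff_left₀ (mul_nonneg (nrm_nonneg _ _) hqpos.le) (by positivity)
      two_ne_zero).mp h4
  set a0 : ℝ := nrm N (V 0) with ha0
  set a1 : ℝ := nrm N (V 1) with ha1
  set a2 : ℝ := nrm N (V 2) with ha2
  set w0 : ℝ := nrm N U with hw0
  have a00 : 0 ≤ a0 := nrm_nonneg _ _
  have a10 : 0 ≤ a1 := nrm_nonneg _ _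
  have a20 : 0 ≤ a2 := nrm_nonneg _ _
  have w00 : 0 ≤ w0 := nrm_nonneg _ _
  have b0 : a0 * q ≤ A0 := lev0 _ _ Ms sV0 (supS 0) l1S hMs0
  have bw : w0 * q ≤ B0 := lev0 _ _ Mt sU (supT 0) l1T hMt0
  -- level 1
  have b1 : a1 * q ^ 5 ≤ A1 := by
    have h1 := ((HR N eps z heps hz').2.2 _ _ (sV 1)).1
    have h3 : nrm N (fun g => capz C0 s 1 z g +
      ∑ l ∈ range 1, (((1 : ℕ).choose l : ℕ) : ℂ) * G.Kap (1 - l) eps z N (V l) g) ≤
        Ms + M * a0 := by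
      refine (nrm_add N _ _).trans (add_le_add (nrm_capz_le hs hN 1 (by norm_num) hz') ?_)
      have h4 : (fun g => ∑ l ∈ range 1, (((1 : ℕ).choose l : ℕ) : ℂ) *
          G.Kap (1 - l) eps z N (V l) g) = G.Kap 1 eps z N (V 0) := by
        funext g
        simp
      rw [h4]
      exact G.nrm_Kap_le heps hz' 1 (by norm_num) N (V 0)
    have h4 : q ^ 4 * a1 ≤ CR * (Ms + M * a0) := by
      rw [← hq4]
      exact h1.trans (mul_le_mul_of_nonneg_left h3 hCR.le)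
    have h5 := mul_le_mul_of_nonneg_right h4 hqpos.le
    calc a1 * q ^ 5 = q ^ 4 * a1 * q := by ring
      _ ≤ CR * (Ms + M * a0) * q := h5
      _ = CR * (Ms * q + M * (a0 * q)) := by ring
      _ ≤ A1 := by
        rw [hA1]
        exact mul_le_mul_of_nonneg_left (add_le_add (mul_le_mul_of_nonneg_left hqq0 hMs0)
          (mul_le_mul_of_nonneg_left b0 hM0)) hCR.le
  -- level 2
  have b2 : a2 * q ^ 9 ≤ A2 := by
    have h1 := ((HR N eps z heps hz').2.2 _ _ (sV 2)).1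
    have h3 : nrm N (fun g => capz C0 s 2 z g +
      ∑ l ∈ range 2, (((2 : ℕ).choose l : ℕ) : ℂ) * G.Kap (2 - l) eps z N (V l) g) ≤
        Ms + (M * a0 + 2 * (M * a1)) := by
      refine (nrm_add N _ _).trans (add_le_add (nrm_capz_le hs hN 2 (by norm_num) hz') ?_)
      have h4 : (fun g => ∑ l ∈ range 2, (((2 : ℕ).choose l : ℕ) : ℂ) *
          G.Kap (2 - l) eps z N (V l) g) = fun g => G.Kap 2 eps z N (V 0) g +
            (2 : ℂ) * G.Kap 1 eps z N (V 1) g := by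
        funext g
        simp [Finset.sum_range_succ]
      rw [h4]
      refine (nrm_add N _ _).trans (add_le_add (G.nrm_Kap_le heps hz' 2 (by norm_num) N (V 0)) ?_)
      rw [nrm_smul]
      have : ‖(2 : ℂ)‖ = 2 := by norm_num
      rw [this]
      exact mul_le_mul_of_nonneg_left (G.nrm_Kap_le heps hz' 1 (by norm_num) N (V 1)) (by norm_num)
    have h4 : q ^ 4 * a2 ≤ CR * (Ms + (M * a0 + 2 * (M * a1))) := by
      rw [← hq4]
      exact h1.trans (mul_le_mul_of_nonneg_left h3 hCR.le)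
    have h5 := mul_le_mul_of_nonneg_right h4 (pow_nonneg hqpos.le 5)
    have h6 : (a0 * q) * q ^ 4 ≤ A0 * q0 ^ 4 := mul_le_mul b0 (hqk 4) (by positivity) hA00
    calc a2 * q ^ 9 = q ^ 4 * a2 * q ^ 5 := by ring
      _ ≤ CR * (Ms + (M * a0 + 2 * (M * a1))) * q ^ 5 := h5
      _ = CR * (Ms * q ^ 5 + M * ((a0 * q) * q ^ 4) + 2 * (M * (a1 * q ^ 5))) := by ring
      _ ≤ A2 := by
        rw [hA2]
        refine mul_le_mul_of_nonneg_left (add_le_add (add_le_add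
          (mul_le_mul_of_nonneg_left (hqk 5) hMs0) (mul_le_mul_of_nonneg_left h6 hM0)) ?_) hCR.le
        exact mul_le_mul_of_nonneg_left (mul_le_mul_of_nonneg_left b1 hM0) (by norm_num)
  -- pairings
  have P1 : ∀ (k : ℕ) (f : ℤ → ℂ), k ≤ 3 → ‖∑ g ∈ Icc (1 : ℤ) N, capz C0 t k z g * f g‖ ≤
      Mt * nrm N f := fun k f hk =>
    (pair_le N _ _).trans (mul_le_mul_of_nonneg_right (nrm_capz_le ht hN k hk hz') (nrm_nonneg _ _))
  have P2 : ∀ (k : ℕ), k ≤ 3 → ‖∑ g ∈ Icc (1 : ℤ) N, U g * capz C0 s k z g‖ ≤ w0 * Ms :=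
    fun k hk => (pair_le N _ _).trans (mul_le_mul_of_nonneg_left (nrm_capz_le hs hN k hk hz') w00)
  have P3 : ∀ (k : ℕ) (f : ℤ → ℂ), k ≤ 3 → ‖∑ g ∈ Icc (1 : ℤ) N, U g * G.Kap k eps z N f g‖ ≤
      w0 * (M * nrm N f) := fun k f hk =>
    (pair_le N _ _).trans (mul_le_mul_of_nonneg_left (G.nrm_Kap_le heps hz' k hk N f) w00)
  have e1 := sgf_eq hs ht heps hN hb hb' z hz 1
  have e2 := sgf_eq hs ht heps hN hb hb' z hz 2
  have e3 := sgf_eq hs ht heps hN hb hb' z hz 3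
  simp only [Finset.sum_range_succ, Finset.sum_range_zero, Nat.choose_zero_right, Nat.cast_one,
    one_mul, Nat.sub_zero, zero_add] at e1 e2 e3
  have c21 : ((Nat.choose 2 1 : ℕ) : ℂ) = 2 := by norm_num
  have c31 : ((Nat.choose 3 1 : ℕ) : ℂ) = 3 := by norm_num [Nat.choose]
  have c32 : ((Nat.choose 3 2 : ℕ) : ℂ) = 3 := by norm_num [Nat.choose]
  have n2 : ‖(2 : ℂ)‖ = 2 := by norm_num
  have n3 : ‖(3 : ℂ)‖ = 3 := by norm_num
  rw [c21] at e2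
  rw [c31, c32] at e3
  refine ⟨?_, ?_, ?_, ?_⟩
  · intro j
    exact (close_hasSum hs ht heps hb z hz j).summable.norm
  · -- first derivative
    have hsup : ∀ g, ‖V 0 g‖ ≤ CS * Ms := fun g =>
      ((HS N eps z _ _ heps hz' sV0 (supS 0)).1 g).trans (mul_le_mul_of_nonneg_left l1S hCS.le)
    have hsupU : ∀ g, ‖U g‖ ≤ CS * Mt := fun g =>
      ((HS N eps z _ _ heps hz' sU (supT 0)).1 g).trans (mul_le_mul_of_nonneg_left l1T hCS.le)
    have hEV : En N (V 0) + Pot eps N (V 0) ≤ CS * Ms ^ 2 :=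
      (HS N eps z _ _ heps hz' sV0 (supS 0)).2.trans
        (mul_le_mul_of_nonneg_left (pow_le_pow_left₀ (l1_nonneg _ _) l1S 2) hCS.le)
    have hEU : En N U + Pot eps N U ≤ CS * Mt ^ 2 :=
      (HS N eps z _ _ heps hz' sU (supT 0)).2.trans
        (mul_le_mul_of_nonneg_left (pow_le_pow_left₀ (l1_nonneg _ _) l1T 2) hCS.le)
    have t1 : ‖∑ g ∈ Icc (1 : ℤ) N, capz C0 t 1 z g * V 0 g‖ ≤ CS * Mt * Ms := by
      refine (norm_sum_le _ _).trans ?_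
      rw [sum_capz_ext ht hN 1 z (fun g x => ‖x * V 0 g‖) (fun g => by simp)]
      calc ∑ g ∈ Icc (1 : ℤ) C0, ‖capz C0 t 1 z g * V 0 g‖
          ≤ ∑ g ∈ Icc (1 : ℤ) C0, ‖capz C0 t 1 z g‖ * (CS * Ms) := by
            refine Finset.sum_le_sum fun g _ => ?_
            rw [norm_mul]
            exact mul_le_mul_of_nonneg_left (hsup g) (norm_nonneg _)
        _ = l1 C0 (capz C0 t 1 z) * (CS * Ms) := by rw [l1, Finset.sum_mul]
        _ ≤ Mt * (CS * Ms) := mul_le_mul_of_nonneg_right (l1_capz_le ht 1 (by norm_num) hz')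
            (by positivity)
        _ = _ := by ring
    have t2 : ‖∑ g ∈ Icc (1 : ℤ) N, U g * capz C0 s 1 z g‖ ≤ CS * Mt * Ms := by
      refine (norm_sum_le _ _).trans ?_
      rw [sum_capz_ext hs hN 1 z (fun g x => ‖U g * x‖) (fun g => by simp)]
      calc ∑ g ∈ Icc (1 : ℤ) C0, ‖U g * capz C0 s 1 z g‖
          ≤ ∑ g ∈ Icc (1 : ℤ) C0, ‖capz C0 s 1 z g‖ * (CS * Mt) := by
            refine Finset.sum_le_sum fun g _ => ?_
            rw [norm_mul, mul_comm]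
            exact mul_le_mul_of_nonneg_left (hsupU g) (norm_nonneg _)
        _ = l1 C0 (capz C0 s 1 z) * (CS * Mt) := by rw [l1, Finset.sum_mul]
        _ ≤ Ms * (CS * Mt) := mul_le_mul_of_nonneg_right (l1_capz_le hs 1 (by norm_num) hz')
            (by positivity)
        _ = _ := by ring
    set Q : ℂ := ∑ g ∈ Icc (1 : ℤ) N, gf 0 b z g * gf 0 b' z g with hQ
    have hQ' : ∑ g ∈ Icc (1 : ℤ) N, U g * V 0 g = Q := by
      rw [hQ]
      exact Finset.sum_congr rfl fun g _ => mul_comm _ _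
    have hQn : q ^ 2 * ‖Q‖ ≤ B0 * A0 := by
      have h5 : ‖Q‖ ≤ w0 * a0 := by
        rw [← hQ']
        exact pair_le N _ _
      calc q ^ 2 * ‖Q‖ ≤ q ^ 2 * (w0 * a0) := mul_le_mul_of_nonneg_left h5 (by positivity)
        _ = (w0 * q) * (a0 * q) := by ring
        _ ≤ B0 * A0 := mul_le_mul bw b0 (by positivity) hB00
    have suppV : Supp N (V 0) := sV0.1
    have suppU : Supp N U := sU.1
    set Bi : ℕ × ℕ → ℂ := fun i => ∑ g ∈ Icc (1 : ℤ) N, ∑ g' ∈ Icc (1 : ℤ) N,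
          ((G.K i g g' * GapKernel.wt eps i g g' : ℝ) : ℂ) * U g * V 0 g' with hBi
    have hBi2 : ∀ i ∈ G.S, ‖(G.tot i : ℂ) * Q - Bi i‖ ≤ Cc * (CS * Mt * Ms) := by
      intro i hi
      have h5 := H2 N eps i U (V 0) hi heps suppU suppV
      rw [hQ'] at h5
      refine h5.trans (mul_le_mul_of_nonneg_left ?_ hCc.le)
      have h6 : Real.sqrt (En N U + Pot eps N U) ≤ Real.sqrt CS * Mt := by
        refine (Real.sqrt_le_sqrt hEU).trans (le_of_eq ?_)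
        rw [Real.sqrt_mul hCS.le, Real.sqrt_sq hMt0]
      have h7 : Real.sqrt (En N (V 0) + Pot eps N (V 0)) ≤ Real.sqrt CS * Ms := by
        refine (Real.sqrt_le_sqrt hEV).trans (le_of_eq ?_)
        rw [Real.sqrt_mul hCS.le, Real.sqrt_sq hMs0]
      refine (mul_le_mul h6 h7 (Real.sqrt_nonneg _) (by positivity)).trans (le_of_eq ?_)
      have h8 : Real.sqrt CS * Real.sqrt CS = CS := Real.mul_self_sqrt hCS.le
      calc Real.sqrt CS * Mt * (Real.sqrt CS * Ms) = (Real.sqrt CS * Real.sqrt CS) * Mt * Ms := by ring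
        _ = _ := by rw [h8]
    have t3 : ‖(∑ g ∈ Icc (1 : ℤ) N, U g * G.Kap 1 eps z N (V 0) g) - (G.mbar : ℂ) * Q‖ ≤
        (∑ i ∈ G.S, (i.1 : ℝ) * G.rho ^ i.1) * (Cc * (CS * Mt * Ms)) +
        (∑ i ∈ G.S, (i.1 : ℝ) * (i.1 * G.rho ^ (i.1 - 1)) * G.tot i) * (q0 ^ 2 * (B0 * A0)) := by
      rw [nrm_Kap_sum, mbar_eq, Finset.sum_mul, ← Finset.sum_sub_distrib, Finset.sum_mul,
        Finset.sum_mul, ← Finset.sum_add_distrib]
      refine (norm_sum_le _ _).trans (Finset.sum_le_sum fun i hi => ?_)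
      have h5 : ((i.1 : ℂ)) ^ 1 * z ^ i.1 * Bi i - (i.1 : ℂ) * (G.rho : ℂ) ^ i.1 * (G.tot i : ℂ) * Q =
          -((i.1 : ℂ) * z ^ i.1 * ((G.tot i : ℂ) * Q - Bi i)) +
            (i.1 : ℂ) * (z ^ i.1 - (G.rho : ℂ) ^ i.1) * (G.tot i : ℂ) * Q := by ring
      rw [h5]
      refine (norm_add_le _ _).trans (add_le_add ?_ ?_)
      · rw [norm_neg, norm_mul, norm_mul, norm_pow, Complex.norm_natCast]
        refine mul_le_mul (mul_le_mul_of_nonneg_left (pow_le_pow_left₀ (norm_nonneg _) hz' _)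
          (Nat.cast_nonneg _)) (hBi2 i hi) (norm_nonneg _) (by positivity)
      · rw [norm_mul, norm_mul, norm_mul, Complex.norm_natCast, Complex.norm_real,
          Real.norm_eq_abs, abs_of_nonneg (G.tot_nonneg i)]
        have h6 := norm_pow_sub_le hρ.le hz' i.1
        rw [← hδ, hq4] at h6
        have h7 := G.tot_nonneg i
        calc (i.1 : ℝ) * ‖z ^ i.1 - (G.rho : ℂ) ^ i.1‖ * G.tot i * ‖Q‖
            ≤ (i.1 : ℝ) * (i.1 * G.rho ^ (i.1 - 1) * q ^ 4) * G.tot i * ‖Q‖ := by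
              gcongr
          _ = (i.1 : ℝ) * (i.1 * G.rho ^ (i.1 - 1)) * G.tot i * (q ^ 2 * (q ^ 2 * ‖Q‖)) := by ring
          _ ≤ (i.1 : ℝ) * (i.1 * G.rho ^ (i.1 - 1)) * G.tot i * (q0 ^ 2 * (B0 * A0)) := by
              refine mul_le_mul_of_nonneg_left (mul_le_mul (hqk 2) hQn (by positivity)
                (by positivity)) (by positivity)
    have hfin : ‖sgf 1 (close C0 t b) z - (G.mbar : ℂ) * Q‖ ≤ D1 := by
      rw [e1]
      have h5 : (∑ g ∈ Icc (1 : ℤ) N, capz C0 t 1 z g * gf 0 b z g +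
          ∑ g ∈ Icc (1 : ℤ) N, gf 0 b' z g * capz C0 s 1 z g +
          ∑ g ∈ Icc (1 : ℤ) N, gf 0 b' z g * G.Kap 1 eps z N (gf 0 b z) g) - (G.mbar : ℂ) * Q =
          (∑ g ∈ Icc (1 : ℤ) N, capz C0 t 1 z g * V 0 g +
          ∑ g ∈ Icc (1 : ℤ) N, U g * capz C0 s 1 z g) +
          ((∑ g ∈ Icc (1 : ℤ) N, U g * G.Kap 1 eps z N (V 0) g) - (G.mbar : ℂ) * Q) := by
        simp only [hV, hU]
        ring
      rw [h5, hD1]
      refine (norm_add_le _ _).trans (add_le_add ((norm_add_le _ _).trans ?_) t3)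
      linarith
    linarith
  · -- second derivative
    have h1 : ‖sgf 2 (close C0 t b) z‖ ≤ Mt * a0 + 2 * (Mt * a1) + w0 * Ms +
        (w0 * (M * a0) + 2 * (w0 * (M * a1))) := by
      rw [e2]
      refine (norm_add_le _ _).trans (add_le_add ((norm_add_le _ _).trans (add_le_add
        ((norm_add_le _ _).trans (add_le_add (P1 2 _ (by norm_num)) ?_)) (P2 2 (by norm_num))))
        ((norm_add_le _ _).trans (add_le_add (P3 2 _ (by norm_num)) ?_)))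
      · rw [norm_mul, n2]
        exact mul_le_mul_of_nonneg_left (P1 1 _ (by norm_num)) (by norm_num)
      · rw [norm_mul, n2]
        exact mul_le_mul_of_nonneg_left (P3 1 _ (by norm_num)) (by norm_num)
    have h3 : ‖sgf 2 (close C0 t b) z‖ * q ^ 6 ≤ D2 := by
      have h4 := mul_le_mul_of_nonneg_right h1 (pow_nonneg hqpos.le 6)
      have i1 : (a0 * q) * q ^ 5 ≤ A0 * q0 ^ 5 := mul_le_mul b0 (hqk 5) (by positivity) hA00
      have i2 : (a1 * q ^ 5) * q ≤ A1 * q0 := mul_le_mul b1 hqq0 (by positivity) hA10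
      have i3 : (w0 * q) * Ms * q ^ 5 ≤ B0 * Ms * q0 ^ 5 :=
        mul_le_mul (mul_le_mul_of_nonneg_right bw hMs0) (hqk 5) (by positivity) (by positivity)
      have i4 : (w0 * q) * (M * (a0 * q)) * q ^ 4 ≤ B0 * (M * A0) * q0 ^ 4 :=
        mul_le_mul (mul_le_mul bw (mul_le_mul_of_nonneg_left b0 hM0) (by positivity) hB00)
          (hqk 4) (by positivity) (by positivity)
      have i5 : (w0 * q) * (M * (a1 * q ^ 5)) ≤ B0 * (M * A1) :=
        mul_le_mul bw (mul_le_mul_of_nonneg_left b1 hM0) (by positivity) hB00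
      have i1' := mul_le_mul_of_nonneg_left i1 hMt0
      have i2' := mul_le_mul_of_nonneg_left i2 hMt0
      refine h4.trans ?_
      rw [hD2]
      have h5 : (Mt * a0 + 2 * (Mt * a1) + w0 * Ms + (w0 * (M * a0) + 2 * (w0 * (M * a1)))) * q ^ 6 =
          Mt * ((a0 * q) * q ^ 5) + 2 * (Mt * ((a1 * q ^ 5) * q)) + (w0 * q) * Ms * q ^ 5 +
          (w0 * q) * (M * (a0 * q)) * q ^ 4 + 2 * ((w0 * q) * (M * (a1 * q ^ 5))) := by ring
      rw [h5]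
      linarith
    rw [hq2]
    have h5 : δ * q ^ 2 = q ^ 6 := by rw [hq4]; ring
    rw [h5]
    linarith
  · -- third derivative
    have h1 : ‖sgf 3 (close C0 t b) z‖ ≤ Mt * a0 + 3 * (Mt * a1) + 3 * (Mt * a2) + w0 * Ms +
        (w0 * (M * a0) + 3 * (w0 * (M * a1)) + 3 * (w0 * (M * a2))) := by
      rw [e3]
      refine (norm_add_le _ _).trans (add_le_add ((norm_add_le _ _).trans (add_le_add
        ((norm_add_le _ _).trans (add_le_add ((norm_add_le _ _).trans (add_le_add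
          (P1 3 _ (by norm_num)) ?_)) ?_)) (P2 3 (by norm_num))))
        ((norm_add_le _ _).trans (add_le_add ((norm_add_le _ _).trans (add_le_add
          (P3 3 _ (by norm_num)) ?_)) ?_)))
      · rw [norm_mul, n3]
        exact mul_le_mul_of_nonneg_left (P1 2 _ (by norm_num)) (by norm_num)
      · rw [norm_mul, n3]
        exact mul_le_mul_of_nonneg_left (P1 1 _ (by norm_num)) (by norm_num)
      · rw [norm_mul, n3]
        exact mul_le_mul_of_nonneg_left (P3 2 _ (by norm_num)) (by norm_num)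
      · rw [norm_mul, n3]
        exact mul_le_mul_of_nonneg_left (P3 1 _ (by norm_num)) (by norm_num)
    have h3 : ‖sgf 3 (close C0 t b) z‖ * q ^ 10 ≤ D3 := by
      have h4 := mul_le_mul_of_nonneg_right h1 (pow_nonneg hqpos.le 10)
      have i1 : (a0 * q) * q ^ 9 ≤ A0 * q0 ^ 9 := mul_le_mul b0 (hqk 9) (by positivity) hA00
      have i2 : (a1 * q ^ 5) * q ^ 5 ≤ A1 * q0 ^ 5 := mul_le_mul b1 (hqk 5) (by positivity) hA10
      have i2b : (a2 * q ^ 9) * q ≤ A2 * q0 := mul_le_mul b2 hqq0 (by positivity) hA20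
      have i3 : (w0 * q) * Ms * q ^ 9 ≤ B0 * Ms * q0 ^ 9 :=
        mul_le_mul (mul_le_mul_of_nonneg_right bw hMs0) (hqk 9) (by positivity) (by positivity)
      have i4 : (w0 * q) * (M * (a0 * q)) * q ^ 8 ≤ B0 * (M * A0) * q0 ^ 8 :=
        mul_le_mul (mul_le_mul bw (mul_le_mul_of_nonneg_left b0 hM0) (by positivity) hB00)
          (hqk 8) (by positivity) (by positivity)
      have i5 : (w0 * q) * (M * (a1 * q ^ 5)) * q ^ 4 ≤ B0 * (M * A1) * q0 ^ 4 :=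
        mul_le_mul (mul_le_mul bw (mul_le_mul_of_nonneg_left b1 hM0) (by positivity) hB00)
          (hqk 4) (by positivity) (by positivity)
      have i6 : (w0 * q) * (M * (a2 * q ^ 9)) ≤ B0 * (M * A2) :=
        mul_le_mul bw (mul_le_mul_of_nonneg_left b2 hM0) (by positivity) hB00
      have i1' := mul_le_mul_of_nonneg_left i1 hMt0
      have i2' := mul_le_mul_of_nonneg_left i2 hMt0
      have i2b' := mul_le_mul_of_nonneg_left i2b hMt0
      refine h4.trans ?_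
      rw [hD3]
      have h5 : (Mt * a0 + 3 * (Mt * a1) + 3 * (Mt * a2) + w0 * Ms +
          (w0 * (M * a0) + 3 * (w0 * (M * a1)) + 3 * (w0 * (M * a2)))) * q ^ 10 =
          Mt * ((a0 * q) * q ^ 9) + 3 * (Mt * ((a1 * q ^ 5) * q ^ 5)) +
          3 * (Mt * ((a2 * q ^ 9) * q)) + (w0 * q) * Ms * q ^ 9 +
          (w0 * q) * (M * (a0 * q)) * q ^ 8 + 3 * ((w0 * q) * (M * (a1 * q ^ 5)) * q ^ 4) +
          3 * ((w0 * q) * (M * (a2 * q ^ 9))) := by ring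
      rw [h5]
      linarith
    rw [hq2]
    have h5 : δ ^ 2 * q ^ 2 = q ^ 10 := by rw [hq4]; ring
    rw [h5]
    linarith

end Pool.Agent.TPK
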