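import Pool.Agent.TPK.Stmts
import Pool.Agent.TPK.OJ2

/-! Module FL_GJ2: bounds of the closed generating functions, uniformly over the class `Cls`. -/

set_option autoImplicit false

open Finset Filter Topology

namespace Pool.Agent.TPK.GJ2

open Pool.Agent.Gap Pool.Agent.TPK.H22
open Pool.Agent.FL (lw CritSrc lamS)

/-- the constant of the masses -/
noncomputable def Sk (C θ : ℝ) : ℝ := C * ∑' m : ℕ, ((m : ℝ) + 1) ^ 7 * θ ^ m

lemma summable_Sk {θ : ℝ} (h0 : 0 < θ) (h1 : θ < 1) :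
    Summable fun m : ℕ => ((m : ℝ) + 1) ^ 7 * θ ^ m := by
  have h2 : Summable fun m : ℕ => ((m : ℝ)) ^ 7 * θ ^ m :=
    summable_pow_mul_geometric_of_norm_lt_one 7 (by rw [Real.norm_eq_abs, abs_of_pos h0]; exact h1)
  have h3 := (summable_nat_add_iff 1).2 h2
  have h4 := h3.mul_left θ⁻¹
  refine h4.congr fun m => ?_
  push_cast
  field_simp
  ring

lemma Sk_nonneg {C θ : ℝ} (hC : 0 < C) (h0 : 0 < θ) : 0 ≤ Sk C θ :=
  mul_nonneg hC.le (tsum_nonneg fun m => by positivity)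

lemma sum_le_Sk {C θ : ℝ} (hC : 0 < C) (h0 : 0 < θ) (h1 : θ < 1) (s : Finset ℕ) :
    ∑ m ∈ s, ((m : ℝ) + 1) ^ 7 * (C * θ ^ m) ≤ Sk C θ := by
  have h2 := (summable_Sk h0 h1).sum_le_tsum s (fun m _ => by positivity)
  calc ∑ m ∈ s, ((m : ℝ) + 1) ^ 7 * (C * θ ^ m) = C * ∑ m ∈ s, ((m : ℝ) + 1) ^ 7 * θ ^ m := by
        rw [Finset.mul_sum]
        exact Finset.sum_congr rfl fun m _ => by ring
    _ ≤ _ := mul_le_mul_of_nonneg_left h2 hC.le

/-- moments of the half length -/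
lemma mass_le {C θ : ℝ} (hC : 0 < C) (h0 : 0 < θ) (h1 : θ < 1) {G : GapKernel} (hG : Cls C θ G)
    (k : ℕ) (hk : k ≤ 7) : ∑ i ∈ G.S, (i.1 : ℝ) ^ k * G.rho ^ i.1 * G.tot i ≤ Sk C θ := by
  rw [← Finset.sum_fiberwise_of_maps_to (s := G.S) (t := G.S.image Prod.fst) (g := Prod.fst)
    (fun i hi => Finset.mem_image_of_mem _ hi)]
  refine le_trans (Finset.sum_le_sum fun m _ => ?_) (sum_le_Sk hC h0 h1 (G.S.image Prod.fst))
  calc ∑ i ∈ G.S.filter (fun i => i.1 = m), (i.1 : ℝ) ^ k * G.rho ^ i.1 * G.tot i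
      = (m : ℝ) ^ k * ∑ i ∈ G.S.filter (fun i => i.1 = m), G.rho ^ m * G.tot i := by
        rw [Finset.mul_sum]
        refine Finset.sum_congr rfl fun i hi => ?_
        rw [(Finset.mem_filter.1 hi).2]
        ring
    _ ≤ (m : ℝ) ^ k * (C * θ ^ m) := mul_le_mul_of_nonneg_left (hG.dec m) (by positivity)
    _ ≤ ((m : ℝ) + 1) ^ 7 * (C * θ ^ m) := by
        refine mul_le_mul_of_nonneg_right ?_ (by positivity)
        have hm : (0 : ℝ) ≤ m := Nat.cast_nonneg m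
        exact (pow_le_pow_left₀ hm (by linarith) k).trans (pow_le_pow_right₀ (by linarith) hk)

lemma m3_le {C θ : ℝ} (hC : 0 < C) (h0 : 0 < θ) (h1 : θ < 1) {G : GapKernel} (hG : Cls C θ G) :
    G.m3 ≤ Sk C θ := mass_le hC h0 h1 hG 3 (by norm_num)

lemma rho_le (G : GapKernel) : G.rho ≤ 1 / 2 := G.rho_le_half

lemma lw_nonneg (p N : ℕ) (e : ℤ → ℂ) : 0 ≤ lw p N e :=
  Finset.sum_nonneg fun g hg => by
    have h1 : (1 : ℤ) ≤ g := (Finset.mem_Icc.1 hg).1
    have h2 : (0 : ℝ) ≤ g := by exact_mod_cast (by omega : (0 : ℤ) ≤ g)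
    positivity

/-- the weighted norm of a cap -/
lemma lw_capz_le {C θ : ℝ} (hC : 0 < C) (h0 : 0 < θ) (h1 : θ < 1) {G : GapKernel} {C0 : ℕ}
    {s : ℕ → ℤ → ℝ} (hs : ClsCap C θ G C0 s) (N : ℕ) (p : ℕ) (hp : p ≤ 4) (j : ℕ) (hj : j ≤ 3)
    {z : ℂ} (hz : ‖z‖ ≤ G.rho) : lw p N (capz C0 s j z) ≤ Sk C θ := by
  have hρ := G.rho_pos
  unfold lw
  calc ∑ g ∈ Icc (1 : ℤ) N, (g : ℝ) ^ p * ‖capz C0 s j z g‖
      ≤ ∑ g ∈ Icc (1 : ℤ) N, (g : ℝ) ^ p *
          ∑ m ∈ range (C0 + 1), ((m : ℝ) + 1) ^ 3 * G.rho ^ m * s m g := by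
        refine Finset.sum_le_sum fun g hg => ?_
        have h2 : (1 : ℤ) ≤ g := (Finset.mem_Icc.1 hg).1
        have h3 : (0 : ℝ) ≤ g := by exact_mod_cast (by omega : (0 : ℤ) ≤ g)
        exact mul_le_mul_of_nonneg_left (norm_capz_le hs.cap j hj hz g) (by positivity)
    _ = ∑ m ∈ range (C0 + 1), ∑ g ∈ Icc (1 : ℤ) N,
          (g : ℝ) ^ p * (((m : ℝ) + 1) ^ 3 * G.rho ^ m * s m g) := by
        simp_rw [Finset.mul_sum]
        rw [Finset.sum_comm]
    _ ≤ ∑ m ∈ range (C0 + 1), ((m : ℝ) + 1) ^ 7 * (C * θ ^ m) := by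
        refine Finset.sum_le_sum fun m _ => ?_
        have hm0 : (0 : ℝ) ≤ m := Nat.cast_nonneg m
        have h2 : ∑ g ∈ Icc (1 : ℤ) N, (g : ℝ) ^ p * (((m : ℝ) + 1) ^ 3 * G.rho ^ m * s m g) ≤
            ∑ g ∈ Icc (1 : ℤ) m, ((m : ℝ) + 1) ^ 7 * (G.rho ^ m * s m g) := by
          have h3 : ∀ g ∈ Icc (1 : ℤ) N, (g : ℝ) ^ p * (((m : ℝ) + 1) ^ 3 * G.rho ^ m * s m g) ≤
              if g ≤ m then ((m : ℝ) + 1) ^ 7 * (G.rho ^ m * s m g) else 0 := by
            intro g hg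
            have h4 : (1 : ℤ) ≤ g := (Finset.mem_Icc.1 hg).1
            have hs0 := hs.cap.nonneg m g
            split_ifs with hgm
            · have h5 : (g : ℝ) ≤ m := by exact_mod_cast hgm
              have h6 : (1 : ℝ) ≤ g := by exact_mod_cast h4
              have h7 : (g : ℝ) ^ p ≤ ((m : ℝ) + 1) ^ 4 :=
                (pow_le_pow_right₀ h6 hp).trans (pow_le_pow_left₀ (by linarith) (by linarith) 4)
              calc (g : ℝ) ^ p * (((m : ℝ) + 1) ^ 3 * G.rho ^ m * s m g)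
                  ≤ ((m : ℝ) + 1) ^ 4 * (((m : ℝ) + 1) ^ 3 * G.rho ^ m * s m g) :=
                    mul_le_mul_of_nonneg_right h7 (by positivity)
                _ = _ := by ring
            · rw [hs.supp m g (not_le.1 hgm)]
              simp
          refine (Finset.sum_le_sum h3).trans ?_
          rw [← Finset.sum_filter]
          refine Finset.sum_le_sum_of_subset_of_nonneg ?_ fun g _ _ => ?_
          · intro g hg
            rw [Finset.mem_filter, Finset.mem_Icc] at hg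
            rw [Finset.mem_Icc]
            exact ⟨hg.1.1, hg.2⟩
          · have := hs.cap.nonneg m g
            positivity
        refine h2.trans ?_
        rw [← Finset.mul_sum]
        exact mul_le_mul_of_nonneg_left (hs.dec m) (by positivity)
    _ ≤ Sk C θ := sum_le_Sk hC h0 h1 _

lemma sum_norm_capz_le {C θ : ℝ} (hC : 0 < C) (h0 : 0 < θ) (h1 : θ < 1) {G : GapKernel} {C0 : ℕ}
    {s : ℕ → ℤ → ℝ} (hs : ClsCap C θ G C0 s) (N : ℕ) (j : ℕ) (hj : j ≤ 3)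
    {z : ℂ} (hz : ‖z‖ ≤ G.rho) : ∑ g ∈ Icc (1 : ℤ) N, ‖capz C0 s j z g‖ ≤ Sk C θ := by
  have h := lw_capz_le hC h0 h1 hs N 0 (by norm_num) j hj hz
  unfold lw at h
  simpa using h

lemma nrm_capz_le' {C θ : ℝ} (hC : 0 < C) (h0 : 0 < θ) (h1 : θ < 1) {G : GapKernel} {C0 : ℕ}
    {s : ℕ → ℤ → ℝ} (hs : ClsCap C θ G C0 s) (N : ℕ) (j : ℕ) (hj : j ≤ 3)
    {z : ℂ} (hz : ‖z‖ ≤ G.rho) : nrm N (capz C0 s j z) ≤ Sk C θ :=
  (nrm_le_sum N _).trans (sum_norm_capz_le hC h0 h1 hs N j hj hz)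

lemma nrm_Kap_le' {C θ : ℝ} (hC : 0 < C) (h0 : 0 < θ) (h1 : θ < 1) {G : GapKernel}
    (hG : Cls C θ G) {eps : ℝ} (h : 0 ≤ eps) {z : ℂ} (hz : ‖z‖ ≤ G.rho) (j : ℕ) (hj : j ≤ 3)
    (N : ℕ) (f : ℤ → ℂ) : nrm N (G.Kap j eps z N f) ≤ Sk C θ * nrm N f :=
  (G.nrm_Kap_le h hz j hj N f).trans
    (mul_le_mul_of_nonneg_right (m3_le hC h0 h1 hG) (nrm_nonneg _ _))

/-- MODULE FL_GJ2 -/
theorem gj2 (h2 : GC2_Stmt) (_hC : GC_Stmt) (hRE : GRE_Stmt) (hSUP : GSUP_Stmt)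
    (hW : GW_Stmt) : GJ2_Stmt := by
  intro C θ hC0 hθ0 hθ1
  obtain ⟨CW, hCW, HW⟩ := hW C θ hC0 hθ0 hθ1
  obtain ⟨CS, hCS, HS⟩ := hSUP C θ hC0 hθ0 hθ1
  obtain ⟨CR, hCR, HR⟩ := hRE C θ hC0 hθ0 hθ1
  obtain ⟨Cc, hCc, H2⟩ := h2
  set M : ℝ := Sk C θ with hM
  have hM0 : 0 ≤ M := Sk_nonneg hC0 hθ0
  set A0 : ℝ := Real.sqrt CW * M with hA0
  have hA00 : 0 ≤ A0 := by positivity
  set A1 : ℝ := CR * (M + M * A0) with hA1
  have hA10 : 0 ≤ A1 := by positivity
  set A2 : ℝ := CR * (M + M * A0 + 2 * (M * A1)) with hA2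
  have hA20 : 0 ≤ A2 := by positivity
  set D1 : ℝ := 2 * (CS * M * M) + (M * (Cc * (CS * M * M)) + C * M * (A0 * A0)) with hD1
  have hD10 : 0 ≤ D1 := by positivity
  set D2 : ℝ := M * A0 + 2 * (M * A1) + A0 * M + A0 * (M * A0) + 2 * (A0 * (M * A1)) with hD2
  have hD20 : 0 ≤ D2 := by positivity
  set D3 : ℝ := M * A0 + 3 * (M * A1) + 3 * (M * A2) + A0 * M + A0 * (M * A0) +
    3 * (A0 * (M * A1)) + 3 * (A0 * (M * A2)) with hD3
  have hD30 : 0 ≤ D3 := by positivity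
  refine ⟨D1 + D2 + D3 + 1, by positivity, ?_⟩
  intro G hG C0 s t hs' ht' N eps heps hN b b' hb hb' z hz
  have hs : IsCap C0 s := hs'.cap
  have ht : IsCap C0 t := ht'.cap
  have hρ := G.rho_pos
  have hz' : ‖z‖ ≤ G.rho := hz.le
  have hzne : z ≠ (G.rho : ℂ) := by
    rintro rfl
    rw [Complex.norm_real, Real.norm_eq_abs, abs_of_pos hρ] at hz
    exact lt_irrefl _ hz
  set δ : ℝ := ‖(G.rho : ℂ) - z‖ with hδ
  have hδ0 : 0 < δ := norm_pos_iff.mpr (sub_ne_zero.mpr (Ne.symm hzne))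
  have hδ2 : δ ≤ 1 := by
    have h5 : δ ≤ 2 * G.rho := delta_le hz'
    have h6 := rho_le G
    linarith
  set q : ℝ := Real.sqrt (Real.sqrt δ) with hq
  have hqpos : 0 < q := Real.sqrt_pos.mpr (Real.sqrt_pos.mpr hδ0)
  have hq2 : Real.sqrt δ = q ^ 2 := (Real.sq_sqrt (Real.sqrt_nonneg _)).symm
  have hq4 : δ = q ^ 4 := by
    have : δ = Real.sqrt δ ^ 2 := (Real.sq_sqrt hδ0.le).symm
    rw [this, hq2]
    ring
  have hqq0 : q ≤ 1 := Real.sqrt_le_one.2 (Real.sqrt_le_one.2 hδ2)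
  have hqk : ∀ k : ℕ, q ^ k ≤ 1 := fun k => pow_le_one₀ hqpos.le hqq0
  set V : ℕ → ℤ → ℂ := fun j => gf j b z with hV
  set U : ℤ → ℂ := gf 0 b' z with hU
  have sV : ∀ j, G.Solves eps z N (V j) (fun g => capz C0 s j z g +
      ∑ l ∈ range j, ((j.choose l : ℕ) : ℂ) * G.Kap (j - l) eps z N (V l) g) :=
    (((J1 G C0 s hs N eps heps).2 b hb).2.2.2) z hz
  have sU : G.Solves eps z N U (capz C0 t 0 z) := by
    have := (((J1 G C0 t ht N eps heps).2 b' hb').2.2.2) z hz 0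
    simpa using this
  have sV0 : G.Solves eps z N (V 0) (capz C0 s 0 z) := by
    have := sV 0
    simpa using this
  have nS : ∀ j : ℕ, j ≤ 3 → nrm N (capz C0 s j z) ≤ M := fun j hj =>
    nrm_capz_le' hC0 hθ0 hθ1 hs' N j hj hz'
  have nT : ∀ j : ℕ, j ≤ 3 → nrm N (capz C0 t j z) ≤ M := fun j hj =>
    nrm_capz_le' hC0 hθ0 hθ1 ht' N j hj hz'
  have nK : ∀ (j : ℕ) (f : ℤ → ℂ), j ≤ 3 → nrm N (G.Kap j eps z N f) ≤ M * nrm N f :=
    fun j f hj => nrm_Kap_le' hC0 hθ0 hθ1 hG heps hz' j hj N f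
  -- L2 bounds at level 0
  have lev0 : ∀ (f e : ℤ → ℂ), G.Solves eps z N f e → lw 4 N e ≤ M →
      nrm N f * q ≤ A0 := by
    intro f e hs1 hl
    have h1 := (HW G hG N eps z f e heps hz' hzne hs1).1 0 (by norm_num)
    have h3 : mulg 0 f = f := by funext g; simp [mulg]
    rw [h3, pow_zero, mul_one, ← hδ, hq2, le_div_iff₀ (by positivity), ← nrm_sq] at h1
    have h4 : (nrm N f * q) ^ 2 ≤ (Real.sqrt CW * M) ^ 2 := by
      rw [mul_pow, mul_pow, Real.sq_sqrt hCW.le]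
      exact h1.trans (mul_le_mul_of_nonneg_left (pow_le_pow_left₀ (lw_nonneg _ _ _) hl 2) hCW.le)
    exact (pow_le_pow_iff_left₀ (mul_nonneg (nrm_nonneg _ _) hqpos.le) (by positivity)
      two_ne_zero).mp h4
  set a0 : ℝ := nrm N (V 0) with ha0
  set a1 : ℝ := nrm N (V 1) with ha1
  set a2 : ℝ := nrm N (V 2) with ha2
  set w0 : ℝ := nrm N U with hw0
  have a00 : 0 ≤ a0 := nrm_nonneg _ _
  have a10 : 0 ≤ a1 := nrm_nonneg _ _
  have a20 : 0 ≤ a2 := nrm_nonneg _ _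
  have w00 : 0 ≤ w0 := nrm_nonneg _ _
  have b0 : a0 * q ≤ A0 := lev0 _ _ sV0 (lw_capz_le hC0 hθ0 hθ1 hs' N 4 le_rfl 0 (by norm_num) hz')
  have bw : w0 * q ≤ A0 := lev0 _ _ sU (lw_capz_le hC0 hθ0 hθ1 ht' N 4 le_rfl 0 (by norm_num) hz')
  -- level 1
  have b1 : a1 * q ^ 5 ≤ A1 := by
    have h1 := ((HR G hG N eps z heps hz').2.2 _ _ (sV 1)).1
    have h3 : nrm N (fun g => capz C0 s 1 z g +
      ∑ l ∈ range 1, (((1 : ℕ).choose l : ℕ) : ℂ) * G.Kap (1 - l) eps z N (V l) g) ≤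
        M + M * a0 := by
      refine (nrm_add N _ _).trans (add_le_add (nS 1 (by norm_num)) ?_)
      have h4 : (fun g => ∑ l ∈ range 1, (((1 : ℕ).choose l : ℕ) : ℂ) *
          G.Kap (1 - l) eps z N (V l) g) = G.Kap 1 eps z N (V 0) := by
        funext g
        simp
      rw [h4]
      exact nK 1 (V 0) (by norm_num)
    have h4 : q ^ 4 * a1 ≤ CR * (M + M * a0) := by
      rw [← hq4]
      exact h1.trans (mul_le_mul_of_nonneg_left h3 hCR.le)
    have h5 := mul_le_mul_of_nonneg_right h4 hqpos.le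
    have h6 : M * q ≤ M := mul_le_of_le_one_right hM0 hqq0
    calc a1 * q ^ 5 = q ^ 4 * a1 * q := by ring
      _ ≤ CR * (M + M * a0) * q := h5
      _ = CR * (M * q + M * (a0 * q)) := by ring
      _ ≤ A1 := by
        rw [hA1]
        exact mul_le_mul_of_nonneg_left (add_le_add h6
          (mul_le_mul_of_nonneg_left b0 hM0)) hCR.le
  -- level 2
  have b2 : a2 * q ^ 9 ≤ A2 := by
    have h1 := ((HR G hG N eps z heps hz').2.2 _ _ (sV 2)).1
    have h3 : nrm N (fun g => capz C0 s 2 z g +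
      ∑ l ∈ range 2, (((2 : ℕ).choose l : ℕ) : ℂ) * G.Kap (2 - l) eps z N (V l) g) ≤
        M + (M * a0 + 2 * (M * a1)) := by
      refine (nrm_add N _ _).trans (add_le_add (nS 2 (by norm_num)) ?_)
      have h4 : (fun g => ∑ l ∈ range 2, (((2 : ℕ).choose l : ℕ) : ℂ) *
          G.Kap (2 - l) eps z N (V l) g) = fun g => G.Kap 2 eps z N (V 0) g +
            (2 : ℂ) * G.Kap 1 eps z N (V 1) g := by
        funext g
        simp [Finset.sum_range_succ]
      rw [h4]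
      refine (nrm_add N _ _).trans (add_le_add (nK 2 (V 0) (by norm_num)) ?_)
      rw [nrm_smul]
      have : ‖(2 : ℂ)‖ = 2 := by norm_num
      rw [this]
      exact mul_le_mul_of_nonneg_left (nK 1 (V 1) (by norm_num)) (by norm_num)
    have h4 : q ^ 4 * a2 ≤ CR * (M + (M * a0 + 2 * (M * a1))) := by
      rw [← hq4]
      exact h1.trans (mul_le_mul_of_nonneg_left h3 hCR.le)
    have h5 := mul_le_mul_of_nonneg_right h4 (pow_nonneg hqpos.le 5)
    have h6 : (a0 * q) * q ^ 4 ≤ A0 * 1 := mul_le_mul b0 (hqk 4) (by positivity) hA00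
    rw [mul_one] at h6
    have h7 : M * q ^ 5 ≤ M := mul_le_of_le_one_right hM0 (hqk 5)
    calc a2 * q ^ 9 = q ^ 4 * a2 * q ^ 5 := by ring
      _ ≤ CR * (M + (M * a0 + 2 * (M * a1))) * q ^ 5 := h5
      _ = CR * (M * q ^ 5 + M * ((a0 * q) * q ^ 4) + 2 * (M * (a1 * q ^ 5))) := by ring
      _ ≤ A2 := by
        rw [hA2]
        refine mul_le_mul_of_nonneg_left (add_le_add (add_le_add
          h7 (mul_le_mul_of_nonneg_left h6 hM0)) ?_) hCR.le
        exact mul_le_mul_of_nonneg_left (mul_le_mul_of_nonneg_left b1 hM0) (by norm_num)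
  -- pairings
  have P1 : ∀ (k : ℕ) (f : ℤ → ℂ), k ≤ 3 → ‖∑ g ∈ Icc (1 : ℤ) N, capz C0 t k z g * f g‖ ≤
      M * nrm N f := fun k f hk =>
    (pair_le N _ _).trans (mul_le_mul_of_nonneg_right (nT k hk) (nrm_nonneg _ _))
  have P2 : ∀ (k : ℕ), k ≤ 3 → ‖∑ g ∈ Icc (1 : ℤ) N, U g * capz C0 s k z g‖ ≤ w0 * M :=
    fun k hk => (pair_le N _ _).trans (mul_le_mul_of_nonneg_left (nS k hk) w00)
  have P3 : ∀ (k : ℕ) (f : ℤ → ℂ), k ≤ 3 → ‖∑ g ∈ Icc (1 : ℤ) N, U g * G.Kap k eps z N f g‖ ≤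
      w0 * (M * nrm N f) := fun k f hk =>
    (pair_le N _ _).trans (mul_le_mul_of_nonneg_left (nK k f hk) w00)
  have e1 := sgf_eq hs ht heps hN hb hb' z hz 1
  have e2 := sgf_eq hs ht heps hN hb hb' z hz 2
  have e3 := sgf_eq hs ht heps hN hb hb' z hz 3
  simp only [Finset.sum_range_succ, Finset.sum_range_zero, Nat.choose_zero_right, Nat.cast_one,
    one_mul, Nat.sub_zero, zero_add] at e1 e2 e3
  have c21 : ((Nat.choose 2 1 : ℕ) : ℂ) = 2 := by norm_num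
  have c31 : ((Nat.choose 3 1 : ℕ) : ℂ) = 3 := by norm_num [Nat.choose]
  have c32 : ((Nat.choose 3 2 : ℕ) : ℂ) = 3 := by norm_num [Nat.choose]
  have n2 : ‖(2 : ℂ)‖ = 2 := by norm_num
  have n3 : ‖(3 : ℂ)‖ = 3 := by norm_num
  rw [c21] at e2
  rw [c31, c32] at e3
  refine ⟨?_, ?_, ?_, ?_⟩
  · intro j
    exact (close_hasSum hs ht heps hb z hz j).summable.norm
  · -- first derivative
    have l1S : lw 1 N (capz C0 s 0 z) ≤ M :=
      lw_capz_le hC0 hθ0 hθ1 hs' N 1 (by norm_num) 0 (by norm_num) hz'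
    have l1T : lw 1 N (capz C0 t 0 z) ≤ M :=
      lw_capz_le hC0 hθ0 hθ1 ht' N 1 (by norm_num) 0 (by norm_num) hz'
    have hsup : ∀ g, ‖V 0 g‖ ≤ CS * M := fun g =>
      ((HS G hG N eps z _ _ heps hz' sV0).1 g).trans (mul_le_mul_of_nonneg_left l1S hCS.le)
    have hsupU : ∀ g, ‖U g‖ ≤ CS * M := fun g =>
      ((HS G hG N eps z _ _ heps hz' sU).1 g).trans (mul_le_mul_of_nonneg_left l1T hCS.le)
    have hEV : En N (V 0) + Pot eps N (V 0) ≤ CS * M ^ 2 :=
      (HS G hG N eps z _ _ heps hz' sV0).2.trans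
        (mul_le_mul_of_nonneg_left (pow_le_pow_left₀ (lw_nonneg _ _ _) l1S 2) hCS.le)
    have hEU : En N U + Pot eps N U ≤ CS * M ^ 2 :=
      (HS G hG N eps z _ _ heps hz' sU).2.trans
        (mul_le_mul_of_nonneg_left (pow_le_pow_left₀ (lw_nonneg _ _ _) l1T 2) hCS.le)
    have t1 : ‖∑ g ∈ Icc (1 : ℤ) N, capz C0 t 1 z g * V 0 g‖ ≤ CS * M * M := by
      refine (norm_sum_le _ _).trans ?_
      calc ∑ g ∈ Icc (1 : ℤ) N, ‖capz C0 t 1 z g * V 0 g‖
          ≤ ∑ g ∈ Icc (1 : ℤ) N, ‖capz C0 t 1 z g‖ * (CS * M) := by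
            refine Finset.sum_le_sum fun g _ => ?_
            rw [norm_mul]
            exact mul_le_mul_of_nonneg_left (hsup g) (norm_nonneg _)
        _ = (∑ g ∈ Icc (1 : ℤ) N, ‖capz C0 t 1 z g‖) * (CS * M) := by rw [Finset.sum_mul]
        _ ≤ M * (CS * M) := mul_le_mul_of_nonneg_right
            (sum_norm_capz_le hC0 hθ0 hθ1 ht' N 1 (by norm_num) hz') (by positivity)
        _ = _ := by ring
    have t2 : ‖∑ g ∈ Icc (1 : ℤ) N, U g * capz C0 s 1 z g‖ ≤ CS * M * M := by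
      refine (norm_sum_le _ _).trans ?_
      calc ∑ g ∈ Icc (1 : ℤ) N, ‖U g * capz C0 s 1 z g‖
          ≤ ∑ g ∈ Icc (1 : ℤ) N, ‖capz C0 s 1 z g‖ * (CS * M) := by
            refine Finset.sum_le_sum fun g _ => ?_
            rw [norm_mul, mul_comm]
            exact mul_le_mul_of_nonneg_left (hsupU g) (norm_nonneg _)
        _ = (∑ g ∈ Icc (1 : ℤ) N, ‖capz C0 s 1 z g‖) * (CS * M) := by rw [Finset.sum_mul]
        _ ≤ M * (CS * M) := mul_le_mul_of_nonneg_right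
            (sum_norm_capz_le hC0 hθ0 hθ1 hs' N 1 (by norm_num) hz') (by positivity)
        _ = _ := by ring
    set Q : ℂ := ∑ g ∈ Icc (1 : ℤ) N, gf 0 b z g * gf 0 b' z g with hQ
    have hQ' : ∑ g ∈ Icc (1 : ℤ) N, U g * V 0 g = Q := by
      rw [hQ]
      exact Finset.sum_congr rfl fun g _ => mul_comm _ _
    have hQn : q ^ 2 * ‖Q‖ ≤ A0 * A0 := by
      have h5 : ‖Q‖ ≤ w0 * a0 := by
        rw [← hQ']
        exact pair_le N _ _
      calc q ^ 2 * ‖Q‖ ≤ q ^ 2 * (w0 * a0) := mul_le_mul_of_nonneg_left h5 (by positivity)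
        _ = (w0 * q) * (a0 * q) := by ring
        _ ≤ A0 * A0 := mul_le_mul bw b0 (by positivity) hA00
    have suppV : Supp N (V 0) := sV0.1
    have suppU : Supp N U := sU.1
    set Bi : ℕ × ℕ → ℂ := fun i => ∑ g ∈ Icc (1 : ℤ) N, ∑ g' ∈ Icc (1 : ℤ) N,
          ((G.K i g g' * GapKernel.wt eps i g g' : ℝ) : ℂ) * U g * V 0 g' with hBi
    have hBi2 : ∀ i ∈ G.S, ‖(G.tot i : ℂ) * Q - Bi i‖ ≤
        (i.1 : ℝ) ^ 3 * G.tot i * (Cc * (CS * M * M)) := by
      intro i hi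
      have h5 := H2 G hG.loc N eps i U (V 0) hi heps suppU suppV
      rw [hQ'] at h5
      have h6 : Real.sqrt (En N U + Pot eps N U) ≤ Real.sqrt CS * M := by
        refine (Real.sqrt_le_sqrt hEU).trans (le_of_eq ?_)
        rw [Real.sqrt_mul hCS.le, Real.sqrt_sq hM0]
      have h7 : Real.sqrt (En N (V 0) + Pot eps N (V 0)) ≤ Real.sqrt CS * M := by
        refine (Real.sqrt_le_sqrt hEV).trans (le_of_eq ?_)
        rw [Real.sqrt_mul hCS.le, Real.sqrt_sq hM0]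
      have h8 : Real.sqrt CS * Real.sqrt CS = CS := Real.mul_self_sqrt hCS.le
      have h9 : Real.sqrt (En N U + Pot eps N U) * Real.sqrt (En N (V 0) + Pot eps N (V 0)) ≤
          CS * M * M := by
        refine (mul_le_mul h6 h7 (Real.sqrt_nonneg _) (by positivity)).trans (le_of_eq ?_)
        calc Real.sqrt CS * M * (Real.sqrt CS * M) = (Real.sqrt CS * Real.sqrt CS) * M * M := by ring
          _ = _ := by rw [h8]
      have h10 := G.tot_nonneg i
      calc _ ≤ Cc * (i.1 : ℝ) ^ 3 * G.tot i *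
            (Real.sqrt (En N U + Pot eps N U) * Real.sqrt (En N (V 0) + Pot eps N (V 0))) := h5
        _ ≤ Cc * (i.1 : ℝ) ^ 3 * G.tot i * (CS * M * M) :=
            mul_le_mul_of_nonneg_left h9 (by positivity)
        _ = _ := by ring
    have t3 : ‖(∑ g ∈ Icc (1 : ℤ) N, U g * G.Kap 1 eps z N (V 0) g) - (G.mbar : ℂ) * Q‖ ≤
        M * (Cc * (CS * M * M)) + C * M * (A0 * A0) := by
      have t4 : ‖(∑ g ∈ Icc (1 : ℤ) N, U g * G.Kap 1 eps z N (V 0) g) - (G.mbar : ℂ) * Q‖ ≤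
          ∑ i ∈ G.S, ((i.1 : ℝ) ^ 4 * G.rho ^ i.1 * G.tot i * (Cc * (CS * M * M)) +
            C * ((i.1 : ℝ) ^ 2 * G.rho ^ i.1 * G.tot i) * (A0 * A0)) := by
        rw [nrm_Kap_sum, mbar_eq, Finset.sum_mul, ← Finset.sum_sub_distrib]
        refine (norm_sum_le _ _).trans (Finset.sum_le_sum fun i hi => ?_)
        have h5 : ((i.1 : ℂ)) ^ 1 * z ^ i.1 * Bi i -
            (i.1 : ℂ) * (G.rho : ℂ) ^ i.1 * (G.tot i : ℂ) * Q =
            -((i.1 : ℂ) * z ^ i.1 * ((G.tot i : ℂ) * Q - Bi i)) +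
              (i.1 : ℂ) * (z ^ i.1 - (G.rho : ℂ) ^ i.1) * (G.tot i : ℂ) * Q := by ring
        rw [h5]
        have h7 := G.tot_nonneg i
        refine (norm_add_le _ _).trans (add_le_add ?_ ?_)
        · rw [norm_neg, norm_mul, norm_mul, norm_pow, Complex.norm_natCast]
          calc (i.1 : ℝ) * ‖z‖ ^ i.1 * ‖(G.tot i : ℂ) * Q - Bi i‖
              ≤ (i.1 : ℝ) * G.rho ^ i.1 * ((i.1 : ℝ) ^ 3 * G.tot i * (Cc * (CS * M * M))) := by
                refine mul_le_mul (mul_le_mul_of_nonneg_left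
                  (pow_le_pow_left₀ (norm_nonneg _) hz' _) (Nat.cast_nonneg _)) (hBi2 i hi)
                  (norm_nonneg _) (by positivity)
            _ = _ := by ring
        · rw [norm_mul, norm_mul, norm_mul, Complex.norm_natCast, Complex.norm_real,
            Real.norm_eq_abs, abs_of_nonneg (G.tot_nonneg i)]
          have h6 := norm_pow_sub_le hρ.le hz' i.1
          rw [← hδ, hq4] at h6
          have h8 : G.rho ^ (i.1 - 1) ≤ C * G.rho ^ i.1 := by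
            have h9 : 1 ≤ i.1 := (G.pos_mem i hi).1
            have h10 : 1 ≤ C * G.rho := by
              have h11 := mul_le_mul_of_nonneg_left hG.rho_ge hC0.le
              rwa [mul_inv_cancel₀ hC0.ne'] at h11
            obtain ⟨k, hk⟩ := Nat.exists_eq_add_of_le' h9
            rw [hk, Nat.add_sub_cancel, pow_succ]
            have h12 : 0 ≤ G.rho ^ k := by positivity
            nlinarith
          calc (i.1 : ℝ) * ‖z ^ i.1 - (G.rho : ℂ) ^ i.1‖ * G.tot i * ‖Q‖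
              ≤ (i.1 : ℝ) * (i.1 * G.rho ^ (i.1 - 1) * q ^ 4) * G.tot i * ‖Q‖ := by
                gcongr
            _ = (i.1 : ℝ) ^ 2 * G.tot i * (q ^ 2 * (q ^ 2 * ‖Q‖)) * G.rho ^ (i.1 - 1) := by ring
            _ ≤ (i.1 : ℝ) ^ 2 * G.tot i * (1 * (A0 * A0)) * (C * G.rho ^ i.1) := by
                refine mul_le_mul ?_ h8 (by positivity) (by positivity)
                exact mul_le_mul_of_nonneg_left (mul_le_mul (hqk 2) hQn (by positivity)
                  (by positivity)) (by positivity)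
            _ = _ := by ring
      refine t4.trans ?_
      rw [Finset.sum_add_distrib, ← Finset.sum_mul, ← Finset.sum_mul, ← Finset.mul_sum]
      refine add_le_add (mul_le_mul_of_nonneg_right (mass_le hC0 hθ0 hθ1 hG 4 (by norm_num))
        (by positivity)) (mul_le_mul_of_nonneg_right (mul_le_mul_of_nonneg_left
          (mass_le hC0 hθ0 hθ1 hG 2 (by norm_num)) hC0.le) (by positivity))
    have hfin : ‖sgf 1 (close C0 t b) z - (G.mbar : ℂ) * Q‖ ≤ D1 := by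
      rw [e1]
      have h5 : (∑ g ∈ Icc (1 : ℤ) N, capz C0 t 1 z g * gf 0 b z g +
          ∑ g ∈ Icc (1 : ℤ) N, gf 0 b' z g * capz C0 s 1 z g +
          ∑ g ∈ Icc (1 : ℤ) N, gf 0 b' z g * G.Kap 1 eps z N (gf 0 b z) g) - (G.mbar : ℂ) * Q =
          (∑ g ∈ Icc (1 : ℤ) N, capz C0 t 1 z g * V 0 g +
          ∑ g ∈ Icc (1 : ℤ) N, U g * capz C0 s 1 z g) +
          ((∑ g ∈ Icc (1 : ℤ) N, U g * G.Kap 1 eps z N (V 0) g) - (G.mbar : ℂ) * Q) := by
        simp only [hV, hU]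
        ring
      rw [h5, hD1]
      refine (norm_add_le _ _).trans (add_le_add ((norm_add_le _ _).trans ?_) t3)
      linarith
    linarith
  · -- second derivative
    have h1 : ‖sgf 2 (close C0 t b) z‖ ≤ M * a0 + 2 * (M * a1) + w0 * M +
        (w0 * (M * a0) + 2 * (w0 * (M * a1))) := by
      rw [e2]
      refine (norm_add_le _ _).trans (add_le_add ((norm_add_le _ _).trans (add_le_add
        ((norm_add_le _ _).trans (add_le_add (P1 2 _ (by norm_num)) ?_)) (P2 2 (by norm_num))))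
        ((norm_add_le _ _).trans (add_le_add (P3 2 _ (by norm_num)) ?_)))
      · rw [norm_mul, n2]
        exact mul_le_mul_of_nonneg_left (P1 1 _ (by norm_num)) (by norm_num)
      · rw [norm_mul, n2]
        exact mul_le_mul_of_nonneg_left (P3 1 _ (by norm_num)) (by norm_num)
    have h3 : ‖sgf 2 (close C0 t b) z‖ * q ^ 6 ≤ D2 := by
      have h4 := mul_le_mul_of_nonneg_right h1 (pow_nonneg hqpos.le 6)
      have i1 : (a0 * q) * q ^ 5 ≤ A0 * 1 := mul_le_mul b0 (hqk 5) (by positivity) hA00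
      have i2 : (a1 * q ^ 5) * q ≤ A1 * 1 := mul_le_mul b1 hqq0 (by positivity) hA10
      have i3 : (w0 * q) * M * q ^ 5 ≤ A0 * M * 1 :=
        mul_le_mul (mul_le_mul_of_nonneg_right bw hM0) (hqk 5) (by positivity) (by positivity)
      have i4 : (w0 * q) * (M * (a0 * q)) * q ^ 4 ≤ A0 * (M * A0) * 1 :=
        mul_le_mul (mul_le_mul bw (mul_le_mul_of_nonneg_left b0 hM0) (by positivity) hA00)
          (hqk 4) (by positivity) (by positivity)
      have i5 : (w0 * q) * (M * (a1 * q ^ 5)) ≤ A0 * (M * A1) :=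
        mul_le_mul bw (mul_le_mul_of_nonneg_left b1 hM0) (by positivity) hA00
      have i1' := mul_le_mul_of_nonneg_left i1 hM0
      have i2' := mul_le_mul_of_nonneg_left i2 hM0
      refine h4.trans ?_
      rw [hD2]
      have h5 : (M * a0 + 2 * (M * a1) + w0 * M + (w0 * (M * a0) + 2 * (w0 * (M * a1)))) * q ^ 6 =
          M * ((a0 * q) * q ^ 5) + 2 * (M * ((a1 * q ^ 5) * q)) + (w0 * q) * M * q ^ 5 +
          (w0 * q) * (M * (a0 * q)) * q ^ 4 + 2 * ((w0 * q) * (M * (a1 * q ^ 5))) := by ring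
      rw [h5]
      linarith
    rw [hq2]
    have h5 : δ * q ^ 2 = q ^ 6 := by rw [hq4]; ring
    rw [h5]
    linarith
  · -- third derivative
    have h1 : ‖sgf 3 (close C0 t b) z‖ ≤ M * a0 + 3 * (M * a1) + 3 * (M * a2) + w0 * M +
        (w0 * (M * a0) + 3 * (w0 * (M * a1)) + 3 * (w0 * (M * a2))) := by
      rw [e3]
      refine (norm_add_le _ _).trans (add_le_add ((norm_add_le _ _).trans (add_le_add
        ((norm_add_le _ _).trans (add_le_add ((norm_add_le _ _).trans (add_le_add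
          (P1 3 _ (by norm_num)) ?_)) ?_)) (P2 3 (by norm_num))))
        ((norm_add_le _ _).trans (add_le_add ((norm_add_le _ _).trans (add_le_add
          (P3 3 _ (by norm_num)) ?_)) ?_)))
      · rw [norm_mul, n3]
        exact mul_le_mul_of_nonneg_left (P1 2 _ (by norm_num)) (by norm_num)
      · rw [norm_mul, n3]
        exact mul_le_mul_of_nonneg_left (P1 1 _ (by norm_num)) (by norm_num)
      · rw [norm_mul, n3]
        exact mul_le_mul_of_nonneg_left (P3 2 _ (by norm_num)) (by norm_num)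
      · rw [norm_mul, n3]
        exact mul_le_mul_of_nonneg_left (P3 1 _ (by norm_num)) (by norm_num)
    have h3 : ‖sgf 3 (close C0 t b) z‖ * q ^ 10 ≤ D3 := by
      have h4 := mul_le_mul_of_nonneg_right h1 (pow_nonneg hqpos.le 10)
      have i1 : (a0 * q) * q ^ 9 ≤ A0 * 1 := mul_le_mul b0 (hqk 9) (by positivity) hA00
      have i2 : (a1 * q ^ 5) * q ^ 5 ≤ A1 * 1 := mul_le_mul b1 (hqk 5) (by positivity) hA10
      have i2b : (a2 * q ^ 9) * q ≤ A2 * 1 := mul_le_mul b2 hqq0 (by positivity) hA20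
      have i3 : (w0 * q) * M * q ^ 9 ≤ A0 * M * 1 :=
        mul_le_mul (mul_le_mul_of_nonneg_right bw hM0) (hqk 9) (by positivity) (by positivity)
      have i4 : (w0 * q) * (M * (a0 * q)) * q ^ 8 ≤ A0 * (M * A0) * 1 :=
        mul_le_mul (mul_le_mul bw (mul_le_mul_of_nonneg_left b0 hM0) (by positivity) hA00)
          (hqk 8) (by positivity) (by positivity)
      have i5 : (w0 * q) * (M * (a1 * q ^ 5)) * q ^ 4 ≤ A0 * (M * A1) * 1 :=
        mul_le_mul (mul_le_mul bw (mul_le_mul_of_nonneg_left b1 hM0) (by positivity) hA00)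
          (hqk 4) (by positivity) (by positivity)
      have i6 : (w0 * q) * (M * (a2 * q ^ 9)) ≤ A0 * (M * A2) :=
        mul_le_mul bw (mul_le_mul_of_nonneg_left b2 hM0) (by positivity) hA00
      have i1' := mul_le_mul_of_nonneg_left i1 hM0
      have i2' := mul_le_mul_of_nonneg_left i2 hM0
      have i2b' := mul_le_mul_of_nonneg_left i2b hM0
      refine h4.trans ?_
      rw [hD3]
      have h5 : (M * a0 + 3 * (M * a1) + 3 * (M * a2) + w0 * M +
          (w0 * (M * a0) + 3 * (w0 * (M * a1)) + 3 * (w0 * (M * a2)))) * q ^ 10 =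
          M * ((a0 * q) * q ^ 9) + 3 * (M * ((a1 * q ^ 5) * q ^ 5)) +
          3 * (M * ((a2 * q ^ 9) * q)) + (w0 * q) * M * q ^ 9 +
          (w0 * q) * (M * (a0 * q)) * q ^ 8 + 3 * ((w0 * q) * (M * (a1 * q ^ 5)) * q ^ 4) +
          3 * ((w0 * q) * (M * (a2 * q ^ 9))) := by ring
      rw [h5]
      linarith
    rw [hq2]
    have h5 : δ ^ 2 * q ^ 2 = q ^ 10 := by rw [hq4]; ring
    rw [h5]
    linarith

end Pool.Agent.TPK.GJ2
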