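import Pool.Agent.TPK.EA
import Pool.Agent.Lib_helper89.FL.StmtsGU

/-!
# Two points (MP_f6626d_co): statements of the modules of part GU

The gap analysis of `Lib_helper79/Gap` with constants which are uniform over a class of kernels
whose pieces have exponential tails. Each statement is the old one with the range `R` replaced by
ranges depending on the half length of the piece; constants depend on `(C, θ)` only.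
-/

set_option autoImplicit false

open Finset Filter Topology

namespace Pool.Agent.TPK

open Pool.Agent.Gap
open Pool.Agent.FL (lw CritSrc lamS)

/-- GC2 (old C2): only locality is used. -/
def GC2_Stmt : Prop := ∃ C : ℝ, 0 < C ∧ ∀ G : GapKernel, Loc G →
  ∀ (N : ℕ) (eps : ℝ) (i : ℕ × ℕ) (f h : ℤ → ℂ), i ∈ G.S → 0 ≤ eps → Supp N f → Supp N h →
    ‖(G.tot i : ℂ) * ∑ g ∈ Icc (1 : ℤ) N, f g * h g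
      - ∑ g ∈ Icc (1 : ℤ) N, ∑ g' ∈ Icc (1 : ℤ) N,
          ((G.K i g g' * GapKernel.wt eps i g g' : ℝ) : ℂ) * f g * h g'‖
      ≤ C * (i.1 : ℝ) ^ 3 * G.tot i *
        (Real.sqrt (En N f + Pot eps N f) * Real.sqrt (En N h + Pot eps N h))

/-- GC (old C), from GC2. -/
def GC_Stmt : Prop := ∀ C θ : ℝ, 0 < C → 0 < θ → θ < 1 → ∃ c : ℝ, 0 < c ∧
  ∀ G : GapKernel, Cls C θ G →
  ∀ (N : ℕ) (eps : ℝ) (z : ℂ) (f : ℤ → ℂ), 0 ≤ eps → ‖z‖ ≤ G.rho → Supp N f →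
    c * (‖(G.rho : ℂ) - z‖ * nsq N f + En N f + Pot eps N f)
      ≤ ‖form N f (G.Lop eps z N f)‖

/-- GRE (old RE), from GC. -/
def GRE_Stmt : Prop := ∀ C θ : ℝ, 0 < C → 0 < θ → θ < 1 → ∃ C1 : ℝ, 0 < C1 ∧
  ∀ G : GapKernel, Cls C θ G →
  ∀ (N : ℕ) (eps : ℝ) (z : ℂ), 0 ≤ eps → ‖z‖ ≤ G.rho →
    (∀ e : ℤ → ℂ, ∃ v : ℤ → ℂ, G.Solves eps z N v e) ∧
    (∀ v v' e : ℤ → ℂ, G.Solves eps z N v e → G.Solves eps z N v' e → v = v') ∧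
    (∀ v e : ℤ → ℂ, G.Solves eps z N v e →
      ‖(G.rho : ℂ) - z‖ * Real.sqrt (nsq N v) ≤ C1 * Real.sqrt (nsq N e) ∧
      En N v + Pot eps N v ≤ C1 * (Real.sqrt (nsq N v) * Real.sqrt (nsq N e)))

/-- GSUP (old SUP), from GC, GRE: arbitrary sources, weight `g`. -/
def GSUP_Stmt : Prop := ∀ C θ : ℝ, 0 < C → 0 < θ → θ < 1 → ∃ C1 : ℝ, 0 < C1 ∧
  ∀ G : GapKernel, Cls C θ G →
  ∀ (N : ℕ) (eps : ℝ) (z : ℂ) (v e : ℤ → ℂ), 0 ≤ eps → ‖z‖ ≤ G.rho →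
    G.Solves eps z N v e →
    (∀ g, ‖v g‖ ≤ C1 * lw 1 N e) ∧ En N v + Pot eps N v ≤ C1 * (lw 1 N e) ^ 2

/-- GW (old W), from GC, GSUP: arbitrary sources, weight `g ^ 4`. -/
def GW_Stmt : Prop := ∀ C θ : ℝ, 0 < C → 0 < θ → θ < 1 → ∃ C1 : ℝ, 0 < C1 ∧
  ∀ G : GapKernel, Cls C θ G →
  ∀ (N : ℕ) (eps : ℝ) (z : ℂ) (v e : ℤ → ℂ), 0 ≤ eps → ‖z‖ ≤ G.rho → z ≠ (G.rho : ℂ) →
    G.Solves eps z N v e →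
    (∀ k : ℕ, k ≤ 2 → nsq N (mulg k v)
        ≤ C1 * (lw 4 N e) ^ 2 / (Real.sqrt ‖(G.rho : ℂ) - z‖ * ‖(G.rho : ℂ) - z‖ ^ k)) ∧
    (∀ k : ℕ, 1 ≤ k → k ≤ 2 → En N (mulg k v) + Pot eps N (mulg k v)
        ≤ C1 * (lw 4 N e) ^ 2 * Real.sqrt ‖(G.rho : ℂ) - z‖ / ‖(G.rho : ℂ) - z‖ ^ k)

/-- a critical solution with all its uniform bounds -/
structure CritSol (C : ℝ) (G : GapKernel) (s v : ℤ → ℝ) : Prop where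
  zero : ∀ g ≤ 0, v g = 0
  low : ∀ g : ℤ, 1 ≤ g → C⁻¹ ≤ v g
  up : ∀ g, v g ≤ C
  energy : ∀ N : ℕ, ∑ g ∈ Icc (0 : ℤ) N, (v (g + 1) - v g) ^ 2 ≤ C
  eq : ∀ g : ℤ, 1 ≤ g → v g = s g + ∑ g' ∈ Icc (g - G.R) (g + G.R), G.Kc g g' * v g'

/-- GV (old VEX + positivity), from GRE, GSUP. -/
def GV_Stmt : Prop := ∀ C θ : ℝ, 0 < C → 0 < θ → θ < 1 → ∃ C1 : ℝ, 0 < C1 ∧
  ∀ G : GapKernel, Cls C θ G → ∀ (R' : ℕ) (s : ℤ → ℝ), CritSrc C θ R' s →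
    ∃ v : ℤ → ℝ, CritSol C1 G s v

/-- GVL (old VLIM with an explicit rate). -/
def GVL_Stmt : Prop := ∀ C θ : ℝ, 0 < C → 0 < θ → θ < 1 → ∃ C1 : ℝ, 0 < C1 ∧
  ∀ G : GapKernel, Cls C θ G → ∀ (R' : ℕ) (s v : ℤ → ℝ), CritSrc C θ R' s → CritSol C G s v →
    ∃ A : ℝ, C⁻¹ ≤ A ∧ A ≤ C ∧ ∀ N : ℕ, ∑ g ∈ Icc (1 : ℤ) N, (g : ℝ) ^ 2 * (v g - A) ^ 2 ≤ C1

/-- GEB (old EB): residual of the staircase solution, bulk part `rb` and wall part `rl`. -/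
def GEB_Stmt : Prop := ∀ C θ : ℝ, 0 < C → 0 < θ → θ < 1 → ∃ C1 θ1 : ℝ, 0 < C1 ∧ 0 < θ1 ∧ θ1 < 1 ∧
  ∀ G : GapKernel, Cls C θ G →
  ∀ (N : ℕ) (eps eps' η : ℝ) (z z' : ℂ) (v : ℤ → ℂ), 0 ≤ eps → eps ≤ 1 → 0 ≤ eps' → eps' ≤ 1 →
    ‖z‖ ≤ G.rho → ‖z'‖ ≤ 1 / 4 → ‖(1 / 4 : ℂ) - z'‖ ≤ 1 / 8 → 0 ≤ η →
    stair.Solves eps' z' N v (src1 z') → (∀ g ∈ Icc (1 : ℤ) N, ‖v g - 1‖ ≤ η * g) →
    ∃ rb rl : ℤ → ℂ, (∀ g ∈ Icc (1 : ℤ) N, G.Lop eps z N v g = (G.kap g : ℂ) + rb g + rl g) ∧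
      Real.sqrt (nsq N rb)
        ≤ ‖2 * (G.sig2 : ℂ) * (1 - 4 * z') - (G.mbar : ℂ) * (1 - z / (G.rho : ℂ))‖
              * Real.sqrt (nsq N v)
          + 2 * |2 * G.sig2 * eps' - G.hbar * eps| * Real.sqrt (nsq N (mulg 1 v))
          + C1 * ((‖(G.rho : ℂ) - z‖ + ‖(1 / 4 : ℂ) - z'‖) * Real.sqrt (En N v)
              + (eps + eps') * (Real.sqrt (En N (mulg 1 v)) + Real.sqrt (nsq N v))
              + (‖(G.rho : ℂ) - z‖ + ‖(1 / 4 : ℂ) - z'‖) ^ 2 * Real.sqrt (nsq N v)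
              + (eps + eps') ^ 2 * Real.sqrt (nsq N (mulg 2 v)) + ‖v N‖) ∧
      ∀ g ∈ Icc (1 : ℤ) N, ‖rl g‖ ≤ C1 * θ1 ^ g.toNat *
        (η + ‖(G.rho : ℂ) - z‖ + ‖(1 / 4 : ℂ) - z'‖ + eps + eps' + (N : ℝ)⁻¹)

/-- GJ2 (old J2), from GC2, GC, GRE, GSUP, GW and the old J1. -/
def GJ2_Stmt : Prop := ∀ C θ : ℝ, 0 < C → 0 < θ → θ < 1 → ∃ C1 : ℝ, 0 < C1 ∧
  ∀ G : GapKernel, Cls C θ G → ∀ (C0 : ℕ) (s t : ℕ → ℤ → ℝ), ClsCap C θ G C0 s →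
    ClsCap C θ G C0 t → ∀ (N : ℕ) (eps : ℝ), 0 ≤ eps → C0 ≤ N →
    ∀ b b', IsArr G s eps N b → IsArr G t eps N b' → ∀ z : ℂ, ‖z‖ < G.rho →
    (∀ j, Summable fun n : ℕ => ‖((n : ℂ)) ^ j * ((close C0 t b n : ℝ) : ℂ) * z ^ n‖) ∧
    ‖sgf 1 (close C0 t b) z - (G.mbar : ℂ) * ∑ g ∈ Icc (1 : ℤ) N, gf 0 b z g * gf 0 b' z g‖
      ≤ C1 ∧
    ‖sgf 2 (close C0 t b) z‖ * (‖(G.rho : ℂ) - z‖ * Real.sqrt ‖(G.rho : ℂ) - z‖) ≤ C1 ∧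
    ‖sgf 3 (close C0 t b) z‖ * (‖(G.rho : ℂ) - z‖ ^ 2 * Real.sqrt ‖(G.rho : ℂ) - z‖) ≤ C1

/-- GM2 (old M2), from GC2, GRE, GSUP, GW and the old J1, B1. -/
def GM2_Stmt : Prop := ∀ C θ : ℝ, 0 < C → 0 < θ → θ < 1 → ∃ C1 : ℝ, 0 < C1 ∧
  ∀ G : GapKernel, Cls C θ G → ∀ (C0 : ℕ) (s t : ℕ → ℤ → ℝ), ClsCap C θ G C0 s →
    ClsCap C θ G C0 t → ∀ B, IsSol G s B → ∀ n : ℕ,
    G.rho ^ n * ((closeP C0 t B n).derivative.derivative.eval 1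
      + (closeP C0 t B n).derivative.eval 1) ≤ C1 * ((n : ℝ) * Real.sqrt n)

/-- a sequence of kernels of the class whose three parameters converge -/
structure KSeq (C θ : ℝ) (G : ℕ → GapKernel) (mb hb sg : ℝ) : Prop where
  cls : ∀ n, Cls C θ (G n)
  lim_m : Tendsto (fun n => (G n).mbar) atTop (𝓝 mb)
  lim_h : Tendsto (fun n => (G n).hbar) atTop (𝓝 hb)
  lim_s : Tendsto (fun n => (G n).sig2) atTop (𝓝 sg)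

/-- GE (old E) for sequences of kernels, from GRE, GSUP, GW, GV, GVL, GEB and the old ST1. -/
def GE_Stmt : Prop := ∀ C θ : ℝ, 0 < C → 0 < θ → θ < 1 → ∃ C1 : ℝ, 0 < C1 ∧
  ∀ (G : ℕ → GapKernel) (mb hb sg : ℝ) (C0 : ℕ → ℕ) (s : ℕ → ℕ → ℤ → ℝ), KSeq C θ G mb hb sg →
    (∀ n, ClsCap C θ (G n) (C0 n) (s n)) →
  ∃ A : ℕ → ℝ, (∀ n, C1⁻¹ ≤ A n ∧ A n ≤ C1) ∧ ∀ (n0 N : ℕ → ℕ),
    Tendsto (fun n : ℕ => (n0 n : ℝ) / n) atTop (𝓝 (2 * sg / mb)) →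
    (∀ n : ℕ, 4 * n ^ 2 + 4 * (n0 n) ^ 2 ≤ N n) →
    ∀ (lam : ℝ) (w : ℂ), 0 ≤ lam → 0 < w.re →
    ∀ (v v0 : ℕ → ℤ → ℂ),
      (∀ n, 1 ≤ n → 1 ≤ n0 n →
        (G n).Solves (epsn lam n) (zn (G n).rho w n) (N n) (v n)
          (capz (C0 n) (s n) 0 (zn (G n).rho w n)) ∧
        stair.Solves (epsn (lamS mb hb sg lam) (n0 n)) (zn (1 / 4) w (n0 n)) (N n) (v0 n)
          (src1 (zn (1 / 4) w (n0 n)))) →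
      Tendsto (fun n : ℕ => nsq (N n) (fun g => v n g - (A n : ℂ) * v0 n g) / Real.sqrt n)
        atTop (𝓝 0)

/-- GLT (old LT) for sequences of kernels, from GE, GJ2 and the old J1, J2, X, B1. -/
def GLT_Stmt : Prop := ∀ C θ : ℝ, 0 < C → 0 < θ → θ < 1 → ∃ C1 : ℝ, 0 < C1 ∧
  ∀ (G : ℕ → GapKernel) (mb hb sg : ℝ) (C0 : ℕ → ℕ) (s t : ℕ → ℕ → ℤ → ℝ)
    (B : ℕ → ℕ → ℤ → Polynomial ℝ), KSeq C θ G mb hb sg →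
    (∀ n, ClsCap C θ (G n) (C0 n) (s n)) → (∀ n, ClsCap C θ (G n) (C0 n) (t n)) →
    (∀ n, IsSol (G n) (s n) (B n)) → ∀ B0, Gap.IsSol stair cap1 B0 →
  ∃ cr : ℕ → ℝ, (∀ n, C1⁻¹ ≤ cr n ∧ cr n ≤ C1) ∧ ∀ (n0 : ℕ → ℕ),
    Tendsto (fun n : ℕ => (n0 n : ℝ) / n) atTop (𝓝 (2 * sg / mb)) →
    ∀ lam : ℝ, 0 ≤ lam →
      Tendsto (fun n : ℕ => ((n : ℝ) * Real.sqrt n) * (G n).rho ^ n
          * (closeP (C0 n) (t n) (B n) n).eval (Real.exp (-(epsn lam n)))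
        - cr n * (((n0 n : ℝ) * Real.sqrt (n0 n)) * (1 / 4 : ℝ) ^ (n0 n)
          * (closeP 1 cap1 B0 (n0 n)).eval (Real.exp (-(epsn (lamS mb hb sg lam) (n0 n))))))
        atTop (𝓝 0)

end Pool.Agent.TPK
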