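import Mathlib
import Pool.Agent.TPK.Stmts0

set_option autoImplicit false

open Finset Filter Topology

namespace Pool.Agent.TPK

open Pool.Agent.Gap

open GapKernel

section RE

variable (G : GapKernel)

theorem nsq_nonneg' (N : ℕ) (f : ℤ → ℂ) : 0 ≤ nsq N f :=
  Finset.sum_nonneg fun _ _ => by positivity

theorem En_nonneg' (N : ℕ) (f : ℤ → ℂ) : 0 ≤ En N f :=
  Finset.sum_nonneg fun _ _ => by positivity

theorem Pot_nonneg' {eps : ℝ} (he : 0 ≤ eps) (N : ℕ) (f : ℤ → ℂ) : 0 ≤ Pot eps N f := by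
  refine Finset.sum_nonneg fun g hg => ?_
  rw [Finset.mem_Icc] at hg
  have hg0 : (0 : ℝ) ≤ (g : ℝ) := by exact_mod_cast (by omega : (0 : ℤ) ≤ g)
  have : Real.exp (-(eps * (g : ℝ))) ≤ 1 := by
    rw [Real.exp_le_one_iff]
    have := mul_nonneg he hg0
    linarith
  have h2 : 0 ≤ 1 - Real.exp (-(eps * (g : ℝ))) := by linarith
  positivity

theorem Lop_sub (eps : ℝ) (z : ℂ) (N : ℕ) (f h : ℤ → ℂ) (g : ℤ) :
    G.Lop eps z N (f - h) g = G.Lop eps z N f g - G.Lop eps z N h g := by
  unfold GapKernel.Lop GapKernel.Kap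
  simp only [Pi.sub_apply, mul_sub, Finset.sum_sub_distrib]
  ring

theorem Lop_add (eps : ℝ) (z : ℂ) (N : ℕ) (f h : ℤ → ℂ) (g : ℤ) :
    G.Lop eps z N (f + h) g = G.Lop eps z N f g + G.Lop eps z N h g := by
  unfold GapKernel.Lop GapKernel.Kap
  simp only [Pi.add_apply, mul_add, Finset.sum_add_distrib]
  ring

theorem Lop_smul (eps : ℝ) (z : ℂ) (N : ℕ) (c : ℂ) (f : ℤ → ℂ) (g : ℤ) :
    G.Lop eps z N (c • f) g = c * G.Lop eps z N f g := by
  unfold GapKernel.Lop GapKernel.Kap
  simp only [Pi.smul_apply, smul_eq_mul, mul_sub, Finset.mul_sum]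
  congr 1
  refine Finset.sum_congr rfl fun g' _ => ?_
  ring

theorem form_le (N : ℕ) (f h : ℤ → ℂ) :
    ‖form N f h‖ ≤ Real.sqrt (nsq N f) * Real.sqrt (nsq N h) := by
  unfold form
  refine (norm_sum_le _ _).trans ?_
  have h1 : ∑ g ∈ Icc (1 : ℤ) N, ‖(starRingEnd ℂ) (f g) * h g‖
      = ∑ g ∈ Icc (1 : ℤ) N, ‖f g‖ * ‖h g‖ := by
    refine Finset.sum_congr rfl fun g _ => ?_
    rw [norm_mul, RCLike.norm_conj]
  rw [h1]
  have := Real.sum_mul_le_sqrt_mul_sqrt (Icc (1 : ℤ) N) (fun g => ‖f g‖) (fun g => ‖h g‖)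
  simpa [nsq] using this

theorem zero_of_En {N : ℕ} {f : ℤ → ℂ} (hs : Supp N f) (h : En N f ≤ 0) : f = 0 := by
  have h0 : En N f = 0 := le_antisymm h (En_nonneg' N f)
  unfold En at h0
  rw [Finset.sum_eq_zero_iff_of_nonneg (fun _ _ => by positivity)] at h0
  have key : ∀ n : ℕ, n ≤ N + 1 → f n = 0 := by
    intro n
    induction n with
    | zero => intro _; exact hs _ (Or.inl (by simp))
    | succ n ih =>
      intro hn
      have h1 := h0 (n : ℤ) (by rw [Finset.mem_Icc]; constructor <;> omega)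
      have h2 : ‖f ((n : ℤ) + 1) - f n‖ = 0 := by
        rcases pow_eq_zero_iff (two_ne_zero) |>.mp h1 with h2
        exact h2
      rw [norm_eq_zero, ih (by omega), sub_zero] at h2
      push_cast
      exact h2
  funext g
  by_cases hg : g < 1 ∨ (N : ℤ) < g
  · exact hs g hg
  · push Not at hg
    obtain ⟨m, rfl⟩ := Int.eq_ofNat_of_zero_le (by omega : (0 : ℤ) ≤ g)
    exact key m (by omega)

/-- extension by zero -/
noncomputable def ext0 (N : ℕ) (x : ↥(Icc (1 : ℤ) N) → ℂ) (g : ℤ) : ℂ :=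
  if h : g ∈ Icc (1 : ℤ) N then x ⟨g, h⟩ else 0

theorem ext0_supp (N : ℕ) (x : ↥(Icc (1 : ℤ) N) → ℂ) : Supp N (ext0 N x) := by
  intro g hg
  unfold ext0
  rw [dif_neg]
  rw [Finset.mem_Icc]
  omega

theorem ext0_add (N : ℕ) (x y : ↥(Icc (1 : ℤ) N) → ℂ) :
    ext0 N (x + y) = ext0 N x + ext0 N y := by
  funext g
  unfold ext0
  by_cases h : g ∈ Icc (1 : ℤ) N
  · simp only [dif_pos h, Pi.add_apply]
  · simp only [dif_neg h, Pi.add_apply, add_zero]

theorem ext0_smul (N : ℕ) (c : ℂ) (x : ↥(Icc (1 : ℤ) N) → ℂ) :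
    ext0 N (c • x) = c • ext0 N x := by
  funext g
  unfold ext0
  by_cases h : g ∈ Icc (1 : ℤ) N
  · simp only [dif_pos h, Pi.smul_apply]
  · simp only [dif_neg h, Pi.smul_apply, smul_zero]

/-- the operator on the finite dimensional space -/
noncomputable def Llin (eps : ℝ) (z : ℂ) (N : ℕ) :
    (↥(Icc (1 : ℤ) N) → ℂ) →ₗ[ℂ] (↥(Icc (1 : ℤ) N) → ℂ) where
  toFun x := fun g => G.Lop eps z N (ext0 N x) g.1
  map_add' x y := by
    funext g
    simp only [ext0_add, Lop_add, Pi.add_apply]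
  map_smul' c x := by
    funext g
    simp only [ext0_smul, Lop_smul, Pi.smul_apply, RingHom.id_apply, smul_eq_mul]

theorem RE (hC : C_Stmt) : RE_Stmt := by
  intro G
  obtain ⟨c, hc, H⟩ := hC G
  have main : ∀ (N : ℕ) (eps : ℝ) (z : ℂ), 0 ≤ eps → ‖z‖ ≤ G.rho → ∀ v e : ℤ → ℂ,
      G.Solves eps z N v e → c * (‖(G.rho : ℂ) - z‖ * nsq N v + En N v + Pot eps N v)
        ≤ Real.sqrt (nsq N v) * Real.sqrt (nsq N e) := by
    intro N eps z he hz v e hv
    refine (H N eps z v he hz hv.1).trans ?_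
    have : form N v (G.Lop eps z N v) = form N v e := by
      unfold form
      refine Finset.sum_congr rfl fun g hg => ?_
      rw [hv.2 g hg]
    rw [this]
    exact form_le N v e
  have uniq : ∀ (N : ℕ) (eps : ℝ) (z : ℂ), 0 ≤ eps → ‖z‖ ≤ G.rho → ∀ v : ℤ → ℂ,
      G.Solves eps z N v 0 → v = 0 := by
    intro N eps z he hz v hv
    have h1 := main N eps z he hz v 0 hv
    have h2 : nsq N (0 : ℤ → ℂ) = 0 := by simp [nsq]
    rw [h2, Real.sqrt_zero, mul_zero] at h1
    have h3 := nsq_nonneg' N v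
    have h4 := Pot_nonneg' he N v
    have h5 : 0 ≤ ‖(G.rho : ℂ) - z‖ * nsq N v := by positivity
    refine zero_of_En hv.1 ?_
    by_contra hcon
    push Not at hcon
    have : 0 < c * (‖(G.rho : ℂ) - z‖ * nsq N v + En N v + Pot eps N v) := by
      apply mul_pos hc; linarith
    linarith
  refine ⟨1 / c, by positivity, ?_⟩
  intro N eps z he hz
  refine ⟨?_, ?_, ?_⟩
  · -- existence
    intro e
    have hinj : Function.Injective (Llin G eps z N) := by
      rw [injective_iff_map_eq_zero]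
      intro x hx
      have hs : G.Solves eps z N (ext0 N x) 0 := by
        refine ⟨ext0_supp N x, fun g hg => ?_⟩
        have := congrFun hx ⟨g, hg⟩
        simpa [Llin] using this
      have h0 := uniq N eps z he hz _ hs
      funext g
      have := congrFun h0 g.1
      unfold ext0 at this
      rw [dif_pos g.2] at this
      simpa using this
    have hsurj : Function.Surjective (Llin G eps z N) :=
      LinearMap.injective_iff_surjective.mp hinj
    obtain ⟨x, hx⟩ := hsurj (fun g => e g.1)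
    refine ⟨ext0 N x, ext0_supp N x, fun g hg => ?_⟩
    exact congrFun hx ⟨g, hg⟩
  · intro v v' e hv hv'
    have : G.Solves eps z N (v - v') 0 := by
      refine ⟨fun g hg => ?_, fun g hg => ?_⟩
      · simp [hv.1 g hg, hv'.1 g hg]
      · rw [Lop_sub, hv.2 g hg, hv'.2 g hg]; simp
    exact sub_eq_zero.mp (uniq N eps z he hz _ this)
  · intro v e hv
    have h1 := main N eps z he hz v e hv
    have h2 := En_nonneg' N v
    have h3 := Pot_nonneg' he N v
    have h4 := nsq_nonneg' N v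
    have hd : 0 ≤ ‖(G.rho : ℂ) - z‖ := norm_nonneg _
    constructor
    · by_cases hz0 : nsq N v = 0
      · rw [hz0, Real.sqrt_zero, mul_zero]
        positivity
      · have hpos : 0 < Real.sqrt (nsq N v) :=
          Real.sqrt_pos.mpr (lt_of_le_of_ne h4 (Ne.symm hz0))
        have h5 : c * (‖(G.rho : ℂ) - z‖ * nsq N v)
            ≤ Real.sqrt (nsq N v) * Real.sqrt (nsq N e) := by
          refine le_trans ?_ h1
          apply mul_le_mul_of_nonneg_left _ hc.le
          linarith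
        have h6 : nsq N v = Real.sqrt (nsq N v) * Real.sqrt (nsq N v) :=
          (Real.mul_self_sqrt h4).symm
        have h7 : Real.sqrt (nsq N v) * (c * (‖(G.rho : ℂ) - z‖ * Real.sqrt (nsq N v)))
            ≤ Real.sqrt (nsq N v) * Real.sqrt (nsq N e) := by
          calc Real.sqrt (nsq N v) * (c * (‖(G.rho : ℂ) - z‖ * Real.sqrt (nsq N v)))
              = c * (‖(G.rho : ℂ) - z‖ * (Real.sqrt (nsq N v) * Real.sqrt (nsq N v))) := by ring
            _ = c * (‖(G.rho : ℂ) - z‖ * nsq N v) := by rw [← h6]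
            _ ≤ _ := h5
        have h8 := le_of_mul_le_mul_left h7 hpos
        rw [one_div, ← div_eq_inv_mul, le_div_iff₀ hc]
        linarith
    · have h5 : c * (En N v + Pot eps N v) ≤ Real.sqrt (nsq N v) * Real.sqrt (nsq N e) := by
        refine le_trans ?_ h1
        apply mul_le_mul_of_nonneg_left _ hc.le
        have : 0 ≤ ‖(G.rho : ℂ) - z‖ * nsq N v := by positivity
        linarith
      rw [one_div, ← div_eq_inv_mul, le_div_iff₀ hc]
      linarith

end RE

end Pool.Agent.TPK
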