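import Mathlib
import Pool.Agent.TPK.StmtsA
import Pool.Agent.TPK.GE
import Pool.Agent.TPK.GFIN

/-!
# Module QKEY: the laws of `T / E[T]` for a sequence of models with slowly growing parameters
-/

set_option autoImplicit false

open Finset Filter Topology MeasureTheory BoundedContinuousFunction
open scoped NNReal ENNReal

namespace Pool.Agent.TPK

open Pool.Agent.Gap Pool.Agent.FL Pool.Agent.TPK.GFIN Pool.Agent.EXW

variable {D : ℕ → ℝ}

/-! ### one value of `n` -/

theorem qkey_sum_pow (M : QModel D) (n : ℕ) (hn : M.n1 ≤ n) (y : ℝ) :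
    ∑ x ∈ M.good n, M.wt n x * y ^ (M.A n x) = M.c n * (M.P n).eval y := by
  have h := congrArg (Polynomial.eval y) (M.count n hn)
  rw [Polynomial.eval_finsetSum, Polynomial.eval_mul, Polynomial.eval_C] at h
  simpa [QModel.P] using h

theorem qkey_sum_good (M : QModel D) (n : ℕ) (hn : M.n1 ≤ n) :
    ∑ x ∈ M.good n, M.wt n x = M.c n * (M.P n).eval 1 := by
  have := qkey_sum_pow M n hn 1
  simpa using this

theorem qkey_sum_A (M : QModel D) (n : ℕ) (hn : M.n1 ≤ n) :
    ∑ x ∈ M.good n, M.wt n x * (M.A n x : ℝ) = M.c n * (M.P n).derivative.eval 1 := by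
  have h := congrArg (fun p : Polynomial ℝ => (Polynomial.derivative p).eval 1) (M.count n hn)
  simp only [Polynomial.derivative_sum, Polynomial.derivative_mul, Polynomial.derivative_C,
    zero_mul, zero_add, Polynomial.eval_finsetSum, Polynomial.eval_mul, Polynomial.eval_C,
    Polynomial.derivative_X_pow, Polynomial.eval_pow, Polynomial.eval_X, one_pow, mul_one] at h
  simpa [QModel.P] using h

/-- weighted sum of `T` -/
noncomputable def qkey_ST (M : QModel D) (n : ℕ) : ℝ := ∑ y : M.Omega n, M.wt n y * M.T n y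

/-- total weight of the good part -/
noncomputable def qkey_Wg (M : QModel D) (n : ℕ) : ℝ := ∑ y ∈ M.good n, M.wt n y

theorem qkey_fixed (M : QModel D) {c : ℝ} (hc : 0 < c) (n : ℕ) (hn : M.n1 ≤ n) (hn1 : 1 ≤ n)
    (hlow : c ≤ ((n : ℝ) * Real.sqrt n) * (M.G n).rho ^ n * (M.P n).eval 1) :
    0 < qkey_Wg M n ∧ qkey_Wg M n = M.c n * (M.P n).eval 1 ∧
    ∑ x ∈ M.good n, M.wt n x * |M.T n x - M.A n x| ≤
      |M.κ n| * (1 + 1 / c) * ((n : ℝ) * Real.sqrt n) * qkey_Wg M n ∧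
    0 ≤ M.W n - qkey_Wg M n ∧ M.W n - qkey_Wg M n ≤ |M.κ n| * (1 + 1 / c) * qkey_Wg M n ∧
    ∑ x ∈ M.good n, M.wt n x * (M.A n x : ℝ) =
      qkey_Wg M n * (mn (M.P) n * ((n : ℝ) * Real.sqrt n)) ∧
    |qkey_ST M n / (qkey_Wg M n * ((n : ℝ) * Real.sqrt n)) - mn (M.P) n| ≤
      2 * (|M.κ n| * (1 + 1 / c)) := by
  classical
  have hn0 : (1 : ℝ) ≤ n := by exact_mod_cast hn1
  have hs : 1 ≤ Real.sqrt n := by
    rw [← Real.sqrt_one]
    exact Real.sqrt_le_sqrt hn0
  obtain ⟨r, hr⟩ : ∃ r, r = (n : ℝ) * Real.sqrt n := ⟨_, rfl⟩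
  have hr1 : 1 ≤ r := by rw [hr]; nlinarith
  have hr0 : 0 < r := by linarith
  obtain ⟨p, hp⟩ : ∃ p, p = (M.G n).rho ^ n := ⟨_, rfl⟩
  have hp0 : 0 < p := by rw [hp]; exact pow_pos (M.G n).rho_pos n
  have hM := M.c_pos n
  rw [← hr, ← hp] at hlow
  have hP : 0 < (M.P n).eval 1 := by
    by_contra hcon
    have : r * p * (M.P n).eval 1 ≤ 0 :=
      mul_nonpos_of_nonneg_of_nonpos (by positivity) (not_lt.1 hcon)
    linarith
  have hWg : qkey_Wg M n = M.c n * (M.P n).eval 1 := qkey_sum_good M n hn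
  have hWg0 : 0 < qkey_Wg M n := by rw [hWg]; positivity
  have hδ : M.c n / (r * p) ≤ 1 / c * qkey_Wg M n := by
    rw [hWg, div_le_iff₀ (by positivity)]
    have h1 : M.c n * c ≤ M.c n * (r * p * (M.P n).eval 1) :=
      mul_le_mul_of_nonneg_left hlow hM.le
    have h2 : 1 / c * (M.c n * (M.P n).eval 1) * (r * p) =
      M.c n * (r * p * (M.P n).eval 1) / c := by field_simp
    rw [h2, le_div_iff₀ hc]
    exact h1
  have hδ0 : 0 ≤ M.c n / (r * p) := by positivity
  have hκ := le_abs_self (M.κ n)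
  have hκ0 := abs_nonneg (M.κ n)
  have hnear : ∑ x ∈ M.good n, M.wt n x * |M.T n x - M.A n x| ≤
      |M.κ n| * (1 + 1 / c) * r * qkey_Wg M n := by
    have h1 := M.near n hn
    rw [← hr, ← hp] at h1
    change _ ≤ M.κ n * r * (qkey_Wg M n + M.c n / (r * p)) at h1
    refine h1.trans ?_
    calc M.κ n * r * (qkey_Wg M n + M.c n / (r * p)) ≤ |M.κ n| * r * (qkey_Wg M n + 1 / c * qkey_Wg M n) := by
          gcongr
      _ = _ := by ring
  have hsplit1 : M.W n - qkey_Wg M n = ∑ x ∈ (M.good n)ᶜ, M.wt n x := by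
    unfold QModel.W qkey_Wg
    rw [← Finset.sum_add_sum_compl (M.good n)]
    ring
  have hsplit2 : qkey_ST M n - ∑ x ∈ M.good n, M.wt n x * M.T n x =
      ∑ x ∈ (M.good n)ᶜ, M.wt n x * M.T n x := by
    unfold qkey_ST
    rw [← Finset.sum_add_sum_compl (M.good n)]
    ring
  have hb1 : 0 ≤ M.W n - qkey_Wg M n := by
    rw [hsplit1]
    exact Finset.sum_nonneg fun x _ => M.wt_nonneg n x
  have hb2 : 0 ≤ qkey_ST M n - ∑ x ∈ M.good n, M.wt n x * M.T n x := by
    rw [hsplit2]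
    exact Finset.sum_nonneg fun x _ => mul_nonneg (M.wt_nonneg n x) (M.T_nonneg n x)
  have hbad : (M.W n - qkey_Wg M n) + (qkey_ST M n - ∑ x ∈ M.good n, M.wt n x * M.T n x) ≤
      |M.κ n| * (1 + 1 / c) * qkey_Wg M n := by
    have h1 := M.bad n hn
    rw [← hr, ← hp] at h1
    simp only [mul_add, mul_one, Finset.sum_add_distrib] at h1
    have h2 : (M.W n - qkey_Wg M n) + (qkey_ST M n - ∑ x ∈ M.good n, M.wt n x * M.T n x) ≤
        M.κ n * (M.c n / (r * p)) := by
      unfold QModel.W qkey_Wg qkey_ST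
      linarith
    refine h2.trans ?_
    calc M.κ n * (M.c n / (r * p)) ≤ |M.κ n| * (1 / c * qkey_Wg M n) := by gcongr
      _ ≤ |M.κ n| * ((1 + 1 / c) * qkey_Wg M n) := by
        refine mul_le_mul_of_nonneg_left ?_ hκ0
        refine mul_le_mul_of_nonneg_right ?_ hWg0.le
        linarith
      _ = _ := by ring
  have hA : ∑ x ∈ M.good n, M.wt n x * (M.A n x : ℝ) = qkey_Wg M n * (mn (M.P) n * r) := by
    rw [qkey_sum_A M n hn, hWg, hr]
    unfold mn
    rw [← hr]
    field_simp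
  rw [← hr]
  refine ⟨hWg0, hWg, hnear, hb1, by linarith, hA, ?_⟩
  have e1 : qkey_ST M n / (qkey_Wg M n * r) - mn (M.P) n =
      ((qkey_ST M n - ∑ x ∈ M.good n, M.wt n x * M.T n x) +
        ∑ x ∈ M.good n, M.wt n x * (M.T n x - M.A n x)) / (qkey_Wg M n * r) := by
    have e2 : ∑ x ∈ M.good n, M.wt n x * (M.T n x - M.A n x) =
        ∑ x ∈ M.good n, M.wt n x * M.T n x - qkey_Wg M n * (mn (M.P) n * r) := by
      rw [← hA, ← Finset.sum_sub_distrib]
      exact Finset.sum_congr rfl fun x _ => by ring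
    rw [e2]
    field_simp
    ring
  rw [e1, abs_div, abs_of_pos (by positivity : 0 < qkey_Wg M n * r), div_le_iff₀ (by positivity)]
  have h3 : |∑ x ∈ M.good n, M.wt n x * (M.T n x - M.A n x)| ≤
      |M.κ n| * (1 + 1 / c) * r * qkey_Wg M n := by
    refine (Finset.abs_sum_le_sum_abs _ _).trans (le_trans (le_of_eq ?_) hnear)
    refine Finset.sum_congr rfl fun x _ => ?_
    rw [abs_mul, abs_of_nonneg (M.wt_nonneg n x)]
  have h4 : |qkey_ST M n - ∑ x ∈ M.good n, M.wt n x * M.T n x| ≤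
      |M.κ n| * (1 + 1 / c) * r * qkey_Wg M n := by
    rw [abs_of_nonneg hb2]
    have h5 : |M.κ n| * (1 + 1 / c) * qkey_Wg M n ≤ |M.κ n| * (1 + 1 / c) * r * qkey_Wg M n := by
      have h6 : 0 ≤ |M.κ n| * (1 + 1 / c) * qkey_Wg M n := by positivity
      nlinarith
    linarith
  refine (abs_add_le _ _).trans ?_
  linarith



/-! ### the laws -/

/-- a probability measure -/
noncomputable def qkey_pm (μ : Measure ℝ≥0) (h : IsProbabilityMeasure μ) :
    ProbabilityMeasure ℝ≥0 := ⟨μ, h⟩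

theorem qkey_pm_coe (μ : Measure ℝ≥0) (h : IsProbabilityMeasure μ) :
    (qkey_pm μ h : Measure ℝ≥0) = μ := rfl

theorem qkey_nu (hD : Slow D) (M : QModel D) (K : ℕ)
    (hlow : ∀ᶠ n : ℕ in atTop, (D n ^ K)⁻¹ ≤ ((n : ℝ) * Real.sqrt n) * (M.G n).rho ^ n *
      (M.P n).eval 1)
    (hmn : ∀ᶠ n : ℕ in atTop, (D n ^ K)⁻¹ ≤ mn M.P n) {Psi : ℕ → ℝ}
    (hlap : ∀ j : ℕ, Tendsto (fun n : ℕ => lap M.P n (j / mn M.P n)) atTop (𝓝 (Psi j))) :
    ∃ ν : ℕ → ProbabilityMeasure ℝ≥0,
      (∀ k, ∀ K : ℝ≥0, 0 < K → (ν k : Measure ℝ≥0) {x | K < x} ≤ 1 / (K : ℝ≥0∞)) ∧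
      (∀ j : ℕ, Tendsto (fun k => ∫ x, Real.exp (-((j : ℝ) * (x : ℝ))) ∂(ν k : Measure ℝ≥0))
        atTop (𝓝 (Psi j))) ∧
      ∀ᶠ k in atTop, ∀ x : ℝ,
        M.cdf k x = ((ν k : Measure ℝ≥0) {z | (z : ℝ) ≤ x}).toReal := by
  classical
  have hD0 : ∀ n, 0 < D n := fun n => by have := hD.two_le n; linarith
  obtain ⟨c, hcdef⟩ : ∃ c : ℕ → ℝ, c = fun k => (D k ^ K)⁻¹ := ⟨_, rfl⟩
  have hc : ∀ k, 0 < c k := fun k => by
    rw [hcdef]
    exact inv_pos.2 (pow_pos (hD0 k) K)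
  have hc1 : ∀ k, 1 / c k = D k ^ K := fun k => by rw [hcdef, one_div, inv_inv]
  obtain ⟨b, hbdef⟩ : ∃ b : ℕ → ℝ, b = fun k => mn M.P k := ⟨_, rfl⟩
  have hbk : ∀ k, b k = mn M.P k := fun k => by rw [hbdef]
  obtain ⟨δ, hδ⟩ : ∃ δ : ℕ → ℝ, δ = fun k => |M.κ k| * (1 + 1 / c k) := ⟨_, rfl⟩
  have hκK : ∀ L : ℕ, Tendsto (fun k => |M.κ k| * D k ^ L) atTop (𝓝 0) := by
    intro L
    have h1 := (M.κ_lim L).abs
    rw [abs_zero] at h1
    refine h1.congr fun k => ?_
    rw [abs_mul, abs_of_pos (pow_pos (hD0 k) L)]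
  have hδ0 : Tendsto δ atTop (𝓝 0) := by
    rw [hδ]
    have h1 := (hκK 0).add (hκK K)
    rw [add_zero] at h1
    refine h1.congr fun k => ?_
    rw [hc1, pow_zero]
    ring
  have hb0 : ∀ᶠ k in atTop, 0 < b k ∧ 1 / b k ≤ D k ^ K := by
    filter_upwards [hmn] with k hk
    have h1 : 0 < (D k ^ K)⁻¹ := inv_pos.2 (pow_pos (hD0 k) K)
    have h2 : 0 < b k := by rw [hbk]; linarith
    refine ⟨h2, ?_⟩
    rw [div_le_iff₀ h2, hbk]
    have h3 := mul_le_mul_of_nonneg_left hk (pow_pos (hD0 k) K).le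
    rwa [mul_inv_cancel₀ (pow_pos (hD0 k) K).ne'] at h3
  have hδ0' : ∀ k, 0 ≤ δ k := fun k => by
    rw [hδ]
    have := hc k
    have := abs_nonneg (M.κ k)
    positivity
  have hδb : Tendsto (fun k => δ k / b k) atTop (𝓝 0) := by
    have h1 := (hκK K).add (hκK (K + K))
    rw [add_zero] at h1
    refine squeeze_zero' ?_ ?_ h1
    · filter_upwards [hb0] with k hk
      exact div_nonneg (hδ0' k) hk.1.le
    · filter_upwards [hb0] with k hk
      have h2 : δ k / b k = δ k * (1 / b k) := by rw [mul_one_div]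
      rw [h2]
      refine (mul_le_mul_of_nonneg_left hk.2 (hδ0' k)).trans (le_of_eq ?_)
      rw [hδ]
      simp only
      rw [hc1, pow_add]
      ring
  obtain ⟨r, hr⟩ : ∃ r : ℕ → ℝ, r = fun k : ℕ => (k : ℝ) * Real.sqrt k := ⟨_, rfl⟩
  -- good indices
  have hgood : ∀ᶠ k : ℕ in atTop, M.n1 ≤ k ∧ 1 ≤ k ∧
      c k ≤ ((k : ℝ) * Real.sqrt k) * (M.G k).rho ^ k * (M.P k).eval 1 := by
    filter_upwards [hlow, eventually_ge_atTop M.n1, eventually_ge_atTop 1] with k h1 h2 h3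
    rw [hcdef]
    exact ⟨h2, h3, h1⟩
  have hfix : ∀ᶠ k : ℕ in atTop, 0 < qkey_Wg M k ∧
      ∑ x ∈ M.good k, M.wt k x * |M.T k x - M.A k x| ≤
        δ k * r k * qkey_Wg M k ∧
      0 ≤ M.W k - qkey_Wg M k ∧ M.W k - qkey_Wg M k ≤ δ k * qkey_Wg M k ∧
      ∑ x ∈ M.good k, M.wt k x * (M.A k x : ℝ) =
        qkey_Wg M k * (b k * r k) ∧
      |qkey_ST M k / (qkey_Wg M k * r k) - b k| ≤ 2 * δ k := by
    filter_upwards [hgood] with k ⟨h1, h2, h3⟩
    obtain ⟨a1, a2, a3, a4, a5, a6, a7⟩ := qkey_fixed M (hc k) k h1 h2 h3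
    rw [hδ, hr, hbdef]
    exact ⟨a1, a3, a4, a5, a6, a7⟩
  -- the scaled mean of `T`
  have hv : Tendsto (fun k => qkey_ST M k / (qkey_Wg M k * r k) / b k) atTop (𝓝 1) := by
    have h1 : Tendsto (fun k => qkey_ST M k / (qkey_Wg M k * r k) / b k - 1) atTop
        (𝓝 0) := by
      refine squeeze_zero_norm' (a := fun k => 2 * (δ k / b k)) ?_
        (by simpa using hδb.const_mul 2)
      filter_upwards [hfix, hb0] with k hk hbk
      rw [Real.norm_eq_abs]
      have e : qkey_ST M k / (qkey_Wg M k * r k) / b k - 1 =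
          (qkey_ST M k / (qkey_Wg M k * r k) - b k) / b k := by
        rw [sub_div, div_self hbk.1.ne']
      rw [e, abs_div, abs_of_pos hbk.1, ← mul_div_assoc]
      exact div_le_div_of_nonneg_right hk.2.2.2.2.2 hbk.1.le
    simpa using h1.add_const 1
  have hw : Tendsto (fun k => M.W k / qkey_Wg M k) atTop (𝓝 1) := by
    have h1 : Tendsto (fun k => (M.W k - qkey_Wg M k) / qkey_Wg M k) atTop (𝓝 0) := by
      refine squeeze_zero' ?_ ?_ hδ0
      · filter_upwards [hfix] with k hk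
        exact div_nonneg hk.2.2.1 hk.1.le
      · filter_upwards [hfix] with k hk
        rw [div_le_iff₀ hk.1]
        exact hk.2.2.2.1
    have h2 := h1.add_const 1
    rw [zero_add] at h2
    refine h2.congr' ?_
    filter_upwards [hfix] with k hk
    have := hk.1.ne'
    field_simp
    ring
  obtain ⟨e, he⟩ : ∃ e : ℕ → ℝ, e = fun k => qkey_ST M k / M.W k := ⟨_, rfl⟩
  obtain ⟨u, hu⟩ : ∃ u : ℕ → ℝ, u = fun k => e k / r k := ⟨_, rfl⟩
  have hu_lim : Tendsto (fun k => u k / b k) atTop (𝓝 1) := by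
    have h1 := hv.div hw one_ne_zero
    rw [div_one] at h1
    refine h1.congr' ?_
    filter_upwards [hfix] with k hk
    have h2 := hk.1.ne'
    rw [hu, he, Pi.div_apply]
    simp only
    rw [div_div, div_div, div_div, div_div]
    congr 1
    field_simp
  have hall : ∀ᶠ k : ℕ in atTop, (M.n1 ≤ k ∧ 1 ≤ k ∧
      c k ≤ ((k : ℝ) * Real.sqrt k) * (M.G k).rho ^ k * (M.P k).eval 1) ∧
      0 < e k := by
    filter_upwards [hgood, hu_lim.eventually (lt_mem_nhds one_pos), hb0] with k h1 h2 h3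
    refine ⟨h1, ?_⟩
    have hn0 : (0 : ℝ) < k := by exact_mod_cast h1.2.1
    have hs : 0 < Real.sqrt k := Real.sqrt_pos.2 hn0
    have hr0 : 0 < r k := by rw [hr]; positivity
    rw [hu] at h2
    simp only at h2
    by_contra hcon
    have h4 : e k / r k ≤ 0 := div_nonpos_of_nonpos_of_nonneg (not_lt.1 hcon) hr0.le
    have h5 : e k / r k / b k ≤ 0 := div_nonpos_of_nonpos_of_nonneg h4 h3.1.le
    linarith
  -- weights and values
  obtain ⟨w, hwdef⟩ : ∃ w : ∀ k, M.Omega k → ℝ≥0,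
      w = fun k y => (M.wt k y / M.W k).toNNReal := ⟨_, rfl⟩
  obtain ⟨f, hfdef⟩ : ∃ f : ∀ k, M.Omega k → ℝ≥0,
      f = fun k y => (M.T k y / e k).toNNReal := ⟨_, rfl⟩
  have hW0 : ∀ k, (M.n1 ≤ k ∧ 1 ≤ k ∧
      c k ≤ ((k : ℝ) * Real.sqrt k) * (M.G k).rho ^ k * (M.P k).eval 1) →
      0 < M.W k := by
    intro k ⟨h1, h2, h3⟩
    obtain ⟨a1, a2, a3, a4, a5, a6, a7⟩ := qkey_fixed M (hc k) k h1 h2 h3
    linarith
  have hwc : ∀ k, 0 < M.W k → ∀ y, (w k y : ℝ) = M.wt k y / M.W k := by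
    intro k hk y
    rw [hwdef]
    simp only
    rw [Real.coe_toNNReal]
    exact div_nonneg (M.wt_nonneg _ y) hk.le
  have hfc : ∀ k, 0 < e k → ∀ y, (f k y : ℝ) = M.T k y / e k := by
    intro k hk y
    rw [hfdef]
    simp only
    rw [Real.coe_toNNReal]
    exact div_nonneg (M.T_nonneg _ y) hk.le
  have hwsum : ∀ k, 0 < M.W k → ∑ y, w k y = 1 := by
    intro k hk
    rw [← NNReal.coe_inj]
    push_cast
    simp only [hwc k hk]
    rw [← Finset.sum_div]
    exact div_self hk.ne'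
  -- the laws
  set ν : ℕ → ProbabilityMeasure ℝ≥0 := fun k =>
    if h : (M.n1 ≤ k ∧ 1 ≤ k ∧
      c k ≤ ((k : ℝ) * Real.sqrt k) * (M.G k).rho ^ k * (M.P k).eval 1) ∧
      0 < e k then
      qkey_pm (wemp (w k) (f k)) (wemp_prob _ _ (hwsum k (hW0 k h.1)))
    else qkey_pm (Measure.dirac 0) inferInstance with hν
  have hν1 : ∀ k, ((M.n1 ≤ k ∧ 1 ≤ k ∧
      c k ≤ ((k : ℝ) * Real.sqrt k) * (M.G k).rho ^ k * (M.P k).eval 1) ∧
      0 < e k) → (ν k : Measure ℝ≥0) = wemp (w k) (f k) := by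
    intro k h
    rw [hν]
    simp only
    rw [dif_pos h, qkey_pm_coe]
  have hν0 : ∀ k, ¬ ((M.n1 ≤ k ∧ 1 ≤ k ∧
      c k ≤ ((k : ℝ) * Real.sqrt k) * (M.G k).rho ^ k * (M.P k).eval 1) ∧
      0 < e k) → (ν k : Measure ℝ≥0) = Measure.dirac 0 := by
    intro k h
    rw [hν]
    simp only
    rw [dif_neg h, qkey_pm_coe]
  refine ⟨ν, ?_, ?_, ?_⟩
  · intro k K hK
    by_cases h : (M.n1 ≤ k ∧ 1 ≤ k ∧
      c k ≤ ((k : ℝ) * Real.sqrt k) * (M.G k).rho ^ k * (M.P k).eval 1) ∧
      0 < e k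
    · rw [hν1 k h]
      have hWk := hW0 k h.1
      have hek := h.2
      refine wemp_markov _ _ ?_ K hK
      rw [← NNReal.coe_le_coe]
      push_cast
      simp only [hwc k hWk, hfc k hek]
      have e1 : ∑ y, M.wt k y / M.W k * (M.T k y / e k) =
          qkey_ST M k / M.W k / e k := by
        unfold qkey_ST
        rw [Finset.sum_div, Finset.sum_div]
        exact Finset.sum_congr rfl fun y _ => by ring
      rw [e1]
      have e2 : qkey_ST M k / M.W k = e k := by rw [he]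
      rw [e2, div_self hek.ne']
    · rw [hν0 k h]
      change Measure.dirac 0 (Set.Ioi K) ≤ _
      rw [Measure.dirac_apply' _ (isOpen_Ioi.measurableSet : MeasurableSet (Set.Ioi K))]
      simp
  · intro j
    have hJ := hlap j
    -- the error
    have hE : Tendsto (fun k : ℕ => 2 * δ k + (j : ℝ) * (δ k / b k / (u k / b k) +
        |1 / (u k / b k) - 1|)) atTop (𝓝 0) := by
      have h1 : Tendsto (fun k : ℕ => δ k / b k / (u k / b k)) atTop (𝓝 (0 / 1)) :=
        hδb.div hu_lim one_ne_zero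
      have h2 : Tendsto (fun k => |1 / (u k / b k) - 1|) atTop (𝓝 |1 / 1 - 1|) :=
        (((tendsto_const_nhds (x := (1 : ℝ))).div hu_lim one_ne_zero).sub_const _).abs
      have h3 := (hδ0.const_mul 2).add ((h1.add h2).const_mul (j : ℝ))
      simpa using h3
    have hdiff : Tendsto (fun k => ∫ x, Real.exp (-((j : ℝ) * (x : ℝ))) ∂(ν k : Measure ℝ≥0) -
        lap M.P k (j / mn M.P k)) atTop (𝓝 0) := by
      refine squeeze_zero_norm' ?_ hE
      filter_upwards [hall, hfix, hb0] with k hk hfk hbk0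
      have hWk := hW0 k hk.1
      obtain ⟨⟨hn1, hn2, hP⟩, hek⟩ := hk
      obtain ⟨a1, a3, a4, a5, a6, a7⟩ := hfk
      have hn0 : (0 : ℝ) < k := by exact_mod_cast hn2
      have hs : 0 < Real.sqrt k := Real.sqrt_pos.2 hn0
      have hr0 : 0 < r k := by rw [hr]; positivity
      have hb : 0 < b k := hbk0.1
      have e1 : ∫ x, Real.exp (-((j : ℝ) * (x : ℝ))) ∂(ν k : Measure ℝ≥0) =
          (M.W k)⁻¹ * ∑ y : M.Omega k, M.wt k y *
            Real.exp (-(j * (M.T k y / e k))) := by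
        rw [hν1 k ⟨⟨hn1, hn2, hP⟩, hek⟩]
        have h1 := wemp_integral (w k) (f k) (ef ^ j)
        simp only [ef_pow] at h1
        rw [h1, Finset.mul_sum]
        refine Finset.sum_congr rfl fun y _ => ?_
        rw [hfc k hek, hwc k hWk]
        ring
      have e2 : lap M.P k (j / mn M.P k) =
          (qkey_Wg M k)⁻¹ * ∑ y ∈ M.good k, M.wt k y *
            Real.exp (-(j * ((M.A k y : ℝ) / (b k * r k)))) := by
        rw [← hbk k]
        have h1 := qkey_sum_pow M k hn1 (Real.exp (-(epsn (j / b k) k)))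
        have h2 : ∑ y ∈ M.good k, M.wt k y *
            Real.exp (-(j * ((M.A k y : ℝ) / (b k * r k)))) =
            ∑ y ∈ M.good k, M.wt k y *
              Real.exp (-(epsn (j / b k) k)) ^ (M.A k y) := by
          refine Finset.sum_congr rfl fun y _ => ?_
          rw [← Real.exp_nat_mul]
          congr 2
          unfold epsn
          rw [hr]
          field_simp
        have hMc := M.c_pos k
        have h3 : qkey_Wg M k = M.c k * (M.P k).eval 1 := qkey_sum_good M k hn1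
        rw [h2, h1, h3]
        unfold lap
        rw [mul_inv, mul_assoc, ← mul_assoc (Polynomial.eval 1 (M.P k))⁻¹,
          mul_comm (Polynomial.eval 1 (M.P k))⁻¹, mul_assoc, ← mul_assoc (M.c k)⁻¹,
          inv_mul_cancel₀ hMc.ne', one_mul, ← div_eq_inv_mul]
      rw [e1, e2, Real.norm_eq_abs]
      refine (fin_laplace (M.good k) (M.wt k) (M.T k) (M.A k)
        (M.wt_nonneg _) (M.T_nonneg _) (W := M.W k) (Wg := qkey_Wg M k) rfl rfl a1 hek
        (by positivity : 0 < b k * r k) (Nat.cast_nonneg j)).trans ?_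
      have hun : e k = u k * r k := by rw [hu]; field_simp
      have hu0 : 0 < u k := by
        have : u k = e k / r k := by rw [hu]
        rw [this]; positivity
      refine add_le_add ?_ ?_
      · refine mul_le_mul_of_nonneg_left ?_ (by norm_num)
        rw [div_le_iff₀ a1]
        exact a5
      · rw [mul_div_assoc]
        refine mul_le_mul_of_nonneg_left ?_ (Nat.cast_nonneg j)
        rw [div_le_iff₀ a1, a6]
        have e4 : |1 / e k - 1 / (b k * r k)| = |1 / (u k / b k) - 1| / (b k * r k) := by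
          rw [← abs_of_pos (show 0 < b k * r k by positivity), ← abs_div,
            abs_of_pos (show 0 < b k * r k by positivity), hun]
          congr 1
          field_simp
        rw [e4]
        have h5 : (∑ x ∈ M.good k, M.wt k x * |M.T k x - M.A k x|) / e k ≤
            δ k / b k / (u k / b k) * qkey_Wg M k := by
          rw [div_le_iff₀ hek, hun]
          refine a3.trans (le_of_eq ?_)
          field_simp
        have h6 : qkey_Wg M k * (b k * r k) * (|1 / (u k / b k) - 1| / (b k * r k)) =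
            |1 / (u k / b k) - 1| * qkey_Wg M k := by
          field_simp
        rw [h6, add_mul]
        linarith
    have := hdiff.add hJ
    simpa using this
  · filter_upwards [hall] with k hk x
    have hWk := hW0 k hk.1
    have hek := hk.2
    rw [hν1 k hk]
    have hS : MeasurableSet {z : ℝ≥0 | (z : ℝ) ≤ x} :=
      measurableSet_le measurable_coe_nnreal_real measurable_const
    rw [wemp_apply _ _ hS, ENNReal.coe_toReal]
    push_cast
    simp only [hwc k hWk]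
    rw [← Finset.sum_div]
    unfold QModel.cdf
    congr 1
    refine Finset.sum_congr ?_ fun _ _ => rfl
    ext y
    simp only [Finset.mem_filter, Finset.mem_univ, true_and, Set.mem_ofPred_eq]
    rw [hfc k hek y, div_le_iff₀ hek, he]
    simp only
    unfold qkey_ST
    rw [← mul_div_assoc, le_div_iff₀ hWk]

theorem t_QKEY : QKEY_Stmt := by
  intro D hD M K h1 h2 Psi h3
  exact qkey_nu hD M K h1 h2 h3

end Pool.Agent.TPK
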