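import Pool.Agent.TPK.StmtsA
import Pool.Agent.TPK.GE
import Pool.Agent.TPK.GFIN

/-!
# Two points (text of `EXW/QRB.lean`), module QRB: the bound of the bulk residual
-/

set_option autoImplicit false

open Finset Filter Topology

namespace Pool.Agent.TPK

open Pool.Agent.Gap Pool.Agent.FL Pool.Agent.EXW

namespace QRBaux

/-- the sum of the terms, as real numbers -/
lemma core {C P q r Y A δ δ' e e' x0 x2 x3 x4 xN : ℝ} (hC : 0 < C) (hP : 1 ≤ P) (hr0 : 0 < r)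
    (hr1 : r ≤ 1) (hqr : q * r = 1) (hY : 16 * C ≤ Y)
    (hδ0 : 0 ≤ δ) (hδ0' : 0 ≤ δ') (he0 : 0 ≤ e) (he0' : 0 ≤ e')
    (hA : A ≤ P * r ^ 8) (hδ : δ ≤ P * r ^ 4) (hδ' : δ' ≤ P * r ^ 4) (he : e ≤ P * r ^ 6)
    (he' : e' ≤ P * r ^ 6) (y0 : 0 ≤ x0) (y2 : 0 ≤ x2) (y3 : 0 ≤ x3) (y4 : 0 ≤ x4)
    (c0 : x0 ≤ C * (P * q)) (c2 : x2 ≤ C * (P * q) ^ 5) (c3 : x3 ≤ C) (c4 : x4 ≤ C * (P * q))
    (cN : xN ≤ C * (P * q) ^ 5 * r ^ 16) :
    A * x0 + ((δ + δ') * x3 + (e + e') * (x4 + x0) + (δ + δ') ^ 2 * x0 + (e + e') ^ 2 * x2 + xN)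
      ≤ P ^ 7 * Y * r ^ 4 := by
  have hP0 : 0 < P := by linarith
  have key : ∀ a b : ℕ, a ≤ 7 → 4 ≤ b → C * (P ^ a * r ^ b) ≤ C * (P ^ 7 * r ^ 4) := by
    intro a b ha hb
    have h1 : P ^ a ≤ P ^ 7 := pow_le_pow_right₀ hP ha
    have h2 : r ^ b ≤ r ^ 4 := pow_le_pow_of_le_one hr0.le hr1 hb
    exact mul_le_mul_of_nonneg_left (mul_le_mul h1 h2 (by positivity) (by positivity)) hC.le
  have k1 := key 2 7 (by norm_num) (by norm_num)
  have k2 := key 1 4 (by norm_num) (by norm_num)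
  have k3 := key 2 5 (by norm_num) (by norm_num)
  have k4 := key 3 7 (by norm_num) (by norm_num)
  have k5 := key 7 7 (by norm_num) (by norm_num)
  have k6 := key 5 11 (by norm_num) (by norm_num)
  have t1 : A * x0 ≤ C * (P ^ 2 * r ^ 7) := by
    calc A * x0 ≤ (P * r ^ 8) * (C * (P * q)) := mul_le_mul hA c0 y0 (by positivity)
      _ = (q * r) * (C * (P ^ 2 * r ^ 7)) := by ring
      _ = _ := by rw [hqr, one_mul]
  have t2 : (δ + δ') * x3 ≤ 2 * (C * (P ^ 1 * r ^ 4)) := by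
    calc (δ + δ') * x3 ≤ (P * r ^ 4 + P * r ^ 4) * C :=
          mul_le_mul (add_le_add hδ hδ') c3 y3 (by positivity)
      _ = _ := by ring
  have t3 : (e + e') * (x4 + x0) ≤ 4 * (C * (P ^ 2 * r ^ 5)) := by
    calc (e + e') * (x4 + x0) ≤ (P * r ^ 6 + P * r ^ 6) * (C * (P * q) + C * (P * q)) :=
          mul_le_mul (add_le_add he he') (add_le_add c4 c0) (by positivity) (by positivity)
      _ = (q * r) * (4 * (C * (P ^ 2 * r ^ 5))) := by ring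
      _ = _ := by rw [hqr, one_mul]
  have t4 : (δ + δ') ^ 2 * x0 ≤ 4 * (C * (P ^ 3 * r ^ 7)) := by
    calc (δ + δ') ^ 2 * x0 ≤ (P * r ^ 4 + P * r ^ 4) ^ 2 * (C * (P * q)) :=
          mul_le_mul (pow_le_pow_left₀ (by positivity) (add_le_add hδ hδ') 2) c0 y0
            (by positivity)
      _ = (q * r) * (4 * (C * (P ^ 3 * r ^ 7))) := by ring
      _ = _ := by rw [hqr, one_mul]
  have t5 : (e + e') ^ 2 * x2 ≤ 4 * (C * (P ^ 7 * r ^ 7)) := by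
    calc (e + e') ^ 2 * x2 ≤ (P * r ^ 6 + P * r ^ 6) ^ 2 * (C * (P * q) ^ 5) :=
          mul_le_mul (pow_le_pow_left₀ (by positivity) (add_le_add he he') 2) c2 y2
            (by positivity)
      _ = (q * r) ^ 5 * (4 * (C * (P ^ 7 * r ^ 7))) := by ring
      _ = _ := by rw [hqr, one_pow, one_mul]
  have t6 : xN ≤ C * (P ^ 5 * r ^ 11) := by
    calc xN ≤ C * (P * q) ^ 5 * r ^ 16 := cN
      _ = (q * r) ^ 5 * (C * (P ^ 5 * r ^ 11)) := by ring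
      _ = _ := by rw [hqr, one_pow, one_mul]
  calc _ ≤ 16 * (C * (P ^ 7 * r ^ 4)) := by linarith
    _ = (P ^ 7 * r ^ 4) * (16 * C) := by ring
    _ ≤ (P ^ 7 * r ^ 4) * Y := mul_le_mul_of_nonneg_left hY (by positivity)
    _ = _ := by ring

end QRBaux

theorem t_QRB (hPAR : QPAR_Stmt) (hS0 : QS0_Stmt) : QRB_Stmt := by
  obtain ⟨K0, k, hPAR⟩ := hPAR
  obtain ⟨C, hC, hS0⟩ := hS0
  obtain ⟨j, hj⟩ : ∃ j : ℕ, 16 * C < 2 ^ j := pow_unbounded_of_one_lt _ (by norm_num)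
  refine ⟨K0, k * 7 + j, fun D W G n n0 eps eps' hSc w N v hw1 hwW hN hv => ?_⟩
  obtain ⟨⟨hn, hn0, -, -, -, hn0n⟩, ⟨he0, -, -, heb, heb'⟩, hw⟩ :=
    hPAR D W G n n0 eps eps' hSc
  obtain ⟨-, -, -, hd', hd, -, hA⟩ := hw w hw1 hwW
  obtain ⟨b0, -, b2, b3, b4⟩ := hS0 n0 N eps' w v hn0 hw1 hSc.eps_nonneg hv
  have he0' := hSc.eps_nonneg
  have hD2 := hSc.D2
  have hW2 := hSc.W2
  have hn' : (0 : ℝ) < n := by exact_mod_cast hn
  have hn1 : (1 : ℝ) ≤ n := by exact_mod_cast hn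
  have hq0 := qn_pos n hn
  have hq4 := qn_four n
  have hqs := qn_sq n
  have hs4 := qn_four n0
  have hs0 := qn_nonneg n0
  have hbN := norm_le_of_nsq_mulg2 N (by nlinarith) v
  have hNr : (4 : ℝ) * (n : ℝ) ^ 2 ≤ N := by
    have h1 : 4 * n ^ 2 ≤ N := by omega
    exact_mod_cast h1
  rw [← hqs] at heb heb'
  have hX2 : 2 ≤ D * W := by nlinarith
  have hDX : D ≤ D * W := by nlinarith
  have hP1 : 1 ≤ (D * W) ^ k := one_le_pow₀ (by linarith)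
  have hDP : D ^ k ≤ (D * W) ^ k := pow_le_pow_left₀ (by linarith) hDX k
  have hfin : (D * W) ^ (k * 7 + j) = ((D * W) ^ k) ^ 7 * (D * W) ^ j := by
    rw [pow_add, pow_mul]
  have hXj : 16 * C ≤ (D * W) ^ j := hj.le.trans (pow_le_pow_left₀ (by norm_num) hX2 j)
  rw [hfin]
  generalize (D * W) ^ k = P at *
  generalize (D * W) ^ j = Y at *
  generalize qn n = q at *
  generalize qn n0 = s at *
  have hq1 : 1 ≤ q := by
    by_contra hcon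
    push Not at hcon
    have : q ^ 4 < 1 := pow_lt_one₀ hq0.le hcon (by norm_num)
    linarith
  have hP0 : 0 < P := by linarith
  have hsq : s ≤ P * q := by
    refine le_of_pow_le_pow_left₀ (n := 4) (by norm_num) (by positivity) ?_
    rw [hs4, mul_pow, hq4]
    refine hn0n.trans ?_
    have h1 : P ≤ P ^ 4 := by
      calc P = P ^ 1 := (pow_one P).symm
        _ ≤ P ^ 4 := pow_le_pow_right₀ hP1 (by norm_num)
    exact mul_le_mul_of_nonneg_right (hDP.trans h1) hn'.le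
  -- the second term
  have hzero : |2 * G.sig2 * eps' - G.hbar * eps| = 0 := by
    rw [hSc.eps_eq, sub_self, abs_zero]
  rw [hzero, mul_zero, zero_mul, add_zero]
  obtain ⟨r, hr⟩ : ∃ r, r = q⁻¹ := ⟨_, rfl⟩
  have hr0 : 0 < r := by rw [hr]; exact inv_pos.2 hq0
  have hr1 : r ≤ 1 := by rw [hr]; exact inv_le_one_of_one_le₀ hq1
  have hqr : q * r = 1 := by rw [hr]; exact mul_inv_cancel₀ hq0.ne'
  have hninv : (n : ℝ)⁻¹ = r ^ 4 := by rw [← hq4, hr, inv_pow]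
  have hnr : (n : ℝ) * r ^ 4 = 1 := by rw [← hninv]; exact mul_inv_cancel₀ hn'.ne'
  have hqr2 : q ^ 2 * r ^ 2 = 1 := by rw [← mul_pow, hqr, one_pow]
  have hgoal : P ^ 7 * Y / n = P ^ 7 * Y * r ^ 4 := by rw [div_eq_mul_inv, hninv]
  rw [hgoal]
  have hA0 : 0 ≤ ‖2 * (G.sig2 : ℂ) * (1 - 4 * zn (1 / 4) w n0)
        - (G.mbar : ℂ) * (1 - zn G.rho w n / (G.rho : ℂ))‖ := norm_nonneg _
  have hδ0 : 0 ≤ ‖(G.rho : ℂ) - zn G.rho w n‖ := norm_nonneg _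
  have hδ0' : 0 ≤ ‖(1 / 4 : ℂ) - zn (1 / 4) w n0‖ := norm_nonneg _
  generalize ‖2 * (G.sig2 : ℂ) * (1 - 4 * zn (1 / 4) w n0)
        - (G.mbar : ℂ) * (1 - zn G.rho w n / (G.rho : ℂ))‖ = A at *
  generalize ‖(G.rho : ℂ) - zn G.rho w n‖ = δ at *
  generalize ‖(1 / 4 : ℂ) - zn (1 / 4) w n0‖ = δ' at *
  have y0 := Real.sqrt_nonneg (nsq N v)
  have y2 := Real.sqrt_nonneg (nsq N (mulg 2 v))
  have y3 := Real.sqrt_nonneg (En N v)
  have y4 := Real.sqrt_nonneg (En N (mulg 1 v))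
  have hvN : 0 ≤ ‖v N‖ := norm_nonneg _
  generalize Real.sqrt (nsq N v) = x0 at *
  generalize Real.sqrt (nsq N (mulg 2 v)) = x2 at *
  generalize Real.sqrt (En N v) = x3 at *
  generalize Real.sqrt (En N (mulg 1 v)) = x4 at *
  generalize ‖v N‖ = xN at *
  have hs5 : s ^ 5 ≤ (P * q) ^ 5 := pow_le_pow_left₀ hs0 hsq 5
  have c2 : x2 ≤ C * (P * q) ^ 5 := b2.trans (mul_le_mul_of_nonneg_left hs5 hC.le)
  refine QRBaux.core hC hP1 hr0 hr1 hqr hXj hδ0 hδ0' he0 he0' ?_ ?_ ?_ ?_ ?_ y0 y2 y3 y4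
    (b0.trans (mul_le_mul_of_nonneg_left hsq hC.le)) c2 b3
    (b4.trans (mul_le_mul_of_nonneg_left hsq hC.le)) ?_
  · calc A = A * ((n : ℝ) * r ^ 4) ^ 2 := by rw [hnr]; ring
      _ = A * (n : ℝ) ^ 2 * r ^ 8 := by ring
      _ ≤ _ := mul_le_mul_of_nonneg_right hA (by positivity)
  · calc δ = δ * n * r ^ 4 := by rw [mul_assoc, hnr, mul_one]
      _ ≤ _ := mul_le_mul_of_nonneg_right hd (by positivity)
  · calc δ' = δ' * n * r ^ 4 := by rw [mul_assoc, hnr, mul_one]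
      _ ≤ _ := mul_le_mul_of_nonneg_right hd' (by positivity)
  · calc eps = eps * ((n : ℝ) * r ^ 4) * (q ^ 2 * r ^ 2) := by rw [hnr, hqr2]; ring
      _ = eps * ((n : ℝ) * q ^ 2) * r ^ 6 := by ring
      _ ≤ _ := mul_le_mul_of_nonneg_right heb (by positivity)
  · calc eps' = eps' * ((n : ℝ) * r ^ 4) * (q ^ 2 * r ^ 2) := by rw [hnr, hqr2]; ring
      _ = eps' * ((n : ℝ) * q ^ 2) * r ^ 6 := by ring
      _ ≤ _ := mul_le_mul_of_nonneg_right heb' (by positivity)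
  · have h1 : ((n : ℝ) ^ 2) ^ 2 * xN ≤ C * (P * q) ^ 5 := by
      refine le_trans ?_ (hbN.trans c2)
      have h2 : (n : ℝ) ^ 2 ≤ N := by nlinarith [sq_nonneg (n : ℝ)]
      exact mul_le_mul_of_nonneg_right (pow_le_pow_left₀ (sq_nonneg _) h2 2) hvN
    calc xN = xN * ((n : ℝ) * r ^ 4) ^ 4 := by rw [hnr]; ring
      _ = ((n : ℝ) ^ 2) ^ 2 * xN * r ^ 16 := by ring
      _ ≤ _ := mul_le_mul_of_nonneg_right h1 (by positivity)

end Pool.Agent.TPK
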