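import Pool.Agent.TPK.Main
import Pool.Agent.TPK.QGC
import Pool.Agent.TPK.QGRE
import Pool.Agent.TPK.QGSUP
import Pool.Agent.TPK.QGW
import Pool.Agent.TPK.QGV
import Pool.Agent.TPK.QGVL
import Pool.Agent.TPK.QCA
import Pool.Agent.TPK.QGEB
import Pool.Agent.TPK.QGJ2
import Pool.Agent.TPK.QGM2
import Pool.Agent.TPK.QPAR
import Pool.Agent.TPK.QRB
import Pool.Agent.TPK.QE
import Pool.Agent.TPK.QP
import Pool.Agent.TPK.QLT
import Pool.Agent.TPK.QRAT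
import Pool.Agent.TPK.QSIDE
import Pool.Agent.TPK.QKEY
import Pool.Agent.TPK.QFIN
import Pool.Agent.TPK.PSUM
import Pool.Agent.TPK.GV2
import Pool.Agent.TPK.CHA
import Pool.Agent.TPK.CHB
import Pool.Agent.TPK.MOMA
import Pool.Agent.TPK.MOMC
import Pool.Agent.TPK.MOMD
import Pool.Agent.TPK.MOMK
import Pool.Agent.EXW.QS0
import Pool.Agent.EXW.QETA
import Pool.Agent.EXW.QX
import Pool.Agent.EXW.FDX
import Pool.Agent.EXW.SMM

/-!
# Two points (MP_f6626d_co): the analysis over `TPK.GapKernel`, assembled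

All the statements of `TPK/StmtsA`, `TPK/Stmts2`, `TPK/Stmts3` are proved here without hypotheses.
-/

set_option autoImplicit false

namespace Pool.Agent.TPK

open Pool.Agent.EXW (QS0_Stmt QETA_Stmt QX_Stmt FDX_Stmt SMM_Stmt t_QS0 t_QETA t_QX t_FDX t_SMM)

theorem m_QGC : QGC_Stmt := t_QGC

theorem m_QGRE : QGRE_Stmt := t_QGRE m_QGC

theorem m_QGSUP : QGSUP_Stmt := t_QGSUP m_QGC m_QGRE

theorem m_QGW : QGW_Stmt := t_QGW m_QGC m_QGSUP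

theorem m_QGV : QGV_Stmt := t_QGV m_QGRE m_QGSUP

theorem m_GV2 : GV2_Stmt := t_GV2 m_QGRE m_QGSUP

theorem m_PSUM : PSUM_Stmt := t_PSUM

theorem m_QPAR : QPAR_Stmt := t_QPAR

theorem m_QGJ2 : QGJ2_Stmt := t_QGJ2 m_QGC m_QGRE m_QGSUP m_QGW

theorem m_QGM2 : QGM2_Stmt := t_QGM2 m_QGC m_QGRE m_QGSUP m_QGW

theorem m_QE : QE_Stmt := by
  obtain ⟨oLT, oLT1, oM2, oBAL, oST, oSUP, oW⟩ := old_gap
  have hS0 : QS0_Stmt := t_QS0 oSUP oW
  exact t_QE m_QGRE m_QGW t_QGEB m_QPAR hS0 (t_QETA oST) (t_QRB m_QPAR hS0)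

theorem m_QP : QP_Stmt := by
  obtain ⟨oLT, oLT1, oM2, oBAL, oST, oSUP, oW⟩ := old_gap
  exact t_QP m_QE (t_QCA t_QGVL) m_QGJ2 m_QPAR (t_QS0 oSUP oW) J1 Gap.J1
    (Gap.J2 Gap.C2 (Gap.C Gap.C2) (Gap.RE (Gap.C Gap.C2)))

/-- Laplace transforms with a rate -/
theorem m_QLT : QLT_Stmt :=
  t_QLT m_QP t_QX m_QGJ2 m_QPAR J1 Gap.J1
    (Gap.J2 Gap.C2 (Gap.C Gap.C2) (Gap.RE (Gap.C Gap.C2))) B1 Gap.B1

/-- normalised Laplace transforms and means with a rate -/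
theorem m_QRAT : QRAT_Stmt := by
  obtain ⟨oLT, oLT1, oM2, oBAL, oST, oSUP, oW⟩ := old_gap
  exact t_QRAT m_QLT m_QGM2 m_QPAR oM2 oBAL

theorem m_QSIDE : QSIDE_Stmt := by
  obtain ⟨oLT, oLT1, oM2, oBAL, oST, oSUP, oW⟩ := old_gap
  exact t_QSIDE m_QRAT m_QPAR oBAL oM2

/-- the universal law for the sequences of models of the new class -/
theorem m_QFIN : QFIN_Stmt := by
  obtain ⟨oLT, oLT1, oM2, oBAL, oST, oSUP, oW⟩ := old_gap
  exact t_QFIN m_QSIDE t_QKEY oLT oLT1 oM2 oBAL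

theorem m_MOMA : MOMA_Stmt := t_MOMA m_QRAT t_CHA t_CHB

theorem m_MOMD : MOMD_Stmt := t_MOMD m_QRAT m_MOMA t_FDX t_SMM m_QPAR

/-- the moments of the area polynomials -/
theorem m_MOMC : MOMC_Stmt := t_MOMC m_MOMD m_MOMA m_QRAT t_SMM m_QPAR

/-- the moments of the sequences of models of the new class -/
theorem m_MOMK : MOMK_Stmt := t_MOMK m_MOMC

end Pool.Agent.TPK
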