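import Pool.Agent.TPK.GSum
import Pool.Agent.EXW.Base

/-!
# Two points (MP_f6626d_co), base file: the class `Cls D (1 - D⁻¹)` of the kernels of `TPK/Defs`

Text of the second half of `EXW/Base.lean`. The functions of the parameter (`PB`, `LB`) are those
of `EXW/Base.lean`.
-/

set_option autoImplicit false

open Finset Filter Topology

namespace Pool.Agent.TPK

open Pool.Agent.Gap Pool.Agent.FL Pool.Agent.EXW

/-! ### Monotonicity of the classes in the parameter -/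

lemma cls_mono {D D' : ℝ} (hD : 2 ≤ D) (h : D ≤ D') {G : GapKernel} (hG : Cls D (1 - D⁻¹) G) :
    Cls D' (1 - D'⁻¹) G where
  loc := hG.loc
  rho_ge := (inv_anti₀ (by linarith) h).trans hG.rho_ge
  dec m := (hG.dec m).trans (bd_mono hD h m)

lemma clsCap_mono {D D' : ℝ} (hD : 2 ≤ D) (h : D ≤ D') {G : GapKernel} {C0 : ℕ}
    {s : ℕ → ℤ → ℝ} (hs : ClsCap D (1 - D⁻¹) G C0 s) : ClsCap D' (1 - D'⁻¹) G C0 s where
  cap := hs.cap
  one := (inv_anti₀ (by linarith) h).trans hs.one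
  supp := hs.supp
  dec m := (hs.dec m).trans (bd_mono hD h m)

lemma critSol_mono {D D' : ℝ} (hD : 2 ≤ D) (h : D ≤ D') {G : GapKernel} {s v : ℤ → ℝ}
    (hs : CritSol D G s v) : CritSol D' G s v where
  zero := hs.zero
  low g hg := (inv_anti₀ (by linarith) h).trans (hs.low g hg)
  up g := (hs.up g).trans h
  energy N := (hs.energy N).trans h
  eq := hs.eq

/-! ### Sums over the piece types -/

/-- all moments of the half length are bounded by a power of `D` -/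
lemma sum_pow (k : ℕ) : ∃ K : ℕ, ∀ D : ℝ, 2 ≤ D → ∀ G : GapKernel, Cls D (1 - D⁻¹) G →
    ∑ i ∈ G.S, (i.1 : ℝ) ^ k * (G.rho ^ i.1 * G.tot i) ≤ D ^ K := by
  have h1 : PB fun D => D * ∑' m : ℕ, (m : ℝ) ^ k * (1 - D⁻¹) ^ m :=
    PB.id.mul (PB.geo' k (fun D hD => (th_pos hD).le) LB.inv_self fun D _ => le_rfl)
  obtain ⟨K, hK⟩ := h1.le
  refine ⟨K, fun D hD G hG => le_trans ?_ (hK D hD)⟩
  refine GSum.sum_le hG (by linarith) (th_pos hD).le (F := fun m => (m : ℝ) ^ k)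
    (fun m => by positivity) ?_
  exact summable_pow_mul_geometric_of_norm_lt_one k (by
    rw [Real.norm_of_nonneg (th_pos hD).le]; exact th_lt hD)

/-- tails: `∑ over types of half length ≥ a` decays exponentially -/
lemma sum_tail (k : ℕ) : ∃ K : ℕ, ∀ D : ℝ, 2 ≤ D → ∀ G : GapKernel, Cls D (1 - D⁻¹) G →
    ∀ a : ℕ, ∑ i ∈ G.S.filter (fun i => a ≤ i.1), (i.1 : ℝ) ^ k * (G.rho ^ i.1 * G.tot i)
      ≤ D ^ K * (1 - (2 * D)⁻¹) ^ a := by
  have hPB : PB fun D => D * ∑' m : ℕ, (m : ℝ) ^ k * (1 - (2 * D)⁻¹) ^ m :=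
    PB.id.mul (PB.geo' k (fun D hD => by
      have := inv_le_half (show 2 ≤ 2 * D by linarith)
      linarith) (LB.invmul (c := 2) (by norm_num)) fun D _ => le_rfl)
  obtain ⟨K, hK⟩ := hPB.le
  refine ⟨K, fun D hD G hG a => ?_⟩
  have h2 : 2 ≤ 2 * D := by linarith
  set q : ℝ := 1 - (2 * D)⁻¹ with hq
  have hq0 : 0 < q := th_pos h2
  have hq1 : q < 1 := th_lt h2
  have hθ := th_pos hD
  have hqq : 1 - D⁻¹ ≤ q * q := by
    have h3 := sqrt_th hD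
    have h4 := Real.mul_self_sqrt hθ.le
    have h5 := Real.sqrt_nonneg (1 - D⁻¹)
    calc 1 - D⁻¹ = Real.sqrt (1 - D⁻¹) * Real.sqrt (1 - D⁻¹) := h4.symm
      _ ≤ q * q := mul_le_mul h3 h3 h5 hq0.le
  have hs : Summable fun m : ℕ => (m : ℝ) ^ k * q ^ m :=
    summable_pow_mul_geometric_of_norm_lt_one k (by rw [Real.norm_of_nonneg hq0.le]; exact hq1)
  have key : ∀ m : ℕ, (if a ≤ m then (m : ℝ) ^ k else 0) * (1 - D⁻¹) ^ m
      ≤ q ^ a * ((m : ℝ) ^ k * q ^ m) := by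
    intro m
    split_ifs with h
    · have e : (1 - D⁻¹) ^ m ≤ q ^ m * q ^ m := by
        rw [← mul_pow]
        exact pow_le_pow_left₀ hθ.le hqq m
      have e2 : q ^ m ≤ q ^ a := pow_le_pow_of_le_one hq0.le hq1.le h
      calc (m : ℝ) ^ k * (1 - D⁻¹) ^ m ≤ (m : ℝ) ^ k * (q ^ m * q ^ m) := by gcongr
        _ ≤ (m : ℝ) ^ k * (q ^ a * q ^ m) := by gcongr
        _ = _ := by ring
    · rw [zero_mul]; positivity
  have hs2 : Summable fun m : ℕ => (if a ≤ m then (m : ℝ) ^ k else 0) * (1 - D⁻¹) ^ m :=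
    Summable.of_nonneg_of_le (fun m => by split_ifs <;> positivity) key (hs.mul_left _)
  have h1 := GSum.sum_le hG (by linarith) hθ.le (F := fun m => if a ≤ m then (m : ℝ) ^ k else 0)
    (fun m => by split_ifs <;> positivity) hs2
  have h3 : ∑ i ∈ G.S.filter (fun i => a ≤ i.1), (i.1 : ℝ) ^ k * (G.rho ^ i.1 * G.tot i)
      = ∑ i ∈ G.S, (if a ≤ i.1 then (i.1 : ℝ) ^ k else 0) * (G.rho ^ i.1 * G.tot i) := by
    rw [Finset.sum_filter]
    refine Finset.sum_congr rfl fun i _ => ?_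
    split_ifs <;> simp
  rw [h3]
  refine h1.trans ?_
  have h4 : ∑' m : ℕ, (if a ≤ m then (m : ℝ) ^ k else 0) * (1 - D⁻¹) ^ m
      ≤ q ^ a * ∑' m : ℕ, (m : ℝ) ^ k * q ^ m := by
    rw [← tsum_mul_left]
    exact hs2.tsum_le_tsum key (hs.mul_left _)
  calc D * ∑' m : ℕ, (if a ≤ m then (m : ℝ) ^ k else 0) * (1 - D⁻¹) ^ m
      ≤ D * (q ^ a * ∑' m : ℕ, (m : ℝ) ^ k * q ^ m) :=
        mul_le_mul_of_nonneg_left h4 (by linarith)
    _ = (D * ∑' m : ℕ, (m : ℝ) ^ k * q ^ m) * q ^ a := by ring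
    _ ≤ _ := mul_le_mul_of_nonneg_right (hK D hD) (by positivity)

/-- the three parameters of a kernel of the class -/
lemma par_bounds : ∃ K : ℕ, ∀ D : ℝ, 2 ≤ D → ∀ G : GapKernel, Cls D (1 - D⁻¹) G →
    1 ≤ G.mbar ∧ G.mbar ≤ D ^ K ∧ 1 ≤ G.hbar ∧ G.hbar ≤ D ^ K ∧ D⁻¹ ≤ G.sig2 ∧
      G.sig2 ≤ D ^ K := by
  obtain ⟨K1, h1⟩ := sum_pow 1
  obtain ⟨K2, h2⟩ := sum_pow 2
  refine ⟨K1 + K2 + 2, fun D hD G hG => ?_⟩
  have hD1 : (1 : ℝ) ≤ D := by linarith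
  have hrho := G.rho_pos
  have hrt : ∀ i : ℕ × ℕ, 0 ≤ G.rho ^ i.1 * G.tot i := fun i => GSum.rt_nonneg G i
  have p1 : D ^ K1 ≤ D ^ (K1 + K2 + 2) := pow_le_pow_right₀ hD1 (by omega)
  have hm1 : 1 ≤ G.mbar := by
    rw [← GSum.crit' G]
    unfold GapKernel.mbar
    refine Finset.sum_le_sum fun i hi => ?_
    have h1 : (1 : ℝ) ≤ i.1 := by exact_mod_cast (G.pos_mem i hi).1
    have h2 := hrt i
    nlinarith
  have hm2 : G.mbar ≤ D ^ (K1 + K2 + 2) := by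
    refine le_trans (le_of_eq ?_) ((h1 D hD G hG).trans p1)
    unfold GapKernel.mbar
    refine Finset.sum_congr rfl fun i _ => ?_
    ring
  have hh1 : 1 ≤ G.hbar := by
    rw [← GSum.crit' G]
    unfold GapKernel.hbar
    refine Finset.sum_le_sum fun i hi => ?_
    have h1 : (1 : ℝ) ≤ i.2 := by exact_mod_cast (G.pos_mem i hi).2
    have h2 := hrt i
    nlinarith
  have hh2 : G.hbar ≤ G.mbar := by
    unfold GapKernel.hbar GapKernel.mbar
    refine Finset.sum_le_sum fun i hi => ?_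
    have h1 : (i.2 : ℝ) ≤ i.1 := by exact_mod_cast hG.loc.h_le i hi
    have h2 := hrt i
    nlinarith
  refine ⟨hm1, hm2, hh1, hh2.trans hm2, ?_, ?_⟩
  · refine hG.rho_ge.trans ?_
    have hR := GSum.one_le_R G
    have h : G.rho ^ 1 * ∑ d ∈ Icc (-(G.R : ℤ)) G.R, (d : ℝ) ^ 2 * G.T (1, 1) d ≤ G.sig2 := by
      refine Finset.single_le_sum (f := fun i : ℕ × ℕ => G.rho ^ i.1 *
        ∑ d ∈ Icc (-(G.R : ℤ)) G.R, (d : ℝ) ^ 2 * G.T i d) ?_ G.i0_mem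
      intro i _
      have h2 : 0 ≤ ∑ d ∈ Icc (-(G.R : ℤ)) G.R, (d : ℝ) ^ 2 * G.T i d :=
        Finset.sum_nonneg fun d _ => mul_nonneg (sq_nonneg _) (G.T_nonneg i d)
      positivity
    have h1 : (1 : ℝ) ≤ ∑ d ∈ Icc (-(G.R : ℤ)) G.R, (d : ℝ) ^ 2 * G.T (1, 1) d := by
      have h3 : ((1 : ℤ) : ℝ) ^ 2 * G.T (1, 1) 1 ≤
          ∑ d ∈ Icc (-(G.R : ℤ)) G.R, (d : ℝ) ^ 2 * G.T (1, 1) d := by
        refine Finset.single_le_sum (f := fun d : ℤ => (d : ℝ) ^ 2 * G.T (1, 1) d)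
          (fun d _ => mul_nonneg (sq_nonneg _) (G.T_nonneg _ d)) ?_
        rw [Finset.mem_Icc]
        omega
      have h4 := G.T_b
      norm_num at h3
      linarith
    nlinarith
  · have h3 : G.sig2 ≤ 4 * ∑ i ∈ G.S, (i.1 : ℝ) ^ 2 * (G.rho ^ i.1 * G.tot i) := by
      unfold GapKernel.sig2
      rw [Finset.mul_sum]
      refine Finset.sum_le_sum fun i _ => ?_
      have h4 : ∑ d ∈ Icc (-(G.R : ℤ)) G.R, (d : ℝ) ^ 2 * G.T i d ≤
          4 * (i.1 : ℝ) ^ 2 * G.tot i := by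
        unfold GapKernel.tot
        rw [Finset.mul_sum]
        refine Finset.sum_le_sum fun d _ => ?_
        rcases lt_or_ge (2 * (i.1 : ℤ)) |d| with h5 | h5
        · rw [hG.loc.T_loc i d h5]
          simp
        · refine mul_le_mul_of_nonneg_right ?_ (G.T_nonneg i d)
          have h6 : |(d : ℝ)| ≤ 2 * (i.1 : ℝ) := by exact_mod_cast h5
          rw [← sq_abs]
          calc |(d : ℝ)| ^ 2 ≤ (2 * (i.1 : ℝ)) ^ 2 := pow_le_pow_left₀ (abs_nonneg _) h6 2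
            _ = _ := by ring
      calc G.rho ^ i.1 * ∑ d ∈ Icc (-(G.R : ℤ)) G.R, (d : ℝ) ^ 2 * G.T i d
          ≤ G.rho ^ i.1 * (4 * (i.1 : ℝ) ^ 2 * G.tot i) :=
            mul_le_mul_of_nonneg_left h4 (by positivity)
        _ = _ := by ring
    have h5 := h2 D hD G hG
    have h6 : (4 : ℝ) ≤ D ^ 2 := by nlinarith
    have h7 : 0 ≤ D ^ K2 := by positivity
    calc G.sig2 ≤ 4 * D ^ K2 := h3.trans (by linarith)
      _ ≤ D ^ 2 * D ^ K2 := mul_le_mul_of_nonneg_right h6 h7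
      _ = D ^ (2 + K2) := (pow_add _ _ _).symm
      _ ≤ _ := pow_le_pow_right₀ hD1 (by omega)

end Pool.Agent.TPK
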