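import Pool.Agent.TPK.Basic

/-! Elementary inequalities for the modules SUP and W. -/

set_option autoImplicit false

open Finset Filter Topology

namespace Pool.Agent.TPK

open Pool.Agent.Gap

namespace H22

lemma En_nonneg (N : ℕ) (f : ℤ → ℂ) : 0 ≤ En N f :=
  Finset.sum_nonneg fun _ _ => sq_nonneg _

lemma nsq_nonneg (N : ℕ) (f : ℤ → ℂ) : 0 ≤ nsq N f :=
  Finset.sum_nonneg fun _ _ => sq_nonneg _

lemma l1_nonneg (R' : ℕ) (e : ℤ → ℂ) : 0 ≤ l1 R' e :=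
  Finset.sum_nonneg fun _ _ => norm_nonneg _

lemma Pot_nonneg {eps : ℝ} (h : 0 ≤ eps) (N : ℕ) (f : ℤ → ℂ) : 0 ≤ Pot eps N f := by
  refine Finset.sum_nonneg fun g hg => mul_nonneg ?_ (sq_nonneg _)
  rw [Finset.mem_Icc] at hg
  have h1 : (0 : ℝ) ≤ g := by exact_mod_cast (by omega : (0 : ℤ) ≤ g)
  have : Real.exp (-(eps * (g : ℝ))) ≤ 1 := by
    rw [Real.exp_le_one_iff]
    nlinarith
  linarith

lemma telescope (f : ℤ → ℂ) (a : ℤ) (n : ℕ) :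
    ‖f (a + n) - f a‖ ^ 2 ≤ n * ∑ j ∈ range n, ‖f (a + j + 1) - f (a + j)‖ ^ 2 := by
  have h1 : f (a + n) - f a = ∑ j ∈ range n, (f (a + j + 1) - f (a + j)) := by
    have h2 := Finset.sum_range_sub (fun j : ℕ => f (a + j)) n
    simp only [Nat.cast_zero, add_zero] at h2
    rw [← h2]
    refine Finset.sum_congr rfl fun j _ => ?_
    rw [Nat.cast_add, Nat.cast_one, add_assoc]
  rw [h1]
  calc ‖∑ j ∈ range n, (f (a + j + 1) - f (a + j))‖ ^ 2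
      ≤ (∑ j ∈ range n, ‖f (a + j + 1) - f (a + j)‖) ^ 2 := by
        gcongr
        exact norm_sum_le _ _
    _ ≤ (range n).card * ∑ j ∈ range n, ‖f (a + j + 1) - f (a + j)‖ ^ 2 :=
        sq_sum_le_card_mul_sum_sq
    _ = n * ∑ j ∈ range n, ‖f (a + j + 1) - f (a + j)‖ ^ 2 := by rw [Finset.card_range]

lemma diff_zero {N : ℕ} {f : ℤ → ℂ} (hf : Supp N f) (x : ℤ) (hx : x < 0 ∨ (N : ℤ) < x) :
    f (x + 1) - f x = 0 := by
  rcases hx with hx | hx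
  · rw [hf x (by omega), hf (x + 1) (by omega), sub_zero]
  · rw [hf x (by omega), hf (x + 1) (by omega), sub_zero]

lemma sum_D_shift {N : ℕ} {f : ℤ → ℂ} (hf : Supp N f) (s : Finset ℤ) (t : ℤ) :
    ∑ g ∈ s, ‖f (g + t + 1) - f (g + t)‖ ^ 2 ≤ En N f := by
  classical
  have h1 : ∑ g ∈ s, ‖f (g + t + 1) - f (g + t)‖ ^ 2 =
      ∑ x ∈ s.image (fun g => g + t), ‖f (x + 1) - f x‖ ^ 2 := by
    rw [Finset.sum_image]
    intro a _ b _ h
    simpa using h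
  rw [h1]
  have h2 : ∑ x ∈ s.image (fun g => g + t), ‖f (x + 1) - f x‖ ^ 2 =
      ∑ x ∈ (s.image (fun g => g + t)).filter (fun x => x ∈ Icc (0 : ℤ) N),
        ‖f (x + 1) - f x‖ ^ 2 := by
    rw [Finset.sum_filter]
    refine Finset.sum_congr rfl fun x _ => ?_
    split_ifs with h
    · rfl
    · rw [Finset.mem_Icc] at h
      rw [diff_zero hf x (by omega)]
      simp
  rw [h2]
  exact Finset.sum_le_sum_of_subset_of_nonneg
    (fun x hx => (Finset.mem_filter.mp hx).2) fun _ _ _ => sq_nonneg _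

lemma shift_le {N : ℕ} {f : ℤ → ℂ} (hf : Supp N f) (s : Finset ℤ) (d : ℤ) :
    ∑ g ∈ s, ‖f (g + d) - f g‖ ^ 2 ≤ (d : ℝ) ^ 2 * En N f := by
  obtain ⟨n, hn⟩ := Int.eq_nat_or_neg d
  have key : ∀ (t : ℤ) (n : ℕ), ∑ g ∈ s, ‖f (g + t + n) - f (g + t)‖ ^ 2 ≤ (n : ℝ) ^ 2 * En N f := by
    intro t n
    calc ∑ g ∈ s, ‖f (g + t + n) - f (g + t)‖ ^ 2
        ≤ ∑ g ∈ s, (n : ℝ) * ∑ j ∈ range n, ‖f (g + t + j + 1) - f (g + t + j)‖ ^ 2 :=
          Finset.sum_le_sum fun g _ => telescope f (g + t) n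
      _ = (n : ℝ) * ∑ j ∈ range n, ∑ g ∈ s, ‖f (g + (t + j) + 1) - f (g + (t + j))‖ ^ 2 := by
          rw [← Finset.mul_sum, Finset.sum_comm]
          simp only [add_assoc]
      _ ≤ (n : ℝ) * ∑ j ∈ range n, En N f := by
          gcongr with j _
          exact sum_D_shift hf s (t + j)
      _ = (n : ℝ) ^ 2 * En N f := by
          rw [Finset.sum_const, Finset.card_range, nsmul_eq_mul]
          ring
  rcases hn with rfl | rfl
  · have := key 0 n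
    simpa using this
  · have := key (-(n : ℤ)) n
    calc ∑ g ∈ s, ‖f (g + -(n : ℤ)) - f g‖ ^ 2
        = ∑ g ∈ s, ‖f (g + -(n : ℤ) + n) - f (g + -(n : ℤ))‖ ^ 2 := by
          refine Finset.sum_congr rfl fun g _ => ?_
          rw [norm_sub_rev]
          congr 4
          ring
      _ ≤ _ := by
          refine this.trans (le_of_eq ?_)
          push_cast
          ring

lemma normsq_le_En {N : ℕ} {f : ℤ → ℂ} (hf : Supp N f) (g : ℤ) (hg : 0 ≤ g) :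
    ‖f g‖ ^ 2 ≤ (g : ℝ) * En N f := by
  obtain ⟨n, rfl⟩ := Int.eq_ofNat_of_zero_le hg
  have h0 : f 0 = 0 := hf 0 (by omega)
  have h1 := telescope f 0 n
  rw [h0, sub_zero, zero_add] at h1
  refine h1.trans ?_
  push_cast
  gcongr
  have h2 := sum_D_shift hf ((range n).map ⟨fun j : ℕ => (j : ℤ), Nat.cast_injective⟩) 0
  rw [Finset.sum_map] at h2
  simpa using h2

end H22

namespace GapKernel

variable (G : GapKernel)

/-- free critical kernel -/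
noncomputable def kk (d : ℤ) : ℝ := ∑ i ∈ G.S, G.rho ^ i.1 * G.T i d

lemma kk_nonneg (d : ℤ) : 0 ≤ G.kk d :=
  Finset.sum_nonneg fun i _ => mul_nonneg (pow_nonneg G.rho_pos.le _) (G.T_nonneg i d)

lemma kk_even (d : ℤ) : G.kk (-d) = G.kk d :=
  Finset.sum_congr rfl fun i _ => by rw [G.T_even]

lemma kk_range (d : ℤ) (h : (G.R : ℤ) < |d|) : G.kk d = 0 :=
  Finset.sum_eq_zero fun i _ => by rw [G.T_range i d h, mul_zero]

lemma kk_comm (g g' : ℤ) : G.kk (g' - g) = G.kk (g - g') := by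
  rw [← G.kk_even, neg_sub]

lemma sum_kk_shift (g : ℤ) (s : Finset ℤ) : ∑ g' ∈ s, G.kk (g' - g) ≤ 1 := by
  rw [← G.crit']
  unfold kk
  rw [Finset.sum_comm]
  refine Finset.sum_le_sum fun i _ => ?_
  rw [← Finset.mul_sum]
  exact mul_le_mul_of_nonneg_left (G.sum_T_shift i g s) (pow_nonneg G.rho_pos.le _)

lemma sum_kk_shift' (g' : ℤ) (s : Finset ℤ) : ∑ g ∈ s, G.kk (g' - g) ≤ 1 := by
  simp_rw [fun g => G.kk_comm g g']
  exact G.sum_kk_shift g' s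

lemma Kc_nonneg (g g' : ℤ) : 0 ≤ G.Kc g g' :=
  Finset.sum_nonneg fun i _ => mul_nonneg (pow_nonneg G.rho_pos.le _) (G.K_nonneg i g g')

lemma Kc_symm (g g' : ℤ) : G.Kc g g' = G.Kc g' g :=
  Finset.sum_congr rfl fun i _ => by rw [G.K_symm]

lemma Kc_le (g g' : ℤ) : G.Kc g g' ≤ G.kk (g' - g) :=
  Finset.sum_le_sum fun i _ => mul_le_mul_of_nonneg_left (G.K_le i g g') (pow_nonneg G.rho_pos.le _)

lemma sum_Kc_le (g : ℤ) (s : Finset ℤ) : ∑ g' ∈ s, G.Kc g g' ≤ 1 :=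
  (Finset.sum_le_sum fun g' _ => G.Kc_le g g').trans (G.sum_kk_shift g s)

lemma wt_nonneg (eps : ℝ) (i : ℕ × ℕ) (g g' : ℤ) : 0 ≤ wt eps i g g' := (Real.exp_pos _).le

lemma wt_le_one {eps : ℝ} (h : 0 ≤ eps) (i : ℕ × ℕ) (g g' : ℤ) (hg : 0 ≤ g) (hg' : 0 ≤ g') :
    wt eps i g g' ≤ 1 := by
  unfold wt
  rw [Real.exp_le_one_iff]
  have h1 : (0 : ℝ) ≤ g := by exact_mod_cast hg
  have h2 : (0 : ℝ) ≤ g' := by exact_mod_cast hg'
  have : 0 ≤ eps * (i.2 : ℝ) * ((g : ℝ) + (g' : ℝ)) := by positivity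
  linarith

lemma wt_comm (eps : ℝ) (i : ℕ × ℕ) (g g' : ℤ) : wt eps i g g' = wt eps i g' g := by
  unfold wt
  rw [add_comm (g : ℝ)]

lemma Kz_symm (j : ℕ) (eps : ℝ) (z : ℂ) (g g' : ℤ) : G.Kz j eps z g g' = G.Kz j eps z g' g :=
  Finset.sum_congr rfl fun i _ => by rw [G.K_symm, wt_comm]

lemma norm_Kz_le {eps : ℝ} (h : 0 ≤ eps) {z : ℂ} (hz : ‖z‖ ≤ G.rho) (g g' : ℤ) (hg : 0 ≤ g)
    (hg' : 0 ≤ g') : ‖G.Kz 0 eps z g g'‖ ≤ G.Kc g g' := by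
  refine (norm_sum_le _ _).trans (Finset.sum_le_sum fun i _ => ?_)
  rw [pow_zero, one_mul, norm_mul, norm_pow, Complex.norm_real, Real.norm_eq_abs,
    abs_of_nonneg (mul_nonneg (G.K_nonneg i g g') (wt_nonneg _ _ _ _))]
  have h1 : ‖z‖ ^ i.1 ≤ G.rho ^ i.1 := pow_le_pow_left₀ (norm_nonneg _) hz _
  have h2 : G.K i g g' * wt eps i g g' ≤ G.K i g g' :=
    mul_le_of_le_one_right (G.K_nonneg i g g') (wt_le_one h i g g' hg hg')
  exact mul_le_mul h1 h2 (mul_nonneg (G.K_nonneg i g g') (wt_nonneg _ _ _ _))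
    (pow_nonneg G.rho_pos.le _)

lemma Kz_crit (g g' : ℤ) : G.Kz 0 0 (G.rho : ℂ) g g' = ((G.Kc g g' : ℝ) : ℂ) := by
  unfold Kz Kc
  push_cast
  refine Finset.sum_congr rfl fun i _ => ?_
  simp [wt]

/-- weighted energy of differences -/
lemma sum_kk_diff {N : ℕ} {f : ℤ → ℂ} (hf : Supp N f) :
    ∑ g ∈ Icc (1 : ℤ) N, ∑ g' ∈ Icc (1 : ℤ) N, G.kk (g' - g) * ‖f g' - f g‖ ^ 2
      ≤ (G.R : ℝ) ^ 2 * En N f := by
  classical
  have h1 : ∀ g : ℤ, ∑ g' ∈ Icc (1 : ℤ) N, G.kk (g' - g) * ‖f g' - f g‖ ^ 2 ≤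
      ∑ d ∈ Icc (-(G.R : ℤ)) G.R, G.kk d * ‖f (g + d) - f g‖ ^ 2 := by
    intro g
    have h2 : ∑ g' ∈ Icc (1 : ℤ) N, G.kk (g' - g) * ‖f g' - f g‖ ^ 2 =
        ∑ g' ∈ (Icc (1 : ℤ) N).filter (fun g' => |g' - g| ≤ (G.R : ℤ)),
          G.kk (g' - g) * ‖f g' - f g‖ ^ 2 := by
      rw [Finset.sum_filter]
      refine Finset.sum_congr rfl fun g' _ => ?_
      split_ifs with h
      · rfl
      · rw [G.kk_range _ (not_le.mp h), zero_mul]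
    have h3 : ∑ g' ∈ (Icc (1 : ℤ) N).filter (fun g' => |g' - g| ≤ (G.R : ℤ)),
          G.kk (g' - g) * ‖f g' - f g‖ ^ 2 =
        ∑ d ∈ ((Icc (1 : ℤ) N).filter (fun g' => |g' - g| ≤ (G.R : ℤ))).image (fun g' => g' - g),
          G.kk d * ‖f (g + d) - f g‖ ^ 2 := by
      rw [Finset.sum_image]
      · refine Finset.sum_congr rfl fun g' _ => ?_
        rw [add_sub_cancel]
      · intro a _ b _ h
        simpa using h
    rw [h2, h3]
    refine Finset.sum_le_sum_of_subset_of_nonneg ?_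
      (fun d _ _ => mul_nonneg (G.kk_nonneg d) (sq_nonneg _))
    intro d hd
    simp only [Finset.mem_image, Finset.mem_filter] at hd
    obtain ⟨g', ⟨_, h⟩, rfl⟩ := hd
    rw [Finset.mem_Icc]
    exact abs_le.mp h
  calc ∑ g ∈ Icc (1 : ℤ) N, ∑ g' ∈ Icc (1 : ℤ) N, G.kk (g' - g) * ‖f g' - f g‖ ^ 2
      ≤ ∑ g ∈ Icc (1 : ℤ) N, ∑ d ∈ Icc (-(G.R : ℤ)) G.R, G.kk d * ‖f (g + d) - f g‖ ^ 2 :=
        Finset.sum_le_sum fun g _ => h1 g
    _ = ∑ d ∈ Icc (-(G.R : ℤ)) G.R, G.kk d * ∑ g ∈ Icc (1 : ℤ) N, ‖f (g + d) - f g‖ ^ 2 := by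
        rw [Finset.sum_comm]
        simp_rw [Finset.mul_sum]
    _ ≤ ∑ d ∈ Icc (-(G.R : ℤ)) G.R, G.kk d * ((G.R : ℝ) ^ 2 * En N f) := by
        refine Finset.sum_le_sum fun d hd => mul_le_mul_of_nonneg_left ?_ (G.kk_nonneg d)
        refine (H22.shift_le hf _ d).trans (mul_le_mul_of_nonneg_right ?_ (H22.En_nonneg N f))
        rw [Finset.mem_Icc] at hd
        have h3 : |(d : ℝ)| ≤ (G.R : ℝ) := by
          have : |d| ≤ (G.R : ℤ) := abs_le.mpr hd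
          exact_mod_cast this
        rw [← sq_abs]
        exact pow_le_pow_left₀ (abs_nonneg _) h3 2
    _ = (∑ d ∈ Icc (-(G.R : ℤ)) G.R, G.kk d) * ((G.R : ℝ) ^ 2 * En N f) := by
        rw [Finset.sum_mul]
    _ ≤ 1 * ((G.R : ℝ) ^ 2 * En N f) := by
        refine mul_le_mul_of_nonneg_right ?_ (mul_nonneg (sq_nonneg _) (H22.En_nonneg N f))
        have := G.sum_kk_shift 0 (Icc (-(G.R : ℤ)) G.R)
        simpa using this
    _ = (G.R : ℝ) ^ 2 * En N f := one_mul _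

/-- Schur test -/
lemma schur_kk (s : Finset ℤ) (b : ℤ → ℝ) :
    ∑ g ∈ s, ∑ g' ∈ s, G.kk (g' - g) * (b g * b g') ≤ ∑ g ∈ s, b g ^ 2 := by
  have h1 : ∀ g g' : ℤ, G.kk (g' - g) * (b g * b g') ≤
      (1 / 2) * (G.kk (g' - g) * b g ^ 2) + (1 / 2) * (G.kk (g' - g) * b g' ^ 2) := by
    intro g g'
    nlinarith [mul_nonneg (G.kk_nonneg (g' - g)) (sq_nonneg (b g - b g'))]
  have h2 : ∑ g ∈ s, ∑ g' ∈ s, G.kk (g' - g) * b g ^ 2 ≤ ∑ g ∈ s, b g ^ 2 := by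
    refine Finset.sum_le_sum fun g _ => ?_
    rw [← Finset.sum_mul]
    have := G.sum_kk_shift g s
    nlinarith [sq_nonneg (b g)]
  have h3 : ∑ g ∈ s, ∑ g' ∈ s, G.kk (g' - g) * b g' ^ 2 ≤ ∑ g ∈ s, b g ^ 2 := by
    rw [Finset.sum_comm]
    refine Finset.sum_le_sum fun g _ => ?_
    rw [← Finset.sum_mul]
    have := G.sum_kk_shift' g s
    nlinarith [sq_nonneg (b g)]
  calc ∑ g ∈ s, ∑ g' ∈ s, G.kk (g' - g) * (b g * b g')
      ≤ ∑ g ∈ s, ∑ g' ∈ s, ((1 / 2) * (G.kk (g' - g) * b g ^ 2) +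
          (1 / 2) * (G.kk (g' - g) * b g' ^ 2)) :=
        Finset.sum_le_sum fun g _ => Finset.sum_le_sum fun g' _ => h1 g g'
    _ = (1 / 2) * ∑ g ∈ s, ∑ g' ∈ s, G.kk (g' - g) * b g ^ 2 +
        (1 / 2) * ∑ g ∈ s, ∑ g' ∈ s, G.kk (g' - g) * b g' ^ 2 := by
        simp only [Finset.sum_add_distrib, Finset.mul_sum]
    _ ≤ _ := by linarith

end GapKernel

end Pool.Agent.TPK
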