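import Pool.Agent.TPK.GC2
import Pool.Agent.TPK.GC
import Pool.Agent.TPK.GRE
import Pool.Agent.TPK.GSUP
import Pool.Agent.TPK.GW
import Pool.Agent.TPK.GV
import Pool.Agent.TPK.GVL
import Pool.Agent.TPK.GEB
import Pool.Agent.TPK.GE
import Pool.Agent.TPK.GJ2
import Pool.Agent.TPK.GM2
import Pool.Agent.TPK.GLT
import Pool.Agent.TPK.GFIN
import Pool.Agent.Lib_helper79.Gap.Main
import Pool.Agent.Lib_helper62.Gap.BAL

/-!
# Two points (MP_f6626d_co): the analysis half, final theorem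
-/

set_option autoImplicit false

namespace Pool.Agent.TPK

/-- the old analysis (finite range, used for the staircase kernel) -/
theorem old_gap : Gap.LT_Stmt ∧ Gap.LT1_Stmt ∧ Gap.M2_Stmt ∧ Gap.BAL_Stmt ∧ Gap.ST1_Stmt ∧
    Gap.SUP_Stmt ∧ Gap.W_Stmt := by
  have hC2 : Gap.C2_Stmt := Gap.C2
  have hC : Gap.C_Stmt := Gap.C hC2
  have hRE : Gap.RE_Stmt := Gap.RE hC
  have hSUP : Gap.SUP_Stmt := Gap.SUP hC
  have hW : Gap.W_Stmt := Gap.W hC
  have hJ1 : Gap.J1_Stmt := Gap.J1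
  have hJ2 : Gap.J2_Stmt := Gap.J2 hC2 hC hRE
  have hVEX : Gap.VEX_Stmt := Gap.VEX hRE hSUP
  have hVLIM : Gap.VLIM_Stmt := Gap.VLIM
  have hST : Gap.ST1_Stmt := Gap.ST1 hC
  have hEB : Gap.EB_Stmt := Gap.EB
  have hX : Gap.X_Stmt := Gap.X
  have hX1 : Gap.X1_Stmt := Gap.X1
  have hB1 : Gap.B1_Stmt := Gap.B1
  have hE : Gap.E_Stmt := Gap.E hRE hSUP hW hVEX hVLIM hST hEB
  have hLT : Gap.LT_Stmt := Gap.LT hE hSUP hW hJ1 hJ2 hX hB1
  have hLT1 : Gap.LT1_Stmt := Gap.LT1 Gap.LIM2 hJ1 hJ2 hX1 hB1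
  have hM2 : Gap.M2_Stmt := Gap.M2 hW
  exact ⟨hLT, hLT1, hM2, Gap.BAL, hST, hSUP, hW⟩

/-- The uniform local limit theorem for the kernels of the class. -/
theorem glt_main : GLT_Stmt := by
  have hC2 : GC2_Stmt := gc2
  have hC : GC_Stmt := GC.gc hC2
  have hRE : GRE_Stmt := gre hC
  have hSUP : GSUP_Stmt := gsup hC hRE
  have hW : GW_Stmt := gw hC hSUP
  have hJ2 : GJ2_Stmt := GJ2.gj2 hC2 hC hRE hSUP hW
  have hV : GV_Stmt := gv hRE hSUP
  obtain ⟨oLT, oLT1, oM2, oBAL, oST, oSUP, oW⟩ := old_gap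
  exact glt (ge hRE hSUP hW hV gvl oST geb oSUP oW) hJ2

/-- GFINE : the staircase law is the limit law of all sequences of models of the
direction. -/
theorem gfine_main : GFINE_Stmt := by
  have hC2 : GC2_Stmt := gc2
  have hC : GC_Stmt := GC.gc hC2
  have hRE : GRE_Stmt := gre hC
  have hSUP : GSUP_Stmt := gsup hC hRE
  have hW : GW_Stmt := gw hC hSUP
  have hM2 : GM2_Stmt := gm2 hC2 hRE hSUP hW
  obtain ⟨oLT, oLT1, oM2, oBAL, oST, oSUP, oW⟩ := old_gap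
  exact GFIN.gfin glt_main hM2 oLT oLT1 oM2 oBAL

end Pool.Agent.TPK
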