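import Pool.Agent.TPK.OC2
import Pool.Agent.TPK.Basic
import Pool.Agent.Lib_helper62.Gap.C

set_option autoImplicit false

open Finset Filter Topology

namespace Pool.Agent.TPK.H62

open Pool.Agent.Gap

variable (G : GapKernel)

lemma conv_real {N : ℕ} {F H : ℤ → ℝ} (hF : ∀ g : ℤ, (g < 1 ∨ (N : ℤ) < g) → F g = 0)
    (hH : ∀ g : ℤ, (g < 1 ∨ (N : ℤ) < g) → H g = 0) (i : ℕ × ℕ) :
    ∑ g ∈ Icc (1 : ℤ) N, ∑ g' ∈ Icc (1 : ℤ) N, G.T i (g' - g) * F g * H g'
      ≤ G.tot i * (Real.sqrt (∑ g ∈ Icc (1 : ℤ) N, F g ^ 2) *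
        Real.sqrt (∑ g ∈ Icc (1 : ℤ) N, H g ^ 2)) := by
  have hFfs : FS F := ⟨Icc 1 (N : ℤ), fun g hg => hF g (by rw [Finset.mem_Icc] at hg; omega)⟩
  have hHfs : FS H := ⟨Icc 1 (N : ℤ), fun g hg => hH g (by rw [Finset.mem_Icc] at hg; omega)⟩
  have ts : ∀ {X Y : ℤ → ℝ}, (∀ g : ℤ, (g < 1 ∨ (N : ℤ) < g) → X g = 0) →
      (∀ g, X g = 0 → Y g = 0) → ∑' g, Y g = ∑ g ∈ Icc (1 : ℤ) N, Y g := by
    intro X Y hX hY
    exact tsum_eq_sum (fun g hg => hY g (hX g (by rw [Finset.mem_Icc] at hg; omega)))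
  have h1 : ∀ g : ℤ, ∑ g' ∈ Icc (1 : ℤ) N, G.T i (g' - g) * F g * H g'
      = ∑ d ∈ Icc (-(G.R : ℤ)) G.R, G.T i d * (F g * H (g + d)) := by
    intro g
    rw [← ts (Y := fun g' => G.T i (g' - g) * F g * H g') hH (fun g' hg' => by simp [hg'])]
    rw [← tsum_shift (fun g' => G.T i (g' - g) * F g * H g') g]
    have e : ∀ d : ℤ, G.T i (d + g - g) * F g * H (d + g)
        = G.T i d * (F g * H (g + d)) := by
      intro d
      rw [add_sub_cancel_right, add_comm d g]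
      ring
    simp only [e]
    apply tsum_eq_sum
    intro d hd
    rw [Finset.mem_Icc] at hd
    have : (G.R : ℤ) < |d| := by
      rcases le_total 0 d with h0 | h0
      · rw [abs_of_nonneg h0]; omega
      · rw [abs_of_nonpos h0]; omega
    rw [G.T_range i d this]
    simp
  simp only [h1]
  rw [Finset.sum_comm]
  unfold GapKernel.tot
  rw [Finset.sum_mul]
  refine Finset.sum_le_sum fun d _ => ?_
  rw [← Finset.mul_sum]
  apply mul_le_mul_of_nonneg_left _ (G.T_nonneg i d)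
  rw [← ts (Y := fun g => F g * H (g + d)) hF (fun g hg => by simp [hg])]
  refine (csr hFfs (hHfs.shift d)).trans ?_
  rw [tsum_shift (fun g => H g ^ 2) d, ts (Y := fun g => F g ^ 2) hF (fun g hg => by simp [hg]),
    ts (Y := fun g => H g ^ 2) hH (fun g hg => by simp [hg])]

/-- the sesquilinear form of a piece type -/
noncomputable def B (eps : ℝ) (N : ℕ) (i : ℕ × ℕ) (f : ℤ → ℂ) : ℂ :=
  ∑ g ∈ Icc (1 : ℤ) N, ∑ g' ∈ Icc (1 : ℤ) N,
    ((G.K i g g' * GapKernel.wt eps i g g' : ℝ) : ℂ) * (starRingEnd ℂ) (f g) * f g'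

lemma wt_symm (eps : ℝ) (i : ℕ × ℕ) (g g' : ℤ) :
    GapKernel.wt eps i g g' = GapKernel.wt eps i g' g := by
  unfold GapKernel.wt
  rw [add_comm (g : ℝ) (g' : ℝ)]

lemma wt_nonneg (eps : ℝ) (i : ℕ × ℕ) (g g' : ℤ) : 0 ≤ GapKernel.wt eps i g g' :=
  (Real.exp_pos _).le

lemma wt_le_one {eps : ℝ} (he : 0 ≤ eps) (i : ℕ × ℕ) {g g' : ℤ} (h1 : 0 ≤ g) (h2 : 0 ≤ g') :
    GapKernel.wt eps i g g' ≤ 1 := by
  unfold GapKernel.wt
  apply Real.exp_le_one_iff.2
  have h1 : (0:ℝ) ≤ g := by exact_mod_cast h1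
  have h2 : (0:ℝ) ≤ g' := by exact_mod_cast h2
  have : 0 ≤ eps * (i.2 : ℝ) * ((g : ℝ) + (g' : ℝ)) := by positivity
  linarith

lemma B_conj (eps : ℝ) (N : ℕ) (i : ℕ × ℕ) (f : ℤ → ℂ) :
    (starRingEnd ℂ) (B G eps N i f) = B G eps N i f := by
  unfold B
  rw [map_sum]
  simp only [map_sum]
  rw [Finset.sum_comm]
  refine Finset.sum_congr rfl fun g _ => Finset.sum_congr rfl fun g' _ => ?_
  rw [map_mul, map_mul, Complex.conj_ofReal, Complex.conj_conj, G.K_symm i g' g,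
    wt_symm eps i g' g]
  ring

lemma B_im (eps : ℝ) (N : ℕ) (i : ℕ × ℕ) (f : ℤ → ℂ) : (B G eps N i f).im = 0 :=
  Complex.conj_eq_iff_im.1 (B_conj G eps N i f)

lemma B_norm {eps : ℝ} (he : 0 ≤ eps) {N : ℕ} (i : ℕ × ℕ) {f : ℤ → ℂ} (hf : Supp N f) :
    ‖B G eps N i f‖ ≤ G.tot i * nsq N f := by
  unfold B
  have h0 : ∀ g : ℤ, (g < 1 ∨ (N : ℤ) < g) → ‖f g‖ = 0 := fun g hg => by rw [hf g hg, norm_zero]
  calc _ ≤ ∑ g ∈ Icc (1 : ℤ) N, ∑ g' ∈ Icc (1 : ℤ) N,
        ‖((G.K i g g' * GapKernel.wt eps i g g' : ℝ) : ℂ) * (starRingEnd ℂ) (f g) * f g'‖ :=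
        (norm_sum_le _ _).trans (Finset.sum_le_sum fun g _ => norm_sum_le _ _)
    _ ≤ ∑ g ∈ Icc (1 : ℤ) N, ∑ g' ∈ Icc (1 : ℤ) N, G.T i (g' - g) * ‖f g‖ * ‖f g'‖ := by
        refine Finset.sum_le_sum fun g hg => Finset.sum_le_sum fun g' hg' => ?_
        rw [Finset.mem_Icc] at hg hg'
        rw [norm_mul, norm_mul, Complex.norm_real, RCLike.norm_conj,
          Real.norm_of_nonneg (mul_nonneg (G.K_nonneg _ _ _) (wt_nonneg _ _ _ _))]
        apply mul_le_mul_of_nonneg_right _ (norm_nonneg _)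
        apply mul_le_mul_of_nonneg_right _ (norm_nonneg _)
        calc G.K i g g' * GapKernel.wt eps i g g' ≤ G.T i (g' - g) * 1 :=
              mul_le_mul (G.K_le _ _ _) (wt_le_one he i (by omega) (by omega))
                (wt_nonneg _ _ _ _) (G.T_nonneg _ _)
          _ = _ := mul_one _
    _ ≤ G.tot i * (Real.sqrt (∑ g ∈ Icc (1 : ℤ) N, ‖f g‖ ^ 2) *
        Real.sqrt (∑ g ∈ Icc (1 : ℤ) N, ‖f g‖ ^ 2)) := conv_real G h0 h0 i
    _ = _ := by
        rw [Real.mul_self_sqrt (Finset.sum_nonneg fun _ _ => by positivity)]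
        rfl

lemma form_eq (eps : ℝ) (z : ℂ) (N : ℕ) (f : ℤ → ℂ) :
    form N f (G.Lop eps z N f) = (nsq N f : ℂ) - ∑ i ∈ G.S, z ^ i.1 * B G eps N i f := by
  unfold form GapKernel.Lop GapKernel.Kap GapKernel.Kz nsq B
  push_cast
  have h1 : ∀ g : ℤ, (starRingEnd ℂ) (f g) * (f g - ∑ g' ∈ Icc (1 : ℤ) N,
      (∑ i ∈ G.S, ((i.1 : ℂ)) ^ 0 * z ^ i.1 * ((G.K i g g' : ℂ) * (GapKernel.wt eps i g g' : ℂ)))
        * f g')
      = (‖f g‖ : ℂ) ^ 2 - ∑ i ∈ G.S, z ^ i.1 * ∑ g' ∈ Icc (1 : ℤ) N,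
        ((G.K i g g' : ℂ) * (GapKernel.wt eps i g g' : ℂ)) * (starRingEnd ℂ) (f g) * f g' := by
    intro g
    rw [mul_sub, Complex.conj_mul']
    congr 1
    rw [Finset.mul_sum]
    simp only [Finset.sum_mul, Finset.mul_sum]
    rw [Finset.sum_comm]
    refine Finset.sum_congr rfl fun i _ => Finset.sum_congr rfl fun g' _ => ?_
    rw [pow_zero]
    ring
  simp only [h1]
  rw [Finset.sum_sub_distrib]
  congr 1
  rw [Finset.sum_comm]
  refine Finset.sum_congr rfl fun i _ => ?_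
  rw [Finset.mul_sum]

lemma one_le_R : 1 ≤ G.R := G.R_pos

/-- convolution bound for a general nonnegative function of finite range -/
lemma conv_gen {N R : ℕ} {T : ℤ → ℝ} (hT : ∀ d, 0 ≤ T d) (hR : ∀ d : ℤ, (R : ℤ) < |d| → T d = 0)
    {F H : ℤ → ℝ} (hF : ∀ g : ℤ, (g < 1 ∨ (N : ℤ) < g) → F g = 0)
    (hH : ∀ g : ℤ, (g < 1 ∨ (N : ℤ) < g) → H g = 0) :
    ∑ g ∈ Icc (1 : ℤ) N, ∑ g' ∈ Icc (1 : ℤ) N, T (g' - g) * F g * H g'
      ≤ (∑ d ∈ Icc (-(R : ℤ)) R, T d) * (Real.sqrt (∑ g ∈ Icc (1 : ℤ) N, F g ^ 2) *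
        Real.sqrt (∑ g ∈ Icc (1 : ℤ) N, H g ^ 2)) := by
  have hFfs : FS F := ⟨Icc 1 (N : ℤ), fun g hg => hF g (by rw [Finset.mem_Icc] at hg; omega)⟩
  have hHfs : FS H := ⟨Icc 1 (N : ℤ), fun g hg => hH g (by rw [Finset.mem_Icc] at hg; omega)⟩
  have ts : ∀ {X Y : ℤ → ℝ}, (∀ g : ℤ, (g < 1 ∨ (N : ℤ) < g) → X g = 0) →
      (∀ g, X g = 0 → Y g = 0) → ∑' g, Y g = ∑ g ∈ Icc (1 : ℤ) N, Y g := by
    intro X Y hX hY
    exact tsum_eq_sum (fun g hg => hY g (hX g (by rw [Finset.mem_Icc] at hg; omega)))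
  have h1 : ∀ g : ℤ, ∑ g' ∈ Icc (1 : ℤ) N, T (g' - g) * F g * H g'
      = ∑ d ∈ Icc (-(R : ℤ)) R, T d * (F g * H (g + d)) := by
    intro g
    rw [← ts (Y := fun g' => T (g' - g) * F g * H g') hH (fun g' hg' => by simp [hg'])]
    rw [← tsum_shift (fun g' => T (g' - g) * F g * H g') g]
    have e : ∀ d : ℤ, T (d + g - g) * F g * H (d + g)
        = T d * (F g * H (g + d)) := by
      intro d
      rw [add_sub_cancel_right, add_comm d g]
      ring
    simp only [e]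
    apply tsum_eq_sum
    intro d hd
    rw [Finset.mem_Icc] at hd
    have : (R : ℤ) < |d| := by
      rcases le_total 0 d with h0 | h0
      · rw [abs_of_nonneg h0]; omega
      · rw [abs_of_nonpos h0]; omega
    rw [hR d this]
    simp
  simp only [h1]
  rw [Finset.sum_comm, Finset.sum_mul]
  refine Finset.sum_le_sum fun d _ => ?_
  rw [← Finset.mul_sum]
  apply mul_le_mul_of_nonneg_left _ (hT d)
  rw [← ts (Y := fun g => F g * H (g + d)) hF (fun g hg => by simp [hg])]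
  refine (csr hFfs (hHfs.shift d)).trans ?_
  rw [tsum_shift (fun g => H g ^ 2) d, ts (Y := fun g => F g ^ 2) hF (fun g hg => by simp [hg]),
    ts (Y := fun g => H g ^ 2) hH (fun g hg => by simp [hg])]

/-- the form of a part `T0` of a piece type with height one -/
noncomputable def B0 (eps : ℝ) (N : ℕ) (T0 : ℤ → ℝ) (f : ℤ → ℂ) : ℂ :=
  ∑ g ∈ Icc (1 : ℤ) N, ∑ g' ∈ Icc (1 : ℤ) N,
    ((T0 (g' - g) * GapKernel.wt eps (1, 1) g g' : ℝ) : ℂ) * (starRingEnd ℂ) (f g) * f g'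

/-- splitting off a translation invariant part of a piece type -/
lemma perturb {i : ℕ × ℕ} (hi : i.2 = 1) {T0 : ℤ → ℝ} (hT0 : ∀ d, 0 ≤ T0 d)
    (hK : ∀ g g' : ℤ, 1 ≤ g → 1 ≤ g' → T0 (g' - g) ≤ G.K i g g') {eps : ℝ} (he : 0 ≤ eps) {N : ℕ}
    {f : ℤ → ℂ} (hf : Supp N f) :
    |(B G eps N i f).re - (B0 eps N T0 f).re|
      ≤ (G.tot i - ∑ d ∈ Icc (-(G.R : ℤ)) G.R, T0 d) * nsq N f := by
  have hT : ∀ d, T0 d ≤ G.T i d := by
    intro d
    have h1 := hK (|d| + 1) (|d| + 1 + d) (by have := abs_nonneg d; omega)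
      (by have := neg_abs_le d; omega)
    have h2 := G.K_le i (|d| + 1) (|d| + 1 + d)
    rw [add_sub_cancel_left] at h1 h2
    exact h1.trans h2
  -- truncation of `T0` to the range
  set T1 : ℤ → ℝ := fun d => G.T i d - T0 d with hT1
  have hT1n : ∀ d, 0 ≤ T1 d := fun d => sub_nonneg.2 (hT d)
  set T2 : ℤ → ℝ := fun d => if (G.R : ℤ) < |d| then 0 else T1 d with hT2
  have hT2n : ∀ d, 0 ≤ T2 d := by
    intro d
    simp only [hT2]
    split_ifs
    · exact le_rfl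
    · exact hT1n d
  have hT2r : ∀ d : ℤ, (G.R : ℤ) < |d| → T2 d = 0 := fun d hd => by simp only [hT2, if_pos hd]
  have hw : ∀ g g' : ℤ, GapKernel.wt eps i g g' = GapKernel.wt eps (1, 1) g g' := by
    intro g g'
    unfold GapKernel.wt
    rw [hi]
  have e : B G eps N i f - B0 eps N T0 f = ∑ g ∈ Icc (1 : ℤ) N, ∑ g' ∈ Icc (1 : ℤ) N,
      (((G.K i g g' - T0 (g' - g)) * GapKernel.wt eps i g g' : ℝ) : ℂ) *
        (starRingEnd ℂ) (f g) * f g' := by
    unfold B B0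
    rw [← Finset.sum_sub_distrib]
    refine Finset.sum_congr rfl fun g _ => ?_
    rw [← Finset.sum_sub_distrib]
    refine Finset.sum_congr rfl fun g' _ => ?_
    rw [hw g g']
    push_cast
    ring
  have h0 : ∀ g : ℤ, (g < 1 ∨ (N : ℤ) < g) → ‖f g‖ = 0 := fun g hg => by rw [hf g hg, norm_zero]
  have key : ‖B G eps N i f - B0 eps N T0 f‖
      ≤ (G.tot i - ∑ d ∈ Icc (-(G.R : ℤ)) G.R, T0 d) * nsq N f := by
    rw [e]
    calc _ ≤ ∑ g ∈ Icc (1 : ℤ) N, ∑ g' ∈ Icc (1 : ℤ) N,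
          ‖(((G.K i g g' - T0 (g' - g)) * GapKernel.wt eps i g g' : ℝ) : ℂ) *
            (starRingEnd ℂ) (f g) * f g'‖ :=
          (norm_sum_le _ _).trans (Finset.sum_le_sum fun g _ => norm_sum_le _ _)
      _ ≤ ∑ g ∈ Icc (1 : ℤ) N, ∑ g' ∈ Icc (1 : ℤ) N, T2 (g' - g) * ‖f g‖ * ‖f g'‖ := by
          refine Finset.sum_le_sum fun g hg => Finset.sum_le_sum fun g' hg' => ?_
          rw [Finset.mem_Icc] at hg hg'
          have hk0 : 0 ≤ G.K i g g' - T0 (g' - g) := sub_nonneg.2 (hK g g' hg.1 hg'.1)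
          rw [norm_mul, norm_mul, Complex.norm_real, RCLike.norm_conj,
            Real.norm_of_nonneg (mul_nonneg hk0 (wt_nonneg _ _ _ _))]
          apply mul_le_mul_of_nonneg_right _ (norm_nonneg _)
          apply mul_le_mul_of_nonneg_right _ (norm_nonneg _)
          have hk1 : G.K i g g' - T0 (g' - g) ≤ T2 (g' - g) := by
            simp only [hT2]
            split_ifs with hR
            · have h1 := G.K_range i g g' hR
              have h2 := hT0 (g' - g)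
              linarith
            · exact sub_le_sub_right (G.K_le i g g') _
          calc (G.K i g g' - T0 (g' - g)) * GapKernel.wt eps i g g' ≤ T2 (g' - g) * 1 :=
                mul_le_mul hk1 (wt_le_one he i (by omega) (by omega))
                  (wt_nonneg _ _ _ _) (hT2n _)
            _ = _ := mul_one _
      _ ≤ (∑ d ∈ Icc (-(G.R : ℤ)) G.R, T2 d) * (Real.sqrt (∑ g ∈ Icc (1 : ℤ) N, ‖f g‖ ^ 2) *
          Real.sqrt (∑ g ∈ Icc (1 : ℤ) N, ‖f g‖ ^ 2)) := conv_gen hT2n hT2r h0 h0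
      _ = _ := by
          rw [Real.mul_self_sqrt (Finset.sum_nonneg fun _ _ => by positivity)]
          congr 1
          unfold GapKernel.tot
          rw [← Finset.sum_sub_distrib]
          refine Finset.sum_congr rfl fun d hd => ?_
          rw [Finset.mem_Icc] at hd
          have : ¬ (G.R : ℤ) < |d| := not_lt.2 (abs_le.2 ⟨hd.1, hd.2⟩)
          simp only [hT2, if_neg this, hT1]
  rw [← Complex.sub_re]
  exact (Complex.abs_re_le_norm _).trans key

/-- damped function -/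
noncomputable def damp (eps : ℝ) (f : ℤ → ℂ) (g : ℤ) : ℂ := (Real.exp (-(eps * (g : ℝ))) : ℂ) * f g

lemma damp_supp (eps : ℝ) {N : ℕ} {f : ℤ → ℂ} (hf : Supp N f) : Supp N (damp eps f) := by
  intro g hg
  unfold damp
  rw [hf g hg, mul_zero]

lemma B0_add {eps : ℝ} {N : ℕ} {f : ℤ → ℂ} (T0 T1 : ℤ → ℝ) :
    (B0 eps N (fun d => T0 d + T1 d) f).re = (B0 eps N T0 f).re + (B0 eps N T1 f).re := by
  rw [← Complex.add_re]
  congr 1
  unfold B0
  rw [← Finset.sum_add_distrib]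
  refine Finset.sum_congr rfl fun g _ => ?_
  rw [← Finset.sum_add_distrib]
  refine Finset.sum_congr rfl fun g' _ => ?_
  push_cast
  ring

/-- the diagonal part -/
lemma B0_diag {eps : ℝ} {N : ℕ} {f : ℤ → ℂ} :
    (B0 eps N (fun d => if d = 0 then 1 else 0) f).re = nsq N (damp eps f) := by
  have h : B0 eps N (fun d => if d = 0 then 1 else 0) f = (nsq N (damp eps f) : ℂ) := by
    unfold B0 nsq
    push_cast
    refine Finset.sum_congr rfl fun g hg => ?_
    rw [Finset.sum_eq_single g]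
    · unfold damp GapKernel.wt
      rw [norm_mul, Complex.norm_real, Real.norm_of_nonneg (Real.exp_pos _).le, sub_self,
        if_pos rfl, mul_assoc, Complex.conj_mul']
      have : Real.exp (-(eps * (((1, 1) : ℕ × ℕ).2 : ℝ) * ((g : ℝ) + (g : ℝ))))
          = Real.exp (-(eps * (g : ℝ))) ^ 2 := by
        rw [← Real.exp_nat_mul]
        congr 1
        push_cast
        ring
      rw [this]
      push_cast
      ring
    · intro g' _ hne
      have : g' - g ≠ 0 := sub_ne_zero.2 hne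
      simp [this]
    · intro h
      exact absurd hg h
  rw [h, Complex.ofReal_re]

/-- the nearest neighbour part, from the staircase kernel -/
lemma B0_nn {eps : ℝ} {N : ℕ} {f : ℤ → ℂ} (hf : Supp N f) :
    (B0 eps N (fun d => if |d| = 1 then 1 else 0) f).re
      = 2 * nsq N (damp eps f) - En N (damp eps f) := by
  have h1 : (Gap.H62.B stair eps N (1, 1) f).re
      = 4 * nsq N (damp eps f) - En N (damp eps f) := Gap.H62.B_i0 stair hf
  have h2 : B0 eps N (fun d => if |d| = 1 then 1 else 0) f = Gap.H62.B stair eps N (1, 1) f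
      - 2 * B0 eps N (fun d => if d = 0 then 1 else 0) f := by
    unfold B0 Gap.H62.B
    rw [Finset.mul_sum, ← Finset.sum_sub_distrib]
    refine Finset.sum_congr rfl fun g hg => ?_
    rw [Finset.mul_sum, ← Finset.sum_sub_distrib]
    refine Finset.sum_congr rfl fun g' hg' => ?_
    rw [Finset.mem_Icc] at hg hg'
    have hw : Gap.GapKernel.wt eps (1, 1) g g' = GapKernel.wt eps (1, 1) g g' := rfl
    have hk : stair.K (1, 1) g g' = (if |g' - g| = 1 then (1 : ℝ) else 0)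
        + 2 * (if g' - g = 0 then 1 else 0) := by
      show (if 1 ≤ g ∧ 1 ≤ g' then nnT (g' - g) else 0) = _
      rw [if_pos ⟨hg.1, hg'.1⟩]
      unfold nnT
      by_cases h0 : g' - g = 0
      · simp [h0]
      · by_cases h3 : |g' - g| = 1
        · simp [h0, h3]
        · simp [h0, h3]
    rw [hw, hk]
    push_cast
    ring
  rw [h2, Complex.sub_re, h1]
  have h3 : ((2 : ℂ) * B0 eps N (fun d => if d = 0 then 1 else 0) f).re
      = 2 * (B0 eps N (fun d => if d = 0 then 1 else 0) f).re := by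
    simp [Complex.mul_re]
  rw [h3, B0_diag]
  ring

lemma En_le {N : ℕ} {f : ℤ → ℂ} (hf : Supp N f) : En N f ≤ 4 * nsq N f := by
  have hfs := supp_fs hf
  rw [En_eq hf, nsq_eq hf]
  have s1 : Summable (fun g => ‖f g‖ ^ 2) := FS.summable (hfs.of_imp (fun g hg => by simp [hg]))
  have s2 : Summable (fun g => ‖f (g + 1)‖ ^ 2) :=
    FS.summable ((hfs.shift 1).of_imp (fun g hg => by simp [hg]))
  have s3 : Summable (fun g => ‖f (g + 1) - f g‖ ^ 2) :=
    FS.summable ((hfs.shift 1).of_imp2 hfs (fun g h1 h2 => by simp [h1, h2]))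
  have h1 : ∀ g, ‖f (g + 1) - f g‖ ^ 2 ≤ 2 * (‖f (g + 1)‖ ^ 2 + ‖f g‖ ^ 2) := by
    intro g
    have := norm_sub_le (f (g + 1)) (f g)
    have h0 := norm_nonneg (f (g + 1) - f g)
    nlinarith [sq_nonneg (‖f (g + 1)‖ - ‖f g‖)]
  have h2 := s3.tsum_le_tsum h1 ((s2.add s1).mul_left 2)
  rw [tsum_mul_left, Summable.tsum_add s2 s1, tsum_shift (fun g => ‖f g‖ ^ 2) 1] at h2
  linarith

lemma Pot_le {eps : ℝ} {N : ℕ} (f : ℤ → ℂ) : Pot eps N f ≤ nsq N f := by
  apply Finset.sum_le_sum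
  intro g _
  have : 0 < Real.exp (-(eps * (g : ℝ))) := Real.exp_pos _
  have h2 : 0 ≤ ‖f g‖ ^ 2 := by positivity
  nlinarith

lemma nsq_damp_le {eps : ℝ} (he : 0 ≤ eps) {N : ℕ} (f : ℤ → ℂ) :
    nsq N (damp eps f) ≤ nsq N f := by
  apply Finset.sum_le_sum
  intro g hg
  rw [Finset.mem_Icc] at hg
  have hg1 : (0:ℝ) ≤ g := by exact_mod_cast (by omega : (0:ℤ) ≤ g)
  have h1 : Real.exp (-(eps * (g : ℝ))) ≤ 1 := Real.exp_le_one_iff.2 (by nlinarith)
  have h0 : 0 < Real.exp (-(eps * (g : ℝ))) := Real.exp_pos _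
  unfold damp
  rw [norm_mul, Complex.norm_real, Real.norm_of_nonneg h0.le]
  apply pow_le_pow_left₀ (by positivity)
  have := norm_nonneg (f g)
  nlinarith

/-- the damping loss controls the energy -/
lemma D_le_Q {eps : ℝ} (he : 0 ≤ eps) {N : ℕ} {f : ℤ → ℂ} (hf : Supp N f) :
    En N f + Pot eps N f
      ≤ 7 * (4 * nsq N f - 4 * nsq N (damp eps f) + En N (damp eps f)) := by
  set u := damp eps f with hu
  have hus : Supp N u := damp_supp eps hf
  have hfs := supp_fs hf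
  have hufs := supp_fs hus
  -- the loss
  set L : ℤ → ℝ := fun g => (1 - Real.exp (-(eps * (g : ℝ))) ^ 2) * ‖f g‖ ^ 2 with hL
  have hpos : ∀ g : ℤ, 0 ≤ g → Real.exp (-(eps * (g : ℝ))) ≤ 1 := by
    intro g hg
    have hg1 : (0:ℝ) ≤ g := by exact_mod_cast hg
    exact Real.exp_le_one_iff.2 (by nlinarith)
  have hL0 : ∀ g, f g = 0 → L g = 0 := fun g hg => by simp [L, hg]
  have hLsum : ∑' g, L g = nsq N f - nsq N u := by
    rw [tsum_supp hf L hL0]
    unfold nsq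
    rw [← Finset.sum_sub_distrib]
    refine Finset.sum_congr rfl fun g _ => ?_
    rw [hu]
    unfold damp
    rw [norm_mul, Complex.norm_real, Real.norm_of_nonneg (Real.exp_pos _).le]
    simp only [L]
    ring
  have hLfs : FS L := hfs.of_imp hL0
  have hPotL : Pot eps N f ≤ ∑' g, L g := by
    rw [tsum_supp hf L hL0]
    apply Finset.sum_le_sum
    intro g hg
    rw [Finset.mem_Icc] at hg
    have h1 := hpos g (by omega)
    have h0 := Real.exp_pos (-(eps * (g : ℝ)))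
    have h2 : 0 ≤ ‖f g‖ ^ 2 := by positivity
    simp only [L]
    apply mul_le_mul_of_nonneg_right _ h2
    nlinarith
  have hval : ∀ g, ‖f g - u g‖ ^ 2 ≤ L g := by
    intro g
    rcases lt_or_ge g 1 with h0 | h0
    · rw [hus g (Or.inl h0), hf g (Or.inl h0), hL0 g (hf g (Or.inl h0))]
      simp
    · have h1 := hpos g (by omega)
      have h2 := Real.exp_pos (-(eps * (g : ℝ)))
      have e : f g - u g = ((1 - Real.exp (-(eps * (g : ℝ))) : ℝ) : ℂ) * f g := by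
        rw [hu]
        unfold damp
        push_cast
        ring
      rw [e, norm_mul, Complex.norm_real, Real.norm_of_nonneg (by linarith), mul_pow]
      simp only [L]
      apply mul_le_mul_of_nonneg_right _ (by positivity)
      nlinarith
  have hEn : En N f ≤ 3 * En N u + 6 * ∑' g, L g := by
    rw [En_eq hf, En_eq hus]
    have s0 : Summable (fun g => ‖f (g + 1) - f g‖ ^ 2) :=
      FS.summable ((hfs.shift 1).of_imp2 hfs (fun g h1 h2 => by simp [h1, h2]))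
    have s1 : Summable (fun g => ‖u (g + 1) - u g‖ ^ 2) :=
      FS.summable ((hufs.shift 1).of_imp2 hufs (fun g h1 h2 => by simp [h1, h2]))
    have s2 : Summable L := hLfs.summable
    have s3 : Summable (fun g => L (g + 1)) := (hLfs.shift 1).summable
    have h1 : ∀ g, ‖f (g + 1) - f g‖ ^ 2
        ≤ 3 * ‖u (g + 1) - u g‖ ^ 2 + 3 * (L (g + 1) + L g) := by
      intro g
      have e : f (g + 1) - f g = (u (g + 1) - u g) + (f (g + 1) - u (g + 1)) - (f g - u g) := by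
        ring
      have h2 : ‖f (g + 1) - f g‖ ≤ ‖u (g + 1) - u g‖ + ‖f (g + 1) - u (g + 1)‖ + ‖f g - u g‖ := by
        calc ‖f (g + 1) - f g‖
            = ‖(u (g + 1) - u g) + (f (g + 1) - u (g + 1)) - (f g - u g)‖ := by rw [← e]
          _ ≤ ‖(u (g + 1) - u g) + (f (g + 1) - u (g + 1))‖ + ‖f g - u g‖ := norm_sub_le _ _
          _ ≤ _ := by
            have := norm_add_le (u (g + 1) - u g) (f (g + 1) - u (g + 1))
            linarith
      have h3 := hval g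
      have h4 := hval (g + 1)
      have a0 := norm_nonneg (f (g + 1) - f g)
      have a1 := norm_nonneg (u (g + 1) - u g)
      have a2 := norm_nonneg (f (g + 1) - u (g + 1))
      have a3 := norm_nonneg (f g - u g)
      have h5 : ‖f (g + 1) - f g‖ ^ 2
          ≤ (‖u (g + 1) - u g‖ + ‖f (g + 1) - u (g + 1)‖ + ‖f g - u g‖) ^ 2 :=
        pow_le_pow_left₀ a0 h2 2
      nlinarith [sq_nonneg (‖u (g + 1) - u g‖ - ‖f (g + 1) - u (g + 1)‖),
        sq_nonneg (‖u (g + 1) - u g‖ - ‖f g - u g‖),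
        sq_nonneg (‖f (g + 1) - u (g + 1)‖ - ‖f g - u g‖)]
    have h2 := s0.tsum_le_tsum h1 ((s1.mul_left 3).add ((s3.add s2).mul_left 3))
    rw [Summable.tsum_add (s1.mul_left 3) ((s3.add s2).mul_left 3), tsum_mul_left, tsum_mul_left,
      Summable.tsum_add s3 s2, tsum_shift L 1] at h2
    linarith
  have hEu := En_nonneg N u
  have hD := nsq_damp_le he (N := N) f
  rw [← hu] at hD
  rw [hLsum] at hEn hPotL
  linarith

end Pool.Agent.TPK.H62
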