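import Mathlib
import Pool.Agent.TPK.OM2

/-! MODULE M2, second part: generating function of the array of squared gaps. -/

set_option autoImplicit false

open Finset Filter Topology

namespace Pool.Agent.TPK

open Pool.Agent.Gap

/-- shift lemma without marks -/
lemma shift_hasSum0 {c : ℕ → ℝ} {z l : ℂ}
    (h : HasSum (fun n : ℕ => ((c n : ℝ) : ℂ) * z ^ n) l) (m : ℕ) :
    HasSum (fun n : ℕ => if m ≤ n then ((c (n - m) : ℝ) : ℂ) * z ^ n else 0) (z ^ m * l) := by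
  rw [← hasSum_nat_add_iff' m]
  have h0 : ∑ n ∈ range m, (if m ≤ n then ((c (n - m) : ℝ) : ℂ) * z ^ n else 0) = 0 := by
    refine sum_eq_zero fun n hn => ?_
    rw [mem_range] at hn
    rw [if_neg (by omega)]
  rw [h0, sub_zero]
  have h3 : (fun n : ℕ => if m ≤ n + m then ((c (n + m - m) : ℝ) : ℂ) * z ^ (n + m) else 0) =
      fun n : ℕ => z ^ m * (((c n : ℝ) : ℂ) * z ^ n) := by
    ext n
    rw [if_pos (Nat.le_add_left m n), Nat.add_sub_cancel, pow_add]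
    ring
  rw [h3]
  exact h.mul_left _

/-- generating function without marks -/
noncomputable def gf0 (b : ℕ → ℤ → ℝ) (z : ℂ) (g : ℤ) : ℂ := ∑' n : ℕ, ((b n g : ℝ) : ℂ) * z ^ n

lemma gf_zero_eq (b : ℕ → ℤ → ℝ) (z : ℂ) : gf 0 b z = gf0 b z := by
  ext g
  unfold gf gf0
  congr 1
  ext n
  simp

/-- the generating function of a solution array with a summable source -/
lemma gf0_eq {G : GapKernel} {σ : ℕ → ℤ → ℝ} {N : ℕ} {q : ℕ → ℤ → ℝ}
    (hq : IsArr G σ 0 N q) {z : ℂ}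
    (hs : ∀ g, Summable fun n : ℕ => ‖((q n g : ℝ) : ℂ) * z ^ n‖) (g : ℤ)
    (hg : g ∈ Icc (1 : ℤ) N) (l : ℂ)
    (hσ : HasSum (fun n : ℕ => ((σ n g : ℝ) : ℂ) * z ^ n) l) :
    gf0 q z g = l + G.Kap 0 0 z N (gf0 q z) g := by
  rw [mem_Icc] at hg
  have h2 : HasSum (fun n : ℕ => ∑ i ∈ G.S, ∑ g' ∈ Icc (1 : ℤ) N,
      ((G.K i g g' * GapKernel.wt 0 i g g' : ℝ) : ℂ) * (if i.1 ≤ n then
        ((q (n - i.1) g' : ℝ) : ℂ) * z ^ n else 0))
      (∑ i ∈ G.S, ∑ g' ∈ Icc (1 : ℤ) N, ((G.K i g g' * GapKernel.wt 0 i g g' : ℝ) : ℂ) *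
        (z ^ i.1 * gf0 q z g')) := by
    refine hasSum_sum fun i _ => hasSum_sum fun g' _ => ?_
    exact (shift_hasSum0 (c := fun n => q n g') (hs g').of_norm.hasSum i.1).mul_left _
  have h3 := hσ.add h2
  have h4 : HasSum (fun n : ℕ => ((q n g : ℝ) : ℂ) * z ^ n) (gf0 q z g) := (hs g).of_norm.hasSum
  have h5 : (fun n : ℕ => ((q n g : ℝ) : ℂ) * z ^ n) = fun n : ℕ =>
      ((σ n g : ℝ) : ℂ) * z ^ n + ∑ i ∈ G.S, ∑ g' ∈ Icc (1 : ℤ) N,
      ((G.K i g g' * GapKernel.wt 0 i g g' : ℝ) : ℂ) * (if i.1 ≤ n then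
        ((q (n - i.1) g' : ℝ) : ℂ) * z ^ n else 0) := by
    ext n
    rw [hq.step n g hg.1 hg.2, Complex.ofReal_add, add_mul]
    congr 1
    rw [Complex.ofReal_sum, sum_mul]
    refine sum_congr rfl fun i _ => ?_
    split_ifs with h
    · rw [Complex.ofReal_sum, sum_mul]
      refine sum_congr rfl fun g' _ => ?_
      rw [Complex.ofReal_mul]
      ring
    · simp
  rw [h5] at h4
  rw [h4.unique h3]
  congr 1
  unfold GapKernel.Kap GapKernel.Kz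
  rw [sum_comm]
  refine sum_congr rfl fun g' _ => ?_
  rw [sum_mul]
  refine sum_congr rfl fun i _ => ?_
  simp only [pow_zero, one_mul]
  ring

/-- the source of squared gaps: generating function -/
noncomputable def sqK (G : GapKernel) (N : ℕ) (z : ℂ) (V : ℤ → ℂ) (g : ℤ) : ℂ :=
  ∑ i ∈ G.S, ∑ g' ∈ Icc (1 : ℤ) N, ((G.K i g g' * ((g : ℝ) + (g' : ℝ)) ^ 2 : ℝ) : ℂ) *
    (z ^ i.1 * V g')

lemma sqSrc_hasSum {G : GapKernel} {N : ℕ} {b : ℕ → ℤ → ℝ} {z : ℂ}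
    (hs : ∀ g, Summable fun n : ℕ => ‖((b n g : ℝ) : ℂ) * z ^ n‖) (g : ℤ) :
    HasSum (fun n : ℕ => ((sqSrc G N b n g : ℝ) : ℂ) * z ^ n) (sqK G N z (gf0 b z) g) := by
  have h2 : HasSum (fun n : ℕ => ∑ i ∈ G.S, ∑ g' ∈ Icc (1 : ℤ) N,
      ((G.K i g g' * ((g : ℝ) + (g' : ℝ)) ^ 2 : ℝ) : ℂ) * (if i.1 ≤ n then
        ((b (n - i.1) g' : ℝ) : ℂ) * z ^ n else 0))
      (sqK G N z (gf0 b z) g) := by
    refine hasSum_sum fun i _ => hasSum_sum fun g' _ => ?_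
    exact (shift_hasSum0 (c := fun n => b n g') (hs g').of_norm.hasSum i.1).mul_left _
  convert h2 using 1
  ext n
  unfold sqSrc
  rw [Complex.ofReal_sum, sum_mul]
  refine sum_congr rfl fun i _ => ?_
  split_ifs with h
  · rw [Complex.ofReal_sum, sum_mul]
    refine sum_congr rfl fun g' _ => ?_
    rw [Complex.ofReal_mul]
    ring
  · simp

/-- closing by caps: generating function -/
lemma close_hasSum {C0 : ℕ} {t : ℕ → ℤ → ℝ} (ht : IsCap C0 t) {q : ℕ → ℤ → ℝ} {z : ℂ}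
    (hs : ∀ g, Summable fun n : ℕ => ‖((q n g : ℝ) : ℂ) * z ^ n‖) :
    HasSum (fun n : ℕ => ((close C0 t q n : ℝ) : ℂ) * z ^ n)
      (∑ g ∈ Icc (1 : ℤ) C0, capz C0 t 0 z g * gf0 q z g) := by
  have h2 : HasSum (fun n : ℕ => ∑ g ∈ Icc (1 : ℤ) C0, ∑ m ∈ range (C0 + 1),
      ((t m g : ℝ) : ℂ) * (if m ≤ n then ((q (n - m) g : ℝ) : ℂ) * z ^ n else 0))
      (∑ g ∈ Icc (1 : ℤ) C0, ∑ m ∈ range (C0 + 1), ((t m g : ℝ) : ℂ) * (z ^ m * gf0 q z g)) := by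
    refine hasSum_sum fun g _ => hasSum_sum fun m _ => ?_
    exact (shift_hasSum0 (c := fun n => q n g) (hs g).of_norm.hasSum m).mul_left _
  have h3 : (∑ g ∈ Icc (1 : ℤ) C0, ∑ m ∈ range (C0 + 1), ((t m g : ℝ) : ℂ) *
      (z ^ m * gf0 q z g)) = ∑ g ∈ Icc (1 : ℤ) C0, capz C0 t 0 z g * gf0 q z g := by
    refine sum_congr rfl fun g _ => ?_
    unfold capz
    rw [sum_mul]
    refine sum_congr rfl fun m _ => ?_
    simp only [pow_zero, one_mul]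
    ring
  rw [h3] at h2
  convert h2 using 1
  ext n
  unfold close
  rw [sum_comm, Complex.ofReal_sum, sum_mul]
  refine sum_congr rfl fun g _ => ?_
  rw [Complex.ofReal_sum, sum_mul]
  -- both sides restrict to m ≤ min n C0
  have hA : ∑ m ∈ range (n + 1), ((t m g * q (n - m) g : ℝ) : ℂ) * z ^ n =
      ∑ m ∈ range (n + 1 + (C0 + 1)), ((t m g : ℝ) : ℂ) *
        (if m ≤ n then ((q (n - m) g : ℝ) : ℂ) * z ^ n else 0) := by
    rw [← sum_subset (range_subset_range.2 (Nat.le_add_right (n + 1) (C0 + 1)))]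
    · refine sum_congr rfl fun m hm => ?_
      rw [mem_range] at hm
      rw [if_pos (by omega)]
      push_cast
      ring
    · intro m _ hm
      rw [mem_range] at hm
      rw [if_neg (by omega), mul_zero]
  have hB : ∑ m ∈ range (C0 + 1), ((t m g : ℝ) : ℂ) *
        (if m ≤ n then ((q (n - m) g : ℝ) : ℂ) * z ^ n else 0) =
      ∑ m ∈ range (n + 1 + (C0 + 1)), ((t m g : ℝ) : ℂ) *
        (if m ≤ n then ((q (n - m) g : ℝ) : ℂ) * z ^ n else 0) := by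
    rw [← sum_subset (range_subset_range.2 (Nat.le_add_left (C0 + 1) (n + 1)))]
    intro m _ hm
    rw [mem_range] at hm
    rw [ht.supp_m m g (by omega)]
    simp
  rw [hA, hB]

lemma Kz_symm (G : GapKernel) (z : ℂ) (g g' : ℤ) : G.Kz 0 0 z g g' = G.Kz 0 0 z g' g := by
  unfold GapKernel.Kz
  refine sum_congr rfl fun i _ => ?_
  rw [G.K_symm i g g']
  have : GapKernel.wt 0 i g g' = GapKernel.wt 0 i g' g := by simp [GapKernel.wt]
  rw [this]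

/-- adjointness -/
lemma adjoint (G : GapKernel) (z : ℂ) (N : ℕ) (W Q : ℤ → ℂ) :
    ∑ g ∈ Icc (1 : ℤ) N, (W g - G.Kap 0 0 z N W g) * Q g =
      ∑ g ∈ Icc (1 : ℤ) N, W g * (Q g - G.Kap 0 0 z N Q g) := by
  have h1 : ∑ g ∈ Icc (1 : ℤ) N, G.Kap 0 0 z N W g * Q g =
      ∑ g ∈ Icc (1 : ℤ) N, W g * G.Kap 0 0 z N Q g := by
    unfold GapKernel.Kap
    simp only [sum_mul, mul_sum]
    rw [sum_comm]
    refine sum_congr rfl fun g _ => sum_congr rfl fun g' _ => ?_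
    rw [Kz_symm]
    ring
  simp only [sub_mul, mul_sub, sum_sub_distrib]
  rw [h1]

/-- bound of the bilinear form with squared gaps -/
lemma sq_form_bound (G : GapKernel) (N : ℕ) (z : ℂ) (hz : ‖z‖ ≤ G.rho) (W V : ℤ → ℂ) :
    ‖∑ g ∈ Icc (1 : ℤ) N, W g * sqK G N z V g‖ ≤
      ((G.R : ℝ) + 2) ^ 2 * ((nsq N (mulg 1 W) + nsq N (mulg 1 V)) / 2) := by
  have hrho := G.rho_pos
  have hterm : ∀ i ∈ G.S, ∀ g ∈ Icc (1 : ℤ) N, ∀ g' ∈ Icc (1 : ℤ) N,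
      ‖W g * (((G.K i g g' * ((g : ℝ) + (g' : ℝ)) ^ 2 : ℝ) : ℂ) * (z ^ i.1 * V g'))‖ ≤
      G.rho ^ i.1 * G.K i g g' * (((G.R : ℝ) + 2) ^ 2 *
        ((‖mulg 1 W g‖ ^ 2 + ‖mulg 1 V g'‖ ^ 2) / 2)) := by
    intro i _ g hg g' hg'
    rw [mem_Icc] at hg hg'
    by_cases hR : (G.R : ℤ) < |g' - g|
    · rw [G.K_range i g g' hR]
      simp
    · rw [not_lt, abs_le] at hR
      have hg1 : (1 : ℝ) ≤ g := by exact_mod_cast hg.1
      have hg1' : (1 : ℝ) ≤ g' := by exact_mod_cast hg'.1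
      have hR1 : (g' : ℝ) - g ≤ G.R := by exact_mod_cast hR.2
      have hR2 : -(G.R : ℝ) ≤ (g' : ℝ) - g := by exact_mod_cast hR.1
      have hR0 : (0 : ℝ) ≤ G.R := by positivity
      have h1 : (g : ℝ) + g' ≤ ((G.R : ℝ) + 2) * g := by nlinarith
      have h2 : (g : ℝ) + g' ≤ ((G.R : ℝ) + 2) * g' := by nlinarith
      have h3 : ((g : ℝ) + (g' : ℝ)) ^ 2 ≤ ((G.R : ℝ) + 2) ^ 2 * ((g : ℝ) * g') := by
        calc ((g : ℝ) + (g' : ℝ)) ^ 2 = ((g : ℝ) + g') * ((g : ℝ) + g') := sq _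
          _ ≤ (((G.R : ℝ) + 2) * g) * (((G.R : ℝ) + 2) * g') :=
              mul_le_mul h1 h2 (by linarith) (by positivity)
          _ = _ := by ring
      have hK := G.K_nonneg i g g'
      rw [norm_mul, norm_mul, norm_mul, norm_pow, Complex.norm_real, Real.norm_of_nonneg
        (mul_nonneg hK (sq_nonneg _))]
      have hzi : ‖z‖ ^ i.1 ≤ G.rho ^ i.1 := pow_le_pow_left₀ (norm_nonneg _) hz _
      have hmW : ‖mulg 1 W g‖ = g * ‖W g‖ := by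
        unfold mulg
        rw [pow_one, norm_mul, Complex.norm_intCast, abs_of_nonneg (by linarith)]
      have hmV : ‖mulg 1 V g'‖ = g' * ‖V g'‖ := by
        unfold mulg
        rw [pow_one, norm_mul, Complex.norm_intCast, abs_of_nonneg (by linarith)]
      calc ‖W g‖ * (G.K i g g' * ((g : ℝ) + (g' : ℝ)) ^ 2 * (‖z‖ ^ i.1 * ‖V g'‖))
          = ‖z‖ ^ i.1 * G.K i g g' * (((g : ℝ) + (g' : ℝ)) ^ 2 * (‖W g‖ * ‖V g'‖)) := by ring
        _ ≤ G.rho ^ i.1 * G.K i g g' * ((((G.R : ℝ) + 2) ^ 2 * ((g : ℝ) * g')) *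
            (‖W g‖ * ‖V g'‖)) := by
            gcongr
        _ = G.rho ^ i.1 * G.K i g g' * (((G.R : ℝ) + 2) ^ 2 *
            (‖mulg 1 W g‖ * ‖mulg 1 V g'‖)) := by rw [hmW, hmV]; ring
        _ ≤ _ := by
            gcongr
            nlinarith [sq_nonneg (‖mulg 1 W g‖ - ‖mulg 1 V g'‖)]
  have h1 : ‖∑ g ∈ Icc (1 : ℤ) N, W g * sqK G N z V g‖ ≤
      ∑ g ∈ Icc (1 : ℤ) N, ∑ i ∈ G.S, ∑ g' ∈ Icc (1 : ℤ) N,
        G.rho ^ i.1 * G.K i g g' * (((G.R : ℝ) + 2) ^ 2 *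
        ((‖mulg 1 W g‖ ^ 2 + ‖mulg 1 V g'‖ ^ 2) / 2)) := by
    refine (norm_sum_le _ _).trans (sum_le_sum fun g hg => ?_)
    unfold sqK
    rw [mul_sum]
    refine (norm_sum_le _ _).trans (sum_le_sum fun i hi => ?_)
    rw [mul_sum]
    refine (norm_sum_le _ _).trans (sum_le_sum fun g' hg' => ?_)
    exact hterm i hi g hg g' hg'
  refine h1.trans ?_
  -- split
  have h2 : ∑ g ∈ Icc (1 : ℤ) N, ∑ i ∈ G.S, ∑ g' ∈ Icc (1 : ℤ) N,
        G.rho ^ i.1 * G.K i g g' * (((G.R : ℝ) + 2) ^ 2 *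
        ((‖mulg 1 W g‖ ^ 2 + ‖mulg 1 V g'‖ ^ 2) / 2)) =
      ((G.R : ℝ) + 2) ^ 2 / 2 * (∑ g ∈ Icc (1 : ℤ) N, ∑ i ∈ G.S, ∑ g' ∈ Icc (1 : ℤ) N,
        G.rho ^ i.1 * G.K i g g' * ‖mulg 1 W g‖ ^ 2 +
        ∑ g ∈ Icc (1 : ℤ) N, ∑ i ∈ G.S, ∑ g' ∈ Icc (1 : ℤ) N,
        G.rho ^ i.1 * G.K i g g' * ‖mulg 1 V g'‖ ^ 2) := by
    rw [← sum_add_distrib, mul_sum]
    refine sum_congr rfl fun g _ => ?_
    rw [← sum_add_distrib, mul_sum]
    refine sum_congr rfl fun i _ => ?_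
    rw [← sum_add_distrib, mul_sum]
    refine sum_congr rfl fun g' _ => ?_
    ring
  rw [h2]
  have h3 : ∑ g ∈ Icc (1 : ℤ) N, ∑ i ∈ G.S, ∑ g' ∈ Icc (1 : ℤ) N,
        G.rho ^ i.1 * G.K i g g' * ‖mulg 1 W g‖ ^ 2 ≤ nsq N (mulg 1 W) := by
    unfold nsq
    refine sum_le_sum fun g _ => ?_
    calc ∑ i ∈ G.S, ∑ g' ∈ Icc (1 : ℤ) N, G.rho ^ i.1 * G.K i g g' * ‖mulg 1 W g‖ ^ 2
        = (∑ i ∈ G.S, G.rho ^ i.1 * ∑ g' ∈ Icc (1 : ℤ) N, G.K i g g') * ‖mulg 1 W g‖ ^ 2 := by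
          rw [sum_mul]
          refine sum_congr rfl fun i _ => ?_
          rw [mul_sum, sum_mul]
      _ ≤ (∑ i ∈ G.S, G.rho ^ i.1 * G.tot i) * ‖mulg 1 W g‖ ^ 2 := by
          refine mul_le_mul_of_nonneg_right (sum_le_sum fun i _ => ?_) (sq_nonneg _)
          exact mul_le_mul_of_nonneg_left (G.sum_K_le i g _) (by positivity)
      _ = ‖mulg 1 W g‖ ^ 2 := by rw [G.crit', one_mul]
  have h4 : ∑ g ∈ Icc (1 : ℤ) N, ∑ i ∈ G.S, ∑ g' ∈ Icc (1 : ℤ) N,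
        G.rho ^ i.1 * G.K i g g' * ‖mulg 1 V g'‖ ^ 2 ≤ nsq N (mulg 1 V) := by
    unfold nsq
    calc ∑ g ∈ Icc (1 : ℤ) N, ∑ i ∈ G.S, ∑ g' ∈ Icc (1 : ℤ) N,
        G.rho ^ i.1 * G.K i g g' * ‖mulg 1 V g'‖ ^ 2
        = ∑ g' ∈ Icc (1 : ℤ) N, (∑ i ∈ G.S, G.rho ^ i.1 * ∑ g ∈ Icc (1 : ℤ) N, G.K i g g') *
          ‖mulg 1 V g'‖ ^ 2 := by
          have hsw : ∑ g ∈ Icc (1 : ℤ) N, ∑ i ∈ G.S, ∑ g' ∈ Icc (1 : ℤ) N,
              G.rho ^ i.1 * G.K i g g' * ‖mulg 1 V g'‖ ^ 2 =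
              ∑ g' ∈ Icc (1 : ℤ) N, ∑ i ∈ G.S, ∑ g ∈ Icc (1 : ℤ) N,
              G.rho ^ i.1 * G.K i g g' * ‖mulg 1 V g'‖ ^ 2 := by
            rw [sum_comm, sum_congr rfl (fun i _ => sum_comm), sum_comm]
          rw [hsw]
          refine sum_congr rfl fun g' _ => ?_
          rw [sum_mul]
          refine sum_congr rfl fun i _ => ?_
          rw [mul_sum, sum_mul]
      _ ≤ ∑ g' ∈ Icc (1 : ℤ) N, ‖mulg 1 V g'‖ ^ 2 := by
          refine sum_le_sum fun g' _ => ?_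
          calc (∑ i ∈ G.S, G.rho ^ i.1 * ∑ g ∈ Icc (1 : ℤ) N, G.K i g g') * ‖mulg 1 V g'‖ ^ 2
              ≤ (∑ i ∈ G.S, G.rho ^ i.1 * G.tot i) * ‖mulg 1 V g'‖ ^ 2 := by
                refine mul_le_mul_of_nonneg_right (sum_le_sum fun i _ => ?_) (sq_nonneg _)
                exact mul_le_mul_of_nonneg_left (G.sum_K_le' i g' _) (by positivity)
            _ = ‖mulg 1 V g'‖ ^ 2 := by rw [G.crit', one_mul]
  have h5 : (0 : ℝ) ≤ ((G.R : ℝ) + 2) ^ 2 / 2 := by positivity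
  calc ((G.R : ℝ) + 2) ^ 2 / 2 * _ ≤ ((G.R : ℝ) + 2) ^ 2 / 2 *
        (nsq N (mulg 1 W) + nsq N (mulg 1 V)) := mul_le_mul_of_nonneg_left (add_le_add h3 h4) h5
    _ = _ := by ring

/-- l1 norm of the cap source -/
lemma l1_cap {G : GapKernel} {C0 : ℕ} {s : ℕ → ℤ → ℝ} (hs : IsCap C0 s) (z : ℂ)
    (hz : ‖z‖ ≤ G.rho) : l1 C0 (capz C0 s 0 z) ≤
      ∑ g ∈ Icc (1 : ℤ) C0, ∑ m ∈ range (C0 + 1), G.rho ^ m * s m g := by
  unfold l1
  refine sum_le_sum fun g _ => ?_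
  unfold capz
  refine (norm_sum_le _ _).trans (sum_le_sum fun m _ => ?_)
  rw [norm_mul, norm_mul, norm_pow, norm_pow, Complex.norm_real,
    Real.norm_of_nonneg (hs.nonneg m g), pow_zero, one_mul]
  exact mul_le_mul_of_nonneg_right (pow_le_pow_left₀ (norm_nonneg _) hz _) (hs.nonneg m g)

/-- weighted norm of the generating function of an array -/
lemma gf_weighted (hW : W_Stmt) (G : GapKernel) (C0 : ℕ) (s : ℕ → ℤ → ℝ) (hs : IsCap C0 s) :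
    ∃ C : ℝ, 0 ≤ C ∧ ∀ (N : ℕ) (b : ℕ → ℤ → ℝ), IsArr G s 0 N b → ∀ z : ℂ, ‖z‖ < G.rho →
      nsq N (mulg 1 (gf0 b z)) * (Real.sqrt ‖(G.rho : ℂ) - z‖ * ‖(G.rho : ℂ) - z‖) ≤ C := by
  have hrho := G.rho_pos
  obtain ⟨C, hC0, hC⟩ := hW G C0
  set S : ℝ := ∑ g ∈ Icc (1 : ℤ) C0, ∑ m ∈ range (C0 + 1), G.rho ^ m * s m g with hS
  have hS0 : 0 ≤ S := sum_nonneg fun g _ => sum_nonneg fun m _ =>
    mul_nonneg (by positivity) (hs.nonneg m g)
  refine ⟨C * S ^ 2, by positivity, fun N b hb z hz => ?_⟩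
  have hne : z ≠ (G.rho : ℂ) := by
    intro h
    rw [h, Complex.norm_real, Real.norm_of_nonneg hrho.le] at hz
    exact lt_irrefl _ hz
  have hd : 0 < ‖(G.rho : ℂ) - z‖ := by
    rw [norm_pos_iff, sub_ne_zero]
    exact hne.symm
  have hsol := ((J1 G C0 s hs N 0 le_rfl).2 b hb).2.2.2 z hz 0
  have hsol' : G.Solves 0 z N (gf0 b z) (capz C0 s 0 z) := by
    rw [← gf_zero_eq]
    convert hsol using 1
    ext g
    simp
  have hsupp : ∀ g : ℤ, (C0 : ℤ) < g → capz C0 s 0 z g = 0 := by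
    intro g hg
    unfold capz
    refine sum_eq_zero fun m _ => ?_
    rw [hs.supp_g m g (Or.inr hg)]
    simp
  have h1 := (hC N 0 z (gf0 b z) (capz C0 s 0 z) le_rfl hz.le hne hsol' hsupp).1 1 (by norm_num)
  rw [pow_one] at h1
  have h2 : (l1 C0 (capz C0 s 0 z)) ^ 2 ≤ S ^ 2 :=
    pow_le_pow_left₀ (sum_nonneg fun g _ => norm_nonneg _) (l1_cap hs z hz.le) 2
  have h3 : 0 < Real.sqrt ‖(G.rho : ℂ) - z‖ * ‖(G.rho : ℂ) - z‖ := by positivity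
  rw [← le_div_iff₀ h3]
  refine h1.trans ?_
  gcongr

/-- M2. -/
theorem M2 (hW : W_Stmt) : M2_Stmt := by
  intro G C0 s t hs ht B hB
  have hrho := G.rho_pos
  have hH := HH_nonneg G
  obtain ⟨Cs, hCs0, hCs⟩ := gf_weighted hW G C0 s hs
  obtain ⟨Ct, hCt0, hCt⟩ := gf_weighted hW G C0 t ht
  obtain ⟨C', hC'0, hC'⟩ := coef_bound G.rho (((G.R : ℝ) + 2) ^ 2 * ((Ct + Cs) / 2)) hrho
    (by positivity)
  refine ⟨HH G * C', fun n => ?_⟩
  set N : ℕ := C0 + (G.R + 1) * (n + 1) with hN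
  set b := arr G s 0 N with hbdef
  set b' := arr G t 0 N with hb'def
  set q := arr G (sqSrc G N b) 0 N with hqdef
  have hb : IsArr G s 0 N b := arr_isArr G s 0 N
  have hb' : IsArr G t 0 N b' := arr_isArr G t 0 N
  have hq : IsArr G (sqSrc G N b) 0 N q := arr_isArr G _ 0 N
  have hb0 := arr_nonneg' hs.nonneg hb
  have hq0 := arr_nonneg' (sqSrc_nonneg hb0) hq
  obtain ⟨Cb, hCb0, hCb⟩ := arr_bound hs le_rfl hb
  have hC0N : C0 ≤ N := by omega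
  -- the closed array of squared gaps
  have hcl : m2 (closeP C0 t B n) ≤ HH G * n * close C0 t q n := by
    unfold closeP close
    rw [m2_sum, mul_sum]
    refine sum_le_sum fun m hm => ?_
    rw [mem_range] at hm
    rw [m2_sum, mul_sum]
    refine sum_le_sum fun g _ => ?_
    rw [m2_C_mul]
    have h1 := m2_le hs hB hb hq (n - m) (by
      have h2 : (n - m : ℕ) + 1 ≤ n + 1 := by omega
      exact Nat.add_le_add_left (Nat.mul_le_mul_left _ h2) _) g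
    have h3 : HH G * ((n - m : ℕ) : ℝ) * q (n - m) g ≤ HH G * n * q (n - m) g := by
      refine mul_le_mul_of_nonneg_right ?_ (hq0 _ _)
      refine mul_le_mul_of_nonneg_left ?_ hH
      exact_mod_cast Nat.sub_le n m
    calc t m g * m2 (B (n - m) g) ≤ t m g * (HH G * n * q (n - m) g) :=
          mul_le_mul_of_nonneg_left (h1.trans h3) (ht.nonneg m g)
      _ = _ := by ring
  have hcl0 : 0 ≤ close C0 t q n :=
    sum_nonneg fun m _ => sum_nonneg fun g _ => mul_nonneg (ht.nonneg m g) (hq0 _ _)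
  change G.rho ^ n * m2 (closeP C0 t B n) ≤ _
  rcases Nat.eq_zero_or_pos n with h0 | hn
  · have h1 : m2 (closeP C0 t B n) ≤ 0 := by
      refine hcl.trans ?_
      rw [h0]
      simp
    have h2 : G.rho ^ n * m2 (closeP C0 t B n) ≤ 0 :=
      mul_nonpos_of_nonneg_of_nonpos (by positivity) h1
    refine h2.trans ?_
    positivity
  -- summability
  have hsb : ∀ z : ℂ, ‖z‖ < G.rho → ∀ g, Summable fun n : ℕ => ‖((b n g : ℝ) : ℂ) * z ^ n‖ := by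
    intro z hz g
    have := arr_summable hs le_rfl hb z hz 0 g
    simpa using this
  have hsb' : ∀ z : ℂ, ‖z‖ < G.rho → ∀ g, Summable fun n : ℕ => ‖((b' n g : ℝ) : ℂ) * z ^ n‖ := by
    intro z hz g
    have := arr_summable ht le_rfl hb' z hz 0 g
    simpa using this
  have hsq : ∀ z : ℂ, ‖z‖ < G.rho → ∀ g, Summable fun n : ℕ => ‖((q n g : ℝ) : ℂ) * z ^ n‖ := by
    intro z hz g
    exact arr_summable' (sqSrc_nonneg hb0) ((2 * (N : ℝ)) ^ 2 * Cb) le_rfl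
      (fun m g hg => sqSrc_bound hb0 Cb hCb0 hCb m g hg) hq z hz g
  have hF : ∀ z : ℂ, ‖z‖ < G.rho → HasSum (fun n : ℕ => ((close C0 t q n : ℝ) : ℂ) * z ^ n)
      (∑ g ∈ Icc (1 : ℤ) N, gf0 b' z g * sqK G N z (gf0 b z) g) := by
    intro z hz
    have h1 := close_hasSum ht (hsq z hz)
    have h2 : ∑ g ∈ Icc (1 : ℤ) C0, capz C0 t 0 z g * gf0 q z g =
        ∑ g ∈ Icc (1 : ℤ) N, gf0 b' z g * sqK G N z (gf0 b z) g := by
      have h3 : ∑ g ∈ Icc (1 : ℤ) C0, capz C0 t 0 z g * gf0 q z g =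
          ∑ g ∈ Icc (1 : ℤ) N, capz C0 t 0 z g * gf0 q z g := by
        refine sum_subset (Icc_subset_Icc le_rfl (by exact_mod_cast hC0N)) fun g hg hg' => ?_
        rw [mem_Icc] at hg hg'
        have : capz C0 t 0 z g = 0 := by
          unfold capz
          refine sum_eq_zero fun m _ => ?_
          rw [ht.supp_g m g (by omega)]
          simp
        rw [this, zero_mul]
      rw [h3]
      have h4 : ∀ g ∈ Icc (1 : ℤ) N, capz C0 t 0 z g = gf0 b' z g - G.Kap 0 0 z N (gf0 b' z) g := by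
        intro g hg
        have := gf_eq ht le_rfl hb' z hz 0 g hg
        rw [gf_zero_eq] at this
        rw [this]
        simp [gf_zero_eq]
      have h5 : ∀ g ∈ Icc (1 : ℤ) N, sqK G N z (gf0 b z) g =
          gf0 q z g - G.Kap 0 0 z N (gf0 q z) g := by
        intro g hg
        rw [gf0_eq hq (hsq z hz) g hg _ (sqSrc_hasSum (hsb z hz) g)]
        ring
      rw [sum_congr rfl (fun g hg => by rw [h4 g hg]), adjoint]
      exact sum_congr rfl (fun g hg => by rw [h5 g hg])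
    rw [← h2]
    exact h1
  have h6 := hC' (close C0 t q) ?_ ?_ n hn
  · rw [abs_of_nonneg hcl0] at h6
    have hn' : (0 : ℝ) < n := by exact_mod_cast hn
    calc G.rho ^ n * m2 (closeP C0 t B n) ≤ G.rho ^ n * (HH G * n * close C0 t q n) :=
          mul_le_mul_of_nonneg_left hcl (by positivity)
      _ = HH G * n * (close C0 t q n * G.rho ^ n) := by ring
      _ ≤ HH G * n * (C' * Real.sqrt n) := mul_le_mul_of_nonneg_left h6 (by positivity)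
      _ = _ := by ring
  · intro z hz
    have h7 : ∀ m, 0 ≤ close C0 t q m := fun m =>
      sum_nonneg fun m _ => sum_nonneg fun g _ => mul_nonneg (ht.nonneg m g) (hq0 _ _)
    have h8 : ‖((‖z‖ : ℝ) : ℂ)‖ < G.rho := by
      rw [Complex.norm_real, norm_norm]
      exact hz
    have h9 := (hF ((‖z‖ : ℝ) : ℂ) h8).summable
    have h10 : (fun m : ℕ => ((close C0 t q m : ℝ) : ℂ) * ((‖z‖ : ℝ) : ℂ) ^ m) = fun m : ℕ =>
        (((close C0 t q m * ‖z‖ ^ m : ℝ)) : ℂ) := by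
      ext m
      push_cast
      ring
    rw [h10] at h9
    have h11 : Summable fun m : ℕ => close C0 t q m * ‖z‖ ^ m := by
      exact_mod_cast h9
    refine h11.congr fun m => ?_
    rw [norm_mul, norm_pow, Complex.norm_real, Real.norm_of_nonneg (h7 m)]
  · intro z hz
    rw [(hF z hz).tsum_eq]
    have h7 := sq_form_bound G N z hz.le (gf0 b' z) (gf0 b z)
    have h8 := hCt N b' hb' z hz
    have h9 := hCs N b hb z hz
    have h10 : 0 ≤ Real.sqrt ‖(G.rho : ℂ) - z‖ * ‖(G.rho : ℂ) - z‖ := by positivity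
    calc ‖∑ g ∈ Icc (1 : ℤ) N, gf0 b' z g * sqK G N z (gf0 b z) g‖ *
          (Real.sqrt ‖(G.rho : ℂ) - z‖ * ‖(G.rho : ℂ) - z‖)
        ≤ ((G.R : ℝ) + 2) ^ 2 * ((nsq N (mulg 1 (gf0 b' z)) + nsq N (mulg 1 (gf0 b z))) / 2) *
          (Real.sqrt ‖(G.rho : ℂ) - z‖ * ‖(G.rho : ℂ) - z‖) :=
          mul_le_mul_of_nonneg_right h7 h10
      _ = ((G.R : ℝ) + 2) ^ 2 * ((nsq N (mulg 1 (gf0 b' z)) *
          (Real.sqrt ‖(G.rho : ℂ) - z‖ * ‖(G.rho : ℂ) - z‖) + nsq N (mulg 1 (gf0 b z)) *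
          (Real.sqrt ‖(G.rho : ℂ) - z‖ * ‖(G.rho : ℂ) - z‖)) / 2) := by ring
      _ ≤ _ := by gcongr

end Pool.Agent.TPK
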