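import Mathlib
import Pool.Agent.TPK.StmtsA
import Pool.Agent.TPK.GE
import Pool.Agent.TPK.GFIN

/-!
# Module QRAT: normalised Laplace transforms and means, with explicit constants
-/

set_option autoImplicit false

open Finset Filter Topology

namespace Pool.Agent.TPK

open Pool.Agent.Gap Pool.Agent.FL Pool.Agent.EXW

namespace QRAT

theorem ratio_diff {x y x0 y0 c E : ℝ} (h1 : |x - c * x0| ≤ E) (h2 : |y - c * y0| ≤ E)
    (hx0 : 0 ≤ x0) (hxy : x0 ≤ y0) (hy0 : 0 < y0) (hy : 0 < y) :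
    |x / y - x0 / y0| ≤ 2 * E / y := by
  have hE : 0 ≤ E := (abs_nonneg _).trans h1
  have e : x / y - x0 / y0 = ((x - c * x0) * y0 - x0 * (y - c * y0)) / (y * y0) := by
    field_simp
    ring
  have h3 : |(x - c * x0) * y0 - x0 * (y - c * y0)| ≤ E * y0 + y0 * E := by
    refine (abs_sub _ _).trans ?_
    rw [abs_mul, abs_mul, abs_of_pos hy0, abs_of_nonneg hx0]
    gcongr
  rw [e, abs_div, abs_of_pos (mul_pos hy hy0), div_le_div_iff₀ (mul_pos hy hy0) hy]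
  calc |(x - c * x0) * y0 - x0 * (y - c * y0)| * y ≤ (E * y0 + y0 * E) * y := by gcongr
    _ = 2 * E * (y * y0) := by ring

theorem mean_bound (P : Polynomial ℝ) (hP : ∀ k, 0 ≤ P.coeff k) {eps : ℝ} (he : 0 ≤ eps)
    (hP1 : 0 < P.eval 1) :
    |P.eval (Real.exp (-eps)) / P.eval 1 - 1 + eps * (P.derivative.eval 1 / P.eval 1)| ≤
      eps ^ 2 / 2 * ((P.derivative.derivative.eval 1 + P.derivative.eval 1) / P.eval 1) := by
  have h := poly_bound P hP he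
  have e : P.eval (Real.exp (-eps)) / P.eval 1 - 1 + eps * (P.derivative.eval 1 / P.eval 1) =
      (P.eval (Real.exp (-eps)) - P.eval 1 + eps * P.derivative.eval 1) / P.eval 1 := by
    field_simp
  rw [e, abs_div, abs_of_pos hP1, ← mul_div_assoc]
  gcongr

theorem sm_bound {S P1 R q M a eps T : ℝ} (hR : 0 < R) (hq : 0 < q) (hP1 : 0 < P1)
    (hS : q * S ≤ M * R) (hM : 0 ≤ M) (ha : 0 < a) (hy : a⁻¹ ≤ R * q * P1) (heps : 0 ≤ eps)
    (hT : eps * R ≤ T) : eps ^ 2 / 2 * (S / P1) ≤ T ^ 2 * (M * a) := by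
  have h1 : 1 ≤ a * (R * q * P1) := by
    have := mul_le_mul_of_nonneg_left hy ha.le
    rwa [mul_inv_cancel₀ ha.ne'] at this
  have h2 : S / P1 ≤ M * R ^ 2 * a := by
    rw [div_le_iff₀ hP1]
    have h3 : q * S ≤ q * (M * R ^ 2 * a * P1) := by
      calc q * S ≤ M * R := hS
        _ ≤ M * R * (a * (R * q * P1)) := le_mul_of_one_le_right (by positivity) h1
        _ = q * (M * R ^ 2 * a * P1) := by ring
    exact le_of_mul_le_mul_left h3 hq
  have h4 : 0 ≤ eps * R := by positivity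
  have h5 : (eps * R) ^ 2 ≤ T ^ 2 := pow_le_pow_left₀ h4 hT 2
  calc eps ^ 2 / 2 * (S / P1) ≤ eps ^ 2 / 2 * (M * R ^ 2 * a) := by gcongr
    _ = (eps * R) ^ 2 * (M * a) / 2 := by ring
    _ ≤ T ^ 2 * (M * a) / 2 := by gcongr
    _ ≤ T ^ 2 * (M * a) := by
      have : 0 ≤ T ^ 2 * (M * a) := by positivity
      linarith

theorem eval_le (P : Polynomial ℝ) (hP : ∀ k, 0 ≤ P.coeff k) {x y : ℝ} (hx : 0 ≤ x)
    (hxy : x ≤ y) : P.eval x ≤ P.eval y := by
  rw [Polynomial.eval_eq_sum_range, Polynomial.eval_eq_sum_range]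
  refine Finset.sum_le_sum fun k _ => ?_
  exact mul_le_mul_of_nonneg_left (pow_le_pow_left₀ hx hxy k) (hP k)

theorem eval_nonneg (P : Polynomial ℝ) (hP : ∀ k, 0 ≤ P.coeff k) {x : ℝ} (hx : 0 ≤ x) :
    0 ≤ P.eval x := by
  rw [Polynomial.eval_eq_sum_range]
  exact Finset.sum_nonneg fun k _ => mul_nonneg (hP k) (pow_nonneg hx k)

theorem means {A A0 eps eps' m m0 q1 q2 F lam X Y U : ℝ} (hlam : 0 < lam)
    (h1 : |A - 1 + eps * m| ≤ q1) (h2 : |A0 - 1 + eps' * m0| ≤ q2) (h3 : |A - A0| ≤ F)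
    (hX : eps * m = lam * X) (hY : eps' * m0 = lam * Y) (hq : q1 + q2 ≤ U * lam ^ 2) :
    |X - Y| ≤ F / lam + U * lam := by
  have e : lam * (X - Y) = (A - 1 + eps * m) - (A0 - 1 + eps' * m0) - (A - A0) := by
    rw [mul_sub, ← hX, ← hY]
    ring
  have h4 : |lam * (X - Y)| ≤ q1 + q2 + F := by
    rw [e]
    refine (abs_sub _ _).trans ?_
    have := abs_sub (A - 1 + eps * m) (A0 - 1 + eps' * m0)
    linarith
  rw [abs_mul, abs_of_pos hlam] at h4
  have h5 : F / lam + U * lam = (F + U * lam ^ 2) / lam := by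
    field_simp
  rw [h5, le_div_iff₀ hlam]
  linarith

end QRAT

open QRAT in
theorem t_QRAT (hLT : QLT_Stmt) (hGM2 : QGM2_Stmt) (hPAR : QPAR_Stmt) (hM2 : Gap.M2_Stmt)
    (hBAL : Gap.BAL_Stmt) : QRAT_Stmt := by
  obtain ⟨k0, k1, hLT⟩ := hLT
  obtain ⟨m2, hGM2⟩ := hGM2
  obtain ⟨j0, j1, hPAR⟩ := hPAR
  obtain ⟨c1, hc1, hBAL⟩ := hBAL B0 B0_isSol
  obtain ⟨C2, hC2⟩ := hM2 stair 1 cap1 cap1 isCap_cap1_35 isCap_cap1_35 B0 B0_isSol
  have hrho4 : stair.rho = 1 / 4 := rfl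
  rw [hrho4] at hC2
  obtain ⟨p, hp⟩ := par_bounds
  obtain ⟨a1, ha1⟩ := LB.const hc1
  obtain ⟨a2, ha2⟩ := (PB.const (|C2| * c1⁻¹)).le
  -- the exponents
  set a : ℕ := k1 + j1 + a1 + 1 with ha
  set M : ℕ := k1 + (k1 + j1 + a1) + 2 with hM
  set b : ℕ := p + 2 * j1 + 1 with hb
  set u : ℕ := 2 * b + m2 + a with hu
  refine ⟨4 * M + k0 + j0 + 2, k1 + a + u + a2 + 2, ?_⟩
  intro D hD G hG C0 s t Vs Vt B hs ht hVs hVt hB W n n0 hsc hW
  obtain ⟨c, hc, -, hLT⟩ := hLT D hD G hG C0 s t Vs Vt B B0 hs ht hVs hVt hB B0_isSol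
  have hW2 := hsc.W2
  have hD1 : 1 ≤ D := by linarith
  have hD0 : 0 < D := by linarith
  have hW0 : 0 < W := by linarith
  have hDW1 : 1 ≤ D * W := by nlinarith
  have hDDW : D ≤ D * W := by nlinarith
  have hDpos : ∀ k : ℕ, 0 < D ^ k := fun k => pow_pos hD0 k
  have hinv : ∀ k : ℕ, 0 < (D ^ k)⁻¹ := fun k => inv_pos.2 (hDpos k)
  have hDge1 : ∀ k : ℕ, 1 ≤ D ^ k := fun k => one_le_pow₀ hD1
  have hDmono : ∀ {i j : ℕ}, i ≤ j → D ^ i ≤ D ^ j := fun h => pow_le_pow_right₀ hD1 h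
  have hDWmono : ∀ {i j : ℕ}, i ≤ j → (D * W) ^ i ≤ (D * W) ^ j := fun h =>
    pow_le_pow_right₀ hDW1 h
  have hDleDW : ∀ k : ℕ, D ^ k ≤ (D * W) ^ k := fun k => pow_le_pow_left₀ hD0.le hDDW k
  -- scales for the other modules
  have hsc1 : ∀ {k : ℕ}, k ≤ 4 * M + k0 + j0 + 2 → Sc0 k D W G n n0 := fun {k} hk =>
    ⟨hD, hW2, hG, (hDWmono hk).trans hsc.big, hsc.near⟩
  obtain ⟨⟨hn1, hn01, -, hWn0, hnn0, hn0n⟩, -, -⟩ := hPAR D W G n n0 0 0
    ⟨hsc1 (by omega), le_rfl, by rw [zero_mul]; exact hW0.le, by ring⟩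
  have hn : (0 : ℝ) < n := by exact_mod_cast hn1
  have hn0 : (0 : ℝ) < n0 := by exact_mod_cast hn01
  obtain ⟨hmb1, -, hhb1, -, hsg1, hsg2⟩ := hp D hD G hG
  have hhb0 : 0 < G.hbar := by linarith
  have hsg0 : 0 < G.sig2 := G.sig2_pos
  have hsn : 0 < Real.sqrt n := Real.sqrt_pos.2 hn
  have hsn0 : 0 < Real.sqrt n0 := Real.sqrt_pos.2 hn0
  -- abbreviations
  obtain ⟨R, hR⟩ : ∃ R, R = (n : ℝ) * Real.sqrt n := ⟨_, rfl⟩
  obtain ⟨R0, hR0⟩ : ∃ R, R = (n0 : ℝ) * Real.sqrt n0 := ⟨_, rfl⟩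
  obtain ⟨P, hP⟩ : ∃ P, P = closeP C0 t B n := ⟨_, rfl⟩
  obtain ⟨P0, hP0⟩ : ∃ P, P = closeP 1 cap1 B0 n0 := ⟨_, rfl⟩
  obtain ⟨r, hr⟩ : ∃ r, r = Real.sqrt ((n0 : ℝ) / n) := ⟨_, rfl⟩
  obtain ⟨q, hq⟩ : ∃ q, q = G.rho ^ n := ⟨_, rfl⟩
  obtain ⟨q0, hq0⟩ : ∃ q : ℝ, q = (1 / 4 : ℝ) ^ n0 := ⟨_, rfl⟩
  obtain ⟨E, hE⟩ : ∃ E, E = (D * W) ^ k1 / qn n + D ^ k1 / Real.sqrt W := ⟨_, rfl⟩
  have hRpos : 0 < R := by rw [hR]; positivity
  have hR0pos : 0 < R0 := by rw [hR0]; positivity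
  have hqpos : 0 < q := by rw [hq]; exact pow_pos G.rho_pos n
  have hq0pos : 0 < q0 := by rw [hq0]; positivity
  have hPc : ∀ k, 0 ≤ P.coeff k := fun k => by
    rw [hP]; exact closeP_coeff_nonneg hs.cap.nonneg ht.cap.nonneg hB n k
  have hP0c : ∀ k, 0 ≤ P0.coeff k := fun k => by
    rw [hP0]; exact Gap.closeP_coeff_nonneg isCap_cap1_35.nonneg isCap_cap1_35.nonneg B0_isSol n0 k
  -- the comparison
  have hcomp : ∀ eps eps' : ℝ, 0 ≤ eps' → eps' * R0 ≤ W → G.hbar * eps = 2 * G.sig2 * eps' →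
      |R * q * P.eval (Real.exp (-eps)) - c * r * (R0 * q0 * P0.eval (Real.exp (-eps')))|
        ≤ E := by
    intro eps eps' h1 h2 h3
    rw [hR0] at h2
    have := hLT W n n0 eps eps' ⟨hsc1 (by omega), h1, h2, h3⟩
    rw [← hP, ← hP0, ← hR, ← hR0, ← hr, ← hq, ← hq0, ← hE] at this
    exact this
  have hcomp0 := hcomp 0 0 le_rfl (by rw [zero_mul]; exact hW0.le) (by ring)
  rw [neg_zero, Real.exp_zero] at hcomp0
  -- the staircase polynomial
  have hn03 : 3 ≤ n0 := by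
    have h1 : D ^ 2 ≤ W := (hDmono (by omega)).trans hW
    have h2 : (2 : ℝ) ^ 2 ≤ D ^ 2 := pow_le_pow_left₀ (by norm_num) hD 2
    have h3 : (3 : ℝ) ≤ n0 := by nlinarith
    exact_mod_cast h3
  have hB1 := (hBAL n0 hn03).1
  rw [← hP0, ← hR0, ← hq0] at hB1
  have hP01 : 0 < P0.eval 1 := by
    by_contra hcon
    have : R0 * q0 * P0.eval 1 ≤ 0 :=
      mul_nonpos_of_nonneg_of_nonpos (by positivity) (not_lt.1 hcon)
    linarith
  -- the lower bound of `c r`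
  have hr1 : (D ^ j1)⁻¹ ≤ r := by
    rw [hr]
    refine Real.le_sqrt_of_sq_le ?_
    have h1 : (D ^ j1)⁻¹ ≤ (n0 : ℝ) / n := by
      rw [le_div_iff₀ hn, inv_mul_le_iff₀ (hDpos _)]
      exact hnn0
    refine le_trans ?_ h1
    have h2 : (D ^ j1)⁻¹ ≤ 1 := inv_le_one_of_one_le₀ (hDge1 _)
    have h3 := hinv j1
    nlinarith
  have hcr : (D ^ (k1 + j1 + a1))⁻¹ ≤ c * r * (R0 * q0 * P0.eval 1) := by
    have h1 : (D ^ (k1 + j1 + a1))⁻¹ = (D ^ k1)⁻¹ * (D ^ j1)⁻¹ * (D ^ a1)⁻¹ := by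
      rw [pow_add, pow_add, mul_inv, mul_inv]
    rw [h1]
    have h2 := ha1 D hD
    have h3 := hinv k1
    have h4 := hinv j1
    have h5 := hinv a1
    have h6 : 0 < c := h3.trans_le hc
    have h7 : 0 < r := h4.trans_le hr1
    exact mul_le_mul (mul_le_mul hc hr1 h4.le h6.le) (h2.trans hB1) h5.le (mul_pos h6 h7).le
  -- the error
  have hDWpos : ∀ k : ℕ, 0 < (D * W) ^ k := fun k => by positivity
  have hqn : (D * W) ^ M ≤ qn n := by
    unfold qn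
    refine Real.le_sqrt_of_sq_le (Real.le_sqrt_of_sq_le ?_)
    rw [← pow_mul, ← pow_mul]
    exact (hDWmono (by omega)).trans hsc.big
  have hqn0 : 0 < qn n := (hDWpos M).trans_le hqn
  have hsW : D ^ M ≤ Real.sqrt W := by
    refine Real.le_sqrt_of_sq_le ?_
    rw [← pow_mul]
    exact (hDmono (by omega)).trans hW
  have hsW0 : 0 < Real.sqrt W := (hDpos M).trans_le hsW
  have hE0 : 0 ≤ E := by rw [hE]; positivity
  have hM' : M = k1 + ((k1 + j1 + a1) + 2) := by omega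
  have h16 : (D ^ ((k1 + j1 + a1) + 2))⁻¹ ≤ (D ^ (k1 + j1 + a1))⁻¹ / 4 := by
    rw [pow_add, mul_inv, div_eq_mul_inv]
    have h1 : (D ^ 2)⁻¹ ≤ (4 : ℝ)⁻¹ := by
      refine inv_anti₀ (by norm_num) ?_
      nlinarith
    have := hinv (k1 + j1 + a1)
    gcongr
  have hEle : E ≤ (D ^ (k1 + j1 + a1))⁻¹ / 2 := by
    have h1 : (D * W) ^ k1 / qn n ≤ (D ^ (k1 + j1 + a1))⁻¹ / 4 := by
      refine le_trans ?_ h16
      rw [div_le_iff₀ hqn0]
      calc (D * W) ^ k1 = (D ^ ((k1 + j1 + a1) + 2))⁻¹ *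
            ((D * W) ^ k1 * D ^ ((k1 + j1 + a1) + 2)) := by
            have := (hDpos ((k1 + j1 + a1) + 2)).ne'
            field_simp
        _ ≤ (D ^ ((k1 + j1 + a1) + 2))⁻¹ * ((D * W) ^ k1 * (D * W) ^ ((k1 + j1 + a1) + 2)) := by
            have h2 := hinv ((k1 + j1 + a1) + 2)
            have h3 := hDWpos k1
            have h4 := hDleDW ((k1 + j1 + a1) + 2)
            gcongr
        _ = (D ^ ((k1 + j1 + a1) + 2))⁻¹ * (D * W) ^ M := by rw [← pow_add, ← hM']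
        _ ≤ (D ^ ((k1 + j1 + a1) + 2))⁻¹ * qn n := by
            have h2 := hinv ((k1 + j1 + a1) + 2)
            gcongr
    have h2 : D ^ k1 / Real.sqrt W ≤ (D ^ (k1 + j1 + a1))⁻¹ / 4 := by
      refine le_trans ?_ h16
      rw [div_le_iff₀ hsW0]
      calc D ^ k1 = (D ^ ((k1 + j1 + a1) + 2))⁻¹ *
            (D ^ k1 * D ^ ((k1 + j1 + a1) + 2)) := by
            have := (hDpos ((k1 + j1 + a1) + 2)).ne'
            field_simp
        _ = (D ^ ((k1 + j1 + a1) + 2))⁻¹ * D ^ M := by rw [← pow_add, ← hM']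
        _ ≤ (D ^ ((k1 + j1 + a1) + 2))⁻¹ * Real.sqrt W := by
            have h2 := hinv ((k1 + j1 + a1) + 2)
            gcongr
    rw [hE]
    linarith
  have hlow : (D ^ a)⁻¹ ≤ R * q * P.eval 1 := by
    have h1 := (abs_le.1 hcomp0).1
    have h2 : (D ^ a)⁻¹ ≤ (D ^ (k1 + j1 + a1))⁻¹ / 2 := by
      rw [ha, pow_succ, mul_inv, div_eq_mul_inv]
      have h3 := hinv (k1 + j1 + a1)
      have h4 : D⁻¹ ≤ (2 : ℝ)⁻¹ := inv_anti₀ (by norm_num) hD
      gcongr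
    linarith
  have hy : 0 < R * q * P.eval 1 := (hinv a).trans_le hlow
  have hP1 : 0 < P.eval 1 := by
    by_contra hcon
    have : R * q * P.eval 1 ≤ 0 :=
      mul_nonpos_of_nonneg_of_nonpos (by positivity) (not_lt.1 hcon)
    linarith
  -- the ratios
  have hratio : ∀ eps eps' : ℝ, 0 ≤ eps' → eps' * R0 ≤ W → G.hbar * eps = 2 * G.sig2 * eps' →
      |P.eval (Real.exp (-eps)) / P.eval 1 - P0.eval (Real.exp (-eps')) / P0.eval 1|
        ≤ D ^ (a + 1) * E := by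
    intro eps eps' h1 h2 h3
    have h4 := hcomp eps eps' h1 h2 h3
    have h5 : Real.exp (-eps') ≤ 1 := Real.exp_le_one_iff.2 (by linarith)
    have h6 : 0 ≤ R0 * q0 * P0.eval (Real.exp (-eps')) :=
      mul_nonneg (by positivity) (eval_nonneg P0 hP0c (Real.exp_pos _).le)
    have h7 : R0 * q0 * P0.eval (Real.exp (-eps')) ≤ R0 * q0 * P0.eval 1 :=
      mul_le_mul_of_nonneg_left (eval_le P0 hP0c (Real.exp_pos _).le h5) (by positivity)
    have h8 := ratio_diff h4 hcomp0 h6 h7 (by positivity) hy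
    rw [mul_div_mul_left _ _ (by positivity : R * q ≠ 0),
      mul_div_mul_left _ _ (by positivity : R0 * q0 ≠ 0)] at h8
    refine h8.trans ?_
    rw [div_le_iff₀ hy]
    have h9 : 1 ≤ D ^ a * (R * q * P.eval 1) := by
      have := mul_le_mul_of_nonneg_left hlow (hDpos a).le
      rwa [mul_inv_cancel₀ (hDpos a).ne'] at this
    calc 2 * E ≤ D * E := by gcongr
      _ ≤ D * E * (D ^ a * (R * q * P.eval 1)) := le_mul_of_one_le_right (by positivity) h9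
      _ = D ^ (a + 1) * E * (R * q * P.eval 1) := by rw [pow_succ]; ring
  have hEK : D ^ (a + 1) * E ≤ (D * W) ^ (k1 + a + u + a2 + 2) / qn n +
      D ^ (k1 + a + u + a2 + 2) / Real.sqrt W := by
    rw [hE, mul_add, ← mul_div_assoc, ← mul_div_assoc]
    have h1 : D ^ (a + 1) * (D * W) ^ k1 ≤ (D * W) ^ (k1 + a + u + a2 + 2) := by
      calc D ^ (a + 1) * (D * W) ^ k1 ≤ (D * W) ^ (a + 1) * (D * W) ^ k1 := by
            have := hDleDW (a + 1)
            have := hDWpos k1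
            gcongr
        _ = (D * W) ^ (a + 1 + k1) := (pow_add _ _ _).symm
        _ ≤ _ := hDWmono (by omega)
    have h2 : D ^ (a + 1) * D ^ k1 ≤ D ^ (k1 + a + u + a2 + 2) := by
      rw [← pow_add]
      exact hDmono (by omega)
    gcongr
  rw [← hP, ← hP0, ← hR, ← hR0, ← hq]
  refine ⟨(inv_anti₀ (hDpos _) (hDmono (by omega))).trans hlow, fun eps eps' h1 h2 h3 =>
    (hratio eps eps' h1 h2 h3).trans hEK, fun lam hlam hlam1 => ?_⟩
  -- the means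
  obtain ⟨eps', heps'⟩ : ∃ e, e = lam / R0 := ⟨_, rfl⟩
  obtain ⟨eps, heps⟩ : ∃ e, e = 2 * G.sig2 / (G.hbar * R0) * lam := ⟨_, rfl⟩
  have he0 : 0 ≤ eps := by rw [heps]; positivity
  have he0' : 0 ≤ eps' := by rw [heps']; positivity
  have hee : G.hbar * eps = 2 * G.sig2 * eps' := by
    rw [heps, heps']
    field_simp
  have heR0 : eps' * R0 = lam := by
    rw [heps']
    field_simp
  have h1 := hratio eps eps' he0' (by rw [heR0]; linarith) hee
  have h2 := mean_bound P hPc he0 hP1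
  have h3 := mean_bound P0 hP0c he0' hP01
  -- scaled parameters
  have hRR : R ≤ D ^ (2 * j1) * R0 := by
    have h4 : Real.sqrt n ≤ D ^ j1 * Real.sqrt n0 := by
      rw [Real.sqrt_le_left (by positivity), mul_pow, Real.sq_sqrt hn0.le]
      refine hnn0.trans ?_
      have h5 : D ^ j1 ≤ (D ^ j1) ^ 2 := by
        have := hDge1 j1
        nlinarith
      gcongr
    rw [hR, hR0]
    calc (n : ℝ) * Real.sqrt n ≤ (D ^ j1 * n0) * (D ^ j1 * Real.sqrt n0) := by gcongr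
      _ = D ^ (2 * j1) * ((n0 : ℝ) * Real.sqrt n0) := by rw [two_mul, pow_add]; ring
  have heR : eps * R ≤ D ^ b * lam := by
    have h4 : 2 * G.sig2 / (G.hbar * R0) ≤ 2 * D ^ p / R0 := by
      rw [div_le_div_iff₀ (by positivity) hR0pos]
      calc 2 * G.sig2 * R0 ≤ 2 * D ^ p * R0 := by gcongr
        _ ≤ 2 * D ^ p * (G.hbar * R0) := by
          have : R0 ≤ G.hbar * R0 := le_mul_of_one_le_left hR0pos.le hhb1
          have := hDpos p
          gcongr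
    calc eps * R = 2 * G.sig2 / (G.hbar * R0) * lam * R := by rw [heps]
      _ ≤ 2 * D ^ p / R0 * lam * (D ^ (2 * j1) * R0) := by
        have := hDpos p
        gcongr
      _ = 2 * (D ^ p * D ^ (2 * j1)) * lam := by field_simp
      _ ≤ D * (D ^ p * D ^ (2 * j1)) * lam := by
        have := hDpos p
        have := hDpos (2 * j1)
        gcongr
      _ = D ^ b * lam := by rw [hb, pow_succ, pow_add]; ring
  have hS : q * (P.derivative.derivative.eval 1 + P.derivative.eval 1) ≤ D ^ m2 * R := by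
    have := hGM2 D hD G hG C0 s t hs ht B hB n
    rw [← hP, ← hq, ← hR] at this
    exact this
  have hS0 : q0 * (P0.derivative.derivative.eval 1 + P0.derivative.eval 1) ≤ |C2| * R0 := by
    have := (hC2 n0).trans (mul_le_mul_of_nonneg_right (le_abs_self C2) (by positivity))
    rw [← hP0, ← hq0, ← hR0] at this
    exact this
  have h4 := h2.trans (sm_bound hRpos hqpos hP1 hS (hDpos m2).le (hDpos a) hlow he0 heR)
  have h5 := h3.trans (sm_bound (a := c1⁻¹) hR0pos hq0pos hP01 hS0 (abs_nonneg _)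
    (inv_pos.2 hc1) (by rw [inv_inv]; exact hB1) he0' heR0.le)
  have h6 := means (X := 2 * G.sig2 / (G.hbar * R0) * (P.derivative.eval 1 / P.eval 1))
    (Y := P0.derivative.eval 1 / (R0 * P0.eval 1)) (U := D ^ u + D ^ a2) hlam h4 h5 h1
    (by rw [heps]; ring) (by rw [heps']; field_simp) (by
      have h7 := ha2 D hD
      calc (D ^ b * lam) ^ 2 * (D ^ m2 * D ^ a) + lam ^ 2 * (|C2| * c1⁻¹)
          = D ^ u * lam ^ 2 + |C2| * c1⁻¹ * lam ^ 2 := by
            rw [hu, pow_add, pow_add, pow_mul', mul_pow]; ring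
        _ ≤ D ^ u * lam ^ 2 + D ^ a2 * lam ^ 2 := by gcongr
        _ = _ := by ring)
  refine h6.trans ?_
  have h7 : D ^ u + D ^ a2 ≤ D ^ (k1 + a + u + a2 + 2) := by
    calc D ^ u + D ^ a2 ≤ D ^ (u + a2) + D ^ (u + a2) :=
          add_le_add (hDmono (by omega)) (hDmono (by omega))
      _ = 2 * D ^ (u + a2) := by ring
      _ ≤ D * D ^ (u + a2) := by
        have := hDpos (u + a2)
        gcongr
      _ = D ^ (u + a2 + 1) := by rw [pow_succ]; ring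
      _ ≤ _ := hDmono (by omega)
  gcongr

end Pool.Agent.TPK
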