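import Pool.Agent.TPK.StmtsA

/-!
# Two points (MP_f6626d_co): the critical solution

Text of the statements `PSUM`, `GV2` of `EXW/Stmts2.lean`.
-/

set_option autoImplicit false

namespace Pool.Agent.TPK

open Finset Pool.Agent.Gap Pool.Agent.FL Pool.Agent.EXW Filter Topology

/-- PSUM : a critical solution is at least the partial sums of the arrays. -/
def PSUM_Stmt : Prop := ∀ (G : GapKernel) (C0 : ℕ) (s : ℕ → ℤ → ℝ)
  (B : ℕ → ℤ → Polynomial ℝ) (v : ℤ → ℝ), IsCap C0 s → IsSol G s B → (∀ g, 0 ≤ v g) →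
  (∀ g : ℤ, 1 ≤ g → v g = GE.sr G.rho C0 s g +
    ∑ g' ∈ Icc (g - G.R) (g + G.R), G.Kc g g' * v g') →
  ∀ (M : ℕ) (g : ℤ), 1 ≤ g → ∑ m ∈ range (M + 1), G.rho ^ m * (B m g).eval 1 ≤ v g

/-- GV2 : the critical solution, with a lower bound which depends on the comparison of the killing
probability with the solution (from QGRE, QGSUP; the text of `TPK.t_QGV` with another proof of the
lower bound). -/
def GV2_Stmt : Prop := ∃ K J : ℕ, ∀ D : ℝ, 2 ≤ D → ∀ G : GapKernel, Cls D (1 - D⁻¹) G →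
  ∀ (R' : ℕ) (s : ℤ → ℝ), CritSrc D (1 - D⁻¹) R' s →
    ∃ v : ℤ → ℝ, (∀ g, 0 ≤ v g) ∧
      (∀ g : ℤ, 1 ≤ g → v g = s g + ∑ g' ∈ Icc (g - G.R) (g + G.R), G.Kc g g' * v g') ∧
      ∀ P : ℝ, 1 ≤ P → (∀ a : ℤ, 1 ≤ a → G.kap a ≤ (D ^ J)⁻¹ + P * v a) →
        CritSol (D ^ K * P) G s v

end Pool.Agent.TPK
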